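import Mathlib

/-!
# Extremal square-free permutations of arbitrary length

An explicit family: for m at least 6 the word of length 2 ^ m - 11 given by `word m` is
square-free and every insertion of a new value at any slot creates a square.
The inner part of the word is a Toeplitz (paperfolding like) sequence, whose even-indexed
subsequence is a scaled copy of the same construction; the two ends are special.
-/

set_option autoImplicit false

namespace Pool.Agent.Helper40.SqFree

/-- the two halves of the factor of length `2 * l` starting at `i` are order-isomorphic -/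
def Sq (f : ℕ → ℚ) (i l : ℕ) : Prop :=
  ∀ a < l, ∀ b < l, (f (i + a) < f (i + b) ↔ f (i + l + a) < f (i + l + b))

/-- Toeplitz (paperfolding like) sequence -/
def T (i : ℕ) : ℚ :=
  if _h : i = 0 then 0
  else if i % 2 = 0 then T (i / 2) / 2
  else if i % 4 = 1 then -(2 - 1 / (i : ℚ))
  else 2 - 1 / (i : ℚ)
termination_by i
decreasing_by omega

theorem T_zero : T 0 = 0 := by rw [T]; simp

theorem T_even (k : ℕ) : T (2 * k) = T k / 2 := by
  rcases Nat.eq_zero_or_pos k with rfl | hk
  · simp [T_zero]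
  · rw [T]
    have h1 : ¬ (2 * k = 0) := by omega
    have h2 : (2 * k) % 2 = 0 := by omega
    have h3 : (2 * k) / 2 = k := by omega
    simp [h1, h2, h3]

theorem T_one (i : ℕ) (h : i % 4 = 1) : T i = -(2 - 1 / (i : ℚ)) := by
  rw [T]
  have h1 : ¬ (i = 0) := by omega
  have h2 : ¬ (i % 2 = 0) := by omega
  simp [h1, h2, h]

theorem T_three (i : ℕ) (h : i % 4 = 3) : T i = 2 - 1 / (i : ℚ) := by
  rw [T]
  have h1 : ¬ (i = 0) := by omega
  have h2 : ¬ (i % 2 = 0) := by omega
  have h3 : ¬ (i % 4 = 1) := by omega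
  simp [h1, h2, h3]

theorem aux_inv (i : ℕ) (h : 1 ≤ i) : 0 < 1 / (i : ℚ) ∧ 1 / (i : ℚ) ≤ 1 := by
  have : (1 : ℚ) ≤ (i : ℚ) := by exact_mod_cast h
  constructor
  · positivity
  · rw [div_le_one (by linarith)]; exact this

theorem T_bound (i : ℕ) : -2 < T i ∧ T i < 2 := by
  induction i using Nat.strong_induction_on with
  | _ i ih =>
    have h4 : i % 4 = 1 ∨ i % 4 = 3 ∨ i % 2 = 0 := by omega
    rcases h4 with h | h | h
    · rw [T_one i h]
      have := aux_inv i (by omega)
      constructor <;> linarith [this.1, this.2]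
    · rw [T_three i h]
      have := aux_inv i (by omega)
      constructor <;> linarith [this.1, this.2]
    · rcases Nat.eq_zero_or_pos i with rfl | hi
      · rw [T_zero]; norm_num
      · obtain ⟨k, rfl⟩ : ∃ k, i = 2 * k := ⟨i / 2, by omega⟩
        rw [T_even]
        have := ih k (by omega)
        constructor <;> linarith [this.1, this.2]

theorem T_even_bound (i : ℕ) (h : i % 2 = 0) : -1 < T i ∧ T i < 1 := by
  obtain ⟨k, rfl⟩ : ∃ k, i = 2 * k := ⟨i / 2, by omega⟩
  rw [T_even]
  have := T_bound k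
  constructor <;> linarith [this.1, this.2]

theorem T_one_le (i : ℕ) (h : i % 4 = 1) : T i ≤ -1 := by
  rw [T_one i h]
  have := aux_inv i (by omega)
  linarith [this.1, this.2]

theorem T_three_ge (i : ℕ) (h : i % 4 = 3) : 1 ≤ T i := by
  rw [T_three i h]
  have := aux_inv i (by omega)
  linarith [this.1, this.2]

theorem T_abs_odd (i : ℕ) (h : i % 2 = 1) : |T i| = 2 - 1 / (i : ℚ) := by
  have := aux_inv i (by omega)
  rcases (show i % 4 = 1 ∨ i % 4 = 3 by omega) with h | h
  · rw [T_one i h, abs_neg, abs_of_pos (by linarith [this.1, this.2])]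
  · rw [T_three i h, abs_of_pos (by linarith [this.1, this.2])]

theorem T_abs_even_lt (i : ℕ) (h : i % 2 = 0) : |T i| < 1 := by
  rw [abs_lt]; exact T_even_bound i h

theorem T_abs_pos (i : ℕ) (h : 0 < i) : 0 < |T i| := by
  induction i using Nat.strong_induction_on with
  | _ i ih =>
    rcases Nat.mod_two_eq_zero_or_one i with h2 | h2
    · obtain ⟨k, rfl⟩ : ∃ k, i = 2 * k := ⟨i / 2, by omega⟩
      rw [T_even, abs_div]
      have := ih k (by omega) (by omega)
      positivity
    · rw [T_abs_odd i h2]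
      have := aux_inv i (by omega)
      linarith [this.1, this.2]

theorem T_abs_inj (i j : ℕ) (hi : 0 < i) (hj : 0 < j) (h : |T i| = |T j|) : i = j := by
  induction i using Nat.strong_induction_on generalizing j with
  | _ i ih =>
    rcases Nat.mod_two_eq_zero_or_one i with h2 | h2 <;>
    rcases Nat.mod_two_eq_zero_or_one j with h3 | h3
    · obtain ⟨k, rfl⟩ : ∃ k, i = 2 * k := ⟨i / 2, by omega⟩
      obtain ⟨l, rfl⟩ : ∃ l, j = 2 * l := ⟨j / 2, by omega⟩
      rw [T_even, T_even, abs_div, abs_div] at h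
      have h' : |T k| = |T l| := by
        have h20 : |(2:ℚ)| ≠ 0 := by norm_num
        exact (div_left_inj' h20).1 h
      have := ih k (by omega) l (by omega) (by omega) h'
      omega
    · have a1 := T_abs_even_lt i h2
      have a2 := T_abs_odd j h3
      have := aux_inv j hj
      linarith [this.1, this.2]
    · have a1 := T_abs_even_lt j h3
      have a2 := T_abs_odd i h2
      have := aux_inv i hi
      linarith [this.1, this.2]
    · rw [T_abs_odd i h2, T_abs_odd j h3] at h
      have h' : (1 : ℚ) / i = 1 / j := by linarith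
      have hi' : (i : ℚ) ≠ 0 := by positivity
      have hj' : (j : ℚ) ≠ 0 := by positivity
      field_simp at h'
      exact_mod_cast h'.symm


/-- the symmetrised sequence on `0, …, 2 ^ m` -/
def U (m i : ℕ) : ℚ :=
  if 2 * i < 2 ^ m then T i else if 2 * i = 2 ^ m then 0 else -T (2 ^ m - i)

theorem U_succ (m i : ℕ) : U (m + 1) (2 * i) = U m i / 2 := by
  have hp : 2 ^ (m + 1) = 2 * 2 ^ m := by ring
  unfold U
  rw [hp]
  have e : 2 * 2 ^ m - 2 * i = 2 * (2 ^ m - i) := by omega
  by_cases h1 : 2 * i < 2 ^ m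
  · rw [if_pos (by omega), if_pos h1, T_even]
  · by_cases h2 : 2 * i = 2 ^ m
    · rw [if_neg (by omega), if_pos (by omega), if_neg h1, if_pos h2]; simp
    · rw [if_neg (by omega), if_neg (by omega), if_neg h1, if_neg h2, e, T_even]
      ring

theorem pow_mod4 (m : ℕ) (hm : 2 ≤ m) : 2 ^ m % 4 = 0 := by
  obtain ⟨k, rfl⟩ : ∃ k, m = 2 + k := ⟨m - 2, by omega⟩
  rw [pow_add]; omega

theorem U_one_le (m i : ℕ) (hm : 2 ≤ m) (hi : i ≤ 2 ^ m) (h : i % 4 = 1) : U m i ≤ -1 := by
  have h4 := pow_mod4 m hm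
  unfold U
  split_ifs with h1 h2
  · exact T_one_le i h
  · omega
  · have := T_three_ge (2 ^ m - i) (by omega)
    linarith

theorem U_three_ge (m i : ℕ) (hm : 2 ≤ m) (hi : i ≤ 2 ^ m) (h : i % 4 = 3) : 1 ≤ U m i := by
  have h4 := pow_mod4 m hm
  unfold U
  split_ifs with h1 h2
  · exact T_three_ge i h
  · omega
  · have := T_one_le (2 ^ m - i) (by omega)
    linarith

theorem U_even_bound (m i : ℕ) (hm : 2 ≤ m) (hi : i ≤ 2 ^ m) (h : i % 2 = 0) :
    -1 < U m i ∧ U m i < 1 := by
  have h4 := pow_mod4 m hm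
  unfold U
  split_ifs with h1 h2
  · exact T_even_bound i h
  · norm_num
  · have := T_even_bound (2 ^ m - i) (by omega)
    constructor <;> linarith [this.1, this.2]

/-- the direction predicate: `j → j + 1` goes up iff `j ≡ 1, 2 (mod 4)` -/
def D (j : ℕ) : Prop := j % 4 = 1 ∨ j % 4 = 2

theorem U_dir (m j : ℕ) (hm : 2 ≤ m) (hj : j + 1 ≤ 2 ^ m) : U m j < U m (j + 1) ↔ D j := by
  unfold D
  have h4 : j % 4 = 0 ∨ j % 4 = 1 ∨ j % 4 = 2 ∨ j % 4 = 3 := by omega
  rcases h4 with h | h | h | h
  · have a := U_even_bound m j hm (by omega) (by omega)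
    have b := U_one_le m (j + 1) hm hj (by omega)
    constructor
    · intro h'; linarith [a.1]
    · intro h'; omega
  · have a := U_one_le m j hm (by omega) h
    have b := U_even_bound m (j + 1) hm hj (by omega)
    constructor
    · intro _; left; exact h
    · intro _; linarith [b.1]
  · have a := U_even_bound m j hm (by omega) (by omega)
    have b := U_three_ge m (j + 1) hm hj (by omega)
    constructor
    · intro _; right; exact h
    · intro _; linarith [a.2]
  · have a := U_three_ge m j hm (by omega) h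
    have b := U_even_bound m (j + 1) hm hj (by omega)
    constructor
    · intro h'; linarith [b.2]
    · intro h'; omega

/-- a square in a sequence with the up-up-down-down shape has half-length divisible by 4 -/
theorem sq_mod4 (f : ℕ → ℚ) (i l : ℕ) (hl : 2 ≤ l)
    (hd : ∀ j, i ≤ j → j + 1 < i + 2 * l → (f j < f (j + 1) ↔ D j)) (h : Sq f i l) :
    l % 4 = 0 := by
  have key : ∀ a, a + 1 < l → (D (i + a) ↔ D (i + l + a)) := by
    intro a ha
    have h1 := h a (by omega) (a + 1) (by omega)
    rw [← hd (i + a) (by omega) (by omega), ← hd (i + l + a) (by omega) (by omega)]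
    exact h1
  have k0 := key 0 (by omega)
  unfold D at k0
  by_cases h2 : l = 2
  · subst h2; omega
  · have k1 := key 1 (by omega)
    unfold D at k1
    omega

theorem sq_half (f : ℕ → ℚ) (i l : ℕ) (hl : l % 2 = 0) (h : Sq f i l) :
    Sq (fun k => f (2 * k)) ((i + 1) / 2) (l / 2) := by
  intro a ha b hb
  obtain ⟨l', rfl⟩ : ∃ l', l = 2 * l' := ⟨l / 2, by omega⟩
  have hh : 2 * l' / 2 = l' := by omega
  rw [hh] at ha hb ⊢
  rcases Nat.mod_two_eq_zero_or_one i with h2 | h2
  · obtain ⟨i', rfl⟩ : ∃ i', i = 2 * i' := ⟨i / 2, by omega⟩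
    have e : (2 * i' + 1) / 2 = i' := by omega
    rw [e]
    have := h (2 * a) (by omega) (2 * b) (by omega)
    have e1 : 2 * i' + 2 * a = 2 * (i' + a) := by ring
    have e2 : 2 * i' + 2 * b = 2 * (i' + b) := by ring
    have e3 : 2 * i' + 2 * l' + 2 * a = 2 * (i' + l' + a) := by ring
    have e4 : 2 * i' + 2 * l' + 2 * b = 2 * (i' + l' + b) := by ring
    rw [e1, e2, e3, e4] at this
    exact this
  · obtain ⟨i', rfl⟩ : ∃ i', i = 2 * i' + 1 := ⟨i / 2, by omega⟩
    have e : (2 * i' + 1 + 1) / 2 = i' + 1 := by omega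
    rw [e]
    have := h (2 * a + 1) (by omega) (2 * b + 1) (by omega)
    have e1 : 2 * i' + 1 + (2 * a + 1) = 2 * (i' + 1 + a) := by ring
    have e2 : 2 * i' + 1 + (2 * b + 1) = 2 * (i' + 1 + b) := by ring
    have e3 : 2 * i' + 1 + 2 * l' + (2 * a + 1) = 2 * (i' + 1 + l' + a) := by ring
    have e4 : 2 * i' + 1 + 2 * l' + (2 * b + 1) = 2 * (i' + 1 + l' + b) := by ring
    rw [e1, e2, e3, e4] at this
    exact this

theorem U_sqfree (m : ℕ) : ∀ i l, 2 ≤ l → i + 2 * l ≤ 2 ^ m + 1 → ¬ Sq (U m) i l := by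
  induction m with
  | zero => intro i l hl h; simp at h; omega
  | succ m ih =>
    intro i l hl h hsq
    have hm : 2 ≤ m + 1 := by
      by_contra hc
      have : m = 0 := by omega
      subst this
      norm_num at h
      omega
    have h4 : l % 4 = 0 :=
      sq_mod4 (U (m + 1)) i l hl (fun j _ hj2 => U_dir (m + 1) j hm (by omega)) hsq
    have hs := sq_half (U (m + 1)) i l (by omega) hsq
    have hp : 2 ^ (m + 1) = 2 * 2 ^ m := by ring
    apply ih ((i + 1) / 2) (l / 2) (by omega) (by omega)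
    intro a ha b hb
    have := hs a ha b hb
    simp only [U_succ] at this
    constructor
    · intro h1
      have := this.1 (by linarith)
      linarith
    · intro h1
      have := this.2 (by linarith)
      linarith

/-- values near the left end -/
def tab : ℕ → ℚ
  | 6 => -99
  | 7 => -92
  | 8 => -93
  | 9 => -97
  | 10 => -96
  | 11 => -94
  | 12 => -95
  | 13 => -98
  | 14 => 52
  | 15 => 53
  | 16 => 51
  | _ => 0

def V (i : ℕ) : ℚ := if i ≤ 16 then tab i else T i

def W (m i : ℕ) : ℚ :=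
  if 2 * i < 2 ^ m then V i else if 2 * i = 2 ^ m then 0 else -V (2 ^ m - i)

theorem pow_ge (m : ℕ) (hm : 6 ≤ m) : 64 ≤ 2 ^ m := by
  calc 64 = 2 ^ 6 := by norm_num
    _ ≤ 2 ^ m := Nat.pow_le_pow_right (by norm_num) hm

theorem W_small (m i : ℕ) (hm : 6 ≤ m) (hi : i ≤ 31) : W m i = V i := by
  have := pow_ge m hm
  unfold W
  rw [if_pos (by omega)]

theorem W_refl (m i : ℕ) (hi : i ≤ 2 ^ m) : W m (2 ^ m - i) = - W m i := by
  unfold W
  by_cases h1 : 2 * i < 2 ^ m
  · rw [if_neg (by omega), if_neg (by omega), if_pos h1]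
    congr 2; omega
  · by_cases h2 : 2 * i = 2 ^ m
    · rw [if_neg (by omega), if_pos (by omega), if_neg h1, if_pos h2]; simp
    · rw [if_pos (by omega), if_neg h1, if_neg h2]; simp

theorem W_eq_U (m i : ℕ) (h1 : 17 ≤ i) (h2 : i + 17 ≤ 2 ^ m) : W m i = U m i := by
  unfold W U V
  split_ifs <;> first | rfl | omega

theorem V6 : V 6 = -99 := by simp [V, tab]
theorem V7 : V 7 = -92 := by simp [V, tab]
theorem V8 : V 8 = -93 := by simp [V, tab]
theorem V9 : V 9 = -97 := by simp [V, tab]
theorem V10 : V 10 = -96 := by simp [V, tab]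
theorem V11 : V 11 = -94 := by simp [V, tab]
theorem V12 : V 12 = -95 := by simp [V, tab]
theorem V13 : V 13 = -98 := by simp [V, tab]
theorem V14 : V 14 = 52 := by simp [V, tab]
theorem V15 : V 15 = 53 := by simp [V, tab]
theorem V16 : V 16 = 51 := by simp [V, tab]
theorem V17 : V 17 = -33/17 := by rw [V, if_neg (by norm_num), T_one 17 (by norm_num)]; norm_num
theorem V18 : V 18 = -17/18 := by
  rw [V, if_neg (by norm_num), show 18 = 2 * 9 by norm_num, T_even, T_one 9 (by norm_num)]; norm_num
theorem V19 : V 19 = 37/19 := by rw [V, if_neg (by norm_num), T_three 19 (by norm_num)]; norm_num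
theorem V20 : V 20 = -9/20 := by
  rw [V, if_neg (by norm_num), show 20 = 2 * (2 * 5) by norm_num, T_even, T_even,
    T_one 5 (by norm_num)]; norm_num
theorem V21 : V 21 = -41/21 := by rw [V, if_neg (by norm_num), T_one 21 (by norm_num)]; norm_num
theorem V22 : V 22 = 21/22 := by
  rw [V, if_neg (by norm_num), show 22 = 2 * 11 by norm_num, T_even, T_three 11 (by norm_num)]
  norm_num
theorem V23 : V 23 = 45/23 := by rw [V, if_neg (by norm_num), T_three 23 (by norm_num)]; norm_num
theorem V24 : V 24 = 5/24 := by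
  rw [V, if_neg (by norm_num), show 24 = 2 * (2 * (2 * 3)) by norm_num, T_even, T_even, T_even,
    T_three 3 (by norm_num)]; norm_num
theorem V25 : V 25 = -49/25 := by rw [V, if_neg (by norm_num), T_one 25 (by norm_num)]; norm_num
theorem V26 : V 26 = -25/26 := by
  rw [V, if_neg (by norm_num), show 26 = 2 * 13 by norm_num, T_even, T_one 13 (by norm_num)]
  norm_num
theorem V27 : V 27 = 53/27 := by rw [V, if_neg (by norm_num), T_three 27 (by norm_num)]; norm_num
theorem V28 : V 28 = 13/28 := by
  rw [V, if_neg (by norm_num), show 28 = 2 * (2 * 7) by norm_num, T_even, T_even,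
    T_three 7 (by norm_num)]; norm_num
theorem V29 : V 29 = -57/29 := by rw [V, if_neg (by norm_num), T_one 29 (by norm_num)]; norm_num
theorem V30 : V 30 = 29/30 := by
  rw [V, if_neg (by norm_num), show 30 = 2 * 15 by norm_num, T_even, T_three 15 (by norm_num)]
  norm_num

theorem W_dir_small (m j : ℕ) (hm : 6 ≤ m) (h1 : 6 ≤ j) (h2 : j ≤ 16) :
    W m j < W m (j + 1) ↔ D j := by
  rw [W_small m j hm (by omega), W_small m (j + 1) hm (by omega)]
  unfold D
  interval_cases j <;> norm_num [V6, V7, V8, V9, V10, V11, V12, V13, V14, V15, V16, V17]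

theorem W_dir (m j : ℕ) (hm : 6 ≤ m) (h1 : 6 ≤ j) (h2 : j + 7 ≤ 2 ^ m) :
    W m j < W m (j + 1) ↔ D j := by
  have hp := pow_ge m hm
  have h4 := pow_mod4 m (by omega)
  by_cases ha : j ≤ 16
  · exact W_dir_small m j hm h1 ha
  · by_cases hb : j + 1 + 17 ≤ 2 ^ m
    · rw [W_eq_U m j (by omega) (by omega), W_eq_U m (j + 1) (by omega) (by omega)]
      exact U_dir m j (by omega) (by omega)
    · have e1 : j + 1 = 2 ^ m - (2 ^ m - (j + 1)) := by omega
      have e2 : j = 2 ^ m - (2 ^ m - (j + 1) + 1) := by omega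
      have r1 := W_refl m (2 ^ m - (j + 1)) (by omega)
      have r2 := W_refl m (2 ^ m - (j + 1) + 1) (by omega)
      rw [← e1] at r1
      rw [← e2] at r2
      rw [r1, r2, neg_lt_neg_iff, W_dir_small m _ hm (by omega) (by omega)]
      unfold D
      omega

theorem W_peak (m k : ℕ) (hm : 6 ≤ m) (h1 : 23 ≤ k) (h2 : k + 6 ≤ 2 ^ m) (h3 : k % 4 = 3) :
    W m (k - 3) < W m k := by
  have hp := pow_ge m hm
  have h4 := pow_mod4 m (by omega)
  by_cases hb : k + 17 ≤ 2 ^ m
  · rw [W_eq_U m k (by omega) (by omega), W_eq_U m (k - 3) (by omega) (by omega)]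
    have a := U_three_ge m k (by omega) (by omega) h3
    have b := U_even_bound m (k - 3) (by omega) (by omega) (by omega)
    linarith [b.2]
  · have e1 : k = 2 ^ m - (2 ^ m - k) := by omega
    have e2 : k - 3 = 2 ^ m - (2 ^ m - k + 3) := by omega
    have r1 := W_refl m (2 ^ m - k) (by omega)
    have r2 := W_refl m (2 ^ m - k + 3) (by omega)
    rw [← e1] at r1
    rw [← e2] at r2
    rw [r1, r2, neg_lt_neg_iff]
    have hc : 2 ^ m - k = 9 ∨ 2 ^ m - k = 13 := by omega
    rcases hc with hc | hc <;> rw [hc, W_small m _ hm (by omega), W_small m _ hm (by omega)]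
    · norm_num [V9, V12]
    · norm_num [V13, V16]

theorem W_sqfree_left (m i l : ℕ) (hm : 6 ≤ m) (hl : 2 ≤ l) (h1 : 6 ≤ i) (h2 : i ≤ 16)
    (h3 : i + 2 * l + 5 ≤ 2 ^ m) : ¬ Sq (W m) i l := by
  intro h
  have hp := pow_ge m hm
  have h4 : l % 4 = 0 :=
    sq_mod4 (W m) i l hl (fun j _ hj2 => W_dir m j hm (by omega) (by omega)) h
  by_cases h5 : 20 ≤ i + l
  · have := h (19 - i) (by omega) (16 - i) (by omega)
    have e1 : i + (19 - i) = 19 := by omega
    have e2 : i + (16 - i) = 16 := by omega
    have e3 : i + l + (19 - i) = 19 + l := by omega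
    have e4 : i + l + (16 - i) = 19 + l - 3 := by omega
    rw [e1, e2, e3, e4, W_small m _ hm (by omega), W_small m _ hm (by omega)] at this
    have h6 : V 19 < V 16 := by norm_num [V19, V16]
    have h7 := this.1 h6
    have h8 := W_peak m (19 + l) hm (by omega) (by omega) (by omega)
    linarith
  · have hs : ∀ a < l, ∀ b < l, (V (i + a) < V (i + b) ↔ V (i + l + a) < V (i + l + b)) := by
      intro a ha b hb
      have := h a ha b hb
      rw [W_small m _ hm (by omega), W_small m _ hm (by omega), W_small m _ hm (by omega),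
        W_small m _ hm (by omega)] at this
      exact this
    have hl' : l = 4 ∨ l = 8 ∨ l = 12 := by omega
    rcases hl' with rfl | rfl | rfl
    · interval_cases i
      · have := hs 0 (by norm_num) 3 (by norm_num)
        norm_num [V6, V7, V8, V9, V10, V11, V12, V13, V14, V15, V16, V17, V18, V19, V20, V21, V22, V23, V24, V25, V26, V27, V28, V29, V30] at this
      · have := hs 3 (by norm_num) 0 (by norm_num)
        norm_num [V6, V7, V8, V9, V10, V11, V12, V13, V14, V15, V16, V17, V18, V19, V20, V21, V22, V23, V24, V25, V26, V27, V28, V29, V30] at this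
      · have := hs 2 (by norm_num) 0 (by norm_num)
        norm_num [V6, V7, V8, V9, V10, V11, V12, V13, V14, V15, V16, V17, V18, V19, V20, V21, V22, V23, V24, V25, V26, V27, V28, V29, V30] at this
      · have := hs 1 (by norm_num) 3 (by norm_num)
        norm_num [V6, V7, V8, V9, V10, V11, V12, V13, V14, V15, V16, V17, V18, V19, V20, V21, V22, V23, V24, V25, V26, V27, V28, V29, V30] at this
      · have := hs 0 (by norm_num) 2 (by norm_num)
        norm_num [V6, V7, V8, V9, V10, V11, V12, V13, V14, V15, V16, V17, V18, V19, V20, V21, V22, V23, V24, V25, V26, V27, V28, V29, V30] at this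
      · have := hs 0 (by norm_num) 3 (by norm_num)
        norm_num [V6, V7, V8, V9, V10, V11, V12, V13, V14, V15, V16, V17, V18, V19, V20, V21, V22, V23, V24, V25, V26, V27, V28, V29, V30] at this
      · have := hs 0 (by norm_num) 2 (by norm_num)
        norm_num [V6, V7, V8, V9, V10, V11, V12, V13, V14, V15, V16, V17, V18, V19, V20, V21, V22, V23, V24, V25, V26, V27, V28, V29, V30] at this
      · have := hs 3 (by norm_num) 1 (by norm_num)
        norm_num [V6, V7, V8, V9, V10, V11, V12, V13, V14, V15, V16, V17, V18, V19, V20, V21, V22, V23, V24, V25, V26, V27, V28, V29, V30] at this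
      · have := hs 2 (by norm_num) 0 (by norm_num)
        norm_num [V6, V7, V8, V9, V10, V11, V12, V13, V14, V15, V16, V17, V18, V19, V20, V21, V22, V23, V24, V25, V26, V27, V28, V29, V30] at this
      · have := hs 3 (by norm_num) 1 (by norm_num)
        norm_num [V6, V7, V8, V9, V10, V11, V12, V13, V14, V15, V16, V17, V18, V19, V20, V21, V22, V23, V24, V25, V26, V27, V28, V29, V30] at this
      · omega
    · interval_cases i
      · have := hs 0 (by norm_num) 2 (by norm_num)
        norm_num [V6, V7, V8, V9, V10, V11, V12, V13, V14, V15, V16, V17, V18, V19, V20, V21, V22, V23, V24, V25, V26, V27, V28, V29, V30] at this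
      · have := hs 0 (by norm_num) 7 (by norm_num)
        norm_num [V6, V7, V8, V9, V10, V11, V12, V13, V14, V15, V16, V17, V18, V19, V20, V21, V22, V23, V24, V25, V26, V27, V28, V29, V30] at this
      · have := hs 0 (by norm_num) 6 (by norm_num)
        norm_num [V6, V7, V8, V9, V10, V11, V12, V13, V14, V15, V16, V17, V18, V19, V20, V21, V22, V23, V24, V25, V26, V27, V28, V29, V30] at this
      · have := hs 2 (by norm_num) 5 (by norm_num)
        norm_num [V6, V7, V8, V9, V10, V11, V12, V13, V14, V15, V16, V17, V18, V19, V20, V21, V22, V23, V24, V25, V26, V27, V28, V29, V30] at this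
      · have := hs 0 (by norm_num) 7 (by norm_num)
        norm_num [V6, V7, V8, V9, V10, V11, V12, V13, V14, V15, V16, V17, V18, V19, V20, V21, V22, V23, V24, V25, V26, V27, V28, V29, V30] at this
      · have := hs 0 (by norm_num) 3 (by norm_num)
        norm_num [V6, V7, V8, V9, V10, V11, V12, V13, V14, V15, V16, V17, V18, V19, V20, V21, V22, V23, V24, V25, V26, V27, V28, V29, V30] at this
      all_goals omega
    · interval_cases i
      · have := hs 0 (by norm_num) 3 (by norm_num)
        norm_num [V6, V7, V8, V9, V10, V11, V12, V13, V14, V15, V16, V17, V18, V19, V20, V21, V22, V23, V24, V25, V26, V27, V28, V29, V30] at this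
      · have := hs 0 (by norm_num) 7 (by norm_num)
        norm_num [V6, V7, V8, V9, V10, V11, V12, V13, V14, V15, V16, V17, V18, V19, V20, V21, V22, V23, V24, V25, V26, V27, V28, V29, V30] at this
      all_goals omega

/-- reversal of an antisymmetric pair of sequences turns squares into squares -/
theorem sq_refl (f g : ℕ → ℚ) (K i l : ℕ) (hil : i + 2 * l ≤ K + 1)
    (hfg : ∀ k ≤ K, g k = - f (K - k)) (h : Sq f i l) : Sq g (K + 1 - i - 2 * l) l := by
  intro a ha b hb
  have g1 : ∀ a < l, g (K + 1 - i - 2 * l + a) = - f (i + l + (l - 1 - a)) := by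
    intro a ha
    rw [hfg _ (by omega)]
    congr 2
    omega
  have g2 : ∀ a < l, g (K + 1 - i - 2 * l + l + a) = - f (i + (l - 1 - a)) := by
    intro a ha
    rw [hfg _ (by omega)]
    congr 2
    omega
  rw [g1 a ha, g1 b hb, g2 a ha, g2 b hb, neg_lt_neg_iff, neg_lt_neg_iff]
  exact (h (l - 1 - b) (by omega) (l - 1 - a) (by omega)).symm

theorem W_sqfree (m i l : ℕ) (hm : 6 ≤ m) (hl : 2 ≤ l) (h1 : 6 ≤ i)
    (h3 : i + 2 * l + 5 ≤ 2 ^ m) : ¬ Sq (W m) i l := by
  intro h
  have hp := pow_ge m hm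
  by_cases ha : i ≤ 16
  · exact W_sqfree_left m i l hm hl h1 ha h3 h
  · by_cases hb : i + 2 * l + 16 ≤ 2 ^ m
    · apply U_sqfree m i l hl (by omega)
      intro a ha b hb
      have := h a ha b hb
      rw [W_eq_U m _ (by omega) (by omega), W_eq_U m _ (by omega) (by omega),
        W_eq_U m _ (by omega) (by omega), W_eq_U m _ (by omega) (by omega)] at this
      exact this
    · have := sq_refl (W m) (W m) (2 ^ m) i l (by omega)
        (fun k hk => by rw [W_refl m k hk, neg_neg]) h
      exact W_sqfree_left m _ l hm hl (by omega) (by omega) (by omega) this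

theorem V_big (i : ℕ) (h1 : 6 ≤ i) (h2 : i ≤ 16) : 51 ≤ |V i| := by
  interval_cases i <;> norm_num [V6, V7, V8, V9, V10, V11, V12, V13, V14, V15, V16, abs_of_pos]

theorem V_lt (i : ℕ) (h1 : 17 ≤ i) : |V i| < 2 := by
  rw [V, if_neg (by omega), abs_lt]; exact T_bound i

theorem V_abs_pos (i : ℕ) (h1 : 6 ≤ i) : 0 < |V i| := by
  by_cases h : i ≤ 16
  · linarith [V_big i h1 h]
  · rw [V, if_neg (by omega)]; exact T_abs_pos i (by omega)

theorem V_abs_inj (i j : ℕ) (h1 : 6 ≤ i) (h2 : 6 ≤ j) (h : |V i| = |V j|) : i = j := by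
  by_cases hi : i ≤ 16 <;> by_cases hj : j ≤ 16
  · interval_cases i <;> interval_cases j <;>
      first
      | rfl
      | (exfalso
         norm_num [V6, V7, V8, V9, V10, V11, V12, V13, V14, V15, V16] at h)
  · linarith [V_big i h1 hi, V_lt j (by omega)]
  · linarith [V_big j h2 hj, V_lt i (by omega)]
  · rw [V, V, if_neg (by omega), if_neg (by omega)] at h
    exact T_abs_inj i j (by omega) (by omega) h

theorem W_inj (m i j : ℕ) (hi : 6 ≤ i) (hi' : i + 6 ≤ 2 ^ m) (hj : 6 ≤ j)
    (hj' : j + 6 ≤ 2 ^ m) (h : W m i = W m j) : i = j := by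
  unfold W at h
  split_ifs at h with a b c d e f g
  · exact V_abs_inj i j hi hj (by rw [h])
  · exfalso
    have := V_abs_pos i hi
    rw [h] at this; simp at this
  · exfalso
    have h' : |V i| = |V (2 ^ m - j)| := by rw [h, abs_neg]
    have := V_abs_inj i (2 ^ m - j) hi (by omega) h'
    rw [← this] at h
    have h0 : V i = 0 := by linarith
    have := V_abs_pos i hi
    rw [h0] at this; simp at this
  · exfalso
    have := V_abs_pos j hj
    rw [← h] at this; simp at this
  · omega
  · exfalso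
    have := V_abs_pos (2 ^ m - j) (by omega)
    rw [show V (2 ^ m - j) = 0 by linarith] at this; simp at this
  · exfalso
    have h' : |V j| = |V (2 ^ m - i)| := by rw [← h, abs_neg]
    have := V_abs_inj j (2 ^ m - i) hj (by omega) h'
    rw [← this] at h
    have h0 : V j = 0 := by linarith
    have := V_abs_pos j hj
    rw [h0] at this; simp at this
  · exfalso
    have := V_abs_pos (2 ^ m - i) (by omega)
    rw [show V (2 ^ m - i) = 0 by linarith] at this; simp at this
  · have h' : |V (2 ^ m - i)| = |V (2 ^ m - j)| := by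
      rw [← abs_neg (V (2 ^ m - i)), h, abs_neg]
    have := V_abs_inj (2 ^ m - i) (2 ^ m - j) (by omega) (by omega) h'
    omega

/-- the shifted sequence; its first `2 ^ m - 11` values form the word -/
def F (m k : ℕ) : ℚ := W m (k + 6)

def word (m : ℕ) : List ℚ := (List.range (2 ^ m - 11)).map (F m)

theorem word_length (m : ℕ) : (word m).length = 2 ^ m - 11 := by simp [word]

theorem word_getD (m k : ℕ) (hk : k < 2 ^ m - 11) : (word m).getD k 0 = F m k := by
  simp [word, List.getD_eq_getElem?_getD, hk]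

theorem word_nodup (m : ℕ) : (word m).Nodup := by
  unfold word
  apply List.Nodup.map_on _ List.nodup_range
  intro x hx y hy h
  rw [List.mem_range] at hx hy
  unfold F at h
  have := W_inj m (x + 6) (y + 6) (by omega) (by omega) (by omega) (by omega) h
  omega

theorem mem_word (m k : ℕ) (hk : k < 2 ^ m - 11) : F m k ∈ word m := by
  unfold word
  rw [List.mem_map]
  exact ⟨k, List.mem_range.2 hk, rfl⟩

/-- insertion of `x` at slot `p` -/
def ins (f : ℕ → ℚ) (p : ℕ) (x : ℚ) (k : ℕ) : ℚ :=
  if k < p then f k else if k = p then x else f (k - 1)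

theorem getD_ins (w : List ℚ) (p : ℕ) (hp : p ≤ w.length) (x : ℚ) (k : ℕ) :
    (w.take p ++ x :: w.drop p).getD k 0 =
      if k < p then w.getD k 0 else if k = p then x else w.getD (k - 1) 0 := by
  rw [List.getD_eq_getElem?_getD, List.getElem?_append]
  have hl : (w.take p).length = p := by simp [hp]
  rw [hl]
  by_cases h1 : k < p
  · rw [if_pos h1, if_pos h1, List.getElem?_take_of_lt h1, List.getD_eq_getElem?_getD]
  · rw [if_neg h1, if_neg h1]
    by_cases h2 : k = p
    · subst h2; simp
    · rw [if_neg h2]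
      obtain ⟨q, rfl⟩ : ∃ q, k = p + (q + 1) := ⟨k - p - 1, by omega⟩
      have e : p + (q + 1) - p = q + 1 := by omega
      rw [e, List.getElem?_cons_succ, List.getElem?_drop, List.getD_eq_getElem?_getD]
      rfl

theorem getD_ins_word (m p : ℕ) (hp : p ≤ 2 ^ m - 11) (x : ℚ) (k : ℕ) (hk : k ≤ 2 ^ m - 11) :
    ((word m).take p ++ x :: (word m).drop p).getD k 0 = ins (F m) p x k := by
  rw [getD_ins (word m) p (by rw [word_length]; exact hp) x k]
  unfold ins
  by_cases h1 : k < p
  · rw [if_pos h1, if_pos h1, word_getD m k (by omega)]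
  · rw [if_neg h1, if_neg h1]
    by_cases h2 : k = p
    · rw [if_pos h2, if_pos h2]
    · rw [if_neg h2, if_neg h2, word_getD m (k - 1) (by omega)]

/-- squares of half-length 2 only need the directions -/
theorem sq_two (f : ℕ → ℚ) (i : ℕ) (h : f i < f (i + 1) ↔ f (i + 2) < f (i + 3))
    (h1 : f i ≠ f (i + 1)) (h2 : f (i + 2) ≠ f (i + 3)) : Sq f i 2 := by
  have h1' : f (i + 1) < f i ↔ ¬ f i < f (i + 1) := by
    constructor
    · intro a; exact not_lt.2 a.le
    · intro a; exact lt_of_le_of_ne (not_lt.1 a) h1.symm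
  have h2' : f (i + 3) < f (i + 2) ↔ ¬ f (i + 2) < f (i + 3) := by
    constructor
    · intro a; exact not_lt.2 a.le
    · intro a; exact lt_of_le_of_ne (not_lt.1 a) h2.symm
  intro a ha b hb
  have ea : a = 0 ∨ a = 1 := by omega
  have eb : b = 0 ∨ b = 1 := by omega
  rcases ea with rfl | rfl <;> rcases eb with rfl | rfl
  · simp
  · simpa [add_assoc] using h
  · simp only [add_zero, add_assoc]
    norm_num
    rw [h1', h2', h]
  · simp

theorem F_dir (m j : ℕ) (hm : 6 ≤ m) (h2 : j + 13 ≤ 2 ^ m) :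
    F m j < F m (j + 1) ↔ D (j + 6) := by
  unfold F
  have := W_dir m (j + 6) hm (by omega) (by omega)
  rw [show j + 1 + 6 = j + 6 + 1 by ring]
  exact this

theorem F_ne (m i j : ℕ) (hi : i < 2 ^ m - 11) (hj : j < 2 ^ m - 11) (h : i ≠ j) :
    F m i ≠ F m j := by
  intro h'
  unfold F at h'
  have := W_inj m (i + 6) (j + 6) (by omega) (by omega) (by omega) (by omega) h'
  omega

/-- insertion in an inner slot creates a square of half-length two -/
theorem ext_inner (m p : ℕ) (hm : 6 ≤ m) (h1 : 3 ≤ p) (h2 : p + 3 ≤ 2 ^ m - 11) (x : ℚ)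
    (hx : x ∉ word m) : ∃ i l, 2 ≤ l ∧ i + 2 * l ≤ 2 ^ m - 11 + 1 ∧ Sq (ins (F m) p x) i l := by
  have hp := pow_ge m hm
  obtain ⟨q, rfl⟩ : ∃ q, p = q + 3 := ⟨p - 3, by omega⟩
  have v0 : ins (F m) (q + 3) x q = F m q := by simp [ins]
  have v1 : ins (F m) (q + 3) x (q + 1) = F m (q + 1) := by simp [ins]
  have v2 : ins (F m) (q + 3) x (q + 2) = F m (q + 2) := by simp [ins]
  have v3 : ins (F m) (q + 3) x (q + 3) = x := by simp [ins]
  have v4 : ins (F m) (q + 3) x (q + 4) = F m (q + 3) := by simp [ins]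
  have v5 : ins (F m) (q + 3) x (q + 5) = F m (q + 4) := by simp [ins]
  have v6 : ins (F m) (q + 3) x (q + 6) = F m (q + 5) := by simp [ins]
  have n0 : F m q ≠ F m (q + 1) := F_ne m _ _ (by omega) (by omega) (by omega)
  have n1 : F m (q + 1) ≠ F m (q + 2) := F_ne m _ _ (by omega) (by omega) (by omega)
  have n3 : F m (q + 3) ≠ F m (q + 4) := F_ne m _ _ (by omega) (by omega) (by omega)
  have n4 : F m (q + 4) ≠ F m (q + 5) := F_ne m _ _ (by omega) (by omega) (by omega)
  have x2 : F m (q + 2) ≠ x := fun e => hx (e ▸ mem_word m (q + 2) (by omega))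
  have x3 : x ≠ F m (q + 3) := fun e => hx (e ▸ mem_word m (q + 3) (by omega))
  have d0 := F_dir m q hm (by omega)
  have d1 := F_dir m (q + 1) hm (by omega)
  have d3 := F_dir m (q + 3) hm (by omega)
  have d4 := F_dir m (q + 4) hm (by omega)
  by_contra hcon
  push Not at hcon
  have c0 := hcon q 2 le_rfl (by omega)
  have c1 := hcon (q + 1) 2 le_rfl (by omega)
  have c2 := hcon (q + 2) 2 le_rfl (by omega)
  have c3 := hcon (q + 3) 2 le_rfl (by omega)
  have e0 : ¬ (F m q < F m (q + 1) ↔ F m (q + 2) < x) := fun h =>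
    c0 (sq_two _ q (by rw [v0, v1, v2, v3]; exact h) (by rw [v0, v1]; exact n0)
      (by rw [v2, v3]; exact x2))
  have e1 : ¬ (F m (q + 1) < F m (q + 2) ↔ x < F m (q + 3)) := fun h =>
    c1 (sq_two _ (q + 1) (by
      rw [show q + 1 + 1 = q + 2 by ring, show q + 1 + 2 = q + 3 by ring,
        show q + 1 + 3 = q + 4 by ring, v1, v2, v3, v4]; exact h)
      (by rw [show q + 1 + 1 = q + 2 by ring, v1, v2]; exact n1)
      (by rw [show q + 1 + 2 = q + 3 by ring,
        show q + 1 + 3 = q + 4 by ring, v3, v4]; exact x3))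
  have e2 : ¬ (F m (q + 2) < x ↔ F m (q + 3) < F m (q + 4)) := fun h =>
    c2 (sq_two _ (q + 2) (by
      rw [show q + 2 + 1 = q + 3 by ring, show q + 2 + 2 = q + 4 by ring,
        show q + 2 + 3 = q + 5 by ring, v2, v3, v4, v5]; exact h)
      (by rw [show q + 2 + 1 = q + 3 by ring, v2, v3]; exact x2)
      (by rw [show q + 2 + 2 = q + 4 by ring,
        show q + 2 + 3 = q + 5 by ring, v4, v5]; exact n3))
  have e3 : ¬ (x < F m (q + 3) ↔ F m (q + 4) < F m (q + 5)) := fun h =>
    c3 (sq_two _ (q + 3) (by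
      rw [show q + 3 + 1 = q + 4 by ring, show q + 3 + 2 = q + 5 by ring,
        show q + 3 + 3 = q + 6 by ring, v3, v4, v5, v6]; exact h)
      (by rw [show q + 3 + 1 = q + 4 by ring, v3, v4]; exact x3)
      (by rw [show q + 3 + 2 = q + 5 by ring,
        show q + 3 + 3 = q + 6 by ring, v5, v6]; exact n4))
  rw [show q + 1 + 1 = q + 2 by ring] at d1
  rw [show q + 3 + 1 = q + 4 by ring] at d3
  rw [show q + 4 + 1 = q + 5 by ring] at d4
  rw [d0] at e0
  rw [d1] at e1
  rw [d3] at e2
  rw [d4] at e3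
  unfold D at e0 e1 e2 e3
  by_cases u : F m (q + 2) < x <;> by_cases v : x < F m (q + 3) <;>
    simp only [u, v, iff_true, iff_false, true_iff, false_iff, not_not] at e0 e1 e2 e3 <;> omega

theorem F_small (m k : ℕ) (hm : 6 ≤ m) (hk : k ≤ 25) : F m k = V (k + 6) := by
  unfold F; exact W_small m (k + 6) hm (by omega)

theorem ext_left (m p : ℕ) (hm : 6 ≤ m) (h1 : p ≤ 2) (x : ℚ)
    (hx : x ∉ word m) : ∃ i l, 2 ≤ l ∧ i + 2 * l ≤ 2 ^ m - 11 + 1 ∧ Sq (ins (F m) p x) i l := by
  have hp := pow_ge m hm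
  have f0 : F m 0 = -99 := by rw [F_small m 0 hm (by norm_num)]; exact V6
  have f1 : F m 1 = -92 := by rw [F_small m 1 hm (by norm_num)]; exact V7
  have f2 : F m 2 = -93 := by rw [F_small m 2 hm (by norm_num)]; exact V8
  have f3 : F m 3 = -97 := by rw [F_small m 3 hm (by norm_num)]; exact V9
  have f4 : F m 4 = -96 := by rw [F_small m 4 hm (by norm_num)]; exact V10
  have f5 : F m 5 = -94 := by rw [F_small m 5 hm (by norm_num)]; exact V11
  have f6 : F m 6 = -95 := by rw [F_small m 6 hm (by norm_num)]; exact V12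
  have f7 : F m 7 = -98 := by rw [F_small m 7 hm (by norm_num)]; exact V13
  have f8 : F m 8 = 52 := by rw [F_small m 8 hm (by norm_num)]; exact V14
  have f9 : F m 9 = 53 := by rw [F_small m 9 hm (by norm_num)]; exact V15
  have f10 : F m 10 = 51 := by rw [F_small m 10 hm (by norm_num)]; exact V16
  have f11 : F m 11 = -33/17 := by rw [F_small m 11 hm (by norm_num)]; exact V17
  have f12 : F m 12 = -17/18 := by rw [F_small m 12 hm (by norm_num)]; exact V18
  have f13 : F m 13 = 37/19 := by rw [F_small m 13 hm (by norm_num)]; exact V19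
  have f14 : F m 14 = -9/20 := by rw [F_small m 14 hm (by norm_num)]; exact V20
  have x0 : x ≠ -99 := fun e => hx (by rw [e, ← f0]; exact mem_word m 0 (by omega))
  have x1 : x ≠ -92 := fun e => hx (by rw [e, ← f1]; exact mem_word m 1 (by omega))
  have x2 : x ≠ -93 := fun e => hx (by rw [e, ← f2]; exact mem_word m 2 (by omega))
  interval_cases p
  · rcases lt_or_gt_of_ne x0 with h | h
    · refine ⟨0, 4, by norm_num, by omega, ?_⟩
      intro a ha b hb
      interval_cases a <;> interval_cases b <;>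
        norm_num [ins, f0, f1, f2, f3, f4, f5, f6, f7, f8, f9, f10, f11, f12, f13, f14] <;> linarith
    · refine ⟨0, 2, by norm_num, by omega, ?_⟩
      intro a ha b hb
      interval_cases a <;> interval_cases b <;>
        norm_num [ins, f0, f1, f2, f3, f4, f5, f6, f7, f8, f9, f10, f11, f12, f13, f14] <;> linarith
  · rcases lt_or_gt_of_ne x0 with h | h
    · refine ⟨0, 2, by norm_num, by omega, ?_⟩
      intro a ha b hb
      interval_cases a <;> interval_cases b <;>
        norm_num [ins, f0, f1, f2, f3, f4, f5, f6, f7, f8, f9, f10, f11, f12, f13, f14] <;> linarith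
    · rcases lt_or_gt_of_ne x2 with h' | h'
      · refine ⟨0, 4, by norm_num, by omega, ?_⟩
        intro a ha b hb
        interval_cases a <;> interval_cases b <;>
          norm_num [ins, f0, f1, f2, f3, f4, f5, f6, f7, f8, f9, f10, f11, f12, f13, f14] <;>
          linarith
      · rcases lt_or_gt_of_ne x1 with h'' | h''
        · refine ⟨0, 8, by norm_num, by omega, ?_⟩
          intro a ha b hb
          interval_cases a <;> interval_cases b <;>
            norm_num [ins, f0, f1, f2, f3, f4, f5, f6, f7, f8, f9, f10, f11, f12, f13, f14] <;>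
            linarith
        · refine ⟨1, 2, by norm_num, by omega, ?_⟩
          intro a ha b hb
          interval_cases a <;> interval_cases b <;>
            norm_num [ins, f0, f1, f2, f3, f4, f5, f6, f7, f8, f9, f10, f11, f12, f13, f14] <;>
            linarith
  · rcases lt_or_gt_of_ne x2 with h | h
    · refine ⟨0, 2, by norm_num, by omega, ?_⟩
      intro a ha b hb
      interval_cases a <;> interval_cases b <;>
        norm_num [ins, f0, f1, f2, f3, f4, f5, f6, f7, f8, f9, f10, f11, f12, f13, f14] <;> linarith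
    · rcases lt_or_gt_of_ne x1 with h' | h'
      · refine ⟨1, 2, by norm_num, by omega, ?_⟩
        intro a ha b hb
        interval_cases a <;> interval_cases b <;>
          norm_num [ins, f0, f1, f2, f3, f4, f5, f6, f7, f8, f9, f10, f11, f12, f13, f14] <;>
          linarith
      · refine ⟨0, 8, by norm_num, by omega, ?_⟩
        intro a ha b hb
        interval_cases a <;> interval_cases b <;>
          norm_num [ins, f0, f1, f2, f3, f4, f5, f6, f7, f8, f9, f10, f11, f12, f13, f14] <;>
          linarith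

theorem F_refl (m k : ℕ) (hk : k < 2 ^ m - 11) : F m (2 ^ m - 12 - k) = - F m k := by
  unfold F
  rw [← W_refl m (k + 6) (by omega)]
  congr 1
  omega

theorem neg_not_mem (m : ℕ) (x : ℚ) (hx : x ∉ word m) : -x ∉ word m := by
  intro h
  apply hx
  unfold word at h ⊢
  rw [List.mem_map] at h ⊢
  obtain ⟨k, hk, e⟩ := h
  rw [List.mem_range] at hk
  refine ⟨2 ^ m - 12 - k, List.mem_range.2 (by omega), ?_⟩
  rw [F_refl m k hk, e, neg_neg]

theorem ext_right (m p : ℕ) (hm : 6 ≤ m) (h1 : p ≤ 2 ^ m - 11) (h2 : 2 ^ m - 11 ≤ p + 2) (x : ℚ)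
    (hx : x ∉ word m) : ∃ i l, 2 ≤ l ∧ i + 2 * l ≤ 2 ^ m - 11 + 1 ∧ Sq (ins (F m) p x) i l := by
  have hp := pow_ge m hm
  obtain ⟨i, l, hl, hil, hs⟩ := ext_left m (2 ^ m - 11 - p) hm (by omega) (-x) (neg_not_mem m x hx)
  refine ⟨2 ^ m - 11 + 1 - i - 2 * l, l, hl, by omega, ?_⟩
  refine sq_refl (ins (F m) (2 ^ m - 11 - p) (-x)) (ins (F m) p x) (2 ^ m - 11) i l (by omega) ?_ hs
  intro k hk
  unfold ins
  by_cases c1 : k < p
  · rw [if_pos c1, if_neg (by omega), if_neg (by omega),
      show 2 ^ m - 11 - k - 1 = 2 ^ m - 12 - k by omega, F_refl m k (by omega), neg_neg]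
  · by_cases c2 : k = p
    · subst c2
      rw [if_neg c1, if_pos rfl, if_neg (by omega), if_pos rfl, neg_neg]
    · rw [if_neg c1, if_neg c2, if_pos (by omega),
        show 2 ^ m - 11 - k = 2 ^ m - 12 - (k - 1) by omega, F_refl m (k - 1) (by omega), neg_neg]

theorem ext_all (m p : ℕ) (hm : 6 ≤ m) (h1 : p ≤ 2 ^ m - 11) (x : ℚ)
    (hx : x ∉ word m) : ∃ i l, 2 ≤ l ∧ i + 2 * l ≤ 2 ^ m - 11 + 1 ∧ Sq (ins (F m) p x) i l := by
  by_cases c1 : p ≤ 2
  · exact ext_left m p hm c1 x hx
  · by_cases c2 : p + 3 ≤ 2 ^ m - 11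
    · exact ext_inner m p hm (by omega) c2 x hx
    · exact ext_right m p hm h1 (by omega) x hx

theorem main (N : ℕ) : ∃ w : List ℚ, N ≤ w.length ∧ w.Nodup ∧
      (¬ ∃ i ℓ : ℕ, 2 ≤ ℓ ∧ i + 2 * ℓ ≤ w.length ∧
          ∀ a < ℓ, ∀ b < ℓ,
            (w.getD (i + a) 0 < w.getD (i + b) 0 ↔
              w.getD (i + ℓ + a) 0 < w.getD (i + ℓ + b) 0)) ∧
      ∀ p : ℕ, p ≤ w.length → ∀ x : ℚ, x ∉ w →
        ∃ i ℓ : ℕ, 2 ≤ ℓ ∧ i + 2 * ℓ ≤ w.length + 1 ∧
          ∀ a < ℓ, ∀ b < ℓ,
            ((w.take p ++ x :: w.drop p).getD (i + a) 0 <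
                (w.take p ++ x :: w.drop p).getD (i + b) 0 ↔
              (w.take p ++ x :: w.drop p).getD (i + ℓ + a) 0 <
                (w.take p ++ x :: w.drop p).getD (i + ℓ + b) 0) := by
  have hm : 6 ≤ N + 6 := by omega
  have hp := pow_ge (N + 6) hm
  refine ⟨word (N + 6), ?_, word_nodup _, ?_, ?_⟩
  · rw [word_length]
    have h1 : N < 2 ^ N := Nat.lt_two_pow_self
    have h2 : 2 ^ (N + 6) = 64 * 2 ^ N := by ring
    omega
  · rintro ⟨i, l, hl, hil, h⟩
    rw [word_length] at hil
    apply W_sqfree (N + 6) (i + 6) l hm hl (by omega) (by omega)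
    intro a ha b hb
    have := h a ha b hb
    rw [word_getD _ _ (by omega), word_getD _ _ (by omega), word_getD _ _ (by omega),
      word_getD _ _ (by omega)] at this
    unfold F at this
    rw [show i + 6 + a = i + a + 6 by ring, show i + 6 + b = i + b + 6 by ring,
      show i + 6 + l + a = i + l + a + 6 by ring, show i + 6 + l + b = i + l + b + 6 by ring]
    exact this
  · intro p hp' x hx
    rw [word_length] at hp' ⊢
    obtain ⟨i, l, hl, hil, hs⟩ := ext_all (N + 6) p hm hp' x hx
    refine ⟨i, l, hl, hil, ?_⟩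
    intro a ha b hb
    rw [getD_ins_word _ p hp' x _ (by omega), getD_ins_word _ p hp' x _ (by omega),
      getD_ins_word _ p hp' x _ (by omega), getD_ins_word _ p hp' x _ (by omega)]
    exact hs a ha b hb

end Pool.Agent.Helper40.SqFree
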