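import Pool.Agent.Helper40.Tf

set_option autoImplicit false

namespace Pool.Agent.Helper40.TF

/-- The subgroup `2ℤ_{2m}` of even residues. -/
def evens (m : ℕ) : Set (ZMod (2 * m)) := {x | ∃ y, x = 2 * y}

/-- `S + m = {s + m : s ∈ S}`. -/
def shift (m : ℕ) (S : Set (ZMod (2 * m))) : Set (ZMod (2 * m)) :=
  (fun s => s + (m : ZMod (2 * m))) '' S

/-- Type II: for every nontrivial TF-morphism `(α, β)`, at least one of `α`, `β` does not map the
even residues onto themselves. -/
def TypeII (m : ℕ) (Γ : SimpleGraph (ZMod (2 * m))) : Prop :=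
  ∀ α β : Equiv.Perm (ZMod (2 * m)), IsTF Γ α β → α ≠ β →
    α '' evens m ≠ evens m ∨ β '' evens m ≠ evens m

theorem perm_apply_inv {V : Type*} (f : Equiv.Perm V) (x : V) : f (f⁻¹ x) = x :=
  f.apply_symm_apply x

theorem perm_inv_apply {V : Type*} (f : Equiv.Perm V) (x : V) : f⁻¹ (f x) = x :=
  f.symm_apply_apply x

section

variable {m : ℕ}

theorem mem_shift {S : Set (ZMod (2 * m))} {x : ZMod (2 * m)} :
    x ∈ shift m S ↔ x + (m : ZMod (2 * m)) ∈ S := by
  have h2 : (m : ZMod (2 * m)) + m = 0 := by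
    have : ((2 * m : ℕ) : ZMod (2 * m)) = 0 := ZMod.natCast_self _
    push_cast at this
    linear_combination this
  constructor
  · rintro ⟨s, hs, rfl⟩
    simpa [add_assoc, h2] using hs
  · intro h
    exact ⟨_, h, by simp [add_assoc, h2]⟩

theorem mm_zero : (m : ZMod (2 * m)) + m = 0 := by
  have : ((2 * m : ℕ) : ZMod (2 * m)) = 0 := ZMod.natCast_self _
  push_cast at this
  linear_combination this

/-- parity -/
def par (m : ℕ) : ZMod (2 * m) →+* ZMod 2 := ZMod.castHom (Dvd.intro m rfl) (ZMod 2)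

theorem par_m (hm : Odd m) : par m (m : ZMod (2 * m)) = 1 := by
  rw [map_natCast]
  exact (ZMod.natCast_eq_one_iff_odd).2 hm

theorem par_two_mul (x : ZMod (2 * m)) : par m (2 * x) = 0 := by
  rw [map_mul, map_ofNat]
  have : (OfNat.ofNat 2 : ZMod 2) = 0 := by decide
  rw [this, zero_mul]

theorem mem_evens_iff [NeZero (2 * m)] {x : ZMod (2 * m)} : x ∈ evens m ↔ par m x = 0 := by
  constructor
  · rintro ⟨y, rfl⟩; exact par_two_mul y
  · intro h
    have h1 : ((x.val : ℕ) : ZMod (2 * m)) = x := ZMod.natCast_zmod_val x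
    rw [← h1, map_natCast, ZMod.natCast_eq_zero_iff] at h
    obtain ⟨k, hk⟩ := h
    refine ⟨(k : ZMod (2 * m)), ?_⟩
    rw [← h1, hk]; push_cast; ring

theorem two_mul_eq_zero [NeZero (2 * m)] {x : ZMod (2 * m)} (h : 2 * x = 0) :
    x = 0 ∨ x = (m : ZMod (2 * m)) := by
  have h1 : ((x.val : ℕ) : ZMod (2 * m)) = x := ZMod.natCast_zmod_val x
  have h2 : ((2 * x.val : ℕ) : ZMod (2 * m)) = 0 := by push_cast; rw [h1]; exact h
  rw [ZMod.natCast_eq_zero_iff] at h2
  obtain ⟨k, hk⟩ := h2
  have h3 : x.val < 2 * m := ZMod.val_lt x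
  have h4 : x.val = m * k := by
    have : 2 * x.val = 2 * (m * k) := by rw [hk]; ring
    omega
  have hk2 : k < 2 := by
    by_contra hk2
    push Not at hk2
    have : m * 2 ≤ m * k := Nat.mul_le_mul_left m hk2
    omega
  interval_cases k
  · left; rw [← h1, h4]; simp
  · right; rw [← h1, h4]; simp

end

section

variable {m : ℕ} [NeZero (2 * m)] {S : Set (ZMod (2 * m))} {Γ : SimpleGraph (ZMod (2 * m))}

open Classical in
/-- number of common neighbours modulo 2 -/
noncomputable def cod (Γ : SimpleGraph (ZMod (2 * m))) (u w : ZMod (2 * m)) : ZMod 2 :=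
  ∑ v, if Γ.Adj u v ∧ Γ.Adj w v then (1 : ZMod 2) else 0

theorem cod_tf {α β : Equiv.Perm (ZMod (2 * m))} (h : IsTF Γ α β) (u w : ZMod (2 * m)) :
    cod Γ (α u) (α w) = cod Γ u w := by
  classical
  unfold cod
  rw [← Equiv.sum_comp β]
  refine Finset.sum_congr rfl fun v _ => ?_
  rw [← h u v, ← h w v]

/-- The set of `t` such that exactly one of `t`, `t + m` lies in `S`. -/
def dset (m : ℕ) (S : Set (ZMod (2 * m))) : Set (ZMod (2 * m)) :=
  symmDiff S (shift m S)

open Classical in
theorem cod_reduce (hS : ∀ x ∈ S, -x ∈ S) (hΓ : ∀ x y, Γ.Adj x y ↔ y - x ∈ S)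
    (u w : ZMod (2 * m)) :
    cod Γ u w = ∑ v ∈ Finset.univ.filter (fun v => 2 * v = u + w),
      if Γ.Adj u v ∧ Γ.Adj w v then (1 : ZMod 2) else 0 := by
  unfold cod
  rw [← Finset.sum_filter_add_sum_filter_not Finset.univ (fun v => 2 * v = u + w)]
  conv_rhs => rw [← add_zero (Finset.sum _ _)]
  congr 1
  refine Finset.sum_involution (fun v _ => u + w - v) ?_ ?_ ?_ ?_
  · intro v _
    have h1 : (Γ.Adj u (u + w - v) ∧ Γ.Adj w (u + w - v)) ↔ (Γ.Adj u v ∧ Γ.Adj w v) := by
      rw [hΓ, hΓ, hΓ, hΓ]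
      have e1 : u + w - v - u = -(v - w) := by ring
      have e2 : u + w - v - w = -(v - u) := by ring
      rw [e1, e2]
      constructor
      · rintro ⟨h1, h2⟩
        refine ⟨?_, ?_⟩
        · have := hS _ h2; rwa [neg_neg] at this
        · have := hS _ h1; rwa [neg_neg] at this
      · rintro ⟨h1, h2⟩
        exact ⟨hS _ h2, hS _ h1⟩
    simp only [h1]
    exact CharTwo.add_self_eq_zero _
  · intro v hv _ h
    rw [Finset.mem_filter] at hv
    apply hv.2
    linear_combination -h
  · intro v hv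
    rw [Finset.mem_filter] at hv ⊢
    refine ⟨Finset.mem_univ _, fun h => hv.2 ?_⟩
    linear_combination -h
  · intro v _
    ring

theorem cod_eq_one_iff (hm : Odd m) (hS : ∀ x ∈ S, -x ∈ S)
    (hΓ : ∀ x y, Γ.Adj x y ↔ y - x ∈ S) (u w : ZMod (2 * m)) :
    cod Γ u w = 1 ↔ ∃ t ∈ dset m S, 2 * t = w - u := by
  classical
  have hm0 : (m : ZMod (2 * m)) ≠ 0 := by
    intro h
    have := par_m hm
    rw [h, map_zero] at this
    exact absurd this (by decide)
  have main : ∀ t, 2 * t = w - u → (cod Γ u w = 1 ↔ t ∈ dset m S) := by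
    intro t ht
    rw [cod_reduce hS hΓ]
    have hfil : Finset.univ.filter (fun v => 2 * v = u + w) =
        {u + t, u + t + (m : ZMod (2 * m))} := by
      ext v
      simp only [Finset.mem_filter, Finset.mem_univ, true_and, Finset.mem_insert,
        Finset.mem_singleton]
      constructor
      · intro h
        have h3 : 2 * (v - (u + t)) = 0 := by linear_combination h - ht
        rcases two_mul_eq_zero h3 with h4 | h4
        · left; linear_combination h4
        · right; linear_combination h4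
      · rintro (rfl | rfl)
        · linear_combination ht
        · have := mm_zero (m := m)
          linear_combination ht + this
    rw [hfil, Finset.sum_pair (by intro h; apply hm0; linear_combination -h)]
    have e1 : (Γ.Adj u (u + t) ∧ Γ.Adj w (u + t)) ↔ t ∈ S := by
      rw [hΓ, hΓ]
      have a1 : u + t - u = t := by ring
      have a2 : u + t - w = -t := by linear_combination ht
      rw [a1, a2]
      exact ⟨fun h => h.1, fun h => ⟨h, hS _ h⟩⟩
    have e2 : (Γ.Adj u (u + t + m) ∧ Γ.Adj w (u + t + m)) ↔ t + (m : ZMod (2 * m)) ∈ S := by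
      rw [hΓ, hΓ]
      have a1 : u + t + m - u = t + (m : ZMod (2 * m)) := by ring
      have a2 : u + t + m - w = -(t + (m : ZMod (2 * m))) := by
        have := mm_zero (m := m)
        linear_combination ht + this
      rw [a1, a2]
      exact ⟨fun h => h.1, fun h => ⟨h, hS _ h⟩⟩
    simp only [e1, e2]
    unfold dset
    rw [Set.mem_symmDiff, mem_shift]
    by_cases h1 : t ∈ S <;> by_cases h2 : t + (m : ZMod (2 * m)) ∈ S <;> simp [h1, h2]
  constructor
  · intro h
    have : ∃ v, 2 * v = u + w := by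
      by_contra hne
      push Not at hne
      rw [cod_reduce hS hΓ, Finset.filter_false_of_mem (fun v _ => hne v)] at h
      simp at h
    obtain ⟨v, hv⟩ := this
    have ht : 2 * (v - u) = w - u := by linear_combination hv
    exact ⟨v - u, (main _ ht).1 h, ht⟩
  · rintro ⟨t, ht, h2⟩
    exact (main t h2).2 ht

/-- if the set `D` generates the group then all TF-morphisms preserve parity differences -/
theorem par_const (hm : Odd m) (hS : ∀ x ∈ S, -x ∈ S)
    (hΓ : ∀ x y, Γ.Adj x y ↔ y - x ∈ S) (hD : AddSubgroup.closure (dset m S) = ⊤)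
    {α β : Equiv.Perm (ZMod (2 * m))} (h : IsTF Γ α β) (u x : ZMod (2 * m)) :
    par m (α (u + 2 * x)) = par m (α u) := by
  have hx : x ∈ AddSubgroup.closure (dset m S) := by rw [hD]; trivial
  revert u
  induction hx using AddSubgroup.closure_induction with
  | mem x hx =>
    intro u
    have h1 : cod Γ u (u + 2 * x) = 1 :=
      (cod_eq_one_iff hm hS hΓ _ _).2 ⟨x, hx, by ring⟩
    rw [← cod_tf h, cod_eq_one_iff hm hS hΓ] at h1
    obtain ⟨t, _, ht⟩ := h1
    have h3 : α (u + 2 * x) = α u + 2 * t := by linear_combination -ht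
    rw [h3, map_add, par_two_mul, add_zero]
  | zero => intro u; simp
  | add x y _ _ hx hy =>
    intro u
    have : u + 2 * (x + y) = (u + 2 * x) + 2 * y := by ring
    rw [this, hy, hx]
  | neg x _ hx =>
    intro u
    have := hx (u + 2 * -x)
    rw [← this]
    congr 2
    ring

theorem par_shift (hm : Odd m) (hS : ∀ x ∈ S, -x ∈ S)
    (hΓ : ∀ x y, Γ.Adj x y ↔ y - x ∈ S) (hD : AddSubgroup.closure (dset m S) = ⊤)
    {α β : Equiv.Perm (ZMod (2 * m))} (h : IsTF Γ α β) :
    ∃ e : ZMod 2, ∀ u, par m (α u) = par m u + e := by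
  have hcon : ∀ u w, par m u = par m w → par m (α u) = par m (α w) := by
    intro u w huw
    have h1 : par m (u - w) = 0 := by rw [map_sub, huw, sub_self]
    rw [← mem_evens_iff] at h1
    obtain ⟨y, hy⟩ := h1
    have h2 : u = w + 2 * y := by linear_combination hy
    rw [h2]
    exact par_const hm hS hΓ hD h _ _
  have hne : par m (α 0) ≠ par m (α m) := by
    intro heq
    have hall : ∀ u, par m (α u) = par m (α 0) := by
      intro u
      have h01 : ∀ a : ZMod 2, a = 0 ∨ a = 1 := by decide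
      rcases h01 (par m u) with h1 | h1
      · exact hcon _ _ (by rw [h1, map_zero])
      · rw [heq]; exact hcon _ _ (by rw [h1, par_m hm])
    have h1 := hall (α.symm 0)
    have h2 := hall (α.symm m)
    rw [Equiv.apply_symm_apply] at h1 h2
    rw [← h1, map_zero, par_m hm] at h2
    exact absurd h2 (by decide)
  refine ⟨par m (α 0), fun u => ?_⟩
  have h01 : ∀ a : ZMod 2, a = 0 ∨ a = 1 := by decide
  rcases h01 (par m u) with h1 | h1
  · rw [hcon u 0 (by rw [h1, map_zero]), h1, zero_add]
  · rw [hcon u m (by rw [h1, par_m hm]), h1]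
    have key : ∀ a b : ZMod 2, a ≠ b → b = 1 + a := by decide
    exact key _ _ hne

theorem image_evens {α : Equiv.Perm (ZMod (2 * m))} (h : ∀ u, par m (α u) = par m u) :
    α '' evens m = evens m := by
  ext x
  constructor
  · rintro ⟨y, hy, rfl⟩
    rw [mem_evens_iff] at hy ⊢
    rw [h, hy]
  · intro hx
    refine ⟨α.symm x, ?_, Equiv.apply_symm_apply _ _⟩
    rw [mem_evens_iff] at hx ⊢
    rw [← h, Equiv.apply_symm_apply, hx]

omit [NeZero (2 * m)] in
/-- translations are automorphisms -/
theorem tf_trans (hΓ : ∀ x y, Γ.Adj x y ↔ y - x ∈ S) (a : ZMod (2 * m)) :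
    IsTF Γ (Equiv.addRight a) (Equiv.addRight a) := by
  intro u v
  rw [hΓ, hΓ]
  simp

theorem main_thm (hm : Odd m) (hS : ∀ x ∈ S, -x ∈ S)
    (hΓ : ∀ x y, Γ.Adj x y ↔ y - x ∈ S) (hu : NontriviallyUnstable Γ) (hII : TypeII m Γ)
    (hD : AddSubgroup.closure (dset m S) = ⊤) :
    ∃ φ : Equiv.Perm (ZMod (2 * m)), ∀ x y, Γ.Adj x y ↔ φ y - φ x ∈ shift m S := by
  classical
  obtain ⟨hst, hc, hb, _⟩ := hu
  -- a nontrivial TF-morphism
  have hex : ∃ α β : Equiv.Perm (ZMod (2 * m)), IsTF Γ α β ∧ α ≠ β := by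
    by_contra hne
    push Not at hne
    exact hst (stable_of_trivial hc hb hne)
  -- triviality of parity preserving TF-morphisms
  have hT : ∀ α β : Equiv.Perm (ZMod (2 * m)), IsTF Γ α β → (∀ u, par m (α u) = par m u) →
      (∀ u, par m (β u) = par m u) → α = β := by
    intro α β h1 h2 h3
    by_contra hne
    rcases hII α β h1 hne with h | h
    · exact h (image_evens h2)
    · exact h (image_evens h3)
  -- WLOG α preserves parity
  have hex2 : ∃ α β : Equiv.Perm (ZMod (2 * m)), IsTF Γ α β ∧ α ≠ β ∧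
      ∀ u, par m (α u) = par m u := by
    obtain ⟨α, β, h1, h2⟩ := hex
    obtain ⟨e, he⟩ := par_shift hm hS hΓ hD h1
    have h01 : ∀ a : ZMod 2, a = 0 ∨ a = 1 := by decide
    rcases h01 e with h | h
    · exact ⟨α, β, h1, h2, fun u => by rw [he, h, add_zero]⟩
    · refine ⟨Equiv.addRight (m : ZMod (2 * m)) * α, Equiv.addRight (m : ZMod (2 * m)) * β,
        (tf_trans hΓ _).mul h1, fun h3 => h2 (mul_left_cancel h3), fun u => ?_⟩
      simp only [Equiv.Perm.coe_mul, Function.comp_apply, Equiv.coe_addRight, map_add, he, h,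
        par_m hm]
      generalize par m u = a
      revert a; decide
  obtain ⟨α, β, hαβ, hne, hα⟩ := hex2
  obtain ⟨e, he⟩ := par_shift hm hS hΓ hD hαβ.swap
  have he1 : e = 1 := by
    have h01 : ∀ a : ZMod 2, a = 0 ∨ a = 1 := by decide
    rcases h01 e with h | h
    · exact absurd (hT α β hαβ hα (fun u => by rw [he, h, add_zero])) hne
    · exact h
  subst he1
  set c : ZMod (2 * m) := (m : ZMod (2 * m)) with hcdef
  have hcc : c + c = 0 := mm_zero
  set tc : Equiv.Perm (ZMod (2 * m)) := Equiv.addRight c with htc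
  have htc2 : tc * tc = 1 := by
    ext x : 1
    simp [htc, add_assoc, hcc]
  set β' : Equiv.Perm (ZMod (2 * m)) := tc * β with hβ'
  have hββ' : β = tc * β' := by rw [hβ', ← mul_assoc, htc2, one_mul]
  have hβ'p : ∀ u, par m (β' u) = par m u := by
    intro u
    simp only [hβ', htc, Equiv.Perm.coe_mul, Function.comp_apply, Equiv.coe_addRight, map_add, he,
      hcdef, par_m hm]
    generalize par m u = a
    revert a; decide
  have hβ'pi : ∀ u, par m (β'⁻¹ u) = par m u := by
    intro u
    rw [← hβ'p, perm_apply_inv]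
  have hαi : ∀ u, par m (α⁻¹ u) = par m u := by
    intro u
    rw [← hα, perm_apply_inv]
  -- γ is an involution
  have hγ1 : α⁻¹ * β' = β'⁻¹ * α := by
    apply hT
    · have h1 : IsTF Γ (α⁻¹ * β') (β⁻¹ * (tc * α)) :=
        (hαβ.inv).mul ((tf_trans hΓ c).mul hαβ.swap)
      have h2 : β⁻¹ * (tc * α) = β'⁻¹ * α := by
        rw [hββ', mul_inv_rev, mul_assoc, ← mul_assoc tc⁻¹]
        simp
      rw [h2] at h1
      exact h1
    · intro u; rw [Equiv.Perm.mul_apply, hαi, hβ'p]
    · intro u; rw [Equiv.Perm.mul_apply, hβ'pi, hα]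
  -- conjugates of translations
  have hconj : ∀ a, par m a = 0 → α⁻¹ * Equiv.addRight a * α = β'⁻¹ * Equiv.addRight a * β' := by
    intro a ha
    apply hT
    · have h1 : IsTF Γ (α⁻¹ * Equiv.addRight a * α) (β⁻¹ * Equiv.addRight a * β) :=
        ((hαβ.inv).mul (tf_trans hΓ a)).mul hαβ
      have h2 : β⁻¹ * Equiv.addRight a * β = β'⁻¹ * Equiv.addRight a * β' := by
        have h3 : tc⁻¹ * Equiv.addRight a * tc = Equiv.addRight a := by
          have h4 : tc⁻¹ = tc := by
            rw [inv_eq_iff_mul_eq_one]; exact htc2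
          rw [h4]
          ext x : 1
          simp only [htc, Equiv.Perm.coe_mul, Function.comp_apply, Equiv.coe_addRight]
          linear_combination hcc
        calc β⁻¹ * Equiv.addRight a * β = β'⁻¹ * (tc⁻¹ * Equiv.addRight a * tc) * β' := by
              rw [hββ', mul_inv_rev]; simp only [mul_assoc]
          _ = _ := by rw [h3]
      rw [h2] at h1
      exact h1
    · intro u
      simp only [Equiv.Perm.mul_apply, hαi, Equiv.coe_addRight, map_add, hα, ha, add_zero]
    · intro u
      simp only [Equiv.Perm.mul_apply, hβ'pi, Equiv.coe_addRight, map_add, hβ'p, ha, add_zero]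
  set γ : Equiv.Perm (ZMod (2 * m)) := α⁻¹ * β' with hγ
  have hγγ : γ * γ = 1 := by
    calc γ * γ = (α⁻¹ * β') * (β'⁻¹ * α) := by rw [← hγ1]
      _ = 1 := by group
  have hγp : ∀ u, par m (γ u) = par m u := by
    intro u; rw [hγ, Equiv.Perm.mul_apply, hαi, hβ'p]
  have hcomm : ∀ a, par m a = 0 →
      γ * (α⁻¹ * Equiv.addRight a * α) = (α⁻¹ * Equiv.addRight a * α) * γ := by
    intro a ha
    calc γ * (α⁻¹ * Equiv.addRight a * α) = γ * (β'⁻¹ * Equiv.addRight a * β') := by
          rw [hconj a ha]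
      _ = (α⁻¹ * Equiv.addRight a * α) * γ := by
          rw [hγ]; group
  have hγid : γ = 1 := by
    ext u : 1
    rw [Equiv.Perm.one_apply]
    set a := α (γ u) - α u with ha
    have hpa : par m a = 0 := by rw [ha, map_sub, hα, hα, hγp, sub_self]
    have h1 : (α⁻¹ * Equiv.addRight a * α) u = γ u := by
      simp only [Equiv.Perm.mul_apply, Equiv.coe_addRight]
      have : α u + a = α (γ u) := by rw [ha]; ring
      rw [this, perm_inv_apply]
    have h2 : (α⁻¹ * Equiv.addRight a * α) (γ u) = u := by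
      have h3 := congrArg (fun f => f u) (hcomm a hpa)
      simp only [Equiv.Perm.mul_apply] at h3 h1 ⊢
      rw [← h3, h1]
      have := congrArg (fun f => f u) hγγ
      simpa [Equiv.Perm.mul_apply] using this
    have h3 : α (γ u) + a = α u := by
      simp only [Equiv.Perm.mul_apply, Equiv.coe_addRight] at h2
      have h2' := congrArg α h2
      rwa [perm_apply_inv] at h2'
    have h4 : 2 * a = 0 := by linear_combination h3 - ha
    rcases two_mul_eq_zero h4 with h5 | h5
    · apply α.injective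
      rw [h5] at h3
      simpa using h3
    · exfalso
      rw [h5, par_m hm] at hpa
      exact absurd hpa (by decide)
  have hβα : β' = α := by
    calc β' = α * γ := by rw [hγ]; group
      _ = α := by rw [hγid, mul_one]
  refine ⟨α, fun x y => ?_⟩
  rw [hαβ x y, hΓ, hββ', hβα, mem_shift]
  have : (tc * α) y - α x = α y - α x + c := by
    simp only [Equiv.Perm.mul_apply, htc, Equiv.coe_addRight]; ring
  rw [this]

end

end Pool.Agent.Helper40.TF
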