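import Pool.Agent.Helper40.GPChk

/-!
# Labellings of `P(n,1)`
-/

set_option autoImplicit false
set_option maxRecDepth 100000

namespace Pool.Agent.Helper40.GP

open Pool.Agent.Helper20.Graceful

def V1_0 : List VP :=
  [⟨0, 0, 1, 0, 0, 0, 0, 1, 0⟩,
  ⟨1, 0, 1, 0, 46, 0, 12, 1, 0⟩,
  ⟨0, 1, 1, 0, 48, 0, 12, 1, 0⟩,
  ⟨1, 1, 1, 0, 11, 0, 0, 1, 0⟩,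
  ⟨0, 2, 2, 0, 6, 6, 0, 2, 1⟩,
  ⟨1, 2, 2, 0, 44, (-6), 12, 2, 1⟩,
  ⟨0, 3, 2, 0, 31, (-6), 12, 2, 1⟩,
  ⟨1, 3, 2, 0, 8, 6, 0, 2, 1⟩,
  ⟨0, 6, 1, 2, 39, 0, 6, 1, 0⟩,
  ⟨1, 6, 1, 2, 21, 0, 6, 1, 0⟩,
  ⟨0, 7, 1, 2, 27, 0, 6, 1, 0⟩,
  ⟨1, 7, 1, 2, 22, 0, 6, 1, 0⟩,
  ⟨0, 8, 1, 2, 17, 0, 6, 1, 0⟩,
  ⟨1, 8, 1, 2, 19, 0, 6, 1, 0⟩,
  ⟨0, 13, (-2), 4, 35, (-6), 12, 3, 1⟩,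
  ⟨1, 13, (-2), 4, 3, 6, 0, 3, 1⟩,
  ⟨0, 12, (-2), 4, 1, 6, 0, 2, 1⟩,
  ⟨1, 12, (-2), 4, 30, (-6), 12, 2, 1⟩,
  ⟨0, 15, 1, 4, 47, 0, 12, 1, 0⟩,
  ⟨1, 15, 1, 4, 2, 0, 0, 1, 0⟩,
  ⟨0, 14, 1, 4, 4, 0, 0, 1, 0⟩,
  ⟨1, 14, 1, 4, 43, 0, 12, 1, 0⟩]

def W1_0 : List EP :=
  [⟨0, 0, 0, 0, 2, 0, 0, 0, (-1), 48, 0, 12, 1, 0⟩,
  ⟨0, 2, 0, 0, 4, 0, 0, 0, 1, 42, 0, 12, 1, 0⟩,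
  ⟨0, 4, 0, 0, 6, 0, 0, 0, (-1), 25, (-12), 12, 2, 1⟩,
  ⟨0, 6, 0, 0, 4, 1, 0, 0, 1, 19, (-12), 12, 1, 1⟩,
  ⟨0, 6, 1, 1, 8, 0, 0, 0, (-1), 14, 0, 0, 1, 0⟩,
  ⟨0, 8, 0, 0, 10, 0, 0, 0, 1, 12, 0, 0, 1, 0⟩,
  ⟨0, 10, 0, 0, 12, 0, 0, 0, 1, 10, 0, 0, 1, 0⟩,
  ⟨0, 12, 0, 0, 14, 2, 1, 0, (-1), 6, 0, 0, 1, 0⟩,
  ⟨0, 14, 1, 0, 16, 0, 0, 0, 1, 28, (-12), 12, 2, 1⟩,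
  ⟨0, 16, 0, 0, 14, 0, 0, 0, (-1), 34, (-12), 12, 2, 1⟩,
  ⟨0, 14, 0, 0, 20, 0, 0, 0, 1, 31, 0, 12, 1, 0⟩,
  ⟨0, 18, 0, 0, 0, 0, 0, 1, 1, 47, 0, 12, 1, 0⟩,
  ⟨0, 20, 0, 0, 18, 0, 0, 0, (-1), 43, 0, 12, 1, 0⟩,
  ⟨1, 0, 0, 0, 1, 0, 0, 0, (-1), 46, 0, 12, 1, 0⟩,
  ⟨1, 2, 0, 0, 3, 0, 0, 0, 1, 37, 0, 12, 1, 0⟩,
  ⟨1, 4, 0, 0, 5, 0, 0, 0, (-1), 38, (-12), 12, 2, 1⟩,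
  ⟨1, 6, 0, 0, 7, 0, 0, 0, 1, 23, (-12), 12, 2, 1⟩,
  ⟨1, 8, 0, 0, 9, 0, 0, 0, 1, 18, 0, 0, 1, 0⟩,
  ⟨1, 10, 0, 0, 11, 0, 0, 0, 1, 5, 0, 0, 1, 0⟩,
  ⟨1, 12, 0, 0, 13, 0, 0, 0, (-1), 2, 0, 0, 1, 0⟩,
  ⟨1, 14, 0, 0, 15, 0, 0, 0, 1, 32, (-12), 12, 3, 1⟩,
  ⟨1, 16, 0, 0, 17, 0, 0, 0, (-1), 29, (-12), 12, 2, 1⟩,
  ⟨1, 18, 0, 0, 19, 0, 0, 0, 1, 45, 0, 12, 1, 0⟩,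
  ⟨1, 20, 0, 0, 21, 0, 0, 0, (-1), 39, 0, 12, 1, 0⟩,
  ⟨2, 1, 0, 0, 3, 0, 0, 0, 1, 35, 0, 12, 1, 0⟩,
  ⟨2, 3, 0, 0, 5, 0, 0, 0, (-1), 33, 0, 12, 1, 0⟩,
  ⟨2, 5, 0, 0, 7, 0, 0, 0, 1, 36, (-12), 12, 2, 1⟩,
  ⟨2, 7, 0, 0, 5, 1, 0, 0, (-1), 30, (-12), 12, 1, 1⟩,
  ⟨2, 7, 1, 1, 9, 0, 0, 0, (-1), 7, 0, 0, 1, 0⟩,
  ⟨2, 9, 0, 0, 11, 0, 0, 0, (-1), 1, 0, 0, 1, 0⟩,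
  ⟨2, 11, 0, 0, 13, 0, 0, 0, 1, 3, 0, 0, 1, 0⟩,
  ⟨2, 13, 0, 0, 15, 2, 1, 0, 1, 4, 0, 0, 1, 0⟩,
  ⟨2, 15, 1, 0, 17, 0, 0, 0, (-1), 21, (-12), 12, 2, 1⟩,
  ⟨2, 17, 0, 0, 15, 0, 0, 0, 1, 27, (-12), 12, 2, 1⟩,
  ⟨2, 15, 0, 0, 21, 0, 0, 0, (-1), 40, 0, 12, 1, 0⟩,
  ⟨2, 19, 0, 0, 1, 0, 0, 1, (-1), 44, 0, 12, 1, 0⟩,
  ⟨2, 21, 0, 0, 19, 0, 0, 0, 1, 41, 0, 12, 1, 0⟩]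

theorem g1_0 (t : ℕ) : IsGraceful (genPetersen (16 + 4 * t) 1) :=
  sound (V := V1_0) (W := W1_0) (by decide +kernel) t

def V1_1 : List VP :=
  [⟨0, 0, 1, 0, 0, 0, 0, 1, 0⟩,
  ⟨1, 0, 1, 0, 37, 0, 12, 1, 0⟩,
  ⟨0, 1, 1, 0, 39, 0, 12, 1, 0⟩,
  ⟨1, 1, 1, 0, 11, 0, 0, 1, 0⟩,
  ⟨0, 2, 2, 0, 6, 6, 0, 2, 1⟩,
  ⟨1, 2, 2, 0, 35, (-6), 12, 2, 1⟩,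
  ⟨0, 3, 2, 0, 22, (-6), 12, 1, 1⟩,
  ⟨1, 3, 2, 0, 8, 6, 0, 1, 1⟩,
  ⟨0, 5, 1, 2, 25, 0, 6, 1, 0⟩,
  ⟨1, 5, 1, 2, 30, 0, 6, 1, 0⟩,
  ⟨0, 6, 1, 2, 17, 0, 6, 1, 0⟩,
  ⟨1, 6, 1, 2, 15, 0, 6, 1, 0⟩,
  ⟨0, 7, 1, 2, 24, 0, 6, 1, 0⟩,
  ⟨1, 7, 1, 2, 18, 0, 6, 1, 0⟩,
  ⟨0, 10, (-2), 4, 26, (-6), 12, 2, 1⟩,
  ⟨1, 10, (-2), 4, 3, 6, 0, 2, 1⟩,
  ⟨0, 9, (-2), 4, 1, 6, 0, 1, 1⟩,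
  ⟨1, 9, (-2), 4, 21, (-6), 12, 1, 1⟩,
  ⟨0, 12, 1, 4, 38, 0, 12, 1, 0⟩,
  ⟨1, 12, 1, 4, 2, 0, 0, 1, 0⟩,
  ⟨0, 11, 1, 4, 4, 0, 0, 1, 0⟩,
  ⟨1, 11, 1, 4, 34, 0, 12, 1, 0⟩]

def W1_1 : List EP :=
  [⟨0, 0, 0, 0, 2, 0, 0, 0, (-1), 39, 0, 12, 1, 0⟩,
  ⟨0, 2, 0, 0, 4, 0, 0, 0, 1, 33, 0, 12, 1, 0⟩,
  ⟨0, 4, 0, 0, 6, 0, 0, 0, (-1), 16, (-12), 12, 1, 1⟩,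
  ⟨0, 6, 0, 0, 4, 1, 0, 0, 1, 10, (-12), 12, 1, 1⟩,
  ⟨0, 4, 1, 1, 8, 0, 0, 0, (-1), 13, 0, 0, 1, 0⟩,
  ⟨0, 8, 0, 0, 10, 0, 0, 0, 1, 8, 0, 0, 1, 0⟩,
  ⟨0, 10, 0, 0, 12, 0, 0, 0, (-1), 7, 0, 0, 1, 0⟩,
  ⟨0, 12, 0, 0, 14, 1, 1, 0, 1, 4, 0, 0, 1, 0⟩,
  ⟨0, 14, 1, 0, 16, 0, 0, 0, 1, 19, (-12), 12, 1, 1⟩,
  ⟨0, 16, 0, 0, 14, 0, 0, 0, (-1), 25, (-12), 12, 1, 1⟩,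
  ⟨0, 14, 0, 0, 20, 0, 0, 0, 1, 22, 0, 12, 1, 0⟩,
  ⟨0, 18, 0, 0, 0, 0, 0, 1, 1, 38, 0, 12, 1, 0⟩,
  ⟨0, 20, 0, 0, 18, 0, 0, 0, (-1), 34, 0, 12, 1, 0⟩,
  ⟨1, 0, 0, 0, 1, 0, 0, 0, (-1), 37, 0, 12, 1, 0⟩,
  ⟨1, 2, 0, 0, 3, 0, 0, 0, 1, 28, 0, 12, 1, 0⟩,
  ⟨1, 4, 0, 0, 5, 0, 0, 0, (-1), 29, (-12), 12, 2, 1⟩,
  ⟨1, 6, 0, 0, 7, 0, 0, 0, 1, 14, (-12), 12, 1, 1⟩,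
  ⟨1, 8, 0, 0, 9, 0, 0, 0, (-1), 5, 0, 0, 1, 0⟩,
  ⟨1, 10, 0, 0, 11, 0, 0, 0, 1, 2, 0, 0, 1, 0⟩,
  ⟨1, 12, 0, 0, 13, 0, 0, 0, 1, 6, 0, 0, 1, 0⟩,
  ⟨1, 14, 0, 0, 15, 0, 0, 0, 1, 23, (-12), 12, 2, 1⟩,
  ⟨1, 16, 0, 0, 17, 0, 0, 0, (-1), 20, (-12), 12, 1, 1⟩,
  ⟨1, 18, 0, 0, 19, 0, 0, 0, 1, 36, 0, 12, 1, 0⟩,
  ⟨1, 20, 0, 0, 21, 0, 0, 0, (-1), 30, 0, 12, 1, 0⟩,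
  ⟨2, 1, 0, 0, 3, 0, 0, 0, 1, 26, 0, 12, 1, 0⟩,
  ⟨2, 3, 0, 0, 5, 0, 0, 0, (-1), 24, 0, 12, 1, 0⟩,
  ⟨2, 5, 0, 0, 7, 0, 0, 0, 1, 27, (-12), 12, 1, 1⟩,
  ⟨2, 7, 0, 0, 5, 1, 0, 0, (-1), 21, (-12), 12, 1, 1⟩,
  ⟨2, 5, 1, 1, 9, 0, 0, 0, (-1), 1, 0, 0, 1, 0⟩,
  ⟨2, 9, 0, 0, 11, 0, 0, 0, 1, 15, 0, 0, 1, 0⟩,
  ⟨2, 11, 0, 0, 13, 0, 0, 0, (-1), 3, 0, 0, 1, 0⟩,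
  ⟨2, 13, 0, 0, 15, 1, 1, 0, 1, 9, 0, 0, 1, 0⟩,
  ⟨2, 15, 1, 0, 17, 0, 0, 0, (-1), 12, (-12), 12, 1, 1⟩,
  ⟨2, 17, 0, 0, 15, 0, 0, 0, 1, 18, (-12), 12, 1, 1⟩,
  ⟨2, 15, 0, 0, 21, 0, 0, 0, (-1), 31, 0, 12, 1, 0⟩,
  ⟨2, 19, 0, 0, 1, 0, 0, 1, (-1), 35, 0, 12, 1, 0⟩,
  ⟨2, 21, 0, 0, 19, 0, 0, 0, 1, 32, 0, 12, 1, 0⟩]

theorem g1_1 (t : ℕ) : IsGraceful (genPetersen (13 + 4 * t) 1) :=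
  sound (V := V1_1) (W := W1_1) (by decide +kernel) t

def V1_2 : List VP :=
  [⟨0, 0, 1, 0, 0, 0, 0, 1, 0⟩,
  ⟨1, 0, 1, 0, 40, 0, 12, 1, 0⟩,
  ⟨0, 1, 1, 0, 42, 0, 12, 1, 0⟩,
  ⟨1, 1, 1, 0, 11, 0, 0, 1, 0⟩,
  ⟨0, 2, 2, 0, 6, 6, 0, 2, 1⟩,
  ⟨1, 2, 2, 0, 38, (-6), 12, 2, 1⟩,
  ⟨0, 3, 2, 0, 25, (-6), 12, 1, 1⟩,
  ⟨1, 3, 2, 0, 8, 6, 0, 1, 1⟩,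
  ⟨0, 5, 1, 2, 22, 0, 6, 1, 0⟩,
  ⟨1, 5, 1, 2, 14, 0, 6, 1, 0⟩,
  ⟨0, 6, 1, 2, 15, 0, 6, 1, 0⟩,
  ⟨1, 6, 1, 2, 16, 0, 6, 1, 0⟩,
  ⟨0, 7, 1, 2, 19, 0, 6, 1, 0⟩,
  ⟨1, 7, 1, 2, 13, 0, 6, 1, 0⟩,
  ⟨0, 11, (-2), 4, 29, (-6), 12, 2, 1⟩,
  ⟨1, 11, (-2), 4, 3, 6, 0, 2, 1⟩,
  ⟨0, 10, (-2), 4, 1, 6, 0, 2, 1⟩,
  ⟨1, 10, (-2), 4, 24, (-6), 12, 2, 1⟩,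
  ⟨0, 13, 1, 4, 41, 0, 12, 1, 0⟩,
  ⟨1, 13, 1, 4, 2, 0, 0, 1, 0⟩,
  ⟨0, 12, 1, 4, 4, 0, 0, 1, 0⟩,
  ⟨1, 12, 1, 4, 37, 0, 12, 1, 0⟩]

def W1_2 : List EP :=
  [⟨0, 0, 0, 0, 2, 0, 0, 0, (-1), 42, 0, 12, 1, 0⟩,
  ⟨0, 2, 0, 0, 4, 0, 0, 0, 1, 36, 0, 12, 1, 0⟩,
  ⟨0, 4, 0, 0, 6, 0, 0, 0, (-1), 19, (-12), 12, 1, 1⟩,
  ⟨0, 6, 0, 0, 4, 1, 0, 0, 1, 13, (-12), 12, 1, 1⟩,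
  ⟨0, 4, 1, 1, 8, 0, 0, 0, (-1), 10, 0, 0, 1, 0⟩,
  ⟨0, 8, 0, 0, 10, 0, 0, 0, 1, 7, 0, 0, 1, 0⟩,
  ⟨0, 10, 0, 0, 12, 0, 0, 0, (-1), 4, 0, 0, 1, 0⟩,
  ⟨0, 12, 0, 0, 16, 1, 1, 0, 1, 12, 0, 0, 1, 0⟩,
  ⟨0, 14, 1, 0, 16, 0, 0, 0, 1, 22, (-12), 12, 1, 1⟩,
  ⟨0, 16, 0, 0, 14, 0, 0, 0, (-1), 28, (-12), 12, 2, 1⟩,
  ⟨0, 14, 0, 0, 20, 0, 0, 0, 1, 25, 0, 12, 1, 0⟩,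
  ⟨0, 18, 0, 0, 0, 0, 0, 1, 1, 41, 0, 12, 1, 0⟩,
  ⟨0, 20, 0, 0, 18, 0, 0, 0, (-1), 37, 0, 12, 1, 0⟩,
  ⟨1, 0, 0, 0, 1, 0, 0, 0, (-1), 40, 0, 12, 1, 0⟩,
  ⟨1, 2, 0, 0, 3, 0, 0, 0, 1, 31, 0, 12, 1, 0⟩,
  ⟨1, 4, 0, 0, 5, 0, 0, 0, (-1), 32, (-12), 12, 2, 1⟩,
  ⟨1, 6, 0, 0, 7, 0, 0, 0, 1, 17, (-12), 12, 1, 1⟩,
  ⟨1, 8, 0, 0, 9, 0, 0, 0, 1, 8, 0, 0, 1, 0⟩,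
  ⟨1, 10, 0, 0, 11, 0, 0, 0, (-1), 1, 0, 0, 1, 0⟩,
  ⟨1, 12, 0, 0, 13, 0, 0, 0, 1, 6, 0, 0, 1, 0⟩,
  ⟨1, 14, 0, 0, 15, 0, 0, 0, 1, 26, (-12), 12, 2, 1⟩,
  ⟨1, 16, 0, 0, 17, 0, 0, 0, (-1), 23, (-12), 12, 2, 1⟩,
  ⟨1, 18, 0, 0, 19, 0, 0, 0, 1, 39, 0, 12, 1, 0⟩,
  ⟨1, 20, 0, 0, 21, 0, 0, 0, (-1), 33, 0, 12, 1, 0⟩,
  ⟨2, 1, 0, 0, 3, 0, 0, 0, 1, 29, 0, 12, 1, 0⟩,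
  ⟨2, 3, 0, 0, 5, 0, 0, 0, (-1), 27, 0, 12, 1, 0⟩,
  ⟨2, 5, 0, 0, 7, 0, 0, 0, 1, 30, (-12), 12, 1, 1⟩,
  ⟨2, 7, 0, 0, 5, 1, 0, 0, (-1), 24, (-12), 12, 1, 1⟩,
  ⟨2, 5, 1, 1, 9, 0, 0, 0, 1, 18, 0, 0, 1, 0⟩,
  ⟨2, 9, 0, 0, 11, 0, 0, 0, (-1), 2, 0, 0, 1, 0⟩,
  ⟨2, 11, 0, 0, 13, 0, 0, 0, 1, 3, 0, 0, 1, 0⟩,
  ⟨2, 13, 0, 0, 17, 1, 1, 0, (-1), 5, 0, 0, 1, 0⟩,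
  ⟨2, 15, 1, 0, 17, 0, 0, 0, (-1), 15, (-12), 12, 1, 1⟩,
  ⟨2, 17, 0, 0, 15, 0, 0, 0, 1, 21, (-12), 12, 2, 1⟩,
  ⟨2, 15, 0, 0, 21, 0, 0, 0, (-1), 34, 0, 12, 1, 0⟩,
  ⟨2, 19, 0, 0, 1, 0, 0, 1, (-1), 38, 0, 12, 1, 0⟩,
  ⟨2, 21, 0, 0, 19, 0, 0, 0, 1, 35, 0, 12, 1, 0⟩]

theorem g1_2 (t : ℕ) : IsGraceful (genPetersen (14 + 4 * t) 1) :=
  sound (V := V1_2) (W := W1_2) (by decide +kernel) t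

def V1_3 : List VP :=
  [⟨0, 0, 1, 0, 0, 0, 0, 1, 0⟩,
  ⟨1, 0, 1, 0, 55, 0, 12, 1, 0⟩,
  ⟨0, 1, 1, 0, 57, 0, 12, 1, 0⟩,
  ⟨1, 1, 1, 0, 11, 0, 0, 1, 0⟩,
  ⟨0, 2, 2, 0, 6, 6, 0, 4, 1⟩,
  ⟨1, 2, 2, 0, 53, (-6), 12, 4, 1⟩,
  ⟨0, 3, 2, 0, 40, (-6), 12, 3, 1⟩,
  ⟨1, 3, 2, 0, 8, 6, 0, 3, 1⟩,
  ⟨0, 9, 1, 2, 10, 0, 6, 1, 0⟩,
  ⟨1, 9, 1, 2, 23, 0, 6, 1, 0⟩,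
  ⟨0, 10, 1, 2, 16, 0, 6, 1, 0⟩,
  ⟨1, 10, 1, 2, 21, 0, 6, 1, 0⟩,
  ⟨0, 11, 1, 2, 13, 0, 6, 1, 0⟩,
  ⟨1, 11, 1, 2, 22, 0, 6, 1, 0⟩,
  ⟨0, 16, (-2), 4, 44, (-6), 12, 3, 1⟩,
  ⟨1, 16, (-2), 4, 3, 6, 0, 3, 1⟩,
  ⟨0, 15, (-2), 4, 1, 6, 0, 2, 1⟩,
  ⟨1, 15, (-2), 4, 39, (-6), 12, 2, 1⟩,
  ⟨0, 18, 1, 4, 56, 0, 12, 1, 0⟩,
  ⟨1, 18, 1, 4, 2, 0, 0, 1, 0⟩,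
  ⟨0, 17, 1, 4, 4, 0, 0, 1, 0⟩,
  ⟨1, 17, 1, 4, 52, 0, 12, 1, 0⟩]

def W1_3 : List EP :=
  [⟨0, 0, 0, 0, 2, 0, 0, 0, (-1), 57, 0, 12, 1, 0⟩,
  ⟨0, 2, 0, 0, 4, 0, 0, 0, 1, 51, 0, 12, 1, 0⟩,
  ⟨0, 4, 0, 0, 6, 0, 0, 0, (-1), 34, (-12), 12, 3, 1⟩,
  ⟨0, 6, 0, 0, 4, 1, 0, 0, 1, 28, (-12), 12, 3, 1⟩,
  ⟨0, 4, 3, 1, 8, 0, 0, 0, 1, 14, 0, 0, 1, 0⟩,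
  ⟨0, 8, 0, 0, 10, 0, 0, 0, (-1), 6, 0, 0, 1, 0⟩,
  ⟨0, 10, 0, 0, 12, 0, 0, 0, 1, 3, 0, 0, 1, 0⟩,
  ⟨0, 12, 0, 0, 14, 2, 1, 0, (-1), 19, 0, 0, 1, 0⟩,
  ⟨0, 14, 1, 0, 16, 0, 0, 0, 1, 37, (-12), 12, 2, 1⟩,
  ⟨0, 16, 0, 0, 14, 0, 0, 0, (-1), 43, (-12), 12, 2, 1⟩,
  ⟨0, 14, 0, 0, 20, 0, 0, 0, 1, 40, 0, 12, 1, 0⟩,
  ⟨0, 18, 0, 0, 0, 0, 0, 1, 1, 56, 0, 12, 1, 0⟩,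
  ⟨0, 20, 0, 0, 18, 0, 0, 0, (-1), 52, 0, 12, 1, 0⟩,
  ⟨1, 0, 0, 0, 1, 0, 0, 0, (-1), 55, 0, 12, 1, 0⟩,
  ⟨1, 2, 0, 0, 3, 0, 0, 0, 1, 46, 0, 12, 1, 0⟩,
  ⟨1, 4, 0, 0, 5, 0, 0, 0, (-1), 47, (-12), 12, 4, 1⟩,
  ⟨1, 6, 0, 0, 7, 0, 0, 0, 1, 32, (-12), 12, 3, 1⟩,
  ⟨1, 8, 0, 0, 9, 0, 0, 0, (-1), 13, 0, 0, 1, 0⟩,
  ⟨1, 10, 0, 0, 11, 0, 0, 0, (-1), 5, 0, 0, 1, 0⟩,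
  ⟨1, 12, 0, 0, 13, 0, 0, 0, (-1), 9, 0, 0, 1, 0⟩,
  ⟨1, 14, 0, 0, 15, 0, 0, 0, 1, 41, (-12), 12, 3, 1⟩,
  ⟨1, 16, 0, 0, 17, 0, 0, 0, (-1), 38, (-12), 12, 2, 1⟩,
  ⟨1, 18, 0, 0, 19, 0, 0, 0, 1, 54, 0, 12, 1, 0⟩,
  ⟨1, 20, 0, 0, 21, 0, 0, 0, (-1), 48, 0, 12, 1, 0⟩,
  ⟨2, 1, 0, 0, 3, 0, 0, 0, 1, 44, 0, 12, 1, 0⟩,
  ⟨2, 3, 0, 0, 5, 0, 0, 0, (-1), 42, 0, 12, 1, 0⟩,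
  ⟨2, 5, 0, 0, 7, 0, 0, 0, 1, 45, (-12), 12, 3, 1⟩,
  ⟨2, 7, 0, 0, 5, 1, 0, 0, (-1), 39, (-12), 12, 3, 1⟩,
  ⟨2, 5, 3, 1, 9, 0, 0, 0, 1, 12, 0, 0, 1, 0⟩,
  ⟨2, 9, 0, 0, 11, 0, 0, 0, 1, 2, 0, 0, 1, 0⟩,
  ⟨2, 11, 0, 0, 13, 0, 0, 0, (-1), 1, 0, 0, 1, 0⟩,
  ⟨2, 13, 0, 0, 15, 2, 1, 0, 1, 7, 0, 0, 1, 0⟩,
  ⟨2, 15, 1, 0, 17, 0, 0, 0, (-1), 30, (-12), 12, 2, 1⟩,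
  ⟨2, 17, 0, 0, 15, 0, 0, 0, 1, 36, (-12), 12, 2, 1⟩,
  ⟨2, 15, 0, 0, 21, 0, 0, 0, (-1), 49, 0, 12, 1, 0⟩,
  ⟨2, 19, 0, 0, 1, 0, 0, 1, (-1), 53, 0, 12, 1, 0⟩,
  ⟨2, 21, 0, 0, 19, 0, 0, 0, 1, 50, 0, 12, 1, 0⟩]

theorem g1_3 (t : ℕ) : IsGraceful (genPetersen (19 + 4 * t) 1) :=
  sound (V := V1_3) (W := W1_3) (by decide +kernel) t

theorem s1_3 : IsGraceful (genPetersen 3 1) :=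
  small_sound (U := [9, 8, 1])
    (V := [0, 2, 5])
    (D := [1, 7, 8, 9, 6, 4, 2, 3, 5]) (by decide +kernel)

theorem s1_4 : IsGraceful (genPetersen 4 1) :=
  small_sound (U := [12, 4, 6, 0])
    (V := [1, 8, 5, 10])
    (D := [8, 2, 6, 12, 11, 4, 1, 10, 7, 3, 5, 9]) (by decide +kernel)

theorem s1_5 : IsGraceful (genPetersen 5 1) :=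
  small_sound (U := [15, 4, 7, 2, 1])
    (V := [0, 10, 3, 11, 13])
    (D := [11, 3, 5, 1, 14, 15, 6, 4, 9, 12, 10, 7, 8, 2, 13]) (by decide +kernel)

theorem s1_6 : IsGraceful (genPetersen 6 1) :=
  small_sound (U := [0, 14, 9, 15, 6, 18])
    (V := [17, 4, 12, 11, 13, 2])
    (D := [14, 5, 6, 9, 12, 18, 17, 10, 3, 4, 7, 16, 13, 8, 1, 2, 11, 15]) (by decide +kernel)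

theorem s1_7 : IsGraceful (genPetersen 7 1) :=
  small_sound (U := [0, 19, 8, 11, 2, 3, 17])
    (V := [21, 6, 14, 16, 20, 13, 1])
    (D := [19, 11, 3, 9, 1, 14, 17, 21, 13, 6, 5, 18, 10, 16, 15, 8, 2, 4, 7, 12, 20]) (by decide +kernel)

theorem s1_8 : IsGraceful (genPetersen 8 1) :=
  small_sound (U := [0, 22, 7, 14, 12, 15, 3, 21])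
    (V := [24, 5, 18, 23, 13, 9, 17, 1])
    (D := [22, 15, 7, 2, 3, 12, 18, 21, 24, 17, 11, 9, 1, 6, 14, 20, 19, 13, 5, 10, 4, 8, 16, 23]) (by decide +kernel)

theorem s1_9 : IsGraceful (genPetersen 9 1) :=
  small_sound (U := [27, 4, 18, 7, 9, 3, 8, 23, 1])
    (V := [0, 21, 2, 15, 16, 13, 17, 5, 25])
    (D := [23, 14, 11, 2, 6, 5, 15, 22, 26, 27, 17, 16, 8, 7, 10, 9, 18, 24, 21, 19, 13, 1, 3, 4, 12, 20, 25]) (by decide +kernel)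

theorem s1_10 : IsGraceful (genPetersen 10 1) :=
  small_sound (U := [0, 26, 6, 19, 12, 20, 1, 25, 7, 30])
    (V := [29, 4, 21, 10, 13, 15, 5, 11, 23, 2])
    (D := [26, 20, 13, 7, 8, 19, 24, 18, 23, 30, 29, 22, 15, 9, 1, 5, 4, 14, 16, 28, 25, 17, 11, 3, 2, 10, 6, 12, 21, 27]) (by decide +kernel)

theorem s1_11 : IsGraceful (genPetersen 11 1) :=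
  small_sound (U := [0, 28, 7, 25, 14, 17, 12, 6, 22, 5, 32])
    (V := [33, 4, 30, 10, 23, 16, 20, 18, 8, 27, 2])
    (D := [28, 21, 18, 11, 3, 5, 6, 16, 17, 27, 32, 33, 24, 23, 15, 9, 1, 8, 12, 14, 22, 30, 29, 26, 20, 13, 7, 4, 2, 10, 19, 25, 31]) (by decide +kernel)

theorem s1_12 : IsGraceful (genPetersen 12 1) :=
  small_sound (U := [0, 34, 6, 32, 13, 18, 21, 23, 9, 25, 3, 33])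
    (V := [36, 5, 29, 12, 24, 17, 27, 31, 22, 7, 28, 1])
    (D := [34, 28, 26, 19, 5, 3, 2, 14, 16, 22, 30, 33, 36, 29, 23, 20, 11, 1, 6, 8, 13, 18, 25, 32, 31, 24, 17, 12, 7, 10, 4, 9, 15, 21, 27, 35]) (by decide +kernel)

theorem s1_15 : IsGraceful (genPetersen 15 1) :=
  small_sound (U := [0, 43, 7, 34, 12, 26, 14, 24, 17, 6, 37, 11, 36, 3, 42])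
    (V := [45, 5, 39, 10, 28, 9, 18, 23, 25, 19, 16, 31, 8, 38, 1])
    (D := [43, 36, 27, 22, 14, 12, 10, 7, 11, 31, 26, 25, 33, 39, 42, 45, 38, 32, 24, 16, 17, 4, 1, 8, 13, 21, 20, 28, 35, 41, 40, 34, 29, 18, 19, 9, 5, 2, 6, 3, 15, 23, 30, 37, 44]) (by decide +kernel)

/-- `P(n,1)` is graceful for all `n > 2` -/
theorem gp1 (n : ℕ) (h : 2 < n) : IsGraceful (genPetersen n 1) := by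
  have hr : n % 4 = 0 ∨ n % 4 = 1 ∨ n % 4 = 2 ∨ n % 4 = 3 := by omega
  rcases hr with hr | hr | hr | hr
  · by_cases h0 : 16 ≤ n
    · obtain ⟨t, rfl⟩ : ∃ t, n = 16 + 4 * t := ⟨(n - 16) / 4, by omega⟩
      exact g1_0 t
    · have h1 : n = 4 ∨ n = 8 ∨ n = 12 := by omega
      rcases h1 with rfl | rfl | rfl
      · exact s1_4
      · exact s1_8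
      · exact s1_12
  · by_cases h0 : 13 ≤ n
    · obtain ⟨t, rfl⟩ : ∃ t, n = 13 + 4 * t := ⟨(n - 13) / 4, by omega⟩
      exact g1_1 t
    · have h1 : n = 5 ∨ n = 9 := by omega
      rcases h1 with rfl | rfl
      · exact s1_5
      · exact s1_9
  · by_cases h0 : 14 ≤ n
    · obtain ⟨t, rfl⟩ : ∃ t, n = 14 + 4 * t := ⟨(n - 14) / 4, by omega⟩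
      exact g1_2 t
    · have h1 : n = 6 ∨ n = 10 := by omega
      rcases h1 with rfl | rfl
      · exact s1_6
      · exact s1_10
  · by_cases h0 : 19 ≤ n
    · obtain ⟨t, rfl⟩ : ∃ t, n = 19 + 4 * t := ⟨(n - 19) / 4, by omega⟩
      exact g1_3 t
    · have h1 : n = 3 ∨ n = 7 ∨ n = 11 ∨ n = 15 := by omega
      rcases h1 with rfl | rfl | rfl | rfl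
      · exact s1_3
      · exact s1_7
      · exact s1_11
      · exact s1_15

end Pool.Agent.Helper40.GP
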