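import Pool.Agent.Helper40.GP10R0
import Pool.Agent.Helper40.GP10R1
import Pool.Agent.Helper40.GP10R2
import Pool.Agent.Helper40.GP10R3
import Pool.Agent.Helper40.GP10S

/-!
# Labellings of `P(n,10)`
-/

set_option autoImplicit false
set_option maxRecDepth 100000

namespace Pool.Agent.Helper40.GP

open Pool.Agent.Helper20.Graceful

/-- `P(n,10)` is graceful for all `n > 20` -/
theorem gp10 (n : ℕ) (h : 20 < n) : IsGraceful (genPetersen n 10) := by
  have hr : n % 8 = 0 ∨ n % 8 = 1 ∨ n % 8 = 2 ∨ n % 8 = 3 ∨ n % 8 = 4 ∨ n % 8 = 5 ∨ n % 8 = 6 ∨ n % 8 = 7 := by omega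
  rcases hr with hr | hr | hr | hr | hr | hr | hr | hr
  · by_cases h0 : 72 ≤ n
    · obtain ⟨t, rfl⟩ : ∃ t, n = 72 + 8 * t := ⟨(n - 72) / 8, by omega⟩
      exact g10_0 t
    · have h1 : n = 24 ∨ n = 32 ∨ n = 40 ∨ n = 48 ∨ n = 56 ∨ n = 64 := by omega
      rcases h1 with rfl | rfl | rfl | rfl | rfl | rfl
      · exact s10_24
      · exact s10_32
      · exact s10_40
      · exact s10_48
      · exact s10_56
      · exact s10_64
  · by_cases h0 : 81 ≤ n
    · obtain ⟨t, rfl⟩ : ∃ t, n = 81 + 8 * t := ⟨(n - 81) / 8, by omega⟩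
      exact g10_1 t
    · have h1 : n = 25 ∨ n = 33 ∨ n = 41 ∨ n = 49 ∨ n = 57 ∨ n = 65 ∨ n = 73 := by omega
      rcases h1 with rfl | rfl | rfl | rfl | rfl | rfl | rfl
      · exact s10_25
      · exact s10_33
      · exact s10_41
      · exact s10_49
      · exact s10_57
      · exact s10_65
      · exact s10_73
  · by_cases h0 : 74 ≤ n
    · obtain ⟨t, rfl⟩ : ∃ t, n = 74 + 8 * t := ⟨(n - 74) / 8, by omega⟩
      exact g10_2 t
    · have h1 : n = 26 ∨ n = 34 ∨ n = 42 ∨ n = 50 ∨ n = 58 ∨ n = 66 := by omega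
      rcases h1 with rfl | rfl | rfl | rfl | rfl | rfl
      · exact s10_26
      · exact s10_34
      · exact s10_42
      · exact s10_50
      · exact s10_58
      · exact s10_66
  · by_cases h0 : 75 ≤ n
    · obtain ⟨t, rfl⟩ : ∃ t, n = 75 + 8 * t := ⟨(n - 75) / 8, by omega⟩
      exact g10_3 t
    · have h1 : n = 27 ∨ n = 35 ∨ n = 43 ∨ n = 51 ∨ n = 59 ∨ n = 67 := by omega
      rcases h1 with rfl | rfl | rfl | rfl | rfl | rfl
      · exact s10_27
      · exact s10_35
      · exact s10_43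
      · exact s10_51
      · exact s10_59
      · exact s10_67
  · by_cases h0 : 68 ≤ n
    · obtain ⟨t, rfl⟩ : ∃ t, n = 68 + 8 * t := ⟨(n - 68) / 8, by omega⟩
      exact g10_4 t
    · have h1 : n = 28 ∨ n = 36 ∨ n = 44 ∨ n = 52 ∨ n = 60 := by omega
      rcases h1 with rfl | rfl | rfl | rfl | rfl
      · exact s10_28
      · exact s10_36
      · exact s10_44
      · exact s10_52
      · exact s10_60
  · by_cases h0 : 77 ≤ n
    · obtain ⟨t, rfl⟩ : ∃ t, n = 77 + 8 * t := ⟨(n - 77) / 8, by omega⟩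
      exact g10_5 t
    · have h1 : n = 21 ∨ n = 29 ∨ n = 37 ∨ n = 45 ∨ n = 53 ∨ n = 61 ∨ n = 69 := by omega
      rcases h1 with rfl | rfl | rfl | rfl | rfl | rfl | rfl
      · exact s10_21
      · exact s10_29
      · exact s10_37
      · exact s10_45
      · exact s10_53
      · exact s10_61
      · exact s10_69
  · by_cases h0 : 70 ≤ n
    · obtain ⟨t, rfl⟩ : ∃ t, n = 70 + 8 * t := ⟨(n - 70) / 8, by omega⟩
      exact g10_6 t
    · have h1 : n = 22 ∨ n = 30 ∨ n = 38 ∨ n = 46 ∨ n = 54 ∨ n = 62 := by omega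
      rcases h1 with rfl | rfl | rfl | rfl | rfl | rfl
      · exact s10_22
      · exact s10_30
      · exact s10_38
      · exact s10_46
      · exact s10_54
      · exact s10_62
  · by_cases h0 : 79 ≤ n
    · obtain ⟨t, rfl⟩ : ∃ t, n = 79 + 8 * t := ⟨(n - 79) / 8, by omega⟩
      exact g10_7 t
    · have h1 : n = 23 ∨ n = 31 ∨ n = 39 ∨ n = 47 ∨ n = 55 ∨ n = 63 ∨ n = 71 := by omega
      rcases h1 with rfl | rfl | rfl | rfl | rfl | rfl | rfl
      · exact s10_23
      · exact s10_31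
      · exact s10_39
      · exact s10_47
      · exact s10_55
      · exact s10_63
      · exact s10_71

end Pool.Agent.Helper40.GP
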