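import Pool.Agent.Helper40.GPChk

/-!
# Labellings of `P(n,10)`
-/

set_option autoImplicit false
set_option maxRecDepth 100000

namespace Pool.Agent.Helper40.GP

open Pool.Agent.Helper20.Graceful

def V10_0 : List VP :=
  [⟨0, 0, 1, 0, 9, 0, 0, 1, 0⟩,
  ⟨1, 0, 1, 0, 211, 0, 24, 1, 0⟩,
  ⟨0, 1, 1, 0, 18, 0, 0, 1, 0⟩,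
  ⟨1, 1, 1, 0, 208, 0, 24, 1, 0⟩,
  ⟨0, 2, 1, 0, 209, 0, 24, 1, 0⟩,
  ⟨1, 2, 1, 0, 25, 0, 0, 1, 0⟩,
  ⟨0, 3, 1, 0, 27, 0, 0, 1, 0⟩,
  ⟨1, 3, 1, 0, 4, 0, 0, 1, 0⟩,
  ⟨0, 4, 1, 0, 169, 0, 24, 1, 0⟩,
  ⟨1, 4, 1, 0, 37, 0, 0, 1, 0⟩,
  ⟨0, 5, 1, 0, 31, 0, 0, 1, 0⟩,
  ⟨1, 5, 1, 0, 179, 0, 24, 1, 0⟩,
  ⟨0, 6, 1, 0, 187, 0, 24, 1, 0⟩,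
  ⟨1, 6, 1, 0, 41, 0, 0, 1, 0⟩,
  ⟨0, 7, 1, 0, 16, 0, 0, 1, 0⟩,
  ⟨1, 7, 1, 0, 199, 0, 24, 1, 0⟩,
  ⟨0, 8, 1, 0, 204, 0, 24, 1, 0⟩,
  ⟨1, 8, 1, 0, 29, 0, 0, 1, 0⟩,
  ⟨0, 9, 1, 0, 0, 0, 0, 1, 0⟩,
  ⟨1, 9, 1, 0, 216, 0, 24, 1, 0⟩,
  ⟨0, 10, 1, 0, 214, 0, 24, 1, 0⟩,
  ⟨1, 10, 1, 0, 3, 0, 0, 1, 0⟩,
  ⟨0, 11, 1, 0, 195, 0, 24, 1, 0⟩,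
  ⟨1, 11, 1, 0, 14, 0, 0, 1, 0⟩,
  ⟨0, 12, 4, 0, 33, 12, 0, 5, 1⟩,
  ⟨1, 12, 4, 0, 197, (-12), 24, 5, 1⟩,
  ⟨0, 13, 4, 0, 167, (-12), 24, 4, 1⟩,
  ⟨1, 13, 4, 0, 196, (-4), 24, 4, 1⟩,
  ⟨0, 14, 4, 0, 49, 12, 0, 4, 1⟩,
  ⟨1, 14, 4, 0, 24, 4, 0, 4, 1⟩,
  ⟨0, 15, 4, 0, 157, (-12), 24, 4, 1⟩,
  ⟨1, 15, 4, 0, 43, 12, 0, 4, 1⟩,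
  ⟨0, 29, 1, 4, 97, 0, 12, 1, 0⟩,
  ⟨1, 29, 1, 4, 174, 0, 20, 1, 0⟩,
  ⟨0, 30, 1, 4, 115, 0, 12, 1, 0⟩,
  ⟨1, 30, 1, 4, 46, 0, 4, 1, 0⟩,
  ⟨0, 31, 1, 4, 109, 0, 12, 1, 0⟩,
  ⟨1, 31, 1, 4, 95, 0, 12, 1, 0⟩,
  ⟨0, 32, 1, 4, 129, 0, 12, 1, 0⟩,
  ⟨1, 32, 1, 4, 64, 0, 4, 1, 0⟩,
  ⟨0, 33, 1, 4, 99, 0, 12, 1, 0⟩,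
  ⟨1, 33, 1, 4, 172, 0, 20, 1, 0⟩,
  ⟨0, 34, 1, 4, 107, 0, 12, 1, 0⟩,
  ⟨1, 34, 1, 4, 50, 0, 4, 1, 0⟩,
  ⟨0, 35, 1, 4, 168, 0, 20, 1, 0⟩,
  ⟨1, 35, 1, 4, 140, 0, 20, 1, 0⟩,
  ⟨0, 36, 1, 4, 93, 0, 12, 1, 0⟩,
  ⟨1, 36, 1, 4, 117, 0, 12, 1, 0⟩,
  ⟨0, 37, 1, 4, 105, 0, 12, 1, 0⟩,
  ⟨1, 37, 1, 4, 176, 0, 20, 1, 0⟩,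
  ⟨0, 38, 1, 4, 103, 0, 12, 1, 0⟩,
  ⟨1, 38, 1, 4, 40, 0, 4, 1, 0⟩,
  ⟨0, 39, 1, 4, 170, 0, 20, 1, 0⟩,
  ⟨1, 39, 1, 4, 83, 0, 12, 1, 0⟩,
  ⟨0, 40, 1, 4, 87, 0, 12, 1, 0⟩,
  ⟨1, 40, 1, 4, 141, 0, 12, 1, 0⟩,
  ⟨0, 41, 1, 4, 91, 0, 12, 1, 0⟩,
  ⟨1, 41, 1, 4, 180, 0, 20, 1, 0⟩,
  ⟨0, 59, (-4), 8, 175, (-12), 24, 5, 1⟩,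
  ⟨1, 59, (-4), 8, 23, 12, 0, 5, 1⟩,
  ⟨0, 58, (-4), 8, 53, 12, 0, 5, 1⟩,
  ⟨1, 58, (-4), 8, 26, 4, 0, 5, 1⟩,
  ⟨0, 57, (-4), 8, 159, (-12), 24, 4, 1⟩,
  ⟨1, 57, (-4), 8, 190, (-4), 24, 4, 1⟩,
  ⟨0, 56, (-4), 8, 39, 12, 0, 4, 1⟩,
  ⟨1, 56, (-4), 8, 189, (-12), 24, 4, 1⟩,
  ⟨0, 71, 1, 8, 210, 0, 24, 1, 0⟩,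
  ⟨1, 71, 1, 8, 1, 0, 0, 1, 0⟩,
  ⟨0, 70, 1, 8, 5, 0, 0, 1, 0⟩,
  ⟨1, 70, 1, 8, 202, 0, 24, 1, 0⟩,
  ⟨0, 69, 1, 8, 212, 0, 24, 1, 0⟩,
  ⟨1, 69, 1, 8, 6, 0, 0, 1, 0⟩,
  ⟨0, 68, 1, 8, 2, 0, 0, 1, 0⟩,
  ⟨1, 68, 1, 8, 171, 0, 24, 1, 0⟩,
  ⟨0, 67, 1, 8, 215, 0, 24, 1, 0⟩,
  ⟨1, 67, 1, 8, 12, 0, 0, 1, 0⟩,
  ⟨0, 66, 1, 8, 15, 0, 0, 1, 0⟩,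
  ⟨1, 66, 1, 8, 194, 0, 24, 1, 0⟩,
  ⟨0, 65, 1, 8, 200, 0, 24, 1, 0⟩,
  ⟨1, 65, 1, 8, 203, 0, 24, 1, 0⟩,
  ⟨0, 64, 1, 8, 20, 0, 0, 1, 0⟩,
  ⟨1, 64, 1, 8, 183, 0, 24, 1, 0⟩,
  ⟨0, 63, 1, 8, 206, 0, 24, 1, 0⟩,
  ⟨1, 63, 1, 8, 10, 0, 0, 1, 0⟩,
  ⟨0, 62, 1, 8, 11, 0, 0, 1, 0⟩,
  ⟨1, 62, 1, 8, 22, 0, 0, 1, 0⟩,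
  ⟨0, 61, 1, 8, 198, 0, 24, 1, 0⟩,
  ⟨1, 61, 1, 8, 213, 0, 24, 1, 0⟩,
  ⟨0, 60, 1, 8, 21, 0, 0, 1, 0⟩,
  ⟨1, 60, 1, 8, 181, 0, 24, 1, 0⟩]

def W10_0 : List EP :=
  [⟨0, 0, 0, 0, 2, 0, 0, 0, (-1), 9, 0, 0, 1, 0⟩,
  ⟨0, 2, 0, 0, 4, 0, 0, 0, (-1), 191, 0, 24, 1, 0⟩,
  ⟨0, 4, 0, 0, 6, 0, 0, 0, 1, 182, 0, 24, 1, 0⟩,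
  ⟨0, 6, 0, 0, 8, 0, 0, 0, (-1), 142, 0, 24, 1, 0⟩,
  ⟨0, 8, 0, 0, 10, 0, 0, 0, 1, 138, 0, 24, 1, 0⟩,
  ⟨0, 10, 0, 0, 12, 0, 0, 0, (-1), 156, 0, 24, 1, 0⟩,
  ⟨0, 12, 0, 0, 14, 0, 0, 0, 1, 171, 0, 24, 1, 0⟩,
  ⟨0, 14, 0, 0, 16, 0, 0, 0, (-1), 188, 0, 24, 1, 0⟩,
  ⟨0, 16, 0, 0, 18, 0, 0, 0, 1, 204, 0, 24, 1, 0⟩,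
  ⟨0, 18, 0, 0, 20, 0, 0, 0, (-1), 214, 0, 24, 1, 0⟩,
  ⟨0, 20, 0, 0, 22, 0, 0, 0, 1, 19, 0, 0, 1, 0⟩,
  ⟨0, 22, 0, 0, 24, 0, 0, 0, 1, 162, 0, 24, 1, 0⟩,
  ⟨0, 24, 0, 0, 26, 0, 0, 0, (-1), 134, (-24), 24, 4, 1⟩,
  ⟨0, 26, 0, 0, 28, 0, 0, 0, 1, 118, (-24), 24, 4, 1⟩,
  ⟨0, 28, 0, 0, 30, 0, 0, 0, (-1), 108, (-24), 24, 4, 1⟩,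
  ⟨0, 30, 0, 0, 24, 1, 0, 0, 1, 112, (-24), 24, 4, 1⟩,
  ⟨0, 24, 4, 1, 32, 0, 0, 0, (-1), 16, 0, 0, 1, 0⟩,
  ⟨0, 32, 0, 0, 34, 0, 0, 0, (-1), 18, 0, 0, 1, 0⟩,
  ⟨0, 34, 0, 0, 36, 0, 0, 0, 1, 6, 0, 0, 1, 0⟩,
  ⟨0, 36, 0, 0, 38, 0, 0, 0, (-1), 20, 0, 0, 1, 0⟩,
  ⟨0, 38, 0, 0, 40, 0, 0, 0, 1, 30, 0, 0, 1, 0⟩,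
  ⟨0, 40, 0, 0, 42, 0, 0, 0, (-1), 8, 0, 0, 1, 0⟩,
  ⟨0, 42, 0, 0, 44, 0, 0, 0, (-1), 61, 0, 8, 1, 0⟩,
  ⟨0, 44, 0, 0, 46, 0, 0, 0, 1, 75, 0, 8, 1, 0⟩,
  ⟨0, 46, 0, 0, 48, 0, 0, 0, (-1), 12, 0, 0, 1, 0⟩,
  ⟨0, 48, 0, 0, 50, 0, 0, 0, 1, 2, 0, 0, 1, 0⟩,
  ⟨0, 50, 0, 0, 52, 0, 0, 0, (-1), 67, 0, 8, 1, 0⟩,
  ⟨0, 52, 0, 0, 54, 0, 0, 0, 1, 83, 0, 8, 1, 0⟩,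
  ⟨0, 54, 0, 0, 56, 0, 0, 0, (-1), 4, 0, 0, 1, 0⟩,
  ⟨0, 56, 0, 0, 60, 4, 1, 0, (-1), 10, 0, 0, 1, 0⟩,
  ⟨0, 58, 1, 0, 64, 0, 0, 0, 1, 124, (-24), 24, 4, 1⟩,
  ⟨0, 60, 0, 0, 58, 0, 0, 0, (-1), 122, (-24), 24, 5, 1⟩,
  ⟨0, 62, 0, 0, 60, 0, 0, 0, 1, 106, (-24), 24, 4, 1⟩,
  ⟨0, 64, 0, 0, 62, 0, 0, 0, (-1), 120, (-24), 24, 4, 1⟩,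
  ⟨0, 58, 0, 0, 88, 0, 0, 0, 1, 154, 0, 24, 1, 0⟩,
  ⟨0, 66, 0, 0, 0, 0, 0, 1, 1, 201, 0, 24, 1, 0⟩,
  ⟨0, 68, 0, 0, 66, 0, 0, 0, (-1), 205, 0, 24, 1, 0⟩,
  ⟨0, 70, 0, 0, 68, 0, 0, 0, 1, 207, 0, 24, 1, 0⟩,
  ⟨0, 72, 0, 0, 70, 0, 0, 0, (-1), 210, 0, 24, 1, 0⟩,
  ⟨0, 74, 0, 0, 72, 0, 0, 0, 1, 213, 0, 24, 1, 0⟩,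
  ⟨0, 76, 0, 0, 74, 0, 0, 0, (-1), 200, 0, 24, 1, 0⟩,
  ⟨0, 78, 0, 0, 76, 0, 0, 0, 1, 185, 0, 24, 1, 0⟩,
  ⟨0, 80, 0, 0, 78, 0, 0, 0, (-1), 180, 0, 24, 1, 0⟩,
  ⟨0, 82, 0, 0, 80, 0, 0, 0, 1, 186, 0, 24, 1, 0⟩,
  ⟨0, 84, 0, 0, 82, 0, 0, 0, (-1), 195, 0, 24, 1, 0⟩,
  ⟨0, 86, 0, 0, 84, 0, 0, 0, 1, 187, 0, 24, 1, 0⟩,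
  ⟨0, 88, 0, 0, 86, 0, 0, 0, (-1), 177, 0, 24, 1, 0⟩,
  ⟨1, 0, 0, 0, 1, 0, 0, 0, (-1), 202, 0, 24, 1, 0⟩,
  ⟨1, 2, 0, 0, 3, 0, 0, 0, (-1), 190, 0, 24, 1, 0⟩,
  ⟨1, 4, 0, 0, 5, 0, 0, 0, 1, 184, 0, 24, 1, 0⟩,
  ⟨1, 6, 0, 0, 7, 0, 0, 0, 1, 23, 0, 0, 1, 0⟩,
  ⟨1, 8, 0, 0, 9, 0, 0, 0, 1, 132, 0, 24, 1, 0⟩,
  ⟨1, 10, 0, 0, 11, 0, 0, 0, (-1), 148, 0, 24, 1, 0⟩,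
  ⟨1, 12, 0, 0, 13, 0, 0, 0, 1, 146, 0, 24, 1, 0⟩,
  ⟨1, 14, 0, 0, 15, 0, 0, 0, (-1), 183, 0, 24, 1, 0⟩,
  ⟨1, 16, 0, 0, 17, 0, 0, 0, 1, 175, 0, 24, 1, 0⟩,
  ⟨1, 18, 0, 0, 19, 0, 0, 0, (-1), 216, 0, 24, 1, 0⟩,
  ⟨1, 20, 0, 0, 21, 0, 0, 0, 1, 211, 0, 24, 1, 0⟩,
  ⟨1, 22, 0, 0, 23, 0, 0, 0, 1, 181, 0, 24, 1, 0⟩,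
  ⟨1, 24, 0, 0, 25, 0, 0, 0, (-1), 164, (-24), 24, 5, 1⟩,
  ⟨1, 26, 0, 0, 27, 0, 0, 0, (-1), 29, 8, 0, 4, 1⟩,
  ⟨1, 28, 0, 0, 29, 0, 0, 0, 1, 25, 8, 0, 4, 1⟩,
  ⟨1, 30, 0, 0, 31, 0, 0, 0, 1, 114, (-24), 24, 4, 1⟩,
  ⟨1, 32, 0, 0, 33, 0, 0, 0, (-1), 77, 0, 8, 1, 0⟩,
  ⟨1, 34, 0, 0, 35, 0, 0, 0, 1, 69, 0, 8, 1, 0⟩,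
  ⟨1, 36, 0, 0, 37, 0, 0, 0, 1, 14, 0, 0, 1, 0⟩,
  ⟨1, 38, 0, 0, 39, 0, 0, 0, 1, 65, 0, 8, 1, 0⟩,
  ⟨1, 40, 0, 0, 41, 0, 0, 0, (-1), 73, 0, 8, 1, 0⟩,
  ⟨1, 42, 0, 0, 43, 0, 0, 0, 1, 57, 0, 8, 1, 0⟩,
  ⟨1, 44, 0, 0, 45, 0, 0, 0, 1, 28, 0, 0, 1, 0⟩,
  ⟨1, 46, 0, 0, 47, 0, 0, 0, (-1), 24, 0, 0, 1, 0⟩,
  ⟨1, 48, 0, 0, 49, 0, 0, 0, (-1), 71, 0, 8, 1, 0⟩,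
  ⟨1, 50, 0, 0, 51, 0, 0, 0, 1, 63, 0, 8, 1, 0⟩,
  ⟨1, 52, 0, 0, 53, 0, 0, 0, 1, 87, 0, 8, 1, 0⟩,
  ⟨1, 54, 0, 0, 55, 0, 0, 0, (-1), 54, 0, 0, 1, 0⟩,
  ⟨1, 56, 0, 0, 57, 0, 0, 0, (-1), 89, 0, 8, 1, 0⟩,
  ⟨1, 58, 0, 0, 59, 0, 0, 0, 1, 152, (-24), 24, 5, 1⟩,
  ⟨1, 60, 0, 0, 61, 0, 0, 0, 1, 27, 8, 0, 5, 1⟩,
  ⟨1, 62, 0, 0, 63, 0, 0, 0, (-1), 31, 8, 0, 4, 1⟩,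
  ⟨1, 64, 0, 0, 65, 0, 0, 0, (-1), 150, (-24), 24, 4, 1⟩,
  ⟨1, 66, 0, 0, 67, 0, 0, 0, 1, 209, 0, 24, 1, 0⟩,
  ⟨1, 68, 0, 0, 69, 0, 0, 0, (-1), 197, 0, 24, 1, 0⟩,
  ⟨1, 70, 0, 0, 71, 0, 0, 0, 1, 206, 0, 24, 1, 0⟩,
  ⟨1, 72, 0, 0, 73, 0, 0, 0, (-1), 169, 0, 24, 1, 0⟩,
  ⟨1, 74, 0, 0, 75, 0, 0, 0, 1, 203, 0, 24, 1, 0⟩,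
  ⟨1, 76, 0, 0, 77, 0, 0, 0, (-1), 179, 0, 24, 1, 0⟩,
  ⟨1, 78, 0, 0, 79, 0, 0, 0, (-1), 3, 0, 0, 1, 0⟩,
  ⟨1, 80, 0, 0, 81, 0, 0, 0, (-1), 163, 0, 24, 1, 0⟩,
  ⟨1, 82, 0, 0, 83, 0, 0, 0, 1, 196, 0, 24, 1, 0⟩,
  ⟨1, 84, 0, 0, 85, 0, 0, 0, (-1), 11, 0, 0, 1, 0⟩,
  ⟨1, 86, 0, 0, 87, 0, 0, 0, (-1), 15, 0, 0, 1, 0⟩,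
  ⟨1, 88, 0, 0, 89, 0, 0, 0, (-1), 160, 0, 24, 1, 0⟩,
  ⟨2, 1, 0, 0, 21, 0, 0, 0, 1, 208, 0, 24, 1, 0⟩,
  ⟨2, 3, 0, 0, 23, 0, 0, 0, 1, 194, 0, 24, 1, 0⟩,
  ⟨2, 5, 0, 0, 25, 0, 0, 0, (-1), 172, 0, 24, 1, 0⟩,
  ⟨2, 7, 0, 0, 27, 0, 0, 0, (-1), 192, 0, 24, 1, 0⟩,
  ⟨2, 9, 0, 0, 29, 0, 0, 0, 1, 13, 0, 0, 1, 0⟩,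
  ⟨2, 11, 0, 0, 31, 0, 0, 0, 1, 136, 0, 24, 1, 0⟩,
  ⟨2, 13, 0, 0, 25, 1, 0, 0, (-1), 144, 0, 24, 1, 0⟩,
  ⟨2, 15, 0, 0, 27, 1, 0, 0, 1, 7, 0, 0, 1, 0⟩,
  ⟨2, 17, 0, 0, 29, 1, 0, 0, 1, 1, 0, 0, 1, 0⟩,
  ⟨2, 19, 0, 0, 31, 1, 0, 0, 1, 161, 0, 24, 1, 0⟩,
  ⟨2, 21, 0, 0, 25, 2, 0, 0, (-1), 170, 0, 24, 1, 0⟩,
  ⟨2, 23, 0, 0, 27, 2, 0, 0, (-1), 174, 0, 24, 1, 0⟩,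
  ⟨2, 25, 0, 0, 29, 2, 0, 0, 1, 165, (-16), 24, 2, 1⟩,
  ⟨2, 27, 0, 0, 31, 2, 0, 0, 1, 129, (-16), 24, 2, 1⟩,
  ⟨2, 29, 0, 0, 25, 3, 0, 0, (-1), 137, (-16), 24, 2, 1⟩,
  ⟨2, 31, 0, 0, 27, 3, 0, 0, (-1), 141, (-16), 24, 1, 1⟩,
  ⟨2, 31, 1, 1, 33, 0, 0, 0, (-1), 119, 0, 8, 1, 0⟩,
  ⟨2, 25, 2, 1, 35, 0, 0, 0, 1, 127, 0, 8, 1, 0⟩,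
  ⟨2, 27, 2, 1, 37, 0, 0, 0, 1, 93, 0, 8, 1, 0⟩,
  ⟨2, 29, 2, 1, 39, 0, 0, 0, (-1), 32, 0, 0, 1, 0⟩,
  ⟨2, 31, 2, 1, 41, 0, 0, 0, (-1), 105, 0, 8, 1, 0⟩,
  ⟨2, 25, 3, 1, 43, 0, 0, 0, 1, 111, 0, 8, 1, 0⟩,
  ⟨2, 27, 3, 1, 45, 0, 0, 0, 1, 44, 0, 0, 1, 0⟩,
  ⟨2, 29, 3, 1, 47, 0, 0, 0, (-1), 81, 0, 8, 1, 0⟩,
  ⟨2, 31, 3, 1, 49, 0, 0, 0, (-1), 97, 0, 8, 1, 0⟩,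
  ⟨2, 25, 4, 1, 51, 0, 0, 0, 1, 109, 0, 8, 1, 0⟩,
  ⟨2, 33, 0, 0, 53, 0, 0, 0, 1, 91, 0, 8, 1, 0⟩,
  ⟨2, 35, 0, 0, 55, 0, 0, 0, (-1), 95, 0, 8, 1, 0⟩,
  ⟨2, 37, 0, 0, 57, 0, 0, 0, (-1), 85, 0, 8, 1, 0⟩,
  ⟨2, 39, 0, 0, 61, 4, 1, 0, 1, 22, 0, 0, 1, 0⟩,
  ⟨2, 41, 0, 0, 59, 4, 1, 0, 1, 101, 0, 8, 1, 0⟩,
  ⟨2, 43, 0, 0, 65, 3, 1, 0, (-1), 103, 0, 8, 1, 0⟩,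
  ⟨2, 45, 0, 0, 63, 3, 1, 0, (-1), 38, 0, 0, 1, 0⟩,
  ⟨2, 47, 0, 0, 61, 3, 1, 0, 1, 79, 0, 8, 1, 0⟩,
  ⟨2, 49, 0, 0, 59, 3, 1, 0, 1, 117, 0, 8, 1, 0⟩,
  ⟨2, 51, 0, 0, 65, 2, 1, 0, (-1), 125, 0, 8, 1, 0⟩,
  ⟨2, 53, 0, 0, 63, 2, 1, 0, (-1), 99, 0, 8, 1, 0⟩,
  ⟨2, 55, 0, 0, 61, 2, 1, 0, 1, 107, 0, 8, 1, 0⟩,
  ⟨2, 57, 0, 0, 59, 2, 1, 0, 1, 133, 0, 8, 1, 0⟩,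
  ⟨2, 59, 3, 0, 63, 0, 0, 0, (-1), 131, (-16), 24, 2, 1⟩,
  ⟨2, 61, 3, 0, 65, 0, 0, 0, (-1), 151, (-16), 24, 2, 1⟩,
  ⟨2, 63, 2, 0, 59, 0, 0, 0, 1, 159, (-16), 24, 2, 1⟩,
  ⟨2, 65, 2, 0, 61, 0, 0, 0, 1, 139, (-16), 24, 2, 1⟩,
  ⟨2, 59, 0, 0, 71, 0, 0, 0, 1, 17, 0, 0, 1, 0⟩,
  ⟨2, 61, 0, 0, 73, 0, 0, 0, (-1), 145, 0, 24, 1, 0⟩,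
  ⟨2, 63, 0, 0, 75, 0, 0, 0, 1, 178, 0, 24, 1, 0⟩,
  ⟨2, 65, 0, 0, 77, 0, 0, 0, (-1), 5, 0, 0, 1, 0⟩,
  ⟨2, 59, 1, 0, 79, 0, 0, 0, (-1), 168, 0, 24, 1, 0⟩,
  ⟨2, 61, 1, 0, 81, 0, 0, 0, (-1), 153, 0, 24, 1, 0⟩,
  ⟨2, 63, 1, 0, 83, 0, 0, 0, 1, 176, 0, 24, 1, 0⟩,
  ⟨2, 65, 1, 0, 85, 0, 0, 0, 1, 155, 0, 24, 1, 0⟩,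
  ⟨2, 59, 2, 0, 87, 0, 0, 0, (-1), 166, 0, 24, 1, 0⟩,
  ⟨2, 61, 2, 0, 89, 0, 0, 0, (-1), 147, 0, 24, 1, 0⟩,
  ⟨2, 67, 0, 0, 19, 0, 0, 1, (-1), 215, 0, 24, 1, 0⟩,
  ⟨2, 69, 0, 0, 17, 0, 0, 1, 1, 173, 0, 24, 1, 0⟩,
  ⟨2, 71, 0, 0, 15, 0, 0, 1, (-1), 193, 0, 24, 1, 0⟩,
  ⟨2, 73, 0, 0, 13, 0, 0, 1, 1, 130, 0, 24, 1, 0⟩,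
  ⟨2, 75, 0, 0, 11, 0, 0, 1, (-1), 167, 0, 24, 1, 0⟩,
  ⟨2, 77, 0, 0, 9, 0, 0, 1, 1, 157, 0, 24, 1, 0⟩,
  ⟨2, 79, 0, 0, 7, 0, 0, 1, 1, 199, 0, 24, 1, 0⟩,
  ⟨2, 81, 0, 0, 5, 0, 0, 1, 1, 158, 0, 24, 1, 0⟩,
  ⟨2, 83, 0, 0, 3, 0, 0, 1, (-1), 198, 0, 24, 1, 0⟩,
  ⟨2, 85, 0, 0, 1, 0, 0, 1, (-1), 189, 0, 24, 1, 0⟩,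
  ⟨2, 87, 0, 0, 67, 0, 0, 0, 1, 212, 0, 24, 1, 0⟩,
  ⟨2, 89, 0, 0, 69, 0, 0, 0, (-1), 21, 0, 0, 1, 0⟩]

theorem g10_0 (t : ℕ) : IsGraceful (genPetersen (72 + 8 * t) 10) :=
  sound (V := V10_0) (W := W10_0) (by decide +kernel) t

def V10_1 : List VP :=
  [⟨0, 0, 1, 0, 217, 0, 24, 1, 0⟩,
  ⟨1, 0, 1, 0, 9, 0, 0, 1, 0⟩,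
  ⟨0, 1, 1, 0, 43, 0, 0, 1, 0⟩,
  ⟨1, 1, 1, 0, 230, 0, 24, 1, 0⟩,
  ⟨0, 2, 1, 0, 205, 0, 24, 1, 0⟩,
  ⟨1, 2, 1, 0, 39, 0, 0, 1, 0⟩,
  ⟨0, 3, 1, 0, 238, 0, 24, 1, 0⟩,
  ⟨1, 3, 1, 0, 11, 0, 0, 1, 0⟩,
  ⟨0, 4, 1, 0, 4, 0, 0, 1, 0⟩,
  ⟨1, 4, 1, 0, 243, 0, 24, 1, 0⟩,
  ⟨0, 5, 1, 0, 235, 0, 24, 1, 0⟩,
  ⟨1, 5, 1, 0, 12, 0, 0, 1, 0⟩,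
  ⟨0, 6, 1, 0, 5, 0, 0, 1, 0⟩,
  ⟨1, 6, 1, 0, 240, 0, 24, 1, 0⟩,
  ⟨0, 7, 1, 0, 223, 0, 24, 1, 0⟩,
  ⟨1, 7, 1, 0, 41, 0, 0, 1, 0⟩,
  ⟨0, 8, 1, 0, 8, 0, 0, 1, 0⟩,
  ⟨1, 8, 1, 0, 229, 0, 24, 1, 0⟩,
  ⟨0, 9, 1, 0, 236, 0, 24, 1, 0⟩,
  ⟨1, 9, 1, 0, 233, 0, 24, 1, 0⟩,
  ⟨0, 10, 1, 0, 29, 0, 0, 1, 0⟩,
  ⟨1, 10, 1, 0, 20, 0, 0, 1, 0⟩,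
  ⟨0, 11, 1, 0, 232, 0, 24, 1, 0⟩,
  ⟨1, 11, 1, 0, 31, 0, 0, 1, 0⟩,
  ⟨0, 12, 4, 0, 23, 12, 0, 6, 1⟩,
  ⟨1, 12, 4, 0, 211, (-12), 24, 6, 1⟩,
  ⟨0, 13, 4, 0, 193, (-12), 24, 6, 1⟩,
  ⟨1, 13, 4, 0, 222, (-4), 24, 6, 1⟩,
  ⟨0, 14, 4, 0, 55, 12, 0, 5, 1⟩,
  ⟨1, 14, 4, 0, 6, 4, 0, 5, 1⟩,
  ⟨0, 15, 4, 0, 215, (-12), 24, 5, 1⟩,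
  ⟨1, 15, 4, 0, 37, 12, 0, 5, 1⟩,
  ⟨0, 34, 1, 4, 143, 0, 12, 1, 0⟩,
  ⟨1, 34, 1, 4, 26, 0, 4, 1, 0⟩,
  ⟨0, 35, 1, 4, 34, 0, 4, 1, 0⟩,
  ⟨1, 35, 1, 4, 97, 0, 12, 1, 0⟩,
  ⟨0, 36, 1, 4, 155, 0, 12, 1, 0⟩,
  ⟨1, 36, 1, 4, 115, 0, 12, 1, 0⟩,
  ⟨0, 37, 1, 4, 119, 0, 12, 1, 0⟩,
  ⟨1, 37, 1, 4, 198, 0, 20, 1, 0⟩,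
  ⟨0, 38, 1, 4, 149, 0, 12, 1, 0⟩,
  ⟨1, 38, 1, 4, 30, 0, 4, 1, 0⟩,
  ⟨0, 39, 1, 4, 42, 0, 4, 1, 0⟩,
  ⟨1, 39, 1, 4, 113, 0, 12, 1, 0⟩,
  ⟨0, 40, 1, 4, 86, 0, 4, 1, 0⟩,
  ⟨1, 40, 1, 4, 137, 0, 12, 1, 0⟩,
  ⟨0, 41, 1, 4, 48, 0, 4, 1, 0⟩,
  ⟨1, 41, 1, 4, 139, 0, 12, 1, 0⟩,
  ⟨0, 42, 1, 4, 147, 0, 12, 1, 0⟩,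
  ⟨1, 42, 1, 4, 95, 0, 12, 1, 0⟩,
  ⟨0, 43, 1, 4, 121, 0, 12, 1, 0⟩,
  ⟨1, 43, 1, 4, 101, 0, 12, 1, 0⟩,
  ⟨0, 44, 1, 4, 109, 0, 12, 1, 0⟩,
  ⟨1, 44, 1, 4, 131, 0, 12, 1, 0⟩,
  ⟨0, 45, 1, 4, 125, 0, 12, 1, 0⟩,
  ⟨1, 45, 1, 4, 129, 0, 12, 1, 0⟩,
  ⟨0, 46, 1, 4, 117, 0, 12, 1, 0⟩,
  ⟨1, 46, 1, 4, 200, 0, 20, 1, 0⟩,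
  ⟨0, 47, 1, 4, 135, 0, 12, 1, 0⟩,
  ⟨1, 47, 1, 4, 111, 0, 12, 1, 0⟩,
  ⟨0, 48, 1, 4, 107, 0, 12, 1, 0⟩,
  ⟨1, 48, 1, 4, 153, 0, 12, 1, 0⟩,
  ⟨0, 49, 1, 4, 141, 0, 12, 1, 0⟩,
  ⟨1, 49, 1, 4, 38, 0, 4, 1, 0⟩,
  ⟨0, 50, 1, 4, 93, 0, 12, 1, 0⟩,
  ⟨1, 50, 1, 4, 204, 0, 20, 1, 0⟩,
  ⟨0, 51, 1, 4, 99, 0, 12, 1, 0⟩,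
  ⟨1, 51, 1, 4, 44, 0, 4, 1, 0⟩,
  ⟨0, 68, (-4), 8, 209, (-12), 24, 5, 1⟩,
  ⟨1, 68, (-4), 8, 33, 12, 0, 5, 1⟩,
  ⟨0, 67, (-4), 8, 51, 12, 0, 4, 1⟩,
  ⟨1, 67, (-4), 8, 28, 4, 0, 4, 1⟩,
  ⟨0, 66, (-4), 8, 201, (-12), 24, 4, 1⟩,
  ⟨1, 66, (-4), 8, 220, (-4), 24, 4, 1⟩,
  ⟨0, 65, (-4), 8, 53, 12, 0, 4, 1⟩,
  ⟨1, 65, (-4), 8, 195, (-12), 24, 4, 1⟩,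
  ⟨0, 80, 1, 8, 21, 0, 0, 1, 0⟩,
  ⟨1, 80, 1, 8, 16, 0, 0, 1, 0⟩,
  ⟨0, 79, 1, 8, 213, 0, 24, 1, 0⟩,
  ⟨1, 79, 1, 8, 15, 0, 0, 1, 0⟩,
  ⟨0, 78, 1, 8, 13, 0, 0, 1, 0⟩,
  ⟨1, 78, 1, 8, 226, 0, 24, 1, 0⟩,
  ⟨0, 77, 1, 8, 239, 0, 24, 1, 0⟩,
  ⟨1, 77, 1, 8, 7, 0, 0, 1, 0⟩,
  ⟨0, 76, 1, 8, 1, 0, 0, 1, 0⟩,
  ⟨1, 76, 1, 8, 237, 0, 24, 1, 0⟩,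
  ⟨0, 75, 1, 8, 242, 0, 24, 1, 0⟩,
  ⟨1, 75, 1, 8, 0, 0, 0, 1, 0⟩,
  ⟨0, 74, 1, 8, 2, 0, 0, 1, 0⟩,
  ⟨1, 74, 1, 8, 231, 0, 24, 1, 0⟩,
  ⟨0, 73, 1, 8, 3, 0, 0, 1, 0⟩,
  ⟨1, 73, 1, 8, 207, 0, 24, 1, 0⟩,
  ⟨0, 72, 1, 8, 219, 0, 24, 1, 0⟩,
  ⟨1, 72, 1, 8, 25, 0, 0, 1, 0⟩,
  ⟨0, 71, 1, 8, 17, 0, 0, 1, 0⟩,
  ⟨1, 71, 1, 8, 24, 0, 0, 1, 0⟩,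
  ⟨0, 70, 1, 8, 241, 0, 24, 1, 0⟩,
  ⟨1, 70, 1, 8, 228, 0, 24, 1, 0⟩,
  ⟨0, 69, 1, 8, 19, 0, 0, 1, 0⟩,
  ⟨1, 69, 1, 8, 225, 0, 24, 1, 0⟩]

def W10_1 : List EP :=
  [⟨0, 0, 0, 0, 2, 0, 0, 0, 1, 174, 0, 24, 1, 0⟩,
  ⟨0, 2, 0, 0, 4, 0, 0, 0, (-1), 162, 0, 24, 1, 0⟩,
  ⟨0, 4, 0, 0, 6, 0, 0, 0, (-1), 33, 0, 0, 1, 0⟩,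
  ⟨0, 6, 0, 0, 8, 0, 0, 0, 1, 234, 0, 24, 1, 0⟩,
  ⟨0, 8, 0, 0, 10, 0, 0, 0, (-1), 231, 0, 24, 1, 0⟩,
  ⟨0, 10, 0, 0, 12, 0, 0, 0, 1, 230, 0, 24, 1, 0⟩,
  ⟨0, 12, 0, 0, 14, 0, 0, 0, (-1), 218, 0, 24, 1, 0⟩,
  ⟨0, 14, 0, 0, 16, 0, 0, 0, 1, 215, 0, 24, 1, 0⟩,
  ⟨0, 16, 0, 0, 18, 0, 0, 0, (-1), 228, 0, 24, 1, 0⟩,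
  ⟨0, 18, 0, 0, 20, 0, 0, 0, 1, 207, 0, 24, 1, 0⟩,
  ⟨0, 20, 0, 0, 22, 0, 0, 0, (-1), 203, 0, 24, 1, 0⟩,
  ⟨0, 22, 0, 0, 24, 0, 0, 0, 1, 209, 0, 24, 1, 0⟩,
  ⟨0, 24, 0, 0, 26, 0, 0, 0, (-1), 170, (-24), 24, 6, 1⟩,
  ⟨0, 26, 0, 0, 28, 0, 0, 0, 1, 138, (-24), 24, 5, 1⟩,
  ⟨0, 28, 0, 0, 30, 0, 0, 0, (-1), 160, (-24), 24, 5, 1⟩,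
  ⟨0, 30, 0, 0, 24, 1, 0, 0, 1, 180, (-24), 24, 5, 1⟩,
  ⟨0, 26, 5, 1, 32, 0, 0, 0, (-1), 10, 0, 0, 1, 0⟩,
  ⟨0, 32, 0, 0, 34, 0, 0, 0, 1, 109, 0, 8, 1, 0⟩,
  ⟨0, 34, 0, 0, 36, 0, 0, 0, (-1), 121, 0, 8, 1, 0⟩,
  ⟨0, 36, 0, 0, 38, 0, 0, 0, 1, 36, 0, 0, 1, 0⟩,
  ⟨0, 38, 0, 0, 40, 0, 0, 0, (-1), 30, 0, 0, 1, 0⟩,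
  ⟨0, 40, 0, 0, 42, 0, 0, 0, 1, 107, 0, 8, 1, 0⟩,
  ⟨0, 42, 0, 0, 44, 0, 0, 0, (-1), 44, 0, 0, 1, 0⟩,
  ⟨0, 44, 0, 0, 46, 0, 0, 0, 1, 38, 0, 0, 1, 0⟩,
  ⟨0, 46, 0, 0, 48, 0, 0, 0, (-1), 99, 0, 8, 1, 0⟩,
  ⟨0, 48, 0, 0, 50, 0, 0, 0, 1, 26, 0, 0, 1, 0⟩,
  ⟨0, 50, 0, 0, 52, 0, 0, 0, 1, 12, 0, 0, 1, 0⟩,
  ⟨0, 52, 0, 0, 54, 0, 0, 0, (-1), 16, 0, 0, 1, 0⟩,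
  ⟨0, 54, 0, 0, 56, 0, 0, 0, 1, 8, 0, 0, 1, 0⟩,
  ⟨0, 56, 0, 0, 58, 0, 0, 0, (-1), 18, 0, 0, 1, 0⟩,
  ⟨0, 58, 0, 0, 60, 0, 0, 0, 1, 28, 0, 0, 1, 0⟩,
  ⟨0, 60, 0, 0, 62, 0, 0, 0, (-1), 34, 0, 0, 1, 0⟩,
  ⟨0, 62, 0, 0, 64, 0, 0, 0, 1, 48, 0, 0, 1, 0⟩,
  ⟨0, 64, 0, 0, 66, 0, 0, 0, (-1), 6, 0, 0, 1, 0⟩,
  ⟨0, 66, 0, 0, 68, 4, 1, 0, (-1), 62, 0, 0, 1, 0⟩,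
  ⟨0, 68, 1, 0, 74, 0, 0, 0, 1, 144, (-24), 24, 4, 1⟩,
  ⟨0, 70, 0, 0, 68, 0, 0, 0, (-1), 158, (-24), 24, 4, 1⟩,
  ⟨0, 72, 0, 0, 70, 0, 0, 0, 1, 150, (-24), 24, 4, 1⟩,
  ⟨0, 74, 0, 0, 72, 0, 0, 0, (-1), 148, (-24), 24, 4, 1⟩,
  ⟨0, 68, 0, 0, 98, 0, 0, 0, 1, 190, 0, 24, 1, 0⟩,
  ⟨0, 76, 0, 0, 0, 0, 0, 1, (-1), 196, 0, 24, 1, 0⟩,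
  ⟨0, 78, 0, 0, 76, 0, 0, 0, 1, 192, 0, 24, 1, 0⟩,
  ⟨0, 80, 0, 0, 78, 0, 0, 0, (-1), 200, 0, 24, 1, 0⟩,
  ⟨0, 82, 0, 0, 80, 0, 0, 0, 1, 226, 0, 24, 1, 0⟩,
  ⟨0, 84, 0, 0, 82, 0, 0, 0, (-1), 238, 0, 24, 1, 0⟩,
  ⟨0, 86, 0, 0, 84, 0, 0, 0, 1, 241, 0, 24, 1, 0⟩,
  ⟨0, 88, 0, 0, 86, 0, 0, 0, (-1), 240, 0, 24, 1, 0⟩,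
  ⟨0, 90, 0, 0, 88, 0, 0, 0, 1, 1, 0, 0, 1, 0⟩,
  ⟨0, 92, 0, 0, 90, 0, 0, 0, 1, 216, 0, 24, 1, 0⟩,
  ⟨0, 94, 0, 0, 92, 0, 0, 0, (-1), 202, 0, 24, 1, 0⟩,
  ⟨0, 96, 0, 0, 94, 0, 0, 0, 1, 224, 0, 24, 1, 0⟩,
  ⟨0, 98, 0, 0, 96, 0, 0, 0, (-1), 222, 0, 24, 1, 0⟩,
  ⟨1, 0, 0, 0, 1, 0, 0, 0, 1, 208, 0, 24, 1, 0⟩,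
  ⟨1, 2, 0, 0, 3, 0, 0, 0, (-1), 187, 0, 24, 1, 0⟩,
  ⟨1, 4, 0, 0, 5, 0, 0, 0, 1, 166, 0, 24, 1, 0⟩,
  ⟨1, 6, 0, 0, 7, 0, 0, 0, 1, 227, 0, 24, 1, 0⟩,
  ⟨1, 8, 0, 0, 9, 0, 0, 0, (-1), 239, 0, 24, 1, 0⟩,
  ⟨1, 10, 0, 0, 11, 0, 0, 0, 1, 223, 0, 24, 1, 0⟩,
  ⟨1, 12, 0, 0, 13, 0, 0, 0, (-1), 235, 0, 24, 1, 0⟩,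
  ⟨1, 14, 0, 0, 15, 0, 0, 0, 1, 182, 0, 24, 1, 0⟩,
  ⟨1, 16, 0, 0, 17, 0, 0, 0, (-1), 221, 0, 24, 1, 0⟩,
  ⟨1, 18, 0, 0, 19, 0, 0, 0, 1, 3, 0, 0, 1, 0⟩,
  ⟨1, 20, 0, 0, 21, 0, 0, 0, 1, 9, 0, 0, 1, 0⟩,
  ⟨1, 22, 0, 0, 23, 0, 0, 0, 1, 201, 0, 24, 1, 0⟩,
  ⟨1, 24, 0, 0, 25, 0, 0, 0, (-1), 188, (-24), 24, 6, 1⟩,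
  ⟨1, 26, 0, 0, 27, 0, 0, 0, (-1), 29, 8, 0, 6, 1⟩,
  ⟨1, 28, 0, 0, 29, 0, 0, 0, 1, 49, 8, 0, 5, 1⟩,
  ⟨1, 30, 0, 0, 31, 0, 0, 0, 1, 178, (-24), 24, 5, 1⟩,
  ⟨1, 32, 0, 0, 33, 0, 0, 0, 1, 117, 0, 8, 1, 0⟩,
  ⟨1, 34, 0, 0, 35, 0, 0, 0, (-1), 63, 0, 8, 1, 0⟩,
  ⟨1, 36, 0, 0, 37, 0, 0, 0, 1, 40, 0, 0, 1, 0⟩,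
  ⟨1, 38, 0, 0, 39, 0, 0, 0, (-1), 79, 0, 8, 1, 0⟩,
  ⟨1, 40, 0, 0, 41, 0, 0, 0, 1, 119, 0, 8, 1, 0⟩,
  ⟨1, 42, 0, 0, 43, 0, 0, 0, (-1), 71, 0, 8, 1, 0⟩,
  ⟨1, 44, 0, 0, 45, 0, 0, 0, (-1), 51, 0, 8, 1, 0⟩,
  ⟨1, 46, 0, 0, 47, 0, 0, 0, (-1), 91, 0, 8, 1, 0⟩,
  ⟨1, 48, 0, 0, 49, 0, 0, 0, 1, 52, 0, 0, 1, 0⟩,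
  ⟨1, 50, 0, 0, 51, 0, 0, 0, 1, 20, 0, 0, 1, 0⟩,
  ⟨1, 52, 0, 0, 53, 0, 0, 0, (-1), 22, 0, 0, 1, 0⟩,
  ⟨1, 54, 0, 0, 55, 0, 0, 0, (-1), 4, 0, 0, 1, 0⟩,
  ⟨1, 56, 0, 0, 57, 0, 0, 0, (-1), 83, 0, 8, 1, 0⟩,
  ⟨1, 58, 0, 0, 59, 0, 0, 0, 1, 24, 0, 0, 1, 0⟩,
  ⟨1, 60, 0, 0, 61, 0, 0, 0, (-1), 46, 0, 0, 1, 0⟩,
  ⟨1, 62, 0, 0, 63, 0, 0, 0, 1, 103, 0, 8, 1, 0⟩,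
  ⟨1, 64, 0, 0, 65, 0, 0, 0, (-1), 111, 0, 8, 1, 0⟩,
  ⟨1, 66, 0, 0, 67, 0, 0, 0, 1, 55, 0, 8, 1, 0⟩,
  ⟨1, 68, 0, 0, 69, 0, 0, 0, 1, 176, (-24), 24, 5, 1⟩,
  ⟨1, 70, 0, 0, 71, 0, 0, 0, 1, 23, 8, 0, 4, 1⟩,
  ⟨1, 72, 0, 0, 73, 0, 0, 0, (-1), 19, 8, 0, 4, 1⟩,
  ⟨1, 74, 0, 0, 75, 0, 0, 0, (-1), 142, (-24), 24, 4, 1⟩,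
  ⟨1, 76, 0, 0, 77, 0, 0, 0, 1, 5, 0, 0, 1, 0⟩,
  ⟨1, 78, 0, 0, 79, 0, 0, 0, 1, 198, 0, 24, 1, 0⟩,
  ⟨1, 80, 0, 0, 81, 0, 0, 0, (-1), 213, 0, 24, 1, 0⟩,
  ⟨1, 82, 0, 0, 83, 0, 0, 0, 1, 232, 0, 24, 1, 0⟩,
  ⟨1, 84, 0, 0, 85, 0, 0, 0, (-1), 236, 0, 24, 1, 0⟩,
  ⟨1, 86, 0, 0, 87, 0, 0, 0, 1, 242, 0, 24, 1, 0⟩,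
  ⟨1, 88, 0, 0, 89, 0, 0, 0, (-1), 229, 0, 24, 1, 0⟩,
  ⟨1, 90, 0, 0, 91, 0, 0, 0, (-1), 204, 0, 24, 1, 0⟩,
  ⟨1, 92, 0, 0, 93, 0, 0, 0, 1, 194, 0, 24, 1, 0⟩,
  ⟨1, 94, 0, 0, 95, 0, 0, 0, (-1), 7, 0, 0, 1, 0⟩,
  ⟨1, 96, 0, 0, 97, 0, 0, 0, 1, 13, 0, 0, 1, 0⟩,
  ⟨1, 98, 0, 0, 99, 0, 0, 0, (-1), 206, 0, 24, 1, 0⟩,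
  ⟨2, 1, 0, 0, 21, 0, 0, 0, (-1), 11, 0, 0, 1, 0⟩,
  ⟨2, 3, 0, 0, 23, 0, 0, 0, 1, 199, 0, 24, 1, 0⟩,
  ⟨2, 5, 0, 0, 25, 0, 0, 0, (-1), 172, 0, 24, 1, 0⟩,
  ⟨2, 7, 0, 0, 27, 0, 0, 0, (-1), 211, 0, 24, 1, 0⟩,
  ⟨2, 9, 0, 0, 29, 0, 0, 0, 1, 237, 0, 24, 1, 0⟩,
  ⟨2, 11, 0, 0, 31, 0, 0, 0, (-1), 25, 0, 0, 1, 0⟩,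
  ⟨2, 13, 0, 0, 25, 1, 0, 0, 1, 41, 0, 0, 1, 0⟩,
  ⟨2, 15, 0, 0, 27, 1, 0, 0, (-1), 177, 0, 24, 1, 0⟩,
  ⟨2, 17, 0, 0, 29, 1, 0, 0, 1, 219, 0, 24, 1, 0⟩,
  ⟨2, 19, 0, 0, 31, 1, 0, 0, 1, 184, 0, 24, 1, 0⟩,
  ⟨2, 21, 0, 0, 25, 2, 0, 0, (-1), 167, 0, 24, 1, 0⟩,
  ⟨2, 23, 0, 0, 27, 2, 0, 0, (-1), 183, 0, 24, 1, 0⟩,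
  ⟨2, 25, 0, 0, 29, 2, 0, 0, 1, 197, (-16), 24, 3, 1⟩,
  ⟨2, 27, 0, 0, 31, 2, 0, 0, 1, 161, (-16), 24, 3, 1⟩,
  ⟨2, 29, 0, 0, 25, 3, 0, 0, (-1), 169, (-16), 24, 3, 1⟩,
  ⟨2, 31, 0, 0, 27, 3, 0, 0, (-1), 173, (-16), 24, 3, 1⟩,
  ⟨2, 25, 3, 1, 33, 0, 0, 0, 1, 149, 0, 8, 1, 0⟩,
  ⟨2, 27, 3, 1, 35, 0, 0, 0, 1, 113, 0, 8, 1, 0⟩,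
  ⟨2, 29, 3, 1, 37, 0, 0, 0, (-1), 97, 0, 8, 1, 0⟩,
  ⟨2, 31, 3, 1, 39, 0, 0, 0, (-1), 125, 0, 8, 1, 0⟩,
  ⟨2, 25, 4, 1, 41, 0, 0, 0, 1, 133, 0, 8, 1, 0⟩,
  ⟨2, 27, 4, 1, 43, 0, 0, 0, 1, 93, 0, 8, 1, 0⟩,
  ⟨2, 29, 4, 1, 45, 0, 0, 0, (-1), 115, 0, 8, 1, 0⟩,
  ⟨2, 31, 4, 1, 47, 0, 0, 0, (-1), 54, 0, 0, 1, 0⟩,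
  ⟨2, 25, 5, 1, 49, 0, 0, 0, 1, 56, 0, 0, 1, 0⟩,
  ⟨2, 27, 5, 1, 51, 0, 0, 0, 1, 101, 0, 8, 1, 0⟩,
  ⟨2, 33, 0, 0, 53, 0, 0, 0, (-1), 105, 0, 8, 1, 0⟩,
  ⟨2, 35, 0, 0, 55, 0, 0, 0, (-1), 32, 0, 0, 1, 0⟩,
  ⟨2, 37, 0, 0, 57, 0, 0, 0, (-1), 85, 0, 8, 1, 0⟩,
  ⟨2, 39, 0, 0, 59, 0, 0, 0, 1, 87, 0, 8, 1, 0⟩,
  ⟨2, 41, 0, 0, 61, 0, 0, 0, (-1), 123, 0, 8, 1, 0⟩,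
  ⟨2, 43, 0, 0, 63, 0, 0, 0, 1, 75, 0, 8, 1, 0⟩,
  ⟨2, 45, 0, 0, 65, 0, 0, 0, (-1), 67, 0, 8, 1, 0⟩,
  ⟨2, 47, 0, 0, 67, 0, 0, 0, 1, 95, 0, 8, 1, 0⟩,
  ⟨2, 49, 0, 0, 69, 4, 1, 0, 1, 14, 0, 0, 1, 0⟩,
  ⟨2, 51, 0, 0, 75, 3, 1, 0, (-1), 58, 0, 0, 1, 0⟩,
  ⟨2, 53, 0, 0, 73, 3, 1, 0, (-1), 77, 0, 8, 1, 0⟩,
  ⟨2, 55, 0, 0, 71, 3, 1, 0, 1, 89, 0, 8, 1, 0⟩,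
  ⟨2, 57, 0, 0, 69, 3, 1, 0, 1, 131, 0, 8, 1, 0⟩,
  ⟨2, 59, 0, 0, 75, 2, 1, 0, (-1), 60, 0, 0, 1, 0⟩,
  ⟨2, 61, 0, 0, 73, 2, 1, 0, (-1), 59, 0, 8, 1, 0⟩,
  ⟨2, 63, 0, 0, 71, 2, 1, 0, 1, 2, 0, 0, 1, 0⟩,
  ⟨2, 65, 0, 0, 69, 2, 1, 0, 1, 147, 0, 8, 1, 0⟩,
  ⟨2, 67, 0, 0, 75, 1, 1, 0, (-1), 139, 0, 8, 1, 0⟩,
  ⟨2, 69, 3, 0, 73, 0, 0, 0, (-1), 151, (-16), 24, 2, 1⟩,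
  ⟨2, 71, 3, 0, 75, 0, 0, 0, (-1), 155, (-16), 24, 1, 1⟩,
  ⟨2, 73, 2, 0, 69, 0, 0, 0, 1, 179, (-16), 24, 2, 1⟩,
  ⟨2, 75, 2, 0, 71, 0, 0, 0, 1, 143, (-16), 24, 2, 1⟩,
  ⟨2, 69, 0, 0, 81, 0, 0, 0, (-1), 193, 0, 24, 1, 0⟩,
  ⟨2, 71, 0, 0, 83, 0, 0, 0, 1, 21, 0, 0, 1, 0⟩,
  ⟨2, 73, 0, 0, 85, 0, 0, 0, (-1), 17, 0, 0, 1, 0⟩,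
  ⟨2, 75, 0, 0, 87, 0, 0, 0, 1, 195, 0, 24, 1, 0⟩,
  ⟨2, 69, 1, 0, 89, 0, 0, 0, (-1), 186, 0, 24, 1, 0⟩,
  ⟨2, 71, 1, 0, 91, 0, 0, 0, (-1), 175, 0, 24, 1, 0⟩,
  ⟨2, 73, 1, 0, 93, 0, 0, 0, 1, 191, 0, 24, 1, 0⟩,
  ⟨2, 75, 1, 0, 95, 0, 0, 0, 1, 159, 0, 24, 1, 0⟩,
  ⟨2, 69, 2, 0, 97, 0, 0, 0, (-1), 171, 0, 24, 1, 0⟩,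
  ⟨2, 71, 2, 0, 99, 0, 0, 0, (-1), 189, 0, 24, 1, 0⟩,
  ⟨2, 77, 0, 0, 19, 0, 0, 1, (-1), 217, 0, 24, 1, 0⟩,
  ⟨2, 79, 0, 0, 17, 0, 0, 1, (-1), 214, 0, 24, 1, 0⟩,
  ⟨2, 81, 0, 0, 15, 0, 0, 1, 1, 185, 0, 24, 1, 0⟩,
  ⟨2, 83, 0, 0, 13, 0, 0, 1, (-1), 233, 0, 24, 1, 0⟩,
  ⟨2, 85, 0, 0, 11, 0, 0, 1, 1, 225, 0, 24, 1, 0⟩,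
  ⟨2, 87, 0, 0, 9, 0, 0, 1, (-1), 243, 0, 24, 1, 0⟩,
  ⟨2, 89, 0, 0, 7, 0, 0, 1, 1, 220, 0, 24, 1, 0⟩,
  ⟨2, 91, 0, 0, 5, 0, 0, 1, 1, 168, 0, 24, 1, 0⟩,
  ⟨2, 93, 0, 0, 3, 0, 0, 1, (-1), 205, 0, 24, 1, 0⟩,
  ⟨2, 95, 0, 0, 1, 0, 0, 1, 1, 15, 0, 0, 1, 0⟩,
  ⟨2, 97, 0, 0, 77, 0, 0, 0, 1, 212, 0, 24, 1, 0⟩,
  ⟨2, 99, 0, 0, 79, 0, 0, 0, 1, 210, 0, 24, 1, 0⟩]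

theorem g10_1 (t : ℕ) : IsGraceful (genPetersen (81 + 8 * t) 10) :=
  sound (V := V10_1) (W := W10_1) (by decide +kernel) t

def V10_3 : List VP :=
  [⟨0, 0, 1, 0, 199, 0, 24, 1, 0⟩,
  ⟨1, 0, 1, 0, 9, 0, 0, 1, 0⟩,
  ⟨0, 1, 1, 0, 43, 0, 0, 1, 0⟩,
  ⟨1, 1, 1, 0, 212, 0, 24, 1, 0⟩,
  ⟨0, 2, 1, 0, 187, 0, 24, 1, 0⟩,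
  ⟨1, 2, 1, 0, 39, 0, 0, 1, 0⟩,
  ⟨0, 3, 1, 0, 220, 0, 24, 1, 0⟩,
  ⟨1, 3, 1, 0, 11, 0, 0, 1, 0⟩,
  ⟨0, 4, 1, 0, 4, 0, 0, 1, 0⟩,
  ⟨1, 4, 1, 0, 225, 0, 24, 1, 0⟩,
  ⟨0, 5, 1, 0, 217, 0, 24, 1, 0⟩,
  ⟨1, 5, 1, 0, 12, 0, 0, 1, 0⟩,
  ⟨0, 6, 1, 0, 5, 0, 0, 1, 0⟩,
  ⟨1, 6, 1, 0, 222, 0, 24, 1, 0⟩,
  ⟨0, 7, 1, 0, 205, 0, 24, 1, 0⟩,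
  ⟨1, 7, 1, 0, 41, 0, 0, 1, 0⟩,
  ⟨0, 8, 1, 0, 8, 0, 0, 1, 0⟩,
  ⟨1, 8, 1, 0, 211, 0, 24, 1, 0⟩,
  ⟨0, 9, 1, 0, 218, 0, 24, 1, 0⟩,
  ⟨1, 9, 1, 0, 215, 0, 24, 1, 0⟩,
  ⟨0, 10, 1, 0, 29, 0, 0, 1, 0⟩,
  ⟨1, 10, 1, 0, 20, 0, 0, 1, 0⟩,
  ⟨0, 11, 1, 0, 214, 0, 24, 1, 0⟩,
  ⟨1, 11, 1, 0, 31, 0, 0, 1, 0⟩,
  ⟨0, 12, 4, 0, 23, 12, 0, 6, 1⟩,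
  ⟨1, 12, 4, 0, 193, (-12), 24, 6, 1⟩,
  ⟨0, 13, 4, 0, 175, (-12), 24, 5, 1⟩,
  ⟨1, 13, 4, 0, 204, (-4), 24, 5, 1⟩,
  ⟨0, 14, 4, 0, 55, 12, 0, 5, 1⟩,
  ⟨1, 14, 4, 0, 6, 4, 0, 5, 1⟩,
  ⟨0, 15, 4, 0, 197, (-12), 24, 5, 1⟩,
  ⟨1, 15, 4, 0, 37, 12, 0, 5, 1⟩,
  ⟨0, 33, 1, 4, 146, 0, 20, 1, 0⟩,
  ⟨1, 33, 1, 4, 184, 0, 20, 1, 0⟩,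
  ⟨0, 34, 1, 4, 182, 0, 20, 1, 0⟩,
  ⟨1, 34, 1, 4, 95, 0, 12, 1, 0⟩,
  ⟨0, 35, 1, 4, 164, 0, 20, 1, 0⟩,
  ⟨1, 35, 1, 4, 89, 0, 12, 1, 0⟩,
  ⟨0, 36, 1, 4, 176, 0, 20, 1, 0⟩,
  ⟨1, 36, 1, 4, 125, 0, 12, 1, 0⟩,
  ⟨0, 37, 1, 4, 174, 0, 20, 1, 0⟩,
  ⟨1, 37, 1, 4, 115, 0, 12, 1, 0⟩,
  ⟨0, 38, 1, 4, 107, 0, 12, 1, 0⟩,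
  ⟨1, 38, 1, 4, 93, 0, 12, 1, 0⟩,
  ⟨0, 39, 1, 4, 137, 0, 12, 1, 0⟩,
  ⟨1, 39, 1, 4, 109, 0, 12, 1, 0⟩,
  ⟨0, 40, 1, 4, 38, 0, 4, 1, 0⟩,
  ⟨1, 40, 1, 4, 123, 0, 12, 1, 0⟩,
  ⟨0, 41, 1, 4, 30, 0, 4, 1, 0⟩,
  ⟨1, 41, 1, 4, 143, 0, 12, 1, 0⟩,
  ⟨0, 42, 1, 4, 135, 0, 12, 1, 0⟩,
  ⟨1, 42, 1, 4, 101, 0, 12, 1, 0⟩,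
  ⟨0, 43, 1, 4, 119, 0, 12, 1, 0⟩,
  ⟨1, 43, 1, 4, 113, 0, 12, 1, 0⟩,
  ⟨0, 44, 1, 4, 97, 0, 12, 1, 0⟩,
  ⟨1, 44, 1, 4, 186, 0, 20, 1, 0⟩,
  ⟨0, 45, 1, 4, 117, 0, 12, 1, 0⟩,
  ⟨1, 45, 1, 4, 34, 0, 4, 1, 0⟩,
  ⟨0, 46, 1, 4, 121, 0, 12, 1, 0⟩,
  ⟨1, 46, 1, 4, 81, 0, 12, 1, 0⟩,
  ⟨0, 47, 1, 4, 26, 0, 4, 1, 0⟩,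
  ⟨1, 47, 1, 4, 141, 0, 12, 1, 0⟩,
  ⟨0, 62, (-4), 8, 191, (-12), 24, 4, 1⟩,
  ⟨1, 62, (-4), 8, 33, 12, 0, 4, 1⟩,
  ⟨0, 61, (-4), 8, 51, 12, 0, 4, 1⟩,
  ⟨1, 61, (-4), 8, 28, 4, 0, 4, 1⟩,
  ⟨0, 60, (-4), 8, 183, (-12), 24, 4, 1⟩,
  ⟨1, 60, (-4), 8, 202, (-4), 24, 4, 1⟩,
  ⟨0, 59, (-4), 8, 53, 12, 0, 3, 1⟩,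
  ⟨1, 59, (-4), 8, 177, (-12), 24, 3, 1⟩,
  ⟨0, 74, 1, 8, 21, 0, 0, 1, 0⟩,
  ⟨1, 74, 1, 8, 16, 0, 0, 1, 0⟩,
  ⟨0, 73, 1, 8, 195, 0, 24, 1, 0⟩,
  ⟨1, 73, 1, 8, 15, 0, 0, 1, 0⟩,
  ⟨0, 72, 1, 8, 13, 0, 0, 1, 0⟩,
  ⟨1, 72, 1, 8, 208, 0, 24, 1, 0⟩,
  ⟨0, 71, 1, 8, 221, 0, 24, 1, 0⟩,
  ⟨1, 71, 1, 8, 7, 0, 0, 1, 0⟩,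
  ⟨0, 70, 1, 8, 1, 0, 0, 1, 0⟩,
  ⟨1, 70, 1, 8, 219, 0, 24, 1, 0⟩,
  ⟨0, 69, 1, 8, 224, 0, 24, 1, 0⟩,
  ⟨1, 69, 1, 8, 0, 0, 0, 1, 0⟩,
  ⟨0, 68, 1, 8, 2, 0, 0, 1, 0⟩,
  ⟨1, 68, 1, 8, 213, 0, 24, 1, 0⟩,
  ⟨0, 67, 1, 8, 3, 0, 0, 1, 0⟩,
  ⟨1, 67, 1, 8, 189, 0, 24, 1, 0⟩,
  ⟨0, 66, 1, 8, 201, 0, 24, 1, 0⟩,
  ⟨1, 66, 1, 8, 25, 0, 0, 1, 0⟩,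
  ⟨0, 65, 1, 8, 17, 0, 0, 1, 0⟩,
  ⟨1, 65, 1, 8, 24, 0, 0, 1, 0⟩,
  ⟨0, 64, 1, 8, 223, 0, 24, 1, 0⟩,
  ⟨1, 64, 1, 8, 210, 0, 24, 1, 0⟩,
  ⟨0, 63, 1, 8, 19, 0, 0, 1, 0⟩,
  ⟨1, 63, 1, 8, 207, 0, 24, 1, 0⟩]

def W10_3 : List EP :=
  [⟨0, 0, 0, 0, 2, 0, 0, 0, 1, 156, 0, 24, 1, 0⟩,
  ⟨0, 2, 0, 0, 4, 0, 0, 0, (-1), 144, 0, 24, 1, 0⟩,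
  ⟨0, 4, 0, 0, 6, 0, 0, 0, (-1), 33, 0, 0, 1, 0⟩,
  ⟨0, 6, 0, 0, 8, 0, 0, 0, 1, 216, 0, 24, 1, 0⟩,
  ⟨0, 8, 0, 0, 10, 0, 0, 0, (-1), 213, 0, 24, 1, 0⟩,
  ⟨0, 10, 0, 0, 12, 0, 0, 0, 1, 212, 0, 24, 1, 0⟩,
  ⟨0, 12, 0, 0, 14, 0, 0, 0, (-1), 200, 0, 24, 1, 0⟩,
  ⟨0, 14, 0, 0, 16, 0, 0, 0, 1, 197, 0, 24, 1, 0⟩,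
  ⟨0, 16, 0, 0, 18, 0, 0, 0, (-1), 210, 0, 24, 1, 0⟩,
  ⟨0, 18, 0, 0, 20, 0, 0, 0, 1, 189, 0, 24, 1, 0⟩,
  ⟨0, 20, 0, 0, 22, 0, 0, 0, (-1), 185, 0, 24, 1, 0⟩,
  ⟨0, 22, 0, 0, 24, 0, 0, 0, 1, 191, 0, 24, 1, 0⟩,
  ⟨0, 24, 0, 0, 26, 0, 0, 0, (-1), 152, (-24), 24, 5, 1⟩,
  ⟨0, 26, 0, 0, 28, 0, 0, 0, 1, 120, (-24), 24, 5, 1⟩,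
  ⟨0, 28, 0, 0, 30, 0, 0, 0, (-1), 142, (-24), 24, 5, 1⟩,
  ⟨0, 30, 0, 0, 24, 1, 0, 0, 1, 162, (-24), 24, 5, 1⟩,
  ⟨0, 24, 5, 1, 32, 0, 0, 0, (-1), 63, 0, 8, 1, 0⟩,
  ⟨0, 32, 0, 0, 34, 0, 0, 0, (-1), 36, 0, 0, 1, 0⟩,
  ⟨0, 34, 0, 0, 36, 0, 0, 0, 1, 18, 0, 0, 1, 0⟩,
  ⟨0, 36, 0, 0, 38, 0, 0, 0, (-1), 12, 0, 0, 1, 0⟩,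
  ⟨0, 38, 0, 0, 40, 0, 0, 0, 1, 2, 0, 0, 1, 0⟩,
  ⟨0, 40, 0, 0, 42, 0, 0, 0, 1, 67, 0, 8, 1, 0⟩,
  ⟨0, 42, 0, 0, 44, 0, 0, 0, (-1), 30, 0, 0, 1, 0⟩,
  ⟨0, 44, 0, 0, 46, 0, 0, 0, 1, 99, 0, 8, 1, 0⟩,
  ⟨0, 46, 0, 0, 48, 0, 0, 0, 1, 8, 0, 0, 1, 0⟩,
  ⟨0, 48, 0, 0, 50, 0, 0, 0, (-1), 105, 0, 8, 1, 0⟩,
  ⟨0, 50, 0, 0, 52, 0, 0, 0, 1, 16, 0, 0, 1, 0⟩,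
  ⟨0, 52, 0, 0, 54, 0, 0, 0, 1, 22, 0, 0, 1, 0⟩,
  ⟨0, 54, 0, 0, 56, 0, 0, 0, (-1), 20, 0, 0, 1, 0⟩,
  ⟨0, 56, 0, 0, 58, 0, 0, 0, (-1), 4, 0, 0, 1, 0⟩,
  ⟨0, 58, 0, 0, 60, 0, 0, 0, 1, 95, 0, 8, 1, 0⟩,
  ⟨0, 60, 0, 0, 66, 3, 1, 0, (-1), 121, 0, 8, 1, 0⟩,
  ⟨0, 62, 1, 0, 68, 0, 0, 0, 1, 126, (-24), 24, 3, 1⟩,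
  ⟨0, 64, 0, 0, 62, 0, 0, 0, (-1), 140, (-24), 24, 4, 1⟩,
  ⟨0, 66, 0, 0, 64, 0, 0, 0, 1, 132, (-24), 24, 4, 1⟩,
  ⟨0, 68, 0, 0, 66, 0, 0, 0, (-1), 130, (-24), 24, 3, 1⟩,
  ⟨0, 62, 0, 0, 92, 0, 0, 0, 1, 172, 0, 24, 1, 0⟩,
  ⟨0, 70, 0, 0, 0, 0, 0, 1, (-1), 178, 0, 24, 1, 0⟩,
  ⟨0, 72, 0, 0, 70, 0, 0, 0, 1, 174, 0, 24, 1, 0⟩,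
  ⟨0, 74, 0, 0, 72, 0, 0, 0, (-1), 182, 0, 24, 1, 0⟩,
  ⟨0, 76, 0, 0, 74, 0, 0, 0, 1, 208, 0, 24, 1, 0⟩,
  ⟨0, 78, 0, 0, 76, 0, 0, 0, (-1), 220, 0, 24, 1, 0⟩,
  ⟨0, 80, 0, 0, 78, 0, 0, 0, 1, 223, 0, 24, 1, 0⟩,
  ⟨0, 82, 0, 0, 80, 0, 0, 0, (-1), 222, 0, 24, 1, 0⟩,
  ⟨0, 84, 0, 0, 82, 0, 0, 0, 1, 1, 0, 0, 1, 0⟩,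
  ⟨0, 86, 0, 0, 84, 0, 0, 0, 1, 198, 0, 24, 1, 0⟩,
  ⟨0, 88, 0, 0, 86, 0, 0, 0, (-1), 184, 0, 24, 1, 0⟩,
  ⟨0, 90, 0, 0, 88, 0, 0, 0, 1, 206, 0, 24, 1, 0⟩,
  ⟨0, 92, 0, 0, 90, 0, 0, 0, (-1), 204, 0, 24, 1, 0⟩,
  ⟨1, 0, 0, 0, 1, 0, 0, 0, 1, 190, 0, 24, 1, 0⟩,
  ⟨1, 2, 0, 0, 3, 0, 0, 0, (-1), 169, 0, 24, 1, 0⟩,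
  ⟨1, 4, 0, 0, 5, 0, 0, 0, 1, 148, 0, 24, 1, 0⟩,
  ⟨1, 6, 0, 0, 7, 0, 0, 0, 1, 209, 0, 24, 1, 0⟩,
  ⟨1, 8, 0, 0, 9, 0, 0, 0, (-1), 221, 0, 24, 1, 0⟩,
  ⟨1, 10, 0, 0, 11, 0, 0, 0, 1, 205, 0, 24, 1, 0⟩,
  ⟨1, 12, 0, 0, 13, 0, 0, 0, (-1), 217, 0, 24, 1, 0⟩,
  ⟨1, 14, 0, 0, 15, 0, 0, 0, 1, 164, 0, 24, 1, 0⟩,
  ⟨1, 16, 0, 0, 17, 0, 0, 0, (-1), 203, 0, 24, 1, 0⟩,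
  ⟨1, 18, 0, 0, 19, 0, 0, 0, 1, 3, 0, 0, 1, 0⟩,
  ⟨1, 20, 0, 0, 21, 0, 0, 0, 1, 9, 0, 0, 1, 0⟩,
  ⟨1, 22, 0, 0, 23, 0, 0, 0, 1, 183, 0, 24, 1, 0⟩,
  ⟨1, 24, 0, 0, 25, 0, 0, 0, (-1), 170, (-24), 24, 6, 1⟩,
  ⟨1, 26, 0, 0, 27, 0, 0, 0, (-1), 29, 8, 0, 5, 1⟩,
  ⟨1, 28, 0, 0, 29, 0, 0, 0, 1, 49, 8, 0, 5, 1⟩,
  ⟨1, 30, 0, 0, 31, 0, 0, 0, 1, 160, (-24), 24, 5, 1⟩,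
  ⟨1, 32, 0, 0, 33, 0, 0, 0, (-1), 38, 0, 0, 1, 0⟩,
  ⟨1, 34, 0, 0, 35, 0, 0, 0, 1, 87, 0, 8, 1, 0⟩,
  ⟨1, 36, 0, 0, 37, 0, 0, 0, 1, 75, 0, 8, 1, 0⟩,
  ⟨1, 38, 0, 0, 39, 0, 0, 0, 1, 51, 0, 8, 1, 0⟩,
  ⟨1, 40, 0, 0, 41, 0, 0, 0, 1, 59, 0, 8, 1, 0⟩,
  ⟨1, 42, 0, 0, 43, 0, 0, 0, 1, 14, 0, 0, 1, 0⟩,
  ⟨1, 44, 0, 0, 45, 0, 0, 0, 1, 28, 0, 0, 1, 0⟩,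
  ⟨1, 46, 0, 0, 47, 0, 0, 0, (-1), 85, 0, 8, 1, 0⟩,
  ⟨1, 48, 0, 0, 49, 0, 0, 0, (-1), 113, 0, 8, 1, 0⟩,
  ⟨1, 50, 0, 0, 51, 0, 0, 0, 1, 34, 0, 0, 1, 0⟩,
  ⟨1, 52, 0, 0, 53, 0, 0, 0, 1, 6, 0, 0, 1, 0⟩,
  ⟨1, 54, 0, 0, 55, 0, 0, 0, (-1), 89, 0, 8, 1, 0⟩,
  ⟨1, 56, 0, 0, 57, 0, 0, 0, 1, 83, 0, 8, 1, 0⟩,
  ⟨1, 58, 0, 0, 59, 0, 0, 0, 1, 40, 0, 0, 1, 0⟩,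
  ⟨1, 60, 0, 0, 61, 0, 0, 0, (-1), 115, 0, 8, 1, 0⟩,
  ⟨1, 62, 0, 0, 63, 0, 0, 0, 1, 158, (-24), 24, 4, 1⟩,
  ⟨1, 64, 0, 0, 65, 0, 0, 0, 1, 23, 8, 0, 4, 1⟩,
  ⟨1, 66, 0, 0, 67, 0, 0, 0, (-1), 19, 8, 0, 4, 1⟩,
  ⟨1, 68, 0, 0, 69, 0, 0, 0, (-1), 124, (-24), 24, 3, 1⟩,
  ⟨1, 70, 0, 0, 71, 0, 0, 0, 1, 5, 0, 0, 1, 0⟩,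
  ⟨1, 72, 0, 0, 73, 0, 0, 0, 1, 180, 0, 24, 1, 0⟩,
  ⟨1, 74, 0, 0, 75, 0, 0, 0, (-1), 195, 0, 24, 1, 0⟩,
  ⟨1, 76, 0, 0, 77, 0, 0, 0, 1, 214, 0, 24, 1, 0⟩,
  ⟨1, 78, 0, 0, 79, 0, 0, 0, (-1), 218, 0, 24, 1, 0⟩,
  ⟨1, 80, 0, 0, 81, 0, 0, 0, 1, 224, 0, 24, 1, 0⟩,
  ⟨1, 82, 0, 0, 83, 0, 0, 0, (-1), 211, 0, 24, 1, 0⟩,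
  ⟨1, 84, 0, 0, 85, 0, 0, 0, (-1), 186, 0, 24, 1, 0⟩,
  ⟨1, 86, 0, 0, 87, 0, 0, 0, 1, 176, 0, 24, 1, 0⟩,
  ⟨1, 88, 0, 0, 89, 0, 0, 0, (-1), 7, 0, 0, 1, 0⟩,
  ⟨1, 90, 0, 0, 91, 0, 0, 0, 1, 13, 0, 0, 1, 0⟩,
  ⟨1, 92, 0, 0, 93, 0, 0, 0, (-1), 188, 0, 24, 1, 0⟩,
  ⟨2, 1, 0, 0, 21, 0, 0, 0, (-1), 11, 0, 0, 1, 0⟩,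
  ⟨2, 3, 0, 0, 23, 0, 0, 0, 1, 181, 0, 24, 1, 0⟩,
  ⟨2, 5, 0, 0, 25, 0, 0, 0, (-1), 154, 0, 24, 1, 0⟩,
  ⟨2, 7, 0, 0, 27, 0, 0, 0, (-1), 193, 0, 24, 1, 0⟩,
  ⟨2, 9, 0, 0, 29, 0, 0, 0, 1, 219, 0, 24, 1, 0⟩,
  ⟨2, 11, 0, 0, 31, 0, 0, 0, (-1), 25, 0, 0, 1, 0⟩,
  ⟨2, 13, 0, 0, 25, 1, 0, 0, 1, 41, 0, 0, 1, 0⟩,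
  ⟨2, 15, 0, 0, 27, 1, 0, 0, (-1), 159, 0, 24, 1, 0⟩,
  ⟨2, 17, 0, 0, 29, 1, 0, 0, 1, 201, 0, 24, 1, 0⟩,
  ⟨2, 19, 0, 0, 31, 1, 0, 0, 1, 166, 0, 24, 1, 0⟩,
  ⟨2, 21, 0, 0, 25, 2, 0, 0, (-1), 149, 0, 24, 1, 0⟩,
  ⟨2, 23, 0, 0, 27, 2, 0, 0, (-1), 165, 0, 24, 1, 0⟩,
  ⟨2, 25, 0, 0, 29, 2, 0, 0, 1, 179, (-16), 24, 3, 1⟩,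
  ⟨2, 27, 0, 0, 31, 2, 0, 0, 1, 143, (-16), 24, 3, 1⟩,
  ⟨2, 29, 0, 0, 25, 3, 0, 0, (-1), 151, (-16), 24, 3, 1⟩,
  ⟨2, 31, 0, 0, 27, 3, 0, 0, (-1), 155, (-16), 24, 2, 1⟩,
  ⟨2, 31, 2, 1, 33, 0, 0, 0, (-1), 123, 0, 8, 1, 0⟩,
  ⟨2, 25, 3, 1, 35, 0, 0, 0, 1, 62, 0, 0, 1, 0⟩,
  ⟨2, 27, 3, 1, 37, 0, 0, 0, 1, 103, 0, 8, 1, 0⟩,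
  ⟨2, 29, 3, 1, 39, 0, 0, 0, (-1), 107, 0, 8, 1, 0⟩,
  ⟨2, 31, 3, 1, 41, 0, 0, 0, (-1), 42, 0, 0, 1, 0⟩,
  ⟨2, 25, 4, 1, 43, 0, 0, 0, 1, 52, 0, 0, 1, 0⟩,
  ⟨2, 27, 4, 1, 45, 0, 0, 0, 1, 79, 0, 8, 1, 0⟩,
  ⟨2, 29, 4, 1, 47, 0, 0, 0, (-1), 101, 0, 8, 1, 0⟩,
  ⟨2, 31, 4, 1, 49, 0, 0, 0, (-1), 58, 0, 0, 1, 0⟩,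
  ⟨2, 25, 5, 1, 51, 0, 0, 0, 1, 32, 0, 0, 1, 0⟩,
  ⟨2, 33, 0, 0, 53, 0, 0, 0, 1, 71, 0, 8, 1, 0⟩,
  ⟨2, 35, 0, 0, 55, 0, 0, 0, (-1), 91, 0, 8, 1, 0⟩,
  ⟨2, 37, 0, 0, 57, 0, 0, 0, 1, 55, 0, 8, 1, 0⟩,
  ⟨2, 39, 0, 0, 59, 0, 0, 0, 1, 44, 0, 0, 1, 0⟩,
  ⟨2, 41, 0, 0, 61, 0, 0, 0, (-1), 26, 0, 0, 1, 0⟩,
  ⟨2, 43, 0, 0, 67, 3, 1, 0, (-1), 97, 0, 8, 1, 0⟩,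
  ⟨2, 45, 0, 0, 65, 3, 1, 0, 1, 69, 0, 8, 1, 0⟩,
  ⟨2, 47, 0, 0, 63, 3, 1, 0, 1, 54, 0, 0, 1, 0⟩,
  ⟨2, 49, 0, 0, 69, 2, 1, 0, (-1), 10, 0, 0, 1, 0⟩,
  ⟨2, 51, 0, 0, 67, 2, 1, 0, (-1), 93, 0, 8, 1, 0⟩,
  ⟨2, 53, 0, 0, 65, 2, 1, 0, 1, 77, 0, 8, 1, 0⟩,
  ⟨2, 55, 0, 0, 63, 2, 1, 0, 1, 129, 0, 8, 1, 0⟩,
  ⟨2, 57, 0, 0, 69, 1, 1, 0, (-1), 131, 0, 8, 1, 0⟩,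
  ⟨2, 59, 0, 0, 67, 1, 1, 0, (-1), 117, 0, 8, 1, 0⟩,
  ⟨2, 61, 0, 0, 65, 1, 1, 0, 1, 109, 0, 8, 1, 0⟩,
  ⟨2, 63, 3, 0, 67, 0, 0, 0, (-1), 133, (-16), 24, 1, 1⟩,
  ⟨2, 65, 3, 0, 69, 0, 0, 0, (-1), 137, (-16), 24, 1, 1⟩,
  ⟨2, 67, 2, 0, 63, 0, 0, 0, 1, 161, (-16), 24, 2, 1⟩,
  ⟨2, 69, 2, 0, 65, 0, 0, 0, 1, 125, (-16), 24, 1, 1⟩,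
  ⟨2, 63, 0, 0, 75, 0, 0, 0, (-1), 175, 0, 24, 1, 0⟩,
  ⟨2, 65, 0, 0, 77, 0, 0, 0, 1, 21, 0, 0, 1, 0⟩,
  ⟨2, 67, 0, 0, 79, 0, 0, 0, (-1), 17, 0, 0, 1, 0⟩,
  ⟨2, 69, 0, 0, 81, 0, 0, 0, 1, 177, 0, 24, 1, 0⟩,
  ⟨2, 63, 1, 0, 83, 0, 0, 0, (-1), 168, 0, 24, 1, 0⟩,
  ⟨2, 65, 1, 0, 85, 0, 0, 0, (-1), 157, 0, 24, 1, 0⟩,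
  ⟨2, 67, 1, 0, 87, 0, 0, 0, 1, 173, 0, 24, 1, 0⟩,
  ⟨2, 69, 1, 0, 89, 0, 0, 0, 1, 141, 0, 24, 1, 0⟩,
  ⟨2, 63, 2, 0, 91, 0, 0, 0, (-1), 153, 0, 24, 1, 0⟩,
  ⟨2, 65, 2, 0, 93, 0, 0, 0, (-1), 171, 0, 24, 1, 0⟩,
  ⟨2, 71, 0, 0, 19, 0, 0, 1, (-1), 199, 0, 24, 1, 0⟩,
  ⟨2, 73, 0, 0, 17, 0, 0, 1, (-1), 196, 0, 24, 1, 0⟩,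
  ⟨2, 75, 0, 0, 15, 0, 0, 1, 1, 167, 0, 24, 1, 0⟩,
  ⟨2, 77, 0, 0, 13, 0, 0, 1, (-1), 215, 0, 24, 1, 0⟩,
  ⟨2, 79, 0, 0, 11, 0, 0, 1, 1, 207, 0, 24, 1, 0⟩,
  ⟨2, 81, 0, 0, 9, 0, 0, 1, (-1), 225, 0, 24, 1, 0⟩,
  ⟨2, 83, 0, 0, 7, 0, 0, 1, 1, 202, 0, 24, 1, 0⟩,
  ⟨2, 85, 0, 0, 5, 0, 0, 1, 1, 150, 0, 24, 1, 0⟩,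
  ⟨2, 87, 0, 0, 3, 0, 0, 1, (-1), 187, 0, 24, 1, 0⟩,
  ⟨2, 89, 0, 0, 1, 0, 0, 1, 1, 15, 0, 0, 1, 0⟩,
  ⟨2, 91, 0, 0, 71, 0, 0, 0, 1, 194, 0, 24, 1, 0⟩,
  ⟨2, 93, 0, 0, 73, 0, 0, 0, 1, 192, 0, 24, 1, 0⟩]

theorem g10_3 (t : ℕ) : IsGraceful (genPetersen (75 + 8 * t) 10) :=
  sound (V := V10_3) (W := W10_3) (by decide +kernel) t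


end Pool.Agent.Helper40.GP
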