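import Pool.Agent.Helper40.GP12R0
import Pool.Agent.Helper40.GP12R1
import Pool.Agent.Helper40.GP12R2
import Pool.Agent.Helper40.GP12S

/-!
# Labellings of `P(n,12)`
-/

set_option autoImplicit false
set_option maxRecDepth 100000

namespace Pool.Agent.Helper40.GP

open Pool.Agent.Helper20.Graceful

/-- `P(n,12)` is graceful for all `n > 24` -/
theorem gp12 (n : ℕ) (h : 24 < n) : IsGraceful (genPetersen n 12) := by
  have hr : n % 16 = 0 ∨ n % 16 = 1 ∨ n % 16 = 2 ∨ n % 16 = 3 ∨ n % 16 = 4 ∨ n % 16 = 5 ∨ n % 16 = 6 ∨ n % 16 = 7 ∨ n % 16 = 8 ∨ n % 16 = 9 ∨ n % 16 = 10 ∨ n % 16 = 11 ∨ n % 16 = 12 ∨ n % 16 = 13 ∨ n % 16 = 14 ∨ n % 16 = 15 := by omega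
  rcases hr with hr | hr | hr | hr | hr | hr | hr | hr | hr | hr | hr | hr | hr | hr | hr | hr
  · by_cases h0 : 96 ≤ n
    · obtain ⟨t, rfl⟩ : ∃ t, n = 96 + 16 * t := ⟨(n - 96) / 16, by omega⟩
      exact g12_0 t
    · have h1 : n = 32 ∨ n = 48 ∨ n = 64 ∨ n = 80 := by omega
      rcases h1 with rfl | rfl | rfl | rfl
      · exact s12_32
      · exact s12_48
      · exact s12_64
      · exact s12_80
  · by_cases h0 : 97 ≤ n
    · obtain ⟨t, rfl⟩ : ∃ t, n = 97 + 16 * t := ⟨(n - 97) / 16, by omega⟩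
      exact g12_1 t
    · have h1 : n = 33 ∨ n = 49 ∨ n = 65 ∨ n = 81 := by omega
      rcases h1 with rfl | rfl | rfl | rfl
      · exact s12_33
      · exact s12_49
      · exact s12_65
      · exact s12_81
  · by_cases h0 : 82 ≤ n
    · obtain ⟨t, rfl⟩ : ∃ t, n = 82 + 16 * t := ⟨(n - 82) / 16, by omega⟩
      exact g12_2 t
    · have h1 : n = 34 ∨ n = 50 ∨ n = 66 := by omega
      rcases h1 with rfl | rfl | rfl
      · exact s12_34
      · exact s12_50
      · exact s12_66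
  · by_cases h0 : 99 ≤ n
    · obtain ⟨t, rfl⟩ : ∃ t, n = 99 + 16 * t := ⟨(n - 99) / 16, by omega⟩
      exact g12_3 t
    · have h1 : n = 35 ∨ n = 51 ∨ n = 67 ∨ n = 83 := by omega
      rcases h1 with rfl | rfl | rfl | rfl
      · exact s12_35
      · exact s12_51
      · exact s12_67
      · exact s12_83
  · by_cases h0 : 84 ≤ n
    · obtain ⟨t, rfl⟩ : ∃ t, n = 84 + 16 * t := ⟨(n - 84) / 16, by omega⟩
      exact g12_4 t
    · have h1 : n = 36 ∨ n = 52 ∨ n = 68 := by omega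
      rcases h1 with rfl | rfl | rfl
      · exact s12_36
      · exact s12_52
      · exact s12_68
  · by_cases h0 : 101 ≤ n
    · obtain ⟨t, rfl⟩ : ∃ t, n = 101 + 16 * t := ⟨(n - 101) / 16, by omega⟩
      exact g12_5 t
    · have h1 : n = 37 ∨ n = 53 ∨ n = 69 ∨ n = 85 := by omega
      rcases h1 with rfl | rfl | rfl | rfl
      · exact s12_37
      · exact s12_53
      · exact s12_69
      · exact s12_85
  · by_cases h0 : 86 ≤ n
    · obtain ⟨t, rfl⟩ : ∃ t, n = 86 + 16 * t := ⟨(n - 86) / 16, by omega⟩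
      exact g12_6 t
    · have h1 : n = 38 ∨ n = 54 ∨ n = 70 := by omega
      rcases h1 with rfl | rfl | rfl
      · exact s12_38
      · exact s12_54
      · exact s12_70
  · by_cases h0 : 103 ≤ n
    · obtain ⟨t, rfl⟩ : ∃ t, n = 103 + 16 * t := ⟨(n - 103) / 16, by omega⟩
      exact g12_7 t
    · have h1 : n = 39 ∨ n = 55 ∨ n = 71 ∨ n = 87 := by omega
      rcases h1 with rfl | rfl | rfl | rfl
      · exact s12_39
      · exact s12_55
      · exact s12_71
      · exact s12_87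
  · by_cases h0 : 88 ≤ n
    · obtain ⟨t, rfl⟩ : ∃ t, n = 88 + 16 * t := ⟨(n - 88) / 16, by omega⟩
      exact g12_8 t
    · have h1 : n = 40 ∨ n = 56 ∨ n = 72 := by omega
      rcases h1 with rfl | rfl | rfl
      · exact s12_40
      · exact s12_56
      · exact s12_72
  · by_cases h0 : 89 ≤ n
    · obtain ⟨t, rfl⟩ : ∃ t, n = 89 + 16 * t := ⟨(n - 89) / 16, by omega⟩
      exact g12_9 t
    · have h1 : n = 25 ∨ n = 41 ∨ n = 57 ∨ n = 73 := by omega
      rcases h1 with rfl | rfl | rfl | rfl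
      · exact s12_25
      · exact s12_41
      · exact s12_57
      · exact s12_73
  · by_cases h0 : 90 ≤ n
    · obtain ⟨t, rfl⟩ : ∃ t, n = 90 + 16 * t := ⟨(n - 90) / 16, by omega⟩
      exact g12_10 t
    · have h1 : n = 26 ∨ n = 42 ∨ n = 58 ∨ n = 74 := by omega
      rcases h1 with rfl | rfl | rfl | rfl
      · exact s12_26
      · exact s12_42
      · exact s12_58
      · exact s12_74
  · by_cases h0 : 107 ≤ n
    · obtain ⟨t, rfl⟩ : ∃ t, n = 107 + 16 * t := ⟨(n - 107) / 16, by omega⟩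
      exact g12_11 t
    · have h1 : n = 27 ∨ n = 43 ∨ n = 59 ∨ n = 75 ∨ n = 91 := by omega
      rcases h1 with rfl | rfl | rfl | rfl | rfl
      · exact s12_27
      · exact s12_43
      · exact s12_59
      · exact s12_75
      · exact s12_91
  · by_cases h0 : 92 ≤ n
    · obtain ⟨t, rfl⟩ : ∃ t, n = 92 + 16 * t := ⟨(n - 92) / 16, by omega⟩
      exact g12_12 t
    · have h1 : n = 28 ∨ n = 44 ∨ n = 60 ∨ n = 76 := by omega
      rcases h1 with rfl | rfl | rfl | rfl
      · exact s12_28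
      · exact s12_44
      · exact s12_60
      · exact s12_76
  · by_cases h0 : 93 ≤ n
    · obtain ⟨t, rfl⟩ : ∃ t, n = 93 + 16 * t := ⟨(n - 93) / 16, by omega⟩
      exact g12_13 t
    · have h1 : n = 29 ∨ n = 45 ∨ n = 61 ∨ n = 77 := by omega
      rcases h1 with rfl | rfl | rfl | rfl
      · exact s12_29
      · exact s12_45
      · exact s12_61
      · exact s12_77
  · by_cases h0 : 94 ≤ n
    · obtain ⟨t, rfl⟩ : ∃ t, n = 94 + 16 * t := ⟨(n - 94) / 16, by omega⟩
      exact g12_14 t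
    · have h1 : n = 30 ∨ n = 46 ∨ n = 62 ∨ n = 78 := by omega
      rcases h1 with rfl | rfl | rfl | rfl
      · exact s12_30
      · exact s12_46
      · exact s12_62
      · exact s12_78
  · by_cases h0 : 95 ≤ n
    · obtain ⟨t, rfl⟩ : ∃ t, n = 95 + 16 * t := ⟨(n - 95) / 16, by omega⟩
      exact g12_15 t
    · have h1 : n = 31 ∨ n = 47 ∨ n = 63 ∨ n = 79 := by omega
      rcases h1 with rfl | rfl | rfl | rfl
      · exact s12_31
      · exact s12_47
      · exact s12_63
      · exact s12_79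

end Pool.Agent.Helper40.GP
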