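import Pool.Agent.Helper40.GPChk

/-!
# Labellings of `P(n,2)`
-/

set_option autoImplicit false
set_option maxRecDepth 100000

namespace Pool.Agent.Helper40.GP

open Pool.Agent.Helper20.Graceful

def V2_0 : List VP :=
  [⟨0, 0, 1, 0, 0, 0, 0, 1, 0⟩,
  ⟨1, 0, 1, 0, 96, 0, 24, 1, 0⟩,
  ⟨0, 1, 1, 0, 93, 0, 24, 1, 0⟩,
  ⟨1, 1, 1, 0, 2, 0, 0, 1, 0⟩,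
  ⟨0, 2, 1, 0, 8, 0, 0, 1, 0⟩,
  ⟨1, 2, 1, 0, 15, 0, 0, 1, 0⟩,
  ⟨0, 3, 1, 0, 88, 0, 24, 1, 0⟩,
  ⟨1, 3, 1, 0, 75, 0, 24, 1, 0⟩,
  ⟨0, 4, 1, 0, 5, 0, 0, 1, 0⟩,
  ⟨1, 4, 1, 0, 84, 0, 24, 1, 0⟩,
  ⟨0, 5, 1, 0, 81, 0, 24, 1, 0⟩,
  ⟨1, 5, 1, 0, 9, 0, 0, 1, 0⟩,
  ⟨0, 8, 4, 0, 13, 12, 0, 2, 1⟩,
  ⟨1, 8, 4, 0, 77, (-12), 24, 2, 1⟩,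
  ⟨0, 9, 4, 0, 73, (-12), 24, 2, 1⟩,
  ⟨1, 9, 4, 0, 23, 12, 0, 2, 1⟩,
  ⟨0, 6, 4, 0, 27, 12, 0, 2, 1⟩,
  ⟨1, 6, 4, 0, 10, 4, 0, 2, 1⟩,
  ⟨0, 7, 4, 0, 69, (-12), 24, 2, 1⟩,
  ⟨1, 7, 4, 0, 80, (-4), 24, 2, 1⟩,
  ⟨0, 14, 1, 4, 22, 0, 4, 1, 0⟩,
  ⟨1, 14, 1, 4, 18, 0, 4, 1, 0⟩,
  ⟨0, 15, 1, 4, 36, 0, 4, 1, 0⟩,
  ⟨1, 15, 1, 4, 59, 0, 12, 1, 0⟩,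
  ⟨0, 16, 1, 4, 20, 0, 4, 1, 0⟩,
  ⟨1, 16, 1, 4, 53, 0, 12, 1, 0⟩,
  ⟨0, 17, 1, 4, 51, 0, 12, 1, 0⟩,
  ⟨1, 17, 1, 4, 31, 0, 12, 1, 0⟩,
  ⟨0, 18, 1, 4, 49, 0, 12, 1, 0⟩,
  ⟨1, 18, 1, 4, 43, 0, 12, 1, 0⟩,
  ⟨0, 19, 1, 4, 37, 0, 12, 1, 0⟩,
  ⟨1, 19, 1, 4, 74, 0, 20, 1, 0⟩,
  ⟨0, 23, (-4), 8, 63, (-12), 24, 1, 1⟩,
  ⟨1, 23, (-4), 8, 78, (-4), 24, 1, 1⟩,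
  ⟨0, 22, (-4), 8, 19, 12, 0, 1, 1⟩,
  ⟨1, 22, (-4), 8, 71, (-12), 24, 1, 1⟩,
  ⟨0, 25, (-4), 8, 79, (-12), 24, 2, 1⟩,
  ⟨1, 25, (-4), 8, 17, 12, 0, 2, 1⟩,
  ⟨0, 24, (-4), 8, 33, 12, 0, 2, 1⟩,
  ⟨1, 24, (-4), 8, 12, 4, 0, 2, 1⟩,
  ⟨0, 31, 1, 8, 95, 0, 24, 1, 0⟩,
  ⟨1, 31, 1, 8, 94, 0, 24, 1, 0⟩,
  ⟨0, 30, 1, 8, 1, 0, 0, 1, 0⟩,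
  ⟨1, 30, 1, 8, 6, 0, 0, 1, 0⟩,
  ⟨0, 29, 1, 8, 85, 0, 24, 1, 0⟩,
  ⟨1, 29, 1, 8, 7, 0, 0, 1, 0⟩,
  ⟨0, 28, 1, 8, 3, 0, 0, 1, 0⟩,
  ⟨1, 28, 1, 8, 92, 0, 24, 1, 0⟩,
  ⟨0, 27, 1, 8, 91, 0, 24, 1, 0⟩,
  ⟨1, 27, 1, 8, 82, 0, 24, 1, 0⟩,
  ⟨0, 26, 1, 8, 21, 0, 0, 1, 0⟩,
  ⟨1, 26, 1, 8, 89, 0, 24, 1, 0⟩]

def W2_0 : List EP :=
  [⟨0, 0, 0, 0, 2, 0, 0, 0, (-1), 93, 0, 24, 1, 0⟩,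
  ⟨0, 2, 0, 0, 4, 0, 0, 0, 1, 85, 0, 24, 1, 0⟩,
  ⟨0, 4, 0, 0, 6, 0, 0, 0, (-1), 80, 0, 24, 1, 0⟩,
  ⟨0, 6, 0, 0, 8, 0, 0, 0, 1, 83, 0, 24, 1, 0⟩,
  ⟨0, 8, 0, 0, 10, 0, 0, 0, (-1), 76, 0, 24, 1, 0⟩,
  ⟨0, 10, 0, 0, 16, 0, 0, 0, 1, 54, 0, 24, 1, 0⟩,
  ⟨0, 12, 0, 0, 14, 0, 0, 0, (-1), 60, (-24), 24, 2, 1⟩,
  ⟨0, 14, 0, 0, 16, 1, 0, 0, 1, 34, (-24), 24, 1, 1⟩,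
  ⟨0, 16, 0, 0, 18, 0, 0, 0, (-1), 42, (-24), 24, 2, 1⟩,
  ⟨0, 18, 0, 0, 12, 0, 0, 0, 1, 56, (-24), 24, 2, 1⟩,
  ⟨0, 14, 1, 1, 20, 0, 0, 0, 1, 39, 0, 8, 1, 0⟩,
  ⟨0, 20, 0, 0, 22, 0, 0, 0, (-1), 14, 0, 0, 1, 0⟩,
  ⟨0, 22, 0, 0, 24, 0, 0, 0, 1, 16, 0, 0, 1, 0⟩,
  ⟨0, 24, 0, 0, 26, 0, 0, 0, (-1), 31, 0, 8, 1, 0⟩,
  ⟨0, 26, 0, 0, 28, 0, 0, 0, 1, 2, 0, 0, 1, 0⟩,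
  ⟨0, 28, 0, 0, 30, 0, 0, 0, 1, 12, 0, 0, 1, 0⟩,
  ⟨0, 30, 0, 0, 38, 1, 1, 0, (-1), 8, 0, 0, 1, 0⟩,
  ⟨0, 32, 0, 0, 38, 0, 0, 0, 1, 30, (-24), 24, 1, 1⟩,
  ⟨0, 34, 0, 0, 32, 0, 0, 0, (-1), 44, (-24), 24, 1, 1⟩,
  ⟨0, 36, 1, 0, 34, 0, 0, 0, 1, 48, (-24), 24, 1, 1⟩,
  ⟨0, 38, 0, 0, 36, 0, 0, 0, (-1), 46, (-24), 24, 2, 1⟩,
  ⟨0, 36, 0, 0, 50, 0, 0, 0, 1, 58, 0, 24, 1, 0⟩,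
  ⟨0, 40, 0, 0, 0, 0, 0, 1, 1, 95, 0, 24, 1, 0⟩,
  ⟨0, 42, 0, 0, 40, 0, 0, 0, (-1), 94, 0, 24, 1, 0⟩,
  ⟨0, 44, 0, 0, 42, 0, 0, 0, 1, 84, 0, 24, 1, 0⟩,
  ⟨0, 46, 0, 0, 44, 0, 0, 0, (-1), 82, 0, 24, 1, 0⟩,
  ⟨0, 48, 0, 0, 46, 0, 0, 0, 1, 88, 0, 24, 1, 0⟩,
  ⟨0, 50, 0, 0, 48, 0, 0, 0, (-1), 70, 0, 24, 1, 0⟩,
  ⟨1, 0, 0, 0, 1, 0, 0, 0, (-1), 96, 0, 24, 1, 0⟩,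
  ⟨1, 2, 0, 0, 3, 0, 0, 0, 1, 91, 0, 24, 1, 0⟩,
  ⟨1, 4, 0, 0, 5, 0, 0, 0, (-1), 7, 0, 0, 1, 0⟩,
  ⟨1, 6, 0, 0, 7, 0, 0, 0, 1, 13, 0, 0, 1, 0⟩,
  ⟨1, 8, 0, 0, 9, 0, 0, 0, (-1), 79, 0, 24, 1, 0⟩,
  ⟨1, 10, 0, 0, 11, 0, 0, 0, 1, 72, 0, 24, 1, 0⟩,
  ⟨1, 12, 0, 0, 13, 0, 0, 0, (-1), 64, (-24), 24, 2, 1⟩,
  ⟨1, 14, 0, 0, 15, 0, 0, 0, 1, 50, (-24), 24, 2, 1⟩,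
  ⟨1, 16, 0, 0, 17, 0, 0, 0, 1, 17, 8, 0, 2, 1⟩,
  ⟨1, 18, 0, 0, 19, 0, 0, 0, (-1), 11, 8, 0, 2, 1⟩,
  ⟨1, 20, 0, 0, 21, 0, 0, 0, 1, 4, 0, 0, 1, 0⟩,
  ⟨1, 22, 0, 0, 23, 0, 0, 0, (-1), 23, 0, 8, 1, 0⟩,
  ⟨1, 24, 0, 0, 25, 0, 0, 0, (-1), 33, 0, 8, 1, 0⟩,
  ⟨1, 26, 0, 0, 27, 0, 0, 0, 1, 20, 0, 0, 1, 0⟩,
  ⟨1, 28, 0, 0, 29, 0, 0, 0, 1, 6, 0, 0, 1, 0⟩,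
  ⟨1, 30, 0, 0, 31, 0, 0, 0, (-1), 37, 0, 8, 1, 0⟩,
  ⟨1, 32, 0, 0, 33, 0, 0, 0, (-1), 15, 8, 0, 1, 1⟩,
  ⟨1, 34, 0, 0, 35, 0, 0, 0, (-1), 52, (-24), 24, 1, 1⟩,
  ⟨1, 36, 0, 0, 37, 0, 0, 0, 1, 62, (-24), 24, 2, 1⟩,
  ⟨1, 38, 0, 0, 39, 0, 0, 0, 1, 21, 8, 0, 2, 1⟩,
  ⟨1, 40, 0, 0, 41, 0, 0, 0, 1, 1, 0, 0, 1, 0⟩,
  ⟨1, 42, 0, 0, 43, 0, 0, 0, (-1), 5, 0, 0, 1, 0⟩,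
  ⟨1, 44, 0, 0, 45, 0, 0, 0, 1, 78, 0, 24, 1, 0⟩,
  ⟨1, 46, 0, 0, 47, 0, 0, 0, (-1), 89, 0, 24, 1, 0⟩,
  ⟨1, 48, 0, 0, 49, 0, 0, 0, 1, 9, 0, 0, 1, 0⟩,
  ⟨1, 50, 0, 0, 51, 0, 0, 0, (-1), 68, 0, 24, 1, 0⟩,
  ⟨2, 1, 0, 0, 5, 0, 0, 0, 1, 81, 0, 24, 1, 0⟩,
  ⟨2, 3, 0, 0, 7, 0, 0, 0, (-1), 73, 0, 24, 1, 0⟩,
  ⟨2, 5, 0, 0, 9, 0, 0, 0, (-1), 69, 0, 24, 1, 0⟩,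
  ⟨2, 7, 0, 0, 11, 0, 0, 0, 1, 66, 0, 24, 1, 0⟩,
  ⟨2, 9, 0, 0, 17, 0, 0, 0, 1, 74, 0, 24, 1, 0⟩,
  ⟨2, 11, 0, 0, 19, 0, 0, 0, (-1), 71, 0, 24, 1, 0⟩,
  ⟨2, 13, 0, 0, 17, 1, 0, 0, 1, 63, (-16), 24, 1, 1⟩,
  ⟨2, 15, 0, 0, 19, 1, 0, 0, (-1), 53, (-16), 24, 1, 1⟩,
  ⟨2, 17, 0, 0, 13, 0, 0, 0, (-1), 67, (-16), 24, 2, 1⟩,
  ⟨2, 19, 0, 0, 15, 0, 0, 0, 1, 57, (-16), 24, 2, 1⟩,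
  ⟨2, 13, 1, 1, 21, 0, 0, 0, 1, 47, 0, 8, 1, 0⟩,
  ⟨2, 15, 1, 1, 23, 0, 0, 0, (-1), 24, 0, 0, 1, 0⟩,
  ⟨2, 21, 0, 0, 25, 0, 0, 0, (-1), 35, 0, 8, 1, 0⟩,
  ⟨2, 23, 0, 0, 27, 0, 0, 0, 1, 28, 0, 0, 1, 0⟩,
  ⟨2, 25, 0, 0, 29, 0, 0, 0, 1, 10, 0, 0, 1, 0⟩,
  ⟨2, 27, 0, 0, 31, 0, 0, 0, (-1), 43, 0, 8, 1, 0⟩,
  ⟨2, 29, 0, 0, 39, 1, 1, 0, 1, 27, 0, 8, 1, 0⟩,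
  ⟨2, 31, 0, 0, 37, 1, 1, 0, 1, 45, 0, 8, 1, 0⟩,
  ⟨2, 33, 0, 0, 37, 0, 0, 0, 1, 61, (-16), 24, 1, 1⟩,
  ⟨2, 35, 0, 0, 39, 0, 0, 0, 1, 59, (-16), 24, 1, 1⟩,
  ⟨2, 37, 1, 0, 33, 0, 0, 0, (-1), 49, (-16), 24, 1, 1⟩,
  ⟨2, 39, 1, 0, 35, 0, 0, 0, (-1), 55, (-16), 24, 1, 1⟩,
  ⟨2, 37, 0, 0, 49, 0, 0, 0, (-1), 65, 0, 24, 1, 0⟩,
  ⟨2, 39, 0, 0, 51, 0, 0, 0, (-1), 77, 0, 24, 1, 0⟩,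
  ⟨2, 41, 0, 0, 3, 0, 0, 1, 1, 92, 0, 24, 1, 0⟩,
  ⟨2, 43, 0, 0, 1, 0, 0, 1, (-1), 90, 0, 24, 1, 0⟩,
  ⟨2, 45, 0, 0, 41, 0, 0, 0, (-1), 87, 0, 24, 1, 0⟩,
  ⟨2, 47, 0, 0, 43, 0, 0, 0, 1, 86, 0, 24, 1, 0⟩,
  ⟨2, 49, 0, 0, 45, 0, 0, 0, 1, 75, 0, 24, 1, 0⟩,
  ⟨2, 51, 0, 0, 47, 0, 0, 0, (-1), 3, 0, 0, 1, 0⟩]

theorem g2_0 (t : ℕ) : IsGraceful (genPetersen (32 + 8 * t) 2) :=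
  sound (V := V2_0) (W := W2_0) (by decide +kernel) t

def V2_1 : List VP :=
  [⟨0, 0, 1, 0, 0, 0, 0, 1, 0⟩,
  ⟨1, 0, 1, 0, 99, 0, 24, 1, 0⟩,
  ⟨0, 1, 1, 0, 98, 0, 24, 1, 0⟩,
  ⟨1, 1, 1, 0, 3, 0, 0, 1, 0⟩,
  ⟨0, 2, 1, 0, 93, 0, 24, 1, 0⟩,
  ⟨1, 2, 1, 0, 9, 0, 0, 1, 0⟩,
  ⟨0, 3, 1, 0, 23, 0, 0, 1, 0⟩,
  ⟨1, 3, 1, 0, 83, 0, 24, 1, 0⟩,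
  ⟨0, 4, 1, 0, 8, 0, 0, 1, 0⟩,
  ⟨1, 4, 1, 0, 96, 0, 24, 1, 0⟩,
  ⟨0, 5, 1, 0, 85, 0, 24, 1, 0⟩,
  ⟨1, 5, 1, 0, 11, 0, 0, 1, 0⟩,
  ⟨0, 8, 4, 0, 27, 12, 0, 1, 1⟩,
  ⟨1, 8, 4, 0, 79, (-12), 24, 1, 1⟩,
  ⟨0, 9, 4, 0, 77, (-12), 24, 1, 1⟩,
  ⟨1, 9, 4, 0, 19, 12, 0, 1, 1⟩,
  ⟨0, 6, 4, 0, 21, 12, 0, 2, 1⟩,
  ⟨1, 6, 4, 0, 10, 4, 0, 2, 1⟩,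
  ⟨0, 7, 4, 0, 69, (-12), 24, 2, 1⟩,
  ⟨1, 7, 4, 0, 86, (-4), 24, 2, 1⟩,
  ⟨0, 12, 1, 4, 18, 0, 4, 1, 0⟩,
  ⟨1, 12, 1, 4, 67, 0, 12, 1, 0⟩,
  ⟨0, 13, 1, 4, 65, 0, 12, 1, 0⟩,
  ⟨1, 13, 1, 4, 45, 0, 12, 1, 0⟩,
  ⟨0, 14, 1, 4, 43, 0, 12, 1, 0⟩,
  ⟨1, 14, 1, 4, 41, 0, 12, 1, 0⟩,
  ⟨0, 15, 1, 4, 76, 0, 20, 1, 0⟩,
  ⟨1, 15, 1, 4, 49, 0, 12, 1, 0⟩,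
  ⟨0, 16, 1, 4, 42, 0, 20, 1, 0⟩,
  ⟨1, 16, 1, 4, 70, 0, 20, 1, 0⟩,
  ⟨0, 17, 1, 4, 74, 0, 20, 1, 0⟩,
  ⟨1, 17, 1, 4, 31, 0, 12, 1, 0⟩,
  ⟨0, 18, 1, 4, 39, 0, 12, 1, 0⟩,
  ⟨1, 18, 1, 4, 29, 0, 12, 1, 0⟩,
  ⟨0, 19, 1, 4, 53, 0, 12, 1, 0⟩,
  ⟨1, 19, 1, 4, 61, 0, 12, 1, 0⟩,
  ⟨0, 24, (-4), 8, 71, (-12), 24, 2, 1⟩,
  ⟨1, 24, (-4), 8, 84, (-4), 24, 2, 1⟩,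
  ⟨0, 23, (-4), 8, 17, 12, 0, 1, 1⟩,
  ⟨1, 23, (-4), 8, 73, (-12), 24, 1, 1⟩,
  ⟨0, 26, (-4), 8, 75, (-12), 24, 2, 1⟩,
  ⟨1, 26, (-4), 8, 13, 12, 0, 2, 1⟩,
  ⟨0, 25, (-4), 8, 35, 12, 0, 2, 1⟩,
  ⟨1, 25, (-4), 8, 12, 4, 0, 2, 1⟩,
  ⟨0, 32, 1, 8, 1, 0, 0, 1, 0⟩,
  ⟨1, 32, 1, 8, 97, 0, 24, 1, 0⟩,
  ⟨0, 31, 1, 8, 94, 0, 24, 1, 0⟩,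
  ⟨1, 31, 1, 8, 2, 0, 0, 1, 0⟩,
  ⟨0, 30, 1, 8, 91, 0, 24, 1, 0⟩,
  ⟨1, 30, 1, 8, 6, 0, 0, 1, 0⟩,
  ⟨0, 29, 1, 8, 15, 0, 0, 1, 0⟩,
  ⟨1, 29, 1, 8, 81, 0, 24, 1, 0⟩,
  ⟨0, 28, 1, 8, 88, 0, 24, 1, 0⟩,
  ⟨1, 28, 1, 8, 95, 0, 24, 1, 0⟩,
  ⟨0, 27, 1, 8, 7, 0, 0, 1, 0⟩,
  ⟨1, 27, 1, 8, 90, 0, 24, 1, 0⟩]

def W2_1 : List EP :=
  [⟨0, 0, 0, 0, 2, 0, 0, 0, (-1), 98, 0, 24, 1, 0⟩,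
  ⟨0, 2, 0, 0, 4, 0, 0, 0, 1, 5, 0, 0, 1, 0⟩,
  ⟨0, 4, 0, 0, 6, 0, 0, 0, 1, 70, 0, 24, 1, 0⟩,
  ⟨0, 6, 0, 0, 8, 0, 0, 0, 1, 15, 0, 0, 1, 0⟩,
  ⟨0, 8, 0, 0, 10, 0, 0, 0, (-1), 77, 0, 24, 1, 0⟩,
  ⟨0, 10, 0, 0, 16, 0, 0, 0, 1, 64, 0, 24, 1, 0⟩,
  ⟨0, 12, 0, 0, 14, 0, 0, 0, (-1), 50, (-24), 24, 1, 1⟩,
  ⟨0, 14, 0, 0, 16, 1, 0, 0, 1, 44, (-24), 24, 1, 1⟩,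
  ⟨0, 16, 0, 0, 18, 0, 0, 0, (-1), 48, (-24), 24, 2, 1⟩,
  ⟨0, 18, 0, 0, 12, 0, 0, 0, 1, 42, (-24), 24, 1, 1⟩,
  ⟨0, 18, 1, 1, 20, 0, 0, 0, 1, 39, 0, 8, 1, 0⟩,
  ⟨0, 20, 0, 0, 22, 0, 0, 0, (-1), 47, 0, 8, 1, 0⟩,
  ⟨0, 22, 0, 0, 24, 0, 0, 0, 1, 22, 0, 0, 1, 0⟩,
  ⟨0, 24, 0, 0, 26, 0, 0, 0, (-1), 33, 0, 8, 1, 0⟩,
  ⟨0, 26, 0, 0, 28, 0, 0, 0, 1, 34, 0, 0, 1, 0⟩,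
  ⟨0, 28, 0, 0, 30, 0, 0, 0, (-1), 32, 0, 0, 1, 0⟩,
  ⟨0, 30, 0, 0, 32, 0, 0, 0, 1, 35, 0, 8, 1, 0⟩,
  ⟨0, 32, 0, 0, 34, 0, 0, 0, (-1), 14, 0, 0, 1, 0⟩,
  ⟨0, 34, 0, 0, 36, 1, 1, 0, (-1), 6, 0, 0, 1, 0⟩,
  ⟨0, 36, 0, 0, 42, 0, 0, 0, 1, 36, (-24), 24, 2, 1⟩,
  ⟨0, 38, 0, 0, 36, 0, 0, 0, (-1), 54, (-24), 24, 1, 1⟩,
  ⟨0, 40, 1, 0, 38, 0, 0, 0, 1, 46, (-24), 24, 1, 1⟩,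
  ⟨0, 42, 0, 0, 40, 0, 0, 0, (-1), 40, (-24), 24, 2, 1⟩,
  ⟨0, 40, 0, 0, 54, 0, 0, 0, 1, 68, 0, 24, 1, 0⟩,
  ⟨0, 44, 0, 0, 0, 0, 0, 1, 1, 1, 0, 0, 1, 0⟩,
  ⟨0, 46, 0, 0, 44, 0, 0, 0, 1, 93, 0, 24, 1, 0⟩,
  ⟨0, 48, 0, 0, 46, 0, 0, 0, (-1), 3, 0, 0, 1, 0⟩,
  ⟨0, 50, 0, 0, 48, 0, 0, 0, (-1), 76, 0, 24, 1, 0⟩,
  ⟨0, 52, 0, 0, 50, 0, 0, 0, 1, 73, 0, 24, 1, 0⟩,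
  ⟨0, 54, 0, 0, 52, 0, 0, 0, (-1), 81, 0, 24, 1, 0⟩,
  ⟨1, 0, 0, 0, 1, 0, 0, 0, (-1), 99, 0, 24, 1, 0⟩,
  ⟨1, 2, 0, 0, 3, 0, 0, 0, 1, 95, 0, 24, 1, 0⟩,
  ⟨1, 4, 0, 0, 5, 0, 0, 0, 1, 84, 0, 24, 1, 0⟩,
  ⟨1, 6, 0, 0, 7, 0, 0, 0, (-1), 60, 0, 24, 1, 0⟩,
  ⟨1, 8, 0, 0, 9, 0, 0, 0, (-1), 88, 0, 24, 1, 0⟩,
  ⟨1, 10, 0, 0, 11, 0, 0, 0, 1, 74, 0, 24, 1, 0⟩,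
  ⟨1, 12, 0, 0, 13, 0, 0, 0, (-1), 52, (-24), 24, 1, 1⟩,
  ⟨1, 14, 0, 0, 15, 0, 0, 0, 1, 58, (-24), 24, 1, 1⟩,
  ⟨1, 16, 0, 0, 17, 0, 0, 0, 1, 11, 8, 0, 2, 1⟩,
  ⟨1, 18, 0, 0, 19, 0, 0, 0, (-1), 17, 8, 0, 2, 1⟩,
  ⟨1, 20, 0, 0, 21, 0, 0, 0, (-1), 49, 0, 8, 1, 0⟩,
  ⟨1, 22, 0, 0, 23, 0, 0, 0, 1, 20, 0, 0, 1, 0⟩,
  ⟨1, 24, 0, 0, 25, 0, 0, 0, 1, 2, 0, 0, 1, 0⟩,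
  ⟨1, 26, 0, 0, 27, 0, 0, 0, 1, 27, 0, 8, 1, 0⟩,
  ⟨1, 28, 0, 0, 29, 0, 0, 0, (-1), 28, 0, 0, 1, 0⟩,
  ⟨1, 30, 0, 0, 31, 0, 0, 0, 1, 43, 0, 8, 1, 0⟩,
  ⟨1, 32, 0, 0, 33, 0, 0, 0, 1, 10, 0, 0, 1, 0⟩,
  ⟨1, 34, 0, 0, 35, 0, 0, 0, (-1), 8, 0, 0, 1, 0⟩,
  ⟨1, 36, 0, 0, 37, 0, 0, 0, (-1), 13, 8, 0, 2, 1⟩,
  ⟨1, 38, 0, 0, 39, 0, 0, 0, (-1), 56, (-24), 24, 1, 1⟩,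
  ⟨1, 40, 0, 0, 41, 0, 0, 0, 1, 62, (-24), 24, 2, 1⟩,
  ⟨1, 42, 0, 0, 43, 0, 0, 0, 1, 23, 8, 0, 2, 1⟩,
  ⟨1, 44, 0, 0, 45, 0, 0, 0, (-1), 96, 0, 24, 1, 0⟩,
  ⟨1, 46, 0, 0, 47, 0, 0, 0, 1, 92, 0, 24, 1, 0⟩,
  ⟨1, 48, 0, 0, 49, 0, 0, 0, 1, 85, 0, 24, 1, 0⟩,
  ⟨1, 50, 0, 0, 51, 0, 0, 0, (-1), 66, 0, 24, 1, 0⟩,
  ⟨1, 52, 0, 0, 53, 0, 0, 0, (-1), 7, 0, 0, 1, 0⟩,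
  ⟨1, 54, 0, 0, 55, 0, 0, 0, (-1), 83, 0, 24, 1, 0⟩,
  ⟨2, 1, 0, 0, 5, 0, 0, 0, 1, 90, 0, 24, 1, 0⟩,
  ⟨2, 3, 0, 0, 7, 0, 0, 0, (-1), 80, 0, 24, 1, 0⟩,
  ⟨2, 5, 0, 0, 9, 0, 0, 0, (-1), 87, 0, 24, 1, 0⟩,
  ⟨2, 7, 0, 0, 11, 0, 0, 0, 1, 72, 0, 24, 1, 0⟩,
  ⟨2, 9, 0, 0, 17, 0, 0, 0, 1, 86, 0, 24, 1, 0⟩,
  ⟨2, 11, 0, 0, 19, 0, 0, 0, (-1), 75, 0, 24, 1, 0⟩,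
  ⟨2, 13, 0, 0, 17, 1, 0, 0, 1, 65, (-16), 24, 1, 1⟩,
  ⟨2, 15, 0, 0, 19, 1, 0, 0, (-1), 63, (-16), 24, 1, 1⟩,
  ⟨2, 17, 0, 0, 13, 0, 0, 0, (-1), 69, (-16), 24, 1, 1⟩,
  ⟨2, 19, 0, 0, 15, 0, 0, 0, 1, 67, (-16), 24, 1, 1⟩,
  ⟨2, 17, 1, 1, 21, 0, 0, 0, (-1), 53, 0, 8, 1, 0⟩,
  ⟨2, 19, 1, 1, 23, 0, 0, 0, 1, 37, 0, 8, 1, 0⟩,
  ⟨2, 21, 0, 0, 25, 0, 0, 0, 1, 26, 0, 0, 1, 0⟩,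
  ⟨2, 23, 0, 0, 27, 0, 0, 0, (-1), 4, 0, 0, 1, 0⟩,
  ⟨2, 25, 0, 0, 29, 0, 0, 0, (-1), 29, 0, 8, 1, 0⟩,
  ⟨2, 27, 0, 0, 31, 0, 0, 0, 1, 18, 0, 0, 1, 0⟩,
  ⟨2, 29, 0, 0, 33, 0, 0, 0, 1, 41, 0, 8, 1, 0⟩,
  ⟨2, 31, 0, 0, 35, 0, 0, 0, (-1), 30, 0, 0, 1, 0⟩,
  ⟨2, 33, 0, 0, 37, 1, 1, 0, (-1), 51, 0, 8, 1, 0⟩,
  ⟨2, 35, 0, 0, 43, 1, 1, 0, 1, 45, 0, 8, 1, 0⟩,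
  ⟨2, 37, 0, 0, 41, 0, 0, 0, 1, 71, (-16), 24, 2, 1⟩,
  ⟨2, 39, 0, 0, 43, 0, 0, 0, 1, 61, (-16), 24, 1, 1⟩,
  ⟨2, 41, 1, 0, 37, 0, 0, 0, (-1), 59, (-16), 24, 1, 1⟩,
  ⟨2, 43, 1, 0, 39, 0, 0, 0, (-1), 57, (-16), 24, 1, 1⟩,
  ⟨2, 41, 0, 0, 53, 0, 0, 0, (-1), 82, 0, 24, 1, 0⟩,
  ⟨2, 43, 0, 0, 55, 0, 0, 0, (-1), 78, 0, 24, 1, 0⟩,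
  ⟨2, 45, 0, 0, 3, 0, 0, 1, 1, 94, 0, 24, 1, 0⟩,
  ⟨2, 47, 0, 0, 1, 0, 0, 1, (-1), 97, 0, 24, 1, 0⟩,
  ⟨2, 49, 0, 0, 45, 0, 0, 0, (-1), 91, 0, 24, 1, 0⟩,
  ⟨2, 51, 0, 0, 47, 0, 0, 0, 1, 79, 0, 24, 1, 0⟩,
  ⟨2, 53, 0, 0, 49, 0, 0, 0, 1, 89, 0, 24, 1, 0⟩,
  ⟨2, 55, 0, 0, 51, 0, 0, 0, 1, 9, 0, 0, 1, 0⟩]

theorem g2_1 (t : ℕ) : IsGraceful (genPetersen (33 + 8 * t) 2) :=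
  sound (V := V2_1) (W := W2_1) (by decide +kernel) t

def V2_2 : List VP :=
  [⟨0, 0, 1, 0, 0, 0, 0, 1, 0⟩,
  ⟨1, 0, 1, 0, 102, 0, 24, 1, 0⟩,
  ⟨0, 1, 1, 0, 99, 0, 24, 1, 0⟩,
  ⟨1, 1, 1, 0, 2, 0, 0, 1, 0⟩,
  ⟨0, 2, 1, 0, 8, 0, 0, 1, 0⟩,
  ⟨1, 2, 1, 0, 15, 0, 0, 1, 0⟩,
  ⟨0, 3, 1, 0, 94, 0, 24, 1, 0⟩,
  ⟨1, 3, 1, 0, 81, 0, 24, 1, 0⟩,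
  ⟨0, 4, 1, 0, 5, 0, 0, 1, 0⟩,
  ⟨1, 4, 1, 0, 90, 0, 24, 1, 0⟩,
  ⟨0, 5, 1, 0, 87, 0, 24, 1, 0⟩,
  ⟨1, 5, 1, 0, 9, 0, 0, 1, 0⟩,
  ⟨0, 8, 4, 0, 13, 12, 0, 1, 1⟩,
  ⟨1, 8, 4, 0, 83, (-12), 24, 1, 1⟩,
  ⟨0, 9, 4, 0, 79, (-12), 24, 1, 1⟩,
  ⟨1, 9, 4, 0, 23, 12, 0, 1, 1⟩,
  ⟨0, 6, 4, 0, 27, 12, 0, 2, 1⟩,
  ⟨1, 6, 4, 0, 10, 4, 0, 2, 1⟩,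
  ⟨0, 7, 4, 0, 75, (-12), 24, 2, 1⟩,
  ⟨1, 7, 4, 0, 86, (-4), 24, 2, 1⟩,
  ⟨0, 12, 1, 4, 20, 0, 4, 1, 0⟩,
  ⟨1, 12, 1, 4, 52, 0, 4, 1, 0⟩,
  ⟨0, 13, 1, 4, 67, 0, 12, 1, 0⟩,
  ⟨1, 13, 1, 4, 25, 0, 12, 1, 0⟩,
  ⟨0, 14, 1, 4, 22, 0, 4, 1, 0⟩,
  ⟨1, 14, 1, 4, 44, 0, 4, 1, 0⟩,
  ⟨0, 15, 1, 4, 18, 0, 4, 1, 0⟩,
  ⟨1, 15, 1, 4, 71, 0, 12, 1, 0⟩,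
  ⟨0, 16, 1, 4, 59, 0, 12, 1, 0⟩,
  ⟨1, 16, 1, 4, 26, 0, 4, 1, 0⟩,
  ⟨0, 17, 1, 4, 24, 0, 4, 1, 0⟩,
  ⟨1, 17, 1, 4, 55, 0, 12, 1, 0⟩,
  ⟨0, 18, 1, 4, 34, 0, 4, 1, 0⟩,
  ⟨1, 18, 1, 4, 28, 0, 4, 1, 0⟩,
  ⟨0, 25, (-4), 8, 69, (-12), 24, 2, 1⟩,
  ⟨1, 25, (-4), 8, 84, (-4), 24, 2, 1⟩,
  ⟨0, 24, (-4), 8, 19, 12, 0, 2, 1⟩,
  ⟨1, 24, (-4), 8, 77, (-12), 24, 2, 1⟩,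
  ⟨0, 27, (-4), 8, 85, (-12), 24, 3, 1⟩,
  ⟨1, 27, (-4), 8, 17, 12, 0, 3, 1⟩,
  ⟨0, 26, (-4), 8, 33, 12, 0, 2, 1⟩,
  ⟨1, 26, (-4), 8, 12, 4, 0, 2, 1⟩,
  ⟨0, 33, 1, 8, 101, 0, 24, 1, 0⟩,
  ⟨1, 33, 1, 8, 100, 0, 24, 1, 0⟩,
  ⟨0, 32, 1, 8, 1, 0, 0, 1, 0⟩,
  ⟨1, 32, 1, 8, 6, 0, 0, 1, 0⟩,
  ⟨0, 31, 1, 8, 91, 0, 24, 1, 0⟩,
  ⟨1, 31, 1, 8, 7, 0, 0, 1, 0⟩,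
  ⟨0, 30, 1, 8, 3, 0, 0, 1, 0⟩,
  ⟨1, 30, 1, 8, 98, 0, 24, 1, 0⟩,
  ⟨0, 29, 1, 8, 97, 0, 24, 1, 0⟩,
  ⟨1, 29, 1, 8, 88, 0, 24, 1, 0⟩,
  ⟨0, 28, 1, 8, 21, 0, 0, 1, 0⟩,
  ⟨1, 28, 1, 8, 95, 0, 24, 1, 0⟩]

def W2_2 : List EP :=
  [⟨0, 0, 0, 0, 2, 0, 0, 0, (-1), 99, 0, 24, 1, 0⟩,
  ⟨0, 2, 0, 0, 4, 0, 0, 0, 1, 91, 0, 24, 1, 0⟩,
  ⟨0, 4, 0, 0, 6, 0, 0, 0, (-1), 86, 0, 24, 1, 0⟩,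
  ⟨0, 6, 0, 0, 8, 0, 0, 0, 1, 89, 0, 24, 1, 0⟩,
  ⟨0, 8, 0, 0, 10, 0, 0, 0, (-1), 82, 0, 24, 1, 0⟩,
  ⟨0, 10, 0, 0, 16, 0, 0, 0, 1, 60, 0, 24, 1, 0⟩,
  ⟨0, 12, 0, 0, 14, 0, 0, 0, (-1), 66, (-24), 24, 1, 1⟩,
  ⟨0, 14, 0, 0, 16, 1, 0, 0, 1, 40, (-24), 24, 1, 1⟩,
  ⟨0, 16, 0, 0, 18, 0, 0, 0, (-1), 48, (-24), 24, 2, 1⟩,
  ⟨0, 18, 0, 0, 12, 0, 0, 0, 1, 62, (-24), 24, 1, 1⟩,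
  ⟨0, 18, 1, 1, 20, 0, 0, 0, 1, 43, 0, 8, 1, 0⟩,
  ⟨0, 20, 0, 0, 22, 0, 0, 0, (-1), 47, 0, 8, 1, 0⟩,
  ⟨0, 22, 0, 0, 24, 0, 0, 0, 1, 45, 0, 8, 1, 0⟩,
  ⟨0, 24, 0, 0, 26, 0, 0, 0, 1, 4, 0, 0, 1, 0⟩,
  ⟨0, 26, 0, 0, 28, 0, 0, 0, (-1), 41, 0, 8, 1, 0⟩,
  ⟨0, 28, 0, 0, 30, 0, 0, 0, 1, 35, 0, 8, 1, 0⟩,
  ⟨0, 30, 0, 0, 32, 0, 0, 0, (-1), 10, 0, 0, 1, 0⟩,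
  ⟨0, 32, 0, 0, 38, 2, 1, 0, (-1), 27, 0, 8, 1, 0⟩,
  ⟨0, 34, 0, 0, 40, 0, 0, 0, 1, 36, (-24), 24, 2, 1⟩,
  ⟨0, 36, 0, 0, 34, 0, 0, 0, (-1), 50, (-24), 24, 2, 1⟩,
  ⟨0, 38, 1, 0, 36, 0, 0, 0, 1, 54, (-24), 24, 2, 1⟩,
  ⟨0, 40, 0, 0, 38, 0, 0, 0, (-1), 52, (-24), 24, 2, 1⟩,
  ⟨0, 38, 0, 0, 52, 0, 0, 0, 1, 64, 0, 24, 1, 0⟩,
  ⟨0, 42, 0, 0, 0, 0, 0, 1, 1, 101, 0, 24, 1, 0⟩,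
  ⟨0, 44, 0, 0, 42, 0, 0, 0, (-1), 100, 0, 24, 1, 0⟩,
  ⟨0, 46, 0, 0, 44, 0, 0, 0, 1, 90, 0, 24, 1, 0⟩,
  ⟨0, 48, 0, 0, 46, 0, 0, 0, (-1), 88, 0, 24, 1, 0⟩,
  ⟨0, 50, 0, 0, 48, 0, 0, 0, 1, 94, 0, 24, 1, 0⟩,
  ⟨0, 52, 0, 0, 50, 0, 0, 0, (-1), 76, 0, 24, 1, 0⟩,
  ⟨1, 0, 0, 0, 1, 0, 0, 0, (-1), 102, 0, 24, 1, 0⟩,
  ⟨1, 2, 0, 0, 3, 0, 0, 0, 1, 97, 0, 24, 1, 0⟩,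
  ⟨1, 4, 0, 0, 5, 0, 0, 0, (-1), 7, 0, 0, 1, 0⟩,
  ⟨1, 6, 0, 0, 7, 0, 0, 0, 1, 13, 0, 0, 1, 0⟩,
  ⟨1, 8, 0, 0, 9, 0, 0, 0, (-1), 85, 0, 24, 1, 0⟩,
  ⟨1, 10, 0, 0, 11, 0, 0, 0, 1, 78, 0, 24, 1, 0⟩,
  ⟨1, 12, 0, 0, 13, 0, 0, 0, (-1), 70, (-24), 24, 1, 1⟩,
  ⟨1, 14, 0, 0, 15, 0, 0, 0, 1, 56, (-24), 24, 1, 1⟩,
  ⟨1, 16, 0, 0, 17, 0, 0, 0, 1, 17, 8, 0, 2, 1⟩,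
  ⟨1, 18, 0, 0, 19, 0, 0, 0, (-1), 11, 8, 0, 2, 1⟩,
  ⟨1, 20, 0, 0, 21, 0, 0, 0, (-1), 32, 0, 0, 1, 0⟩,
  ⟨1, 22, 0, 0, 23, 0, 0, 0, 1, 42, 0, 0, 1, 0⟩,
  ⟨1, 24, 0, 0, 25, 0, 0, 0, (-1), 22, 0, 0, 1, 0⟩,
  ⟨1, 26, 0, 0, 27, 0, 0, 0, (-1), 53, 0, 8, 1, 0⟩,
  ⟨1, 28, 0, 0, 29, 0, 0, 0, 1, 33, 0, 8, 1, 0⟩,
  ⟨1, 30, 0, 0, 31, 0, 0, 0, (-1), 31, 0, 8, 1, 0⟩,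
  ⟨1, 32, 0, 0, 33, 0, 0, 0, 1, 6, 0, 0, 1, 0⟩,
  ⟨1, 34, 0, 0, 35, 0, 0, 0, (-1), 15, 8, 0, 2, 1⟩,
  ⟨1, 36, 0, 0, 37, 0, 0, 0, (-1), 58, (-24), 24, 2, 1⟩,
  ⟨1, 38, 0, 0, 39, 0, 0, 0, 1, 68, (-24), 24, 3, 1⟩,
  ⟨1, 40, 0, 0, 41, 0, 0, 0, 1, 21, 8, 0, 2, 1⟩,
  ⟨1, 42, 0, 0, 43, 0, 0, 0, 1, 1, 0, 0, 1, 0⟩,
  ⟨1, 44, 0, 0, 45, 0, 0, 0, (-1), 5, 0, 0, 1, 0⟩,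
  ⟨1, 46, 0, 0, 47, 0, 0, 0, 1, 84, 0, 24, 1, 0⟩,
  ⟨1, 48, 0, 0, 49, 0, 0, 0, (-1), 95, 0, 24, 1, 0⟩,
  ⟨1, 50, 0, 0, 51, 0, 0, 0, 1, 9, 0, 0, 1, 0⟩,
  ⟨1, 52, 0, 0, 53, 0, 0, 0, (-1), 74, 0, 24, 1, 0⟩,
  ⟨2, 1, 0, 0, 5, 0, 0, 0, 1, 87, 0, 24, 1, 0⟩,
  ⟨2, 3, 0, 0, 7, 0, 0, 0, (-1), 79, 0, 24, 1, 0⟩,
  ⟨2, 5, 0, 0, 9, 0, 0, 0, (-1), 75, 0, 24, 1, 0⟩,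
  ⟨2, 7, 0, 0, 11, 0, 0, 0, 1, 72, 0, 24, 1, 0⟩,
  ⟨2, 9, 0, 0, 17, 0, 0, 0, 1, 80, 0, 24, 1, 0⟩,
  ⟨2, 11, 0, 0, 19, 0, 0, 0, (-1), 77, 0, 24, 1, 0⟩,
  ⟨2, 13, 0, 0, 17, 1, 0, 0, 1, 69, (-16), 24, 1, 1⟩,
  ⟨2, 15, 0, 0, 19, 1, 0, 0, (-1), 59, (-16), 24, 1, 1⟩,
  ⟨2, 17, 0, 0, 13, 0, 0, 0, (-1), 73, (-16), 24, 1, 1⟩,
  ⟨2, 19, 0, 0, 15, 0, 0, 0, 1, 63, (-16), 24, 1, 1⟩,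
  ⟨2, 17, 1, 1, 21, 0, 0, 0, (-1), 38, 0, 0, 1, 0⟩,
  ⟨2, 19, 1, 1, 23, 0, 0, 0, 1, 57, 0, 8, 1, 0⟩,
  ⟨2, 21, 0, 0, 25, 0, 0, 0, 1, 8, 0, 0, 1, 0⟩,
  ⟨2, 23, 0, 0, 27, 0, 0, 0, (-1), 46, 0, 0, 1, 0⟩,
  ⟨2, 25, 0, 0, 29, 0, 0, 0, 1, 18, 0, 0, 1, 0⟩,
  ⟨2, 27, 0, 0, 31, 0, 0, 0, 1, 16, 0, 0, 1, 0⟩,
  ⟨2, 29, 0, 0, 33, 0, 0, 0, (-1), 2, 0, 0, 1, 0⟩,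
  ⟨2, 31, 0, 0, 39, 2, 1, 0, 1, 14, 0, 0, 1, 0⟩,
  ⟨2, 33, 0, 0, 37, 1, 1, 0, (-1), 37, 0, 8, 1, 0⟩,
  ⟨2, 35, 0, 0, 39, 0, 0, 0, 1, 67, (-16), 24, 2, 1⟩,
  ⟨2, 37, 0, 0, 41, 0, 0, 0, 1, 65, (-16), 24, 2, 1⟩,
  ⟨2, 39, 1, 0, 35, 0, 0, 0, (-1), 55, (-16), 24, 2, 1⟩,
  ⟨2, 41, 1, 0, 37, 0, 0, 0, (-1), 61, (-16), 24, 1, 1⟩,
  ⟨2, 39, 0, 0, 51, 0, 0, 0, (-1), 71, 0, 24, 1, 0⟩,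
  ⟨2, 41, 0, 0, 53, 0, 0, 0, (-1), 83, 0, 24, 1, 0⟩,
  ⟨2, 43, 0, 0, 3, 0, 0, 1, 1, 98, 0, 24, 1, 0⟩,
  ⟨2, 45, 0, 0, 1, 0, 0, 1, (-1), 96, 0, 24, 1, 0⟩,
  ⟨2, 47, 0, 0, 43, 0, 0, 0, (-1), 93, 0, 24, 1, 0⟩,
  ⟨2, 49, 0, 0, 45, 0, 0, 0, 1, 92, 0, 24, 1, 0⟩,
  ⟨2, 51, 0, 0, 47, 0, 0, 0, 1, 81, 0, 24, 1, 0⟩,
  ⟨2, 53, 0, 0, 49, 0, 0, 0, (-1), 3, 0, 0, 1, 0⟩]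

theorem g2_2 (t : ℕ) : IsGraceful (genPetersen (34 + 8 * t) 2) :=
  sound (V := V2_2) (W := W2_2) (by decide +kernel) t

def V2_3 : List VP :=
  [⟨0, 0, 1, 0, 0, 0, 0, 1, 0⟩,
  ⟨1, 0, 1, 0, 105, 0, 24, 1, 0⟩,
  ⟨0, 1, 1, 0, 104, 0, 24, 1, 0⟩,
  ⟨1, 1, 1, 0, 3, 0, 0, 1, 0⟩,
  ⟨0, 2, 1, 0, 99, 0, 24, 1, 0⟩,
  ⟨1, 2, 1, 0, 9, 0, 0, 1, 0⟩,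
  ⟨0, 3, 1, 0, 23, 0, 0, 1, 0⟩,
  ⟨1, 3, 1, 0, 89, 0, 24, 1, 0⟩,
  ⟨0, 4, 1, 0, 8, 0, 0, 1, 0⟩,
  ⟨1, 4, 1, 0, 102, 0, 24, 1, 0⟩,
  ⟨0, 5, 1, 0, 91, 0, 24, 1, 0⟩,
  ⟨1, 5, 1, 0, 11, 0, 0, 1, 0⟩,
  ⟨0, 8, 4, 0, 27, 12, 0, 1, 1⟩,
  ⟨1, 8, 4, 0, 85, (-12), 24, 1, 1⟩,
  ⟨0, 9, 4, 0, 83, (-12), 24, 1, 1⟩,
  ⟨1, 9, 4, 0, 19, 12, 0, 1, 1⟩,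
  ⟨0, 6, 4, 0, 21, 12, 0, 2, 1⟩,
  ⟨1, 6, 4, 0, 10, 4, 0, 2, 1⟩,
  ⟨0, 7, 4, 0, 75, (-12), 24, 2, 1⟩,
  ⟨1, 7, 4, 0, 92, (-4), 24, 2, 1⟩,
  ⟨0, 12, 1, 4, 49, 0, 12, 1, 0⟩,
  ⟨1, 12, 1, 4, 73, 0, 12, 1, 0⟩,
  ⟨0, 13, 1, 4, 51, 0, 12, 1, 0⟩,
  ⟨1, 13, 1, 4, 31, 0, 12, 1, 0⟩,
  ⟨0, 14, 1, 4, 61, 0, 12, 1, 0⟩,
  ⟨1, 14, 1, 4, 18, 0, 4, 1, 0⟩,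
  ⟨0, 15, 1, 4, 22, 0, 4, 1, 0⟩,
  ⟨1, 15, 1, 4, 71, 0, 12, 1, 0⟩,
  ⟨0, 16, 1, 4, 56, 0, 4, 1, 0⟩,
  ⟨1, 16, 1, 4, 30, 0, 4, 1, 0⟩,
  ⟨0, 17, 1, 4, 52, 0, 4, 1, 0⟩,
  ⟨1, 17, 1, 4, 24, 0, 4, 1, 0⟩,
  ⟨0, 18, 1, 4, 20, 0, 4, 1, 0⟩,
  ⟨1, 18, 1, 4, 57, 0, 12, 1, 0⟩,
  ⟨0, 19, 1, 4, 53, 0, 12, 1, 0⟩,
  ⟨1, 19, 1, 4, 59, 0, 12, 1, 0⟩,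
  ⟨0, 20, 1, 4, 82, 0, 20, 1, 0⟩,
  ⟨1, 20, 1, 4, 41, 0, 12, 1, 0⟩,
  ⟨0, 26, (-4), 8, 77, (-12), 24, 2, 1⟩,
  ⟨1, 26, (-4), 8, 90, (-4), 24, 2, 1⟩,
  ⟨0, 25, (-4), 8, 17, 12, 0, 2, 1⟩,
  ⟨1, 25, (-4), 8, 79, (-12), 24, 2, 1⟩,
  ⟨0, 28, (-4), 8, 81, (-12), 24, 2, 1⟩,
  ⟨1, 28, (-4), 8, 13, 12, 0, 2, 1⟩,
  ⟨0, 27, (-4), 8, 35, 12, 0, 2, 1⟩,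
  ⟨1, 27, (-4), 8, 12, 4, 0, 2, 1⟩,
  ⟨0, 34, 1, 8, 1, 0, 0, 1, 0⟩,
  ⟨1, 34, 1, 8, 103, 0, 24, 1, 0⟩,
  ⟨0, 33, 1, 8, 100, 0, 24, 1, 0⟩,
  ⟨1, 33, 1, 8, 2, 0, 0, 1, 0⟩,
  ⟨0, 32, 1, 8, 97, 0, 24, 1, 0⟩,
  ⟨1, 32, 1, 8, 6, 0, 0, 1, 0⟩,
  ⟨0, 31, 1, 8, 15, 0, 0, 1, 0⟩,
  ⟨1, 31, 1, 8, 87, 0, 24, 1, 0⟩,
  ⟨0, 30, 1, 8, 94, 0, 24, 1, 0⟩,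
  ⟨1, 30, 1, 8, 101, 0, 24, 1, 0⟩,
  ⟨0, 29, 1, 8, 7, 0, 0, 1, 0⟩,
  ⟨1, 29, 1, 8, 96, 0, 24, 1, 0⟩]

def W2_3 : List EP :=
  [⟨0, 0, 0, 0, 2, 0, 0, 0, (-1), 104, 0, 24, 1, 0⟩,
  ⟨0, 2, 0, 0, 4, 0, 0, 0, 1, 5, 0, 0, 1, 0⟩,
  ⟨0, 4, 0, 0, 6, 0, 0, 0, 1, 76, 0, 24, 1, 0⟩,
  ⟨0, 6, 0, 0, 8, 0, 0, 0, 1, 15, 0, 0, 1, 0⟩,
  ⟨0, 8, 0, 0, 10, 0, 0, 0, (-1), 83, 0, 24, 1, 0⟩,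
  ⟨0, 10, 0, 0, 16, 0, 0, 0, 1, 70, 0, 24, 1, 0⟩,
  ⟨0, 12, 0, 0, 14, 0, 0, 0, (-1), 56, (-24), 24, 1, 1⟩,
  ⟨0, 14, 0, 0, 16, 1, 0, 0, 1, 50, (-24), 24, 1, 1⟩,
  ⟨0, 16, 0, 0, 18, 0, 0, 0, (-1), 54, (-24), 24, 2, 1⟩,
  ⟨0, 18, 0, 0, 12, 0, 0, 0, 1, 48, (-24), 24, 1, 1⟩,
  ⟨0, 18, 1, 1, 20, 0, 0, 0, 1, 14, 0, 0, 1, 0⟩,
  ⟨0, 20, 0, 0, 22, 0, 0, 0, (-1), 2, 0, 0, 1, 0⟩,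
  ⟨0, 22, 0, 0, 24, 0, 0, 0, (-1), 10, 0, 0, 1, 0⟩,
  ⟨0, 24, 0, 0, 26, 0, 0, 0, 1, 39, 0, 8, 1, 0⟩,
  ⟨0, 26, 0, 0, 28, 0, 0, 0, (-1), 34, 0, 0, 1, 0⟩,
  ⟨0, 28, 0, 0, 30, 0, 0, 0, 1, 4, 0, 0, 1, 0⟩,
  ⟨0, 30, 0, 0, 32, 0, 0, 0, 1, 32, 0, 0, 1, 0⟩,
  ⟨0, 32, 0, 0, 34, 0, 0, 0, (-1), 33, 0, 8, 1, 0⟩,
  ⟨0, 34, 0, 0, 36, 0, 0, 0, (-1), 29, 0, 8, 1, 0⟩,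
  ⟨0, 36, 0, 0, 40, 1, 1, 0, 1, 53, 0, 8, 1, 0⟩,
  ⟨0, 38, 0, 0, 44, 0, 0, 0, 1, 42, (-24), 24, 2, 1⟩,
  ⟨0, 40, 0, 0, 38, 0, 0, 0, (-1), 60, (-24), 24, 2, 1⟩,
  ⟨0, 42, 1, 0, 40, 0, 0, 0, 1, 52, (-24), 24, 1, 1⟩,
  ⟨0, 44, 0, 0, 42, 0, 0, 0, (-1), 46, (-24), 24, 2, 1⟩,
  ⟨0, 42, 0, 0, 56, 0, 0, 0, 1, 74, 0, 24, 1, 0⟩,
  ⟨0, 46, 0, 0, 0, 0, 0, 1, 1, 1, 0, 0, 1, 0⟩,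
  ⟨0, 48, 0, 0, 46, 0, 0, 0, 1, 99, 0, 24, 1, 0⟩,
  ⟨0, 50, 0, 0, 48, 0, 0, 0, (-1), 3, 0, 0, 1, 0⟩,
  ⟨0, 52, 0, 0, 50, 0, 0, 0, (-1), 82, 0, 24, 1, 0⟩,
  ⟨0, 54, 0, 0, 52, 0, 0, 0, 1, 79, 0, 24, 1, 0⟩,
  ⟨0, 56, 0, 0, 54, 0, 0, 0, (-1), 87, 0, 24, 1, 0⟩,
  ⟨1, 0, 0, 0, 1, 0, 0, 0, (-1), 105, 0, 24, 1, 0⟩,
  ⟨1, 2, 0, 0, 3, 0, 0, 0, 1, 101, 0, 24, 1, 0⟩,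
  ⟨1, 4, 0, 0, 5, 0, 0, 0, 1, 90, 0, 24, 1, 0⟩,
  ⟨1, 6, 0, 0, 7, 0, 0, 0, (-1), 66, 0, 24, 1, 0⟩,
  ⟨1, 8, 0, 0, 9, 0, 0, 0, (-1), 94, 0, 24, 1, 0⟩,
  ⟨1, 10, 0, 0, 11, 0, 0, 0, 1, 80, 0, 24, 1, 0⟩,
  ⟨1, 12, 0, 0, 13, 0, 0, 0, (-1), 58, (-24), 24, 1, 1⟩,
  ⟨1, 14, 0, 0, 15, 0, 0, 0, 1, 64, (-24), 24, 1, 1⟩,
  ⟨1, 16, 0, 0, 17, 0, 0, 0, 1, 11, 8, 0, 2, 1⟩,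
  ⟨1, 18, 0, 0, 19, 0, 0, 0, (-1), 17, 8, 0, 2, 1⟩,
  ⟨1, 20, 0, 0, 21, 0, 0, 0, (-1), 24, 0, 0, 1, 0⟩,
  ⟨1, 22, 0, 0, 23, 0, 0, 0, 1, 20, 0, 0, 1, 0⟩,
  ⟨1, 24, 0, 0, 25, 0, 0, 0, 1, 43, 0, 8, 1, 0⟩,
  ⟨1, 26, 0, 0, 27, 0, 0, 0, (-1), 49, 0, 8, 1, 0⟩,
  ⟨1, 28, 0, 0, 29, 0, 0, 0, 1, 26, 0, 0, 1, 0⟩,
  ⟨1, 30, 0, 0, 31, 0, 0, 0, 1, 28, 0, 0, 1, 0⟩,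
  ⟨1, 32, 0, 0, 33, 0, 0, 0, (-1), 37, 0, 8, 1, 0⟩,
  ⟨1, 34, 0, 0, 35, 0, 0, 0, (-1), 6, 0, 0, 1, 0⟩,
  ⟨1, 36, 0, 0, 37, 0, 0, 0, 1, 41, 0, 8, 1, 0⟩,
  ⟨1, 38, 0, 0, 39, 0, 0, 0, (-1), 13, 8, 0, 2, 1⟩,
  ⟨1, 40, 0, 0, 41, 0, 0, 0, (-1), 62, (-24), 24, 2, 1⟩,
  ⟨1, 42, 0, 0, 43, 0, 0, 0, 1, 68, (-24), 24, 2, 1⟩,
  ⟨1, 44, 0, 0, 45, 0, 0, 0, 1, 23, 8, 0, 2, 1⟩,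
  ⟨1, 46, 0, 0, 47, 0, 0, 0, (-1), 102, 0, 24, 1, 0⟩,
  ⟨1, 48, 0, 0, 49, 0, 0, 0, 1, 98, 0, 24, 1, 0⟩,
  ⟨1, 50, 0, 0, 51, 0, 0, 0, 1, 91, 0, 24, 1, 0⟩,
  ⟨1, 52, 0, 0, 53, 0, 0, 0, (-1), 72, 0, 24, 1, 0⟩,
  ⟨1, 54, 0, 0, 55, 0, 0, 0, (-1), 7, 0, 0, 1, 0⟩,
  ⟨1, 56, 0, 0, 57, 0, 0, 0, (-1), 89, 0, 24, 1, 0⟩,
  ⟨2, 1, 0, 0, 5, 0, 0, 0, 1, 96, 0, 24, 1, 0⟩,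
  ⟨2, 3, 0, 0, 7, 0, 0, 0, (-1), 86, 0, 24, 1, 0⟩,
  ⟨2, 5, 0, 0, 9, 0, 0, 0, (-1), 93, 0, 24, 1, 0⟩,
  ⟨2, 7, 0, 0, 11, 0, 0, 0, 1, 78, 0, 24, 1, 0⟩,
  ⟨2, 9, 0, 0, 17, 0, 0, 0, 1, 92, 0, 24, 1, 0⟩,
  ⟨2, 11, 0, 0, 19, 0, 0, 0, (-1), 81, 0, 24, 1, 0⟩,
  ⟨2, 13, 0, 0, 17, 1, 0, 0, 1, 71, (-16), 24, 1, 1⟩,
  ⟨2, 15, 0, 0, 19, 1, 0, 0, (-1), 69, (-16), 24, 1, 1⟩,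
  ⟨2, 17, 0, 0, 13, 0, 0, 0, (-1), 75, (-16), 24, 1, 1⟩,
  ⟨2, 19, 0, 0, 15, 0, 0, 0, 1, 73, (-16), 24, 1, 1⟩,
  ⟨2, 17, 1, 1, 21, 0, 0, 0, (-1), 59, 0, 8, 1, 0⟩,
  ⟨2, 19, 1, 1, 23, 0, 0, 0, 1, 57, 0, 8, 1, 0⟩,
  ⟨2, 21, 0, 0, 25, 0, 0, 0, 1, 55, 0, 8, 1, 0⟩,
  ⟨2, 23, 0, 0, 27, 0, 0, 0, (-1), 40, 0, 0, 1, 0⟩,
  ⟨2, 25, 0, 0, 29, 0, 0, 0, (-1), 12, 0, 0, 1, 0⟩,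
  ⟨2, 27, 0, 0, 31, 0, 0, 0, 1, 47, 0, 8, 1, 0⟩,
  ⟨2, 29, 0, 0, 33, 0, 0, 0, (-1), 27, 0, 8, 1, 0⟩,
  ⟨2, 31, 0, 0, 35, 0, 0, 0, (-1), 35, 0, 8, 1, 0⟩,
  ⟨2, 33, 0, 0, 37, 0, 0, 0, 1, 16, 0, 0, 1, 0⟩,
  ⟨2, 35, 0, 0, 41, 1, 1, 0, (-1), 8, 0, 0, 1, 0⟩,
  ⟨2, 37, 0, 0, 39, 1, 1, 0, (-1), 45, 0, 8, 1, 0⟩,
  ⟨2, 39, 0, 0, 43, 0, 0, 0, 1, 77, (-16), 24, 2, 1⟩,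
  ⟨2, 41, 0, 0, 45, 0, 0, 0, 1, 67, (-16), 24, 2, 1⟩,
  ⟨2, 43, 1, 0, 39, 0, 0, 0, (-1), 65, (-16), 24, 1, 1⟩,
  ⟨2, 45, 1, 0, 41, 0, 0, 0, (-1), 63, (-16), 24, 1, 1⟩,
  ⟨2, 43, 0, 0, 55, 0, 0, 0, (-1), 88, 0, 24, 1, 0⟩,
  ⟨2, 45, 0, 0, 57, 0, 0, 0, (-1), 84, 0, 24, 1, 0⟩,
  ⟨2, 47, 0, 0, 3, 0, 0, 1, 1, 100, 0, 24, 1, 0⟩,
  ⟨2, 49, 0, 0, 1, 0, 0, 1, (-1), 103, 0, 24, 1, 0⟩,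
  ⟨2, 51, 0, 0, 47, 0, 0, 0, (-1), 97, 0, 24, 1, 0⟩,
  ⟨2, 53, 0, 0, 49, 0, 0, 0, 1, 85, 0, 24, 1, 0⟩,
  ⟨2, 55, 0, 0, 51, 0, 0, 0, 1, 95, 0, 24, 1, 0⟩,
  ⟨2, 57, 0, 0, 53, 0, 0, 0, 1, 9, 0, 0, 1, 0⟩]

theorem g2_3 (t : ℕ) : IsGraceful (genPetersen (35 + 8 * t) 2) :=
  sound (V := V2_3) (W := W2_3) (by decide +kernel) t

def V2_4 : List VP :=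
  [⟨0, 0, 1, 0, 0, 0, 0, 1, 0⟩,
  ⟨1, 0, 1, 0, 108, 0, 24, 1, 0⟩,
  ⟨0, 1, 1, 0, 105, 0, 24, 1, 0⟩,
  ⟨1, 1, 1, 0, 2, 0, 0, 1, 0⟩,
  ⟨0, 2, 1, 0, 8, 0, 0, 1, 0⟩,
  ⟨1, 2, 1, 0, 15, 0, 0, 1, 0⟩,
  ⟨0, 3, 1, 0, 100, 0, 24, 1, 0⟩,
  ⟨1, 3, 1, 0, 87, 0, 24, 1, 0⟩,
  ⟨0, 4, 1, 0, 5, 0, 0, 1, 0⟩,
  ⟨1, 4, 1, 0, 96, 0, 24, 1, 0⟩,
  ⟨0, 5, 1, 0, 93, 0, 24, 1, 0⟩,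
  ⟨1, 5, 1, 0, 9, 0, 0, 1, 0⟩,
  ⟨0, 8, 4, 0, 13, 12, 0, 2, 1⟩,
  ⟨1, 8, 4, 0, 89, (-12), 24, 2, 1⟩,
  ⟨0, 9, 4, 0, 85, (-12), 24, 2, 1⟩,
  ⟨1, 9, 4, 0, 23, 12, 0, 2, 1⟩,
  ⟨0, 6, 4, 0, 27, 12, 0, 3, 1⟩,
  ⟨1, 6, 4, 0, 10, 4, 0, 3, 1⟩,
  ⟨0, 7, 4, 0, 81, (-12), 24, 2, 1⟩,
  ⟨1, 7, 4, 0, 92, (-4), 24, 2, 1⟩,
  ⟨0, 15, 1, 4, 43, 0, 12, 1, 0⟩,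
  ⟨1, 15, 1, 4, 84, 0, 20, 1, 0⟩,
  ⟨0, 16, 1, 4, 55, 0, 12, 1, 0⟩,
  ⟨1, 16, 1, 4, 49, 0, 12, 1, 0⟩,
  ⟨0, 17, 1, 4, 57, 0, 12, 1, 0⟩,
  ⟨1, 17, 1, 4, 37, 0, 12, 1, 0⟩,
  ⟨0, 18, 1, 4, 22, 0, 4, 1, 0⟩,
  ⟨1, 18, 1, 4, 59, 0, 12, 1, 0⟩,
  ⟨0, 19, 1, 4, 38, 0, 4, 1, 0⟩,
  ⟨1, 19, 1, 4, 65, 0, 12, 1, 0⟩,
  ⟨0, 20, 1, 4, 24, 0, 4, 1, 0⟩,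
  ⟨1, 20, 1, 4, 20, 0, 4, 1, 0⟩,
  ⟨0, 27, (-4), 8, 75, (-12), 24, 2, 1⟩,
  ⟨1, 27, (-4), 8, 90, (-4), 24, 2, 1⟩,
  ⟨0, 26, (-4), 8, 19, 12, 0, 2, 1⟩,
  ⟨1, 26, (-4), 8, 83, (-12), 24, 2, 1⟩,
  ⟨0, 29, (-4), 8, 91, (-12), 24, 3, 1⟩,
  ⟨1, 29, (-4), 8, 17, 12, 0, 3, 1⟩,
  ⟨0, 28, (-4), 8, 33, 12, 0, 2, 1⟩,
  ⟨1, 28, (-4), 8, 12, 4, 0, 2, 1⟩,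
  ⟨0, 35, 1, 8, 107, 0, 24, 1, 0⟩,
  ⟨1, 35, 1, 8, 106, 0, 24, 1, 0⟩,
  ⟨0, 34, 1, 8, 1, 0, 0, 1, 0⟩,
  ⟨1, 34, 1, 8, 6, 0, 0, 1, 0⟩,
  ⟨0, 33, 1, 8, 97, 0, 24, 1, 0⟩,
  ⟨1, 33, 1, 8, 7, 0, 0, 1, 0⟩,
  ⟨0, 32, 1, 8, 3, 0, 0, 1, 0⟩,
  ⟨1, 32, 1, 8, 104, 0, 24, 1, 0⟩,
  ⟨0, 31, 1, 8, 103, 0, 24, 1, 0⟩,
  ⟨1, 31, 1, 8, 94, 0, 24, 1, 0⟩,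
  ⟨0, 30, 1, 8, 21, 0, 0, 1, 0⟩,
  ⟨1, 30, 1, 8, 101, 0, 24, 1, 0⟩]

def W2_4 : List EP :=
  [⟨0, 0, 0, 0, 2, 0, 0, 0, (-1), 105, 0, 24, 1, 0⟩,
  ⟨0, 2, 0, 0, 4, 0, 0, 0, 1, 97, 0, 24, 1, 0⟩,
  ⟨0, 4, 0, 0, 6, 0, 0, 0, (-1), 92, 0, 24, 1, 0⟩,
  ⟨0, 6, 0, 0, 8, 0, 0, 0, 1, 95, 0, 24, 1, 0⟩,
  ⟨0, 8, 0, 0, 10, 0, 0, 0, (-1), 88, 0, 24, 1, 0⟩,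
  ⟨0, 10, 0, 0, 16, 0, 0, 0, 1, 66, 0, 24, 1, 0⟩,
  ⟨0, 12, 0, 0, 14, 0, 0, 0, (-1), 72, (-24), 24, 2, 1⟩,
  ⟨0, 14, 0, 0, 16, 1, 0, 0, 1, 46, (-24), 24, 2, 1⟩,
  ⟨0, 16, 0, 0, 18, 0, 0, 0, (-1), 54, (-24), 24, 2, 1⟩,
  ⟨0, 18, 0, 0, 12, 0, 0, 0, 1, 68, (-24), 24, 2, 1⟩,
  ⟨0, 16, 2, 1, 20, 0, 0, 0, 1, 8, 0, 0, 1, 0⟩,
  ⟨0, 20, 0, 0, 22, 0, 0, 0, (-1), 12, 0, 0, 1, 0⟩,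
  ⟨0, 22, 0, 0, 24, 0, 0, 0, (-1), 2, 0, 0, 1, 0⟩,
  ⟨0, 24, 0, 0, 26, 0, 0, 0, 1, 35, 0, 8, 1, 0⟩,
  ⟨0, 26, 0, 0, 28, 0, 0, 0, (-1), 16, 0, 0, 1, 0⟩,
  ⟨0, 28, 0, 0, 30, 0, 0, 0, 1, 14, 0, 0, 1, 0⟩,
  ⟨0, 30, 0, 0, 36, 2, 1, 0, (-1), 43, 0, 8, 1, 0⟩,
  ⟨0, 32, 0, 0, 38, 0, 0, 0, 1, 42, (-24), 24, 2, 1⟩,
  ⟨0, 34, 0, 0, 32, 0, 0, 0, (-1), 56, (-24), 24, 2, 1⟩,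
  ⟨0, 36, 1, 0, 34, 0, 0, 0, 1, 60, (-24), 24, 2, 1⟩,
  ⟨0, 38, 0, 0, 36, 0, 0, 0, (-1), 58, (-24), 24, 2, 1⟩,
  ⟨0, 36, 0, 0, 50, 0, 0, 0, 1, 70, 0, 24, 1, 0⟩,
  ⟨0, 40, 0, 0, 0, 0, 0, 1, 1, 107, 0, 24, 1, 0⟩,
  ⟨0, 42, 0, 0, 40, 0, 0, 0, (-1), 106, 0, 24, 1, 0⟩,
  ⟨0, 44, 0, 0, 42, 0, 0, 0, 1, 96, 0, 24, 1, 0⟩,
  ⟨0, 46, 0, 0, 44, 0, 0, 0, (-1), 94, 0, 24, 1, 0⟩,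
  ⟨0, 48, 0, 0, 46, 0, 0, 0, 1, 100, 0, 24, 1, 0⟩,
  ⟨0, 50, 0, 0, 48, 0, 0, 0, (-1), 82, 0, 24, 1, 0⟩,
  ⟨1, 0, 0, 0, 1, 0, 0, 0, (-1), 108, 0, 24, 1, 0⟩,
  ⟨1, 2, 0, 0, 3, 0, 0, 0, 1, 103, 0, 24, 1, 0⟩,
  ⟨1, 4, 0, 0, 5, 0, 0, 0, (-1), 7, 0, 0, 1, 0⟩,
  ⟨1, 6, 0, 0, 7, 0, 0, 0, 1, 13, 0, 0, 1, 0⟩,
  ⟨1, 8, 0, 0, 9, 0, 0, 0, (-1), 91, 0, 24, 1, 0⟩,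
  ⟨1, 10, 0, 0, 11, 0, 0, 0, 1, 84, 0, 24, 1, 0⟩,
  ⟨1, 12, 0, 0, 13, 0, 0, 0, (-1), 76, (-24), 24, 2, 1⟩,
  ⟨1, 14, 0, 0, 15, 0, 0, 0, 1, 62, (-24), 24, 2, 1⟩,
  ⟨1, 16, 0, 0, 17, 0, 0, 0, 1, 17, 8, 0, 3, 1⟩,
  ⟨1, 18, 0, 0, 19, 0, 0, 0, (-1), 11, 8, 0, 2, 1⟩,
  ⟨1, 20, 0, 0, 21, 0, 0, 0, (-1), 41, 0, 8, 1, 0⟩,
  ⟨1, 22, 0, 0, 23, 0, 0, 0, 1, 6, 0, 0, 1, 0⟩,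
  ⟨1, 24, 0, 0, 25, 0, 0, 0, 1, 20, 0, 0, 1, 0⟩,
  ⟨1, 26, 0, 0, 27, 0, 0, 0, (-1), 37, 0, 8, 1, 0⟩,
  ⟨1, 28, 0, 0, 29, 0, 0, 0, (-1), 27, 0, 8, 1, 0⟩,
  ⟨1, 30, 0, 0, 31, 0, 0, 0, 1, 4, 0, 0, 1, 0⟩,
  ⟨1, 32, 0, 0, 33, 0, 0, 0, (-1), 15, 8, 0, 2, 1⟩,
  ⟨1, 34, 0, 0, 35, 0, 0, 0, (-1), 64, (-24), 24, 2, 1⟩,
  ⟨1, 36, 0, 0, 37, 0, 0, 0, 1, 74, (-24), 24, 3, 1⟩,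
  ⟨1, 38, 0, 0, 39, 0, 0, 0, 1, 21, 8, 0, 2, 1⟩,
  ⟨1, 40, 0, 0, 41, 0, 0, 0, 1, 1, 0, 0, 1, 0⟩,
  ⟨1, 42, 0, 0, 43, 0, 0, 0, (-1), 5, 0, 0, 1, 0⟩,
  ⟨1, 44, 0, 0, 45, 0, 0, 0, 1, 90, 0, 24, 1, 0⟩,
  ⟨1, 46, 0, 0, 47, 0, 0, 0, (-1), 101, 0, 24, 1, 0⟩,
  ⟨1, 48, 0, 0, 49, 0, 0, 0, 1, 9, 0, 0, 1, 0⟩,
  ⟨1, 50, 0, 0, 51, 0, 0, 0, (-1), 80, 0, 24, 1, 0⟩,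
  ⟨2, 1, 0, 0, 5, 0, 0, 0, 1, 93, 0, 24, 1, 0⟩,
  ⟨2, 3, 0, 0, 7, 0, 0, 0, (-1), 85, 0, 24, 1, 0⟩,
  ⟨2, 5, 0, 0, 9, 0, 0, 0, (-1), 81, 0, 24, 1, 0⟩,
  ⟨2, 7, 0, 0, 11, 0, 0, 0, 1, 78, 0, 24, 1, 0⟩,
  ⟨2, 9, 0, 0, 17, 0, 0, 0, 1, 86, 0, 24, 1, 0⟩,
  ⟨2, 11, 0, 0, 19, 0, 0, 0, (-1), 83, 0, 24, 1, 0⟩,
  ⟨2, 13, 0, 0, 17, 1, 0, 0, 1, 75, (-16), 24, 2, 1⟩,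
  ⟨2, 15, 0, 0, 19, 1, 0, 0, (-1), 65, (-16), 24, 1, 1⟩,
  ⟨2, 17, 0, 0, 13, 0, 0, 0, (-1), 79, (-16), 24, 2, 1⟩,
  ⟨2, 19, 0, 0, 15, 0, 0, 0, 1, 69, (-16), 24, 2, 1⟩,
  ⟨2, 15, 1, 1, 21, 0, 0, 0, (-1), 49, 0, 8, 1, 0⟩,
  ⟨2, 17, 2, 1, 23, 0, 0, 0, (-1), 31, 0, 8, 1, 0⟩,
  ⟨2, 21, 0, 0, 25, 0, 0, 0, 1, 47, 0, 8, 1, 0⟩,
  ⟨2, 23, 0, 0, 27, 0, 0, 0, (-1), 10, 0, 0, 1, 0⟩,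
  ⟨2, 25, 0, 0, 29, 0, 0, 0, (-1), 28, 0, 0, 1, 0⟩,
  ⟨2, 27, 0, 0, 31, 0, 0, 0, 1, 39, 0, 8, 1, 0⟩,
  ⟨2, 29, 0, 0, 37, 2, 1, 0, 1, 24, 0, 0, 1, 0⟩,
  ⟨2, 31, 0, 0, 35, 1, 1, 0, (-1), 51, 0, 8, 1, 0⟩,
  ⟨2, 33, 0, 0, 37, 0, 0, 0, 1, 73, (-16), 24, 2, 1⟩,
  ⟨2, 35, 0, 0, 39, 0, 0, 0, 1, 71, (-16), 24, 2, 1⟩,
  ⟨2, 37, 1, 0, 33, 0, 0, 0, (-1), 61, (-16), 24, 2, 1⟩,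
  ⟨2, 39, 1, 0, 35, 0, 0, 0, (-1), 67, (-16), 24, 1, 1⟩,
  ⟨2, 37, 0, 0, 49, 0, 0, 0, (-1), 77, 0, 24, 1, 0⟩,
  ⟨2, 39, 0, 0, 51, 0, 0, 0, (-1), 89, 0, 24, 1, 0⟩,
  ⟨2, 41, 0, 0, 3, 0, 0, 1, 1, 104, 0, 24, 1, 0⟩,
  ⟨2, 43, 0, 0, 1, 0, 0, 1, (-1), 102, 0, 24, 1, 0⟩,
  ⟨2, 45, 0, 0, 41, 0, 0, 0, (-1), 99, 0, 24, 1, 0⟩,
  ⟨2, 47, 0, 0, 43, 0, 0, 0, 1, 98, 0, 24, 1, 0⟩,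
  ⟨2, 49, 0, 0, 45, 0, 0, 0, 1, 87, 0, 24, 1, 0⟩,
  ⟨2, 51, 0, 0, 47, 0, 0, 0, (-1), 3, 0, 0, 1, 0⟩]

theorem g2_4 (t : ℕ) : IsGraceful (genPetersen (36 + 8 * t) 2) :=
  sound (V := V2_4) (W := W2_4) (by decide +kernel) t

def V2_5 : List VP :=
  [⟨0, 0, 1, 0, 0, 0, 0, 1, 0⟩,
  ⟨1, 0, 1, 0, 111, 0, 24, 1, 0⟩,
  ⟨0, 1, 1, 0, 110, 0, 24, 1, 0⟩,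
  ⟨1, 1, 1, 0, 3, 0, 0, 1, 0⟩,
  ⟨0, 2, 1, 0, 105, 0, 24, 1, 0⟩,
  ⟨1, 2, 1, 0, 9, 0, 0, 1, 0⟩,
  ⟨0, 3, 1, 0, 23, 0, 0, 1, 0⟩,
  ⟨1, 3, 1, 0, 95, 0, 24, 1, 0⟩,
  ⟨0, 4, 1, 0, 8, 0, 0, 1, 0⟩,
  ⟨1, 4, 1, 0, 108, 0, 24, 1, 0⟩,
  ⟨0, 5, 1, 0, 97, 0, 24, 1, 0⟩,
  ⟨1, 5, 1, 0, 11, 0, 0, 1, 0⟩,
  ⟨0, 8, 4, 0, 27, 12, 0, 2, 1⟩,
  ⟨1, 8, 4, 0, 91, (-12), 24, 2, 1⟩,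
  ⟨0, 9, 4, 0, 89, (-12), 24, 2, 1⟩,
  ⟨1, 9, 4, 0, 19, 12, 0, 2, 1⟩,
  ⟨0, 6, 4, 0, 21, 12, 0, 2, 1⟩,
  ⟨1, 6, 4, 0, 10, 4, 0, 2, 1⟩,
  ⟨0, 7, 4, 0, 81, (-12), 24, 2, 1⟩,
  ⟨1, 7, 4, 0, 98, (-4), 24, 2, 1⟩,
  ⟨0, 14, 1, 4, 24, 0, 4, 1, 0⟩,
  ⟨1, 14, 1, 4, 18, 0, 4, 1, 0⟩,
  ⟨0, 15, 1, 4, 61, 0, 12, 1, 0⟩,
  ⟨1, 15, 1, 4, 90, 0, 20, 1, 0⟩,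
  ⟨0, 16, 1, 4, 22, 0, 4, 1, 0⟩,
  ⟨1, 16, 1, 4, 67, 0, 12, 1, 0⟩,
  ⟨0, 17, 1, 4, 65, 0, 12, 1, 0⟩,
  ⟨1, 17, 1, 4, 43, 0, 12, 1, 0⟩,
  ⟨0, 18, 1, 4, 45, 0, 12, 1, 0⟩,
  ⟨1, 18, 1, 4, 55, 0, 12, 1, 0⟩,
  ⟨0, 19, 1, 4, 86, 0, 20, 1, 0⟩,
  ⟨1, 19, 1, 4, 59, 0, 12, 1, 0⟩,
  ⟨0, 20, 1, 4, 84, 0, 20, 1, 0⟩,
  ⟨1, 20, 1, 4, 88, 0, 20, 1, 0⟩,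
  ⟨0, 21, 1, 4, 49, 0, 12, 1, 0⟩,
  ⟨1, 21, 1, 4, 41, 0, 12, 1, 0⟩,
  ⟨0, 28, (-4), 8, 83, (-12), 24, 2, 1⟩,
  ⟨1, 28, (-4), 8, 96, (-4), 24, 2, 1⟩,
  ⟨0, 27, (-4), 8, 17, 12, 0, 2, 1⟩,
  ⟨1, 27, (-4), 8, 85, (-12), 24, 2, 1⟩,
  ⟨0, 30, (-4), 8, 87, (-12), 24, 3, 1⟩,
  ⟨1, 30, (-4), 8, 13, 12, 0, 3, 1⟩,
  ⟨0, 29, (-4), 8, 35, 12, 0, 2, 1⟩,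
  ⟨1, 29, (-4), 8, 12, 4, 0, 2, 1⟩,
  ⟨0, 36, 1, 8, 1, 0, 0, 1, 0⟩,
  ⟨1, 36, 1, 8, 109, 0, 24, 1, 0⟩,
  ⟨0, 35, 1, 8, 106, 0, 24, 1, 0⟩,
  ⟨1, 35, 1, 8, 2, 0, 0, 1, 0⟩,
  ⟨0, 34, 1, 8, 103, 0, 24, 1, 0⟩,
  ⟨1, 34, 1, 8, 6, 0, 0, 1, 0⟩,
  ⟨0, 33, 1, 8, 15, 0, 0, 1, 0⟩,
  ⟨1, 33, 1, 8, 93, 0, 24, 1, 0⟩,
  ⟨0, 32, 1, 8, 100, 0, 24, 1, 0⟩,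
  ⟨1, 32, 1, 8, 107, 0, 24, 1, 0⟩,
  ⟨0, 31, 1, 8, 7, 0, 0, 1, 0⟩,
  ⟨1, 31, 1, 8, 102, 0, 24, 1, 0⟩]

def W2_5 : List EP :=
  [⟨0, 0, 0, 0, 2, 0, 0, 0, (-1), 110, 0, 24, 1, 0⟩,
  ⟨0, 2, 0, 0, 4, 0, 0, 0, 1, 5, 0, 0, 1, 0⟩,
  ⟨0, 4, 0, 0, 6, 0, 0, 0, 1, 82, 0, 24, 1, 0⟩,
  ⟨0, 6, 0, 0, 8, 0, 0, 0, 1, 15, 0, 0, 1, 0⟩,
  ⟨0, 8, 0, 0, 10, 0, 0, 0, (-1), 89, 0, 24, 1, 0⟩,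
  ⟨0, 10, 0, 0, 16, 0, 0, 0, 1, 76, 0, 24, 1, 0⟩,
  ⟨0, 12, 0, 0, 14, 0, 0, 0, (-1), 62, (-24), 24, 2, 1⟩,
  ⟨0, 14, 0, 0, 16, 1, 0, 0, 1, 56, (-24), 24, 1, 1⟩,
  ⟨0, 16, 0, 0, 18, 0, 0, 0, (-1), 60, (-24), 24, 2, 1⟩,
  ⟨0, 18, 0, 0, 12, 0, 0, 0, 1, 54, (-24), 24, 2, 1⟩,
  ⟨0, 14, 1, 1, 20, 0, 0, 0, 1, 53, 0, 8, 1, 0⟩,
  ⟨0, 20, 0, 0, 22, 0, 0, 0, (-1), 37, 0, 8, 1, 0⟩,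
  ⟨0, 22, 0, 0, 24, 0, 0, 0, 1, 39, 0, 8, 1, 0⟩,
  ⟨0, 24, 0, 0, 26, 0, 0, 0, (-1), 43, 0, 8, 1, 0⟩,
  ⟨0, 26, 0, 0, 28, 0, 0, 0, 1, 20, 0, 0, 1, 0⟩,
  ⟨0, 28, 0, 0, 30, 0, 0, 0, (-1), 41, 0, 8, 1, 0⟩,
  ⟨0, 30, 0, 0, 32, 0, 0, 0, 1, 2, 0, 0, 1, 0⟩,
  ⟨0, 32, 0, 0, 34, 0, 0, 0, 1, 35, 0, 8, 1, 0⟩,
  ⟨0, 34, 0, 0, 40, 2, 1, 0, (-1), 14, 0, 0, 1, 0⟩,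
  ⟨0, 36, 0, 0, 42, 0, 0, 0, 1, 48, (-24), 24, 2, 1⟩,
  ⟨0, 38, 0, 0, 36, 0, 0, 0, (-1), 66, (-24), 24, 2, 1⟩,
  ⟨0, 40, 1, 0, 38, 0, 0, 0, 1, 58, (-24), 24, 2, 1⟩,
  ⟨0, 42, 0, 0, 40, 0, 0, 0, (-1), 52, (-24), 24, 2, 1⟩,
  ⟨0, 40, 0, 0, 54, 0, 0, 0, 1, 80, 0, 24, 1, 0⟩,
  ⟨0, 44, 0, 0, 0, 0, 0, 1, 1, 1, 0, 0, 1, 0⟩,
  ⟨0, 46, 0, 0, 44, 0, 0, 0, 1, 105, 0, 24, 1, 0⟩,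
  ⟨0, 48, 0, 0, 46, 0, 0, 0, (-1), 3, 0, 0, 1, 0⟩,
  ⟨0, 50, 0, 0, 48, 0, 0, 0, (-1), 88, 0, 24, 1, 0⟩,
  ⟨0, 52, 0, 0, 50, 0, 0, 0, 1, 85, 0, 24, 1, 0⟩,
  ⟨0, 54, 0, 0, 52, 0, 0, 0, (-1), 93, 0, 24, 1, 0⟩,
  ⟨1, 0, 0, 0, 1, 0, 0, 0, (-1), 111, 0, 24, 1, 0⟩,
  ⟨1, 2, 0, 0, 3, 0, 0, 0, 1, 107, 0, 24, 1, 0⟩,
  ⟨1, 4, 0, 0, 5, 0, 0, 0, 1, 96, 0, 24, 1, 0⟩,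
  ⟨1, 6, 0, 0, 7, 0, 0, 0, (-1), 72, 0, 24, 1, 0⟩,
  ⟨1, 8, 0, 0, 9, 0, 0, 0, (-1), 100, 0, 24, 1, 0⟩,
  ⟨1, 10, 0, 0, 11, 0, 0, 0, 1, 86, 0, 24, 1, 0⟩,
  ⟨1, 12, 0, 0, 13, 0, 0, 0, (-1), 64, (-24), 24, 2, 1⟩,
  ⟨1, 14, 0, 0, 15, 0, 0, 0, 1, 70, (-24), 24, 2, 1⟩,
  ⟨1, 16, 0, 0, 17, 0, 0, 0, 1, 11, 8, 0, 2, 1⟩,
  ⟨1, 18, 0, 0, 19, 0, 0, 0, (-1), 17, 8, 0, 2, 1⟩,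
  ⟨1, 20, 0, 0, 21, 0, 0, 0, 1, 6, 0, 0, 1, 0⟩,
  ⟨1, 22, 0, 0, 23, 0, 0, 0, (-1), 29, 0, 8, 1, 0⟩,
  ⟨1, 24, 0, 0, 25, 0, 0, 0, (-1), 45, 0, 8, 1, 0⟩,
  ⟨1, 26, 0, 0, 27, 0, 0, 0, 1, 22, 0, 0, 1, 0⟩,
  ⟨1, 28, 0, 0, 29, 0, 0, 0, (-1), 10, 0, 0, 1, 0⟩,
  ⟨1, 30, 0, 0, 31, 0, 0, 0, 1, 27, 0, 8, 1, 0⟩,
  ⟨1, 32, 0, 0, 33, 0, 0, 0, (-1), 4, 0, 0, 1, 0⟩,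
  ⟨1, 34, 0, 0, 35, 0, 0, 0, 1, 8, 0, 0, 1, 0⟩,
  ⟨1, 36, 0, 0, 37, 0, 0, 0, (-1), 13, 8, 0, 2, 1⟩,
  ⟨1, 38, 0, 0, 39, 0, 0, 0, (-1), 68, (-24), 24, 2, 1⟩,
  ⟨1, 40, 0, 0, 41, 0, 0, 0, 1, 74, (-24), 24, 3, 1⟩,
  ⟨1, 42, 0, 0, 43, 0, 0, 0, 1, 23, 8, 0, 2, 1⟩,
  ⟨1, 44, 0, 0, 45, 0, 0, 0, (-1), 108, 0, 24, 1, 0⟩,
  ⟨1, 46, 0, 0, 47, 0, 0, 0, 1, 104, 0, 24, 1, 0⟩,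
  ⟨1, 48, 0, 0, 49, 0, 0, 0, 1, 97, 0, 24, 1, 0⟩,
  ⟨1, 50, 0, 0, 51, 0, 0, 0, (-1), 78, 0, 24, 1, 0⟩,
  ⟨1, 52, 0, 0, 53, 0, 0, 0, (-1), 7, 0, 0, 1, 0⟩,
  ⟨1, 54, 0, 0, 55, 0, 0, 0, (-1), 95, 0, 24, 1, 0⟩,
  ⟨2, 1, 0, 0, 5, 0, 0, 0, 1, 102, 0, 24, 1, 0⟩,
  ⟨2, 3, 0, 0, 7, 0, 0, 0, (-1), 92, 0, 24, 1, 0⟩,
  ⟨2, 5, 0, 0, 9, 0, 0, 0, (-1), 99, 0, 24, 1, 0⟩,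
  ⟨2, 7, 0, 0, 11, 0, 0, 0, 1, 84, 0, 24, 1, 0⟩,
  ⟨2, 9, 0, 0, 17, 0, 0, 0, 1, 98, 0, 24, 1, 0⟩,
  ⟨2, 11, 0, 0, 19, 0, 0, 0, (-1), 87, 0, 24, 1, 0⟩,
  ⟨2, 13, 0, 0, 17, 1, 0, 0, 1, 77, (-16), 24, 1, 1⟩,
  ⟨2, 15, 0, 0, 19, 1, 0, 0, (-1), 75, (-16), 24, 1, 1⟩,
  ⟨2, 17, 0, 0, 13, 0, 0, 0, (-1), 81, (-16), 24, 2, 1⟩,
  ⟨2, 19, 0, 0, 15, 0, 0, 0, 1, 79, (-16), 24, 2, 1⟩,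
  ⟨2, 13, 1, 1, 21, 0, 0, 0, 1, 61, 0, 8, 1, 0⟩,
  ⟨2, 15, 1, 1, 23, 0, 0, 0, (-1), 59, 0, 8, 1, 0⟩,
  ⟨2, 21, 0, 0, 25, 0, 0, 0, (-1), 49, 0, 8, 1, 0⟩,
  ⟨2, 23, 0, 0, 27, 0, 0, 0, 1, 47, 0, 8, 1, 0⟩,
  ⟨2, 25, 0, 0, 29, 0, 0, 0, 1, 12, 0, 0, 1, 0⟩,
  ⟨2, 27, 0, 0, 31, 0, 0, 0, (-1), 16, 0, 0, 1, 0⟩,
  ⟨2, 29, 0, 0, 33, 0, 0, 0, (-1), 33, 0, 8, 1, 0⟩,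
  ⟨2, 31, 0, 0, 35, 0, 0, 0, 1, 18, 0, 0, 1, 0⟩,
  ⟨2, 33, 0, 0, 41, 2, 1, 0, 1, 51, 0, 8, 1, 0⟩,
  ⟨2, 35, 0, 0, 39, 1, 1, 0, (-1), 32, 0, 0, 1, 0⟩,
  ⟨2, 37, 0, 0, 41, 0, 0, 0, 1, 83, (-16), 24, 2, 1⟩,
  ⟨2, 39, 0, 0, 43, 0, 0, 0, 1, 73, (-16), 24, 2, 1⟩,
  ⟨2, 41, 1, 0, 37, 0, 0, 0, (-1), 71, (-16), 24, 2, 1⟩,
  ⟨2, 43, 1, 0, 39, 0, 0, 0, (-1), 69, (-16), 24, 1, 1⟩,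
  ⟨2, 41, 0, 0, 53, 0, 0, 0, (-1), 94, 0, 24, 1, 0⟩,
  ⟨2, 43, 0, 0, 55, 0, 0, 0, (-1), 90, 0, 24, 1, 0⟩,
  ⟨2, 45, 0, 0, 3, 0, 0, 1, 1, 106, 0, 24, 1, 0⟩,
  ⟨2, 47, 0, 0, 1, 0, 0, 1, (-1), 109, 0, 24, 1, 0⟩,
  ⟨2, 49, 0, 0, 45, 0, 0, 0, (-1), 103, 0, 24, 1, 0⟩,
  ⟨2, 51, 0, 0, 47, 0, 0, 0, 1, 91, 0, 24, 1, 0⟩,
  ⟨2, 53, 0, 0, 49, 0, 0, 0, 1, 101, 0, 24, 1, 0⟩,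
  ⟨2, 55, 0, 0, 51, 0, 0, 0, 1, 9, 0, 0, 1, 0⟩]

theorem g2_5 (t : ℕ) : IsGraceful (genPetersen (37 + 8 * t) 2) :=
  sound (V := V2_5) (W := W2_5) (by decide +kernel) t

def V2_6 : List VP :=
  [⟨0, 0, 1, 0, 0, 0, 0, 1, 0⟩,
  ⟨1, 0, 1, 0, 114, 0, 24, 1, 0⟩,
  ⟨0, 1, 1, 0, 111, 0, 24, 1, 0⟩,
  ⟨1, 1, 1, 0, 2, 0, 0, 1, 0⟩,
  ⟨0, 2, 1, 0, 8, 0, 0, 1, 0⟩,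
  ⟨1, 2, 1, 0, 15, 0, 0, 1, 0⟩,
  ⟨0, 3, 1, 0, 106, 0, 24, 1, 0⟩,
  ⟨1, 3, 1, 0, 93, 0, 24, 1, 0⟩,
  ⟨0, 4, 1, 0, 5, 0, 0, 1, 0⟩,
  ⟨1, 4, 1, 0, 102, 0, 24, 1, 0⟩,
  ⟨0, 5, 1, 0, 99, 0, 24, 1, 0⟩,
  ⟨1, 5, 1, 0, 9, 0, 0, 1, 0⟩,
  ⟨0, 8, 4, 0, 13, 12, 0, 2, 1⟩,
  ⟨1, 8, 4, 0, 95, (-12), 24, 2, 1⟩,
  ⟨0, 9, 4, 0, 91, (-12), 24, 2, 1⟩,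
  ⟨1, 9, 4, 0, 23, 12, 0, 2, 1⟩,
  ⟨0, 6, 4, 0, 27, 12, 0, 3, 1⟩,
  ⟨1, 6, 4, 0, 10, 4, 0, 3, 1⟩,
  ⟨0, 7, 4, 0, 87, (-12), 24, 3, 1⟩,
  ⟨1, 7, 4, 0, 98, (-4), 24, 3, 1⟩,
  ⟨0, 16, 1, 4, 22, 0, 4, 1, 0⟩,
  ⟨1, 16, 1, 4, 65, 0, 12, 1, 0⟩,
  ⟨0, 17, 1, 4, 71, 0, 12, 1, 0⟩,
  ⟨1, 17, 1, 4, 37, 0, 12, 1, 0⟩,
  ⟨0, 18, 1, 4, 26, 0, 4, 1, 0⟩,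
  ⟨1, 18, 1, 4, 30, 0, 4, 1, 0⟩,
  ⟨0, 19, 1, 4, 28, 0, 4, 1, 0⟩,
  ⟨1, 19, 1, 4, 67, 0, 12, 1, 0⟩,
  ⟨0, 20, 1, 4, 38, 0, 4, 1, 0⟩,
  ⟨1, 20, 1, 4, 46, 0, 4, 1, 0⟩,
  ⟨0, 21, 1, 4, 24, 0, 4, 1, 0⟩,
  ⟨1, 21, 1, 4, 61, 0, 12, 1, 0⟩,
  ⟨0, 22, 1, 4, 42, 0, 4, 1, 0⟩,
  ⟨1, 22, 1, 4, 20, 0, 4, 1, 0⟩,
  ⟨0, 29, (-4), 8, 81, (-12), 24, 2, 1⟩,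
  ⟨1, 29, (-4), 8, 96, (-4), 24, 2, 1⟩,
  ⟨0, 28, (-4), 8, 19, 12, 0, 2, 1⟩,
  ⟨1, 28, (-4), 8, 89, (-12), 24, 2, 1⟩,
  ⟨0, 31, (-4), 8, 97, (-12), 24, 3, 1⟩,
  ⟨1, 31, (-4), 8, 17, 12, 0, 3, 1⟩,
  ⟨0, 30, (-4), 8, 33, 12, 0, 2, 1⟩,
  ⟨1, 30, (-4), 8, 12, 4, 0, 2, 1⟩,
  ⟨0, 37, 1, 8, 113, 0, 24, 1, 0⟩,
  ⟨1, 37, 1, 8, 112, 0, 24, 1, 0⟩,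
  ⟨0, 36, 1, 8, 1, 0, 0, 1, 0⟩,
  ⟨1, 36, 1, 8, 6, 0, 0, 1, 0⟩,
  ⟨0, 35, 1, 8, 103, 0, 24, 1, 0⟩,
  ⟨1, 35, 1, 8, 7, 0, 0, 1, 0⟩,
  ⟨0, 34, 1, 8, 3, 0, 0, 1, 0⟩,
  ⟨1, 34, 1, 8, 110, 0, 24, 1, 0⟩,
  ⟨0, 33, 1, 8, 109, 0, 24, 1, 0⟩,
  ⟨1, 33, 1, 8, 100, 0, 24, 1, 0⟩,
  ⟨0, 32, 1, 8, 21, 0, 0, 1, 0⟩,
  ⟨1, 32, 1, 8, 107, 0, 24, 1, 0⟩]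

def W2_6 : List EP :=
  [⟨0, 0, 0, 0, 2, 0, 0, 0, (-1), 111, 0, 24, 1, 0⟩,
  ⟨0, 2, 0, 0, 4, 0, 0, 0, 1, 103, 0, 24, 1, 0⟩,
  ⟨0, 4, 0, 0, 6, 0, 0, 0, (-1), 98, 0, 24, 1, 0⟩,
  ⟨0, 6, 0, 0, 8, 0, 0, 0, 1, 101, 0, 24, 1, 0⟩,
  ⟨0, 8, 0, 0, 10, 0, 0, 0, (-1), 94, 0, 24, 1, 0⟩,
  ⟨0, 10, 0, 0, 16, 0, 0, 0, 1, 72, 0, 24, 1, 0⟩,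
  ⟨0, 12, 0, 0, 14, 0, 0, 0, (-1), 78, (-24), 24, 2, 1⟩,
  ⟨0, 14, 0, 0, 16, 1, 0, 0, 1, 52, (-24), 24, 2, 1⟩,
  ⟨0, 16, 0, 0, 18, 0, 0, 0, (-1), 60, (-24), 24, 3, 1⟩,
  ⟨0, 18, 0, 0, 12, 0, 0, 0, 1, 74, (-24), 24, 2, 1⟩,
  ⟨0, 18, 2, 1, 20, 0, 0, 0, 1, 41, 0, 8, 1, 0⟩,
  ⟨0, 20, 0, 0, 22, 0, 0, 0, (-1), 49, 0, 8, 1, 0⟩,
  ⟨0, 22, 0, 0, 24, 0, 0, 0, 1, 45, 0, 8, 1, 0⟩,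
  ⟨0, 24, 0, 0, 26, 0, 0, 0, (-1), 2, 0, 0, 1, 0⟩,
  ⟨0, 26, 0, 0, 28, 0, 0, 0, (-1), 10, 0, 0, 1, 0⟩,
  ⟨0, 28, 0, 0, 30, 0, 0, 0, 1, 14, 0, 0, 1, 0⟩,
  ⟨0, 30, 0, 0, 32, 0, 0, 0, (-1), 18, 0, 0, 1, 0⟩,
  ⟨0, 32, 0, 0, 38, 2, 1, 0, (-1), 31, 0, 8, 1, 0⟩,
  ⟨0, 34, 0, 0, 40, 0, 0, 0, 1, 48, (-24), 24, 2, 1⟩,
  ⟨0, 36, 0, 0, 34, 0, 0, 0, (-1), 62, (-24), 24, 2, 1⟩,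
  ⟨0, 38, 1, 0, 36, 0, 0, 0, 1, 66, (-24), 24, 2, 1⟩,
  ⟨0, 40, 0, 0, 38, 0, 0, 0, (-1), 64, (-24), 24, 2, 1⟩,
  ⟨0, 38, 0, 0, 52, 0, 0, 0, 1, 76, 0, 24, 1, 0⟩,
  ⟨0, 42, 0, 0, 0, 0, 0, 1, 1, 113, 0, 24, 1, 0⟩,
  ⟨0, 44, 0, 0, 42, 0, 0, 0, (-1), 112, 0, 24, 1, 0⟩,
  ⟨0, 46, 0, 0, 44, 0, 0, 0, 1, 102, 0, 24, 1, 0⟩,
  ⟨0, 48, 0, 0, 46, 0, 0, 0, (-1), 100, 0, 24, 1, 0⟩,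
  ⟨0, 50, 0, 0, 48, 0, 0, 0, 1, 106, 0, 24, 1, 0⟩,
  ⟨0, 52, 0, 0, 50, 0, 0, 0, (-1), 88, 0, 24, 1, 0⟩,
  ⟨1, 0, 0, 0, 1, 0, 0, 0, (-1), 114, 0, 24, 1, 0⟩,
  ⟨1, 2, 0, 0, 3, 0, 0, 0, 1, 109, 0, 24, 1, 0⟩,
  ⟨1, 4, 0, 0, 5, 0, 0, 0, (-1), 7, 0, 0, 1, 0⟩,
  ⟨1, 6, 0, 0, 7, 0, 0, 0, 1, 13, 0, 0, 1, 0⟩,
  ⟨1, 8, 0, 0, 9, 0, 0, 0, (-1), 97, 0, 24, 1, 0⟩,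
  ⟨1, 10, 0, 0, 11, 0, 0, 0, 1, 90, 0, 24, 1, 0⟩,
  ⟨1, 12, 0, 0, 13, 0, 0, 0, (-1), 82, (-24), 24, 2, 1⟩,
  ⟨1, 14, 0, 0, 15, 0, 0, 0, 1, 68, (-24), 24, 2, 1⟩,
  ⟨1, 16, 0, 0, 17, 0, 0, 0, 1, 17, 8, 0, 3, 1⟩,
  ⟨1, 18, 0, 0, 19, 0, 0, 0, (-1), 11, 8, 0, 3, 1⟩,
  ⟨1, 20, 0, 0, 21, 0, 0, 0, (-1), 43, 0, 8, 1, 0⟩,
  ⟨1, 22, 0, 0, 23, 0, 0, 0, 1, 34, 0, 0, 1, 0⟩,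
  ⟨1, 24, 0, 0, 25, 0, 0, 0, (-1), 4, 0, 0, 1, 0⟩,
  ⟨1, 26, 0, 0, 27, 0, 0, 0, (-1), 39, 0, 8, 1, 0⟩,
  ⟨1, 28, 0, 0, 29, 0, 0, 0, (-1), 8, 0, 0, 1, 0⟩,
  ⟨1, 30, 0, 0, 31, 0, 0, 0, (-1), 37, 0, 8, 1, 0⟩,
  ⟨1, 32, 0, 0, 33, 0, 0, 0, 1, 22, 0, 0, 1, 0⟩,
  ⟨1, 34, 0, 0, 35, 0, 0, 0, (-1), 15, 8, 0, 2, 1⟩,
  ⟨1, 36, 0, 0, 37, 0, 0, 0, (-1), 70, (-24), 24, 2, 1⟩,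
  ⟨1, 38, 0, 0, 39, 0, 0, 0, 1, 80, (-24), 24, 3, 1⟩,
  ⟨1, 40, 0, 0, 41, 0, 0, 0, 1, 21, 8, 0, 2, 1⟩,
  ⟨1, 42, 0, 0, 43, 0, 0, 0, 1, 1, 0, 0, 1, 0⟩,
  ⟨1, 44, 0, 0, 45, 0, 0, 0, (-1), 5, 0, 0, 1, 0⟩,
  ⟨1, 46, 0, 0, 47, 0, 0, 0, 1, 96, 0, 24, 1, 0⟩,
  ⟨1, 48, 0, 0, 49, 0, 0, 0, (-1), 107, 0, 24, 1, 0⟩,
  ⟨1, 50, 0, 0, 51, 0, 0, 0, 1, 9, 0, 0, 1, 0⟩,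
  ⟨1, 52, 0, 0, 53, 0, 0, 0, (-1), 86, 0, 24, 1, 0⟩,
  ⟨2, 1, 0, 0, 5, 0, 0, 0, 1, 99, 0, 24, 1, 0⟩,
  ⟨2, 3, 0, 0, 7, 0, 0, 0, (-1), 91, 0, 24, 1, 0⟩,
  ⟨2, 5, 0, 0, 9, 0, 0, 0, (-1), 87, 0, 24, 1, 0⟩,
  ⟨2, 7, 0, 0, 11, 0, 0, 0, 1, 84, 0, 24, 1, 0⟩,
  ⟨2, 9, 0, 0, 17, 0, 0, 0, 1, 92, 0, 24, 1, 0⟩,
  ⟨2, 11, 0, 0, 19, 0, 0, 0, (-1), 89, 0, 24, 1, 0⟩,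
  ⟨2, 13, 0, 0, 17, 1, 0, 0, 1, 81, (-16), 24, 2, 1⟩,
  ⟨2, 15, 0, 0, 19, 1, 0, 0, (-1), 71, (-16), 24, 2, 1⟩,
  ⟨2, 17, 0, 0, 13, 0, 0, 0, (-1), 85, (-16), 24, 2, 1⟩,
  ⟨2, 19, 0, 0, 15, 0, 0, 0, 1, 75, (-16), 24, 2, 1⟩,
  ⟨2, 17, 2, 1, 21, 0, 0, 0, (-1), 47, 0, 8, 1, 0⟩,
  ⟨2, 19, 2, 1, 23, 0, 0, 0, 1, 53, 0, 8, 1, 0⟩,
  ⟨2, 21, 0, 0, 25, 0, 0, 0, 1, 35, 0, 8, 1, 0⟩,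
  ⟨2, 23, 0, 0, 27, 0, 0, 0, (-1), 30, 0, 0, 1, 0⟩,
  ⟨2, 25, 0, 0, 29, 0, 0, 0, (-1), 16, 0, 0, 1, 0⟩,
  ⟨2, 27, 0, 0, 31, 0, 0, 0, 1, 6, 0, 0, 1, 0⟩,
  ⟨2, 29, 0, 0, 33, 0, 0, 0, 1, 26, 0, 0, 1, 0⟩,
  ⟨2, 31, 0, 0, 39, 2, 1, 0, 1, 20, 0, 0, 1, 0⟩,
  ⟨2, 33, 0, 0, 37, 1, 1, 0, (-1), 57, 0, 8, 1, 0⟩,
  ⟨2, 35, 0, 0, 39, 0, 0, 0, 1, 79, (-16), 24, 2, 1⟩,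
  ⟨2, 37, 0, 0, 41, 0, 0, 0, 1, 77, (-16), 24, 2, 1⟩,
  ⟨2, 39, 1, 0, 35, 0, 0, 0, (-1), 67, (-16), 24, 2, 1⟩,
  ⟨2, 41, 1, 0, 37, 0, 0, 0, (-1), 73, (-16), 24, 1, 1⟩,
  ⟨2, 39, 0, 0, 51, 0, 0, 0, (-1), 83, 0, 24, 1, 0⟩,
  ⟨2, 41, 0, 0, 53, 0, 0, 0, (-1), 95, 0, 24, 1, 0⟩,
  ⟨2, 43, 0, 0, 3, 0, 0, 1, 1, 110, 0, 24, 1, 0⟩,
  ⟨2, 45, 0, 0, 1, 0, 0, 1, (-1), 108, 0, 24, 1, 0⟩,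
  ⟨2, 47, 0, 0, 43, 0, 0, 0, (-1), 105, 0, 24, 1, 0⟩,
  ⟨2, 49, 0, 0, 45, 0, 0, 0, 1, 104, 0, 24, 1, 0⟩,
  ⟨2, 51, 0, 0, 47, 0, 0, 0, 1, 93, 0, 24, 1, 0⟩,
  ⟨2, 53, 0, 0, 49, 0, 0, 0, (-1), 3, 0, 0, 1, 0⟩]

theorem g2_6 (t : ℕ) : IsGraceful (genPetersen (38 + 8 * t) 2) :=
  sound (V := V2_6) (W := W2_6) (by decide +kernel) t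

def V2_7 : List VP :=
  [⟨0, 0, 1, 0, 0, 0, 0, 1, 0⟩,
  ⟨1, 0, 1, 0, 117, 0, 24, 1, 0⟩,
  ⟨0, 1, 1, 0, 116, 0, 24, 1, 0⟩,
  ⟨1, 1, 1, 0, 3, 0, 0, 1, 0⟩,
  ⟨0, 2, 1, 0, 109, 0, 24, 1, 0⟩,
  ⟨1, 2, 1, 0, 2, 0, 0, 1, 0⟩,
  ⟨0, 3, 1, 0, 11, 0, 0, 1, 0⟩,
  ⟨1, 3, 1, 0, 105, 0, 24, 1, 0⟩,
  ⟨0, 4, 1, 0, 108, 0, 24, 1, 0⟩,
  ⟨1, 4, 1, 0, 111, 0, 24, 1, 0⟩,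
  ⟨0, 5, 1, 0, 113, 0, 24, 1, 0⟩,
  ⟨1, 5, 1, 0, 5, 0, 0, 1, 0⟩,
  ⟨0, 8, 4, 0, 23, 12, 0, 3, 1⟩,
  ⟨1, 8, 4, 0, 97, (-12), 24, 3, 1⟩,
  ⟨0, 9, 4, 0, 95, (-12), 24, 3, 1⟩,
  ⟨1, 9, 4, 0, 19, 12, 0, 3, 1⟩,
  ⟨0, 6, 4, 0, 29, 12, 0, 3, 1⟩,
  ⟨1, 6, 4, 0, 8, 4, 0, 3, 1⟩,
  ⟨0, 7, 4, 0, 87, (-12), 24, 3, 1⟩,
  ⟨1, 7, 4, 0, 106, (-4), 24, 3, 1⟩,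
  ⟨0, 18, 1, 4, 67, 0, 12, 1, 0⟩,
  ⟨1, 18, 1, 4, 55, 0, 12, 1, 0⟩,
  ⟨0, 19, 1, 4, 45, 0, 12, 1, 0⟩,
  ⟨1, 19, 1, 4, 84, 0, 20, 1, 0⟩,
  ⟨0, 20, 1, 4, 94, 0, 20, 1, 0⟩,
  ⟨1, 20, 1, 4, 88, 0, 20, 1, 0⟩,
  ⟨0, 21, 1, 4, 50, 0, 20, 1, 0⟩,
  ⟨1, 21, 1, 4, 86, 0, 20, 1, 0⟩,
  ⟨0, 22, 1, 4, 82, 0, 20, 1, 0⟩,
  ⟨1, 22, 1, 4, 37, 0, 12, 1, 0⟩,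
  ⟨0, 23, 1, 4, 96, 0, 20, 1, 0⟩,
  ⟨1, 23, 1, 4, 33, 0, 12, 1, 0⟩,
  ⟨0, 24, 1, 4, 49, 0, 12, 1, 0⟩,
  ⟨1, 24, 1, 4, 57, 0, 12, 1, 0⟩,
  ⟨0, 25, 1, 4, 18, 0, 4, 1, 0⟩,
  ⟨1, 25, 1, 4, 79, 0, 12, 1, 0⟩,
  ⟨0, 30, (-4), 8, 89, (-12), 24, 2, 1⟩,
  ⟨1, 30, (-4), 8, 104, (-4), 24, 2, 1⟩,
  ⟨0, 29, (-4), 8, 21, 12, 0, 1, 1⟩,
  ⟨1, 29, (-4), 8, 91, (-12), 24, 1, 1⟩,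
  ⟨0, 32, (-4), 8, 93, (-12), 24, 2, 1⟩,
  ⟨1, 32, (-4), 8, 13, 12, 0, 2, 1⟩,
  ⟨0, 31, (-4), 8, 27, 12, 0, 2, 1⟩,
  ⟨1, 31, (-4), 8, 10, 4, 0, 2, 1⟩,
  ⟨0, 38, 1, 8, 1, 0, 0, 1, 0⟩,
  ⟨1, 38, 1, 8, 115, 0, 24, 1, 0⟩,
  ⟨0, 37, 1, 8, 112, 0, 24, 1, 0⟩,
  ⟨1, 37, 1, 8, 7, 0, 0, 1, 0⟩,
  ⟨0, 36, 1, 8, 99, 0, 24, 1, 0⟩,
  ⟨1, 36, 1, 8, 9, 0, 0, 1, 0⟩,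
  ⟨0, 35, 1, 8, 17, 0, 0, 1, 0⟩,
  ⟨1, 35, 1, 8, 103, 0, 24, 1, 0⟩,
  ⟨0, 34, 1, 8, 110, 0, 24, 1, 0⟩,
  ⟨1, 34, 1, 8, 101, 0, 24, 1, 0⟩,
  ⟨0, 33, 1, 8, 15, 0, 0, 1, 0⟩,
  ⟨1, 33, 1, 8, 114, 0, 24, 1, 0⟩]

def W2_7 : List EP :=
  [⟨0, 0, 0, 0, 2, 0, 0, 0, (-1), 116, 0, 24, 1, 0⟩,
  ⟨0, 2, 0, 0, 4, 0, 0, 0, 1, 7, 0, 0, 1, 0⟩,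
  ⟨0, 4, 0, 0, 6, 0, 0, 0, 1, 98, 0, 24, 1, 0⟩,
  ⟨0, 6, 0, 0, 8, 0, 0, 0, (-1), 97, 0, 24, 1, 0⟩,
  ⟨0, 8, 0, 0, 10, 0, 0, 0, (-1), 5, 0, 0, 1, 0⟩,
  ⟨0, 10, 0, 0, 16, 0, 0, 0, 1, 84, 0, 24, 1, 0⟩,
  ⟨0, 12, 0, 0, 14, 0, 0, 0, (-1), 72, (-24), 24, 3, 1⟩,
  ⟨0, 14, 0, 0, 16, 1, 0, 0, 1, 54, (-24), 24, 2, 1⟩,
  ⟨0, 16, 0, 0, 18, 0, 0, 0, (-1), 58, (-24), 24, 3, 1⟩,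
  ⟨0, 18, 0, 0, 12, 0, 0, 0, 1, 64, (-24), 24, 3, 1⟩,
  ⟨0, 14, 2, 1, 20, 0, 0, 0, 1, 4, 0, 0, 1, 0⟩,
  ⟨0, 20, 0, 0, 22, 0, 0, 0, 1, 22, 0, 0, 1, 0⟩,
  ⟨0, 22, 0, 0, 24, 0, 0, 0, (-1), 49, 0, 8, 1, 0⟩,
  ⟨0, 24, 0, 0, 26, 0, 0, 0, 1, 44, 0, 0, 1, 0⟩,
  ⟨0, 26, 0, 0, 28, 0, 0, 0, (-1), 32, 0, 0, 1, 0⟩,
  ⟨0, 28, 0, 0, 30, 0, 0, 0, (-1), 14, 0, 0, 1, 0⟩,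
  ⟨0, 30, 0, 0, 32, 0, 0, 0, 1, 47, 0, 8, 1, 0⟩,
  ⟨0, 32, 0, 0, 34, 0, 0, 0, 1, 31, 0, 8, 1, 0⟩,
  ⟨0, 34, 0, 0, 36, 1, 1, 0, (-1), 59, 0, 8, 1, 0⟩,
  ⟨0, 36, 0, 0, 42, 0, 0, 0, 1, 62, (-24), 24, 2, 1⟩,
  ⟨0, 38, 0, 0, 36, 0, 0, 0, (-1), 68, (-24), 24, 1, 1⟩,
  ⟨0, 40, 1, 0, 38, 0, 0, 0, 1, 60, (-24), 24, 1, 1⟩,
  ⟨0, 42, 0, 0, 40, 0, 0, 0, (-1), 66, (-24), 24, 2, 1⟩,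
  ⟨0, 40, 0, 0, 54, 0, 0, 0, 1, 78, 0, 24, 1, 0⟩,
  ⟨0, 44, 0, 0, 0, 0, 0, 1, 1, 1, 0, 0, 1, 0⟩,
  ⟨0, 46, 0, 0, 44, 0, 0, 0, 1, 111, 0, 24, 1, 0⟩,
  ⟨0, 48, 0, 0, 46, 0, 0, 0, (-1), 13, 0, 0, 1, 0⟩,
  ⟨0, 50, 0, 0, 48, 0, 0, 0, (-1), 82, 0, 24, 1, 0⟩,
  ⟨0, 52, 0, 0, 50, 0, 0, 0, 1, 93, 0, 24, 1, 0⟩,
  ⟨0, 54, 0, 0, 52, 0, 0, 0, (-1), 95, 0, 24, 1, 0⟩,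
  ⟨1, 0, 0, 0, 1, 0, 0, 0, (-1), 117, 0, 24, 1, 0⟩,
  ⟨1, 2, 0, 0, 3, 0, 0, 0, 1, 113, 0, 24, 1, 0⟩,
  ⟨1, 4, 0, 0, 5, 0, 0, 0, 1, 107, 0, 24, 1, 0⟩,
  ⟨1, 6, 0, 0, 7, 0, 0, 0, (-1), 94, 0, 24, 1, 0⟩,
  ⟨1, 8, 0, 0, 9, 0, 0, 0, (-1), 3, 0, 0, 1, 0⟩,
  ⟨1, 10, 0, 0, 11, 0, 0, 0, 1, 108, 0, 24, 1, 0⟩,
  ⟨1, 12, 0, 0, 13, 0, 0, 0, (-1), 74, (-24), 24, 3, 1⟩,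
  ⟨1, 14, 0, 0, 15, 0, 0, 0, 1, 76, (-24), 24, 3, 1⟩,
  ⟨1, 16, 0, 0, 17, 0, 0, 0, 1, 21, 8, 0, 3, 1⟩,
  ⟨1, 18, 0, 0, 19, 0, 0, 0, (-1), 19, 8, 0, 3, 1⟩,
  ⟨1, 20, 0, 0, 21, 0, 0, 0, 1, 12, 0, 0, 1, 0⟩,
  ⟨1, 22, 0, 0, 23, 0, 0, 0, (-1), 39, 0, 8, 1, 0⟩,
  ⟨1, 24, 0, 0, 25, 0, 0, 0, 1, 6, 0, 0, 1, 0⟩,
  ⟨1, 26, 0, 0, 27, 0, 0, 0, (-1), 36, 0, 0, 1, 0⟩,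
  ⟨1, 28, 0, 0, 29, 0, 0, 0, 1, 45, 0, 8, 1, 0⟩,
  ⟨1, 30, 0, 0, 31, 0, 0, 0, 1, 63, 0, 8, 1, 0⟩,
  ⟨1, 32, 0, 0, 33, 0, 0, 0, (-1), 8, 0, 0, 1, 0⟩,
  ⟨1, 34, 0, 0, 35, 0, 0, 0, (-1), 61, 0, 8, 1, 0⟩,
  ⟨1, 36, 0, 0, 37, 0, 0, 0, (-1), 15, 8, 0, 2, 1⟩,
  ⟨1, 38, 0, 0, 39, 0, 0, 0, (-1), 70, (-24), 24, 1, 1⟩,
  ⟨1, 40, 0, 0, 41, 0, 0, 0, 1, 80, (-24), 24, 2, 1⟩,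
  ⟨1, 42, 0, 0, 43, 0, 0, 0, 1, 17, 8, 0, 2, 1⟩,
  ⟨1, 44, 0, 0, 45, 0, 0, 0, (-1), 114, 0, 24, 1, 0⟩,
  ⟨1, 46, 0, 0, 47, 0, 0, 0, 1, 105, 0, 24, 1, 0⟩,
  ⟨1, 48, 0, 0, 49, 0, 0, 0, 1, 90, 0, 24, 1, 0⟩,
  ⟨1, 50, 0, 0, 51, 0, 0, 0, (-1), 86, 0, 24, 1, 0⟩,
  ⟨1, 52, 0, 0, 53, 0, 0, 0, 1, 9, 0, 0, 1, 0⟩,
  ⟨1, 54, 0, 0, 55, 0, 0, 0, (-1), 99, 0, 24, 1, 0⟩,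
  ⟨2, 1, 0, 0, 5, 0, 0, 0, 1, 115, 0, 24, 1, 0⟩,
  ⟨2, 3, 0, 0, 7, 0, 0, 0, (-1), 102, 0, 24, 1, 0⟩,
  ⟨2, 5, 0, 0, 9, 0, 0, 0, (-1), 109, 0, 24, 1, 0⟩,
  ⟨2, 7, 0, 0, 11, 0, 0, 0, 1, 100, 0, 24, 1, 0⟩,
  ⟨2, 9, 0, 0, 17, 0, 0, 0, 1, 103, 0, 24, 1, 0⟩,
  ⟨2, 11, 0, 0, 19, 0, 0, 0, (-1), 101, 0, 24, 1, 0⟩,
  ⟨2, 13, 0, 0, 17, 1, 0, 0, 1, 85, (-16), 24, 2, 1⟩,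
  ⟨2, 15, 0, 0, 19, 1, 0, 0, (-1), 83, (-16), 24, 2, 1⟩,
  ⟨2, 17, 0, 0, 13, 0, 0, 0, (-1), 89, (-16), 24, 3, 1⟩,
  ⟨2, 19, 0, 0, 15, 0, 0, 0, 1, 87, (-16), 24, 3, 1⟩,
  ⟨2, 13, 2, 1, 21, 0, 0, 0, 1, 18, 0, 0, 1, 0⟩,
  ⟨2, 15, 2, 1, 23, 0, 0, 0, (-1), 41, 0, 8, 1, 0⟩,
  ⟨2, 21, 0, 0, 25, 0, 0, 0, (-1), 33, 0, 8, 1, 0⟩,
  ⟨2, 23, 0, 0, 27, 0, 0, 0, (-1), 2, 0, 0, 1, 0⟩,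
  ⟨2, 25, 0, 0, 29, 0, 0, 0, 1, 51, 0, 8, 1, 0⟩,
  ⟨2, 27, 0, 0, 31, 0, 0, 0, 1, 53, 0, 8, 1, 0⟩,
  ⟨2, 29, 0, 0, 33, 0, 0, 0, (-1), 20, 0, 0, 1, 0⟩,
  ⟨2, 31, 0, 0, 35, 0, 0, 0, (-1), 46, 0, 0, 1, 0⟩,
  ⟨2, 33, 0, 0, 37, 1, 1, 0, (-1), 43, 0, 8, 1, 0⟩,
  ⟨2, 35, 0, 0, 43, 1, 1, 0, 1, 65, 0, 8, 1, 0⟩,
  ⟨2, 37, 0, 0, 41, 0, 0, 0, 1, 91, (-16), 24, 2, 1⟩,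
  ⟨2, 39, 0, 0, 43, 0, 0, 0, 1, 81, (-16), 24, 1, 1⟩,
  ⟨2, 41, 1, 0, 37, 0, 0, 0, (-1), 79, (-16), 24, 1, 1⟩,
  ⟨2, 43, 1, 0, 39, 0, 0, 0, (-1), 77, (-16), 24, 1, 1⟩,
  ⟨2, 41, 0, 0, 53, 0, 0, 0, (-1), 88, 0, 24, 1, 0⟩,
  ⟨2, 43, 0, 0, 55, 0, 0, 0, (-1), 104, 0, 24, 1, 0⟩,
  ⟨2, 45, 0, 0, 3, 0, 0, 1, 1, 112, 0, 24, 1, 0⟩,
  ⟨2, 47, 0, 0, 1, 0, 0, 1, (-1), 110, 0, 24, 1, 0⟩,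
  ⟨2, 49, 0, 0, 45, 0, 0, 0, (-1), 106, 0, 24, 1, 0⟩,
  ⟨2, 51, 0, 0, 47, 0, 0, 0, 1, 96, 0, 24, 1, 0⟩,
  ⟨2, 53, 0, 0, 49, 0, 0, 0, 1, 92, 0, 24, 1, 0⟩,
  ⟨2, 55, 0, 0, 51, 0, 0, 0, 1, 11, 0, 0, 1, 0⟩]

theorem g2_7 (t : ℕ) : IsGraceful (genPetersen (39 + 8 * t) 2) :=
  sound (V := V2_7) (W := W2_7) (by decide +kernel) t

theorem s2_5 : IsGraceful (genPetersen 5 2) :=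
  small_sound (U := [15, 3, 10, 12, 1])
    (V := [0, 4, 6, 9, 14])
    (D := [12, 7, 2, 11, 14, 15, 1, 4, 3, 13, 6, 5, 8, 9, 10]) (by decide +kernel)

theorem s2_6 : IsGraceful (genPetersen 6 2) :=
  small_sound (U := [0, 15, 3, 16, 8, 18])
    (V := [17, 1, 6, 7, 10, 2])
    (D := [15, 12, 13, 8, 10, 18, 17, 14, 3, 9, 2, 16, 11, 6, 4, 5, 7, 1]) (by decide +kernel)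

theorem s2_7 : IsGraceful (genPetersen 7 2) :=
  small_sound (U := [0, 20, 8, 3, 18, 4, 17])
    (V := [21, 9, 15, 12, 19, 2, 1])
    (D := [20, 12, 5, 15, 14, 13, 17, 21, 11, 7, 9, 1, 2, 16, 6, 3, 4, 10, 18, 19, 8]) (by decide +kernel)

theorem s2_8 : IsGraceful (genPetersen 8 2) :=
  small_sound (U := [0, 23, 7, 22, 3, 15, 4, 21])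
    (V := [24, 5, 17, 19, 11, 14, 2, 1])
    (D := [23, 16, 15, 19, 12, 11, 17, 21, 24, 18, 10, 3, 8, 1, 2, 20, 7, 14, 6, 5, 9, 13, 22, 4]) (by decide +kernel)

theorem s2_9 : IsGraceful (genPetersen 9 2) :=
  small_sound (U := [27, 3, 23, 22, 4, 19, 8, 24, 1])
    (V := [0, 7, 6, 17, 18, 10, 5, 2, 26])
    (D := [24, 20, 1, 18, 15, 11, 16, 23, 26, 27, 4, 17, 5, 14, 9, 3, 22, 25, 6, 10, 12, 7, 13, 8, 21, 2, 19]) (by decide +kernel)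

theorem s2_10 : IsGraceful (genPetersen 10 2) :=
  small_sound (U := [0, 29, 4, 27, 12, 18, 8, 24, 2, 28])
    (V := [30, 5, 11, 26, 14, 6, 22, 19, 13, 1])
    (D := [29, 25, 23, 15, 6, 10, 16, 22, 26, 28, 30, 24, 7, 1, 2, 12, 14, 5, 11, 27, 19, 21, 3, 20, 8, 13, 9, 18, 17, 4]) (by decide +kernel)

theorem s2_11 : IsGraceful (genPetersen 11 2) :=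
  small_sound (U := [33, 2, 28, 4, 32, 16, 7, 22, 3, 30, 1])
    (V := [0, 6, 5, 26, 15, 24, 21, 25, 10, 12, 31])
    (D := [31, 26, 24, 28, 16, 9, 15, 19, 27, 29, 32, 33, 4, 23, 22, 17, 8, 14, 3, 7, 18, 30, 5, 20, 10, 2, 6, 1, 11, 13, 21, 12, 25]) (by decide +kernel)

theorem s2_12 : IsGraceful (genPetersen 12 2) :=
  small_sound (U := [0, 35, 5, 33, 13, 6, 32, 24, 8, 31, 2, 34])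
    (V := [36, 4, 9, 16, 23, 17, 10, 22, 29, 7, 11, 1])
    (D := [35, 30, 28, 20, 7, 26, 8, 16, 23, 29, 32, 34, 36, 31, 4, 17, 10, 11, 22, 2, 21, 24, 9, 33, 27, 12, 14, 1, 13, 5, 19, 15, 18, 6, 25, 3]) (by decide +kernel)

theorem s2_13 : IsGraceful (genPetersen 13 2) :=
  small_sound (U := [0, 38, 4, 35, 11, 28, 31, 25, 30, 5, 34, 2, 37])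
    (V := [39, 8, 18, 36, 33, 17, 21, 9, 12, 32, 14, 6, 1])
    (D := [38, 34, 31, 24, 17, 3, 6, 5, 25, 29, 32, 35, 37, 39, 30, 14, 1, 22, 11, 10, 16, 18, 27, 20, 4, 36, 21, 28, 15, 19, 12, 8, 9, 23, 2, 26, 13, 33, 7]) (by decide +kernel)

theorem s2_14 : IsGraceful (genPetersen 14 2) :=
  small_sound (U := [0, 41, 7, 38, 12, 35, 19, 33, 14, 39, 4, 37, 5, 42])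
    (V := [40, 11, 18, 10, 36, 20, 32, 13, 26, 22, 31, 1, 2, 3])
    (D := [41, 34, 31, 26, 23, 16, 14, 19, 25, 35, 33, 32, 37, 42, 40, 30, 11, 28, 24, 15, 13, 20, 12, 17, 27, 36, 3, 39, 22, 1, 18, 10, 4, 7, 6, 9, 5, 21, 29, 2, 38, 8]) (by decide +kernel)

theorem s2_15 : IsGraceful (genPetersen 15 2) :=
  small_sound (U := [0, 42, 3, 41, 4, 32, 13, 28, 17, 11, 33, 6, 40, 5, 45])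
    (V := [44, 43, 8, 10, 34, 7, 25, 15, 27, 31, 9, 35, 23, 12, 2])
    (D := [42, 39, 38, 37, 28, 19, 15, 11, 6, 22, 27, 34, 35, 40, 45, 44, 1, 5, 31, 30, 25, 12, 13, 10, 20, 24, 29, 17, 7, 43, 36, 33, 26, 3, 9, 8, 2, 16, 18, 4, 14, 23, 21, 32, 41]) (by decide +kernel)

theorem s2_16 : IsGraceful (genPetersen 16 2) :=
  small_sound (U := [48, 2, 41, 8, 42, 10, 38, 23, 5, 22, 35, 6, 44, 3, 43, 1])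
    (V := [0, 47, 4, 20, 26, 40, 17, 15, 36, 25, 12, 11, 18, 46, 7, 45])
    (D := [46, 39, 33, 34, 32, 28, 15, 18, 17, 13, 29, 38, 41, 40, 42, 47, 48, 45, 37, 12, 16, 30, 21, 8, 31, 3, 23, 5, 26, 43, 36, 44, 4, 27, 22, 20, 9, 25, 19, 10, 24, 14, 6, 35, 11, 1, 7, 2]) (by decide +kernel)

theorem s2_17 : IsGraceful (genPetersen 17 2) :=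
  small_sound (U := [1, 48, 6, 49, 12, 41, 10, 27, 8, 24, 39, 9, 45, 7, 46, 5, 50])
    (V := [51, 4, 26, 3, 44, 14, 22, 37, 36, 30, 15, 43, 19, 40, 11, 0, 2])
    (D := [47, 42, 43, 37, 29, 31, 17, 19, 16, 15, 30, 36, 38, 39, 41, 45, 49, 50, 44, 20, 46, 32, 27, 12, 10, 28, 6, 24, 34, 26, 33, 35, 5, 48, 25, 1, 18, 11, 22, 23, 14, 7, 21, 13, 4, 3, 8, 40, 9, 51, 2]) (by decide +kernel)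

theorem s2_18 : IsGraceful (genPetersen 18 2) :=
  small_sound (U := [54, 1, 49, 4, 46, 13, 43, 18, 25, 45, 36, 17, 44, 15, 50, 3, 52, 2])
    (V := [0, 7, 11, 47, 48, 16, 20, 42, 35, 24, 22, 29, 5, 51, 9, 19, 8, 53])
    (D := [53, 48, 45, 42, 33, 30, 25, 7, 20, 9, 19, 27, 29, 35, 47, 49, 50, 52, 54, 6, 38, 43, 2, 3, 23, 24, 10, 21, 14, 12, 39, 36, 41, 16, 44, 51, 11, 40, 37, 31, 28, 26, 15, 18, 13, 5, 17, 22, 4, 32, 1, 34, 8, 46]) (by decide +kernel)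

theorem s2_19 : IsGraceful (genPetersen 19 2) :=
  small_sound (U := [0, 53, 2, 51, 6, 43, 13, 45, 27, 20, 29, 14, 41, 12, 48, 8, 52, 4, 56])
    (V := [57, 55, 16, 9, 49, 44, 24, 21, 37, 40, 3, 35, 25, 18, 17, 46, 5, 7, 1])
    (D := [53, 51, 49, 45, 37, 30, 32, 18, 7, 9, 15, 27, 29, 36, 40, 44, 48, 52, 56, 57, 2, 14, 42, 43, 1, 11, 24, 10, 20, 26, 21, 16, 6, 31, 38, 47, 3, 55, 41, 46, 33, 35, 25, 23, 13, 19, 34, 5, 22, 17, 8, 28, 12, 39, 4, 50, 54]) (by decide +kernel)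

theorem s2_20 : IsGraceful (genPetersen 20 2) :=
  small_sound (U := [60, 2, 54, 5, 52, 13, 51, 18, 53, 42, 21, 33, 50, 16, 47, 11, 59, 3, 56, 1])
    (V := [0, 12, 22, 55, 7, 15, 10, 44, 26, 24, 49, 28, 25, 35, 17, 48, 8, 4, 14, 58])
    (D := [58, 52, 49, 47, 39, 38, 33, 35, 11, 21, 12, 17, 34, 31, 36, 48, 56, 53, 55, 59, 60, 10, 32, 50, 45, 2, 41, 26, 27, 18, 28, 5, 25, 19, 30, 37, 51, 1, 42, 57, 22, 43, 15, 40, 3, 29, 16, 20, 23, 4, 24, 7, 8, 13, 9, 44, 6, 54, 14, 46]) (by decide +kernel)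

theorem s2_21 : IsGraceful (genPetersen 21 2) :=
  small_sound (U := [0, 57, 1, 55, 7, 48, 12, 50, 18, 44, 23, 28, 45, 16, 49, 10, 52, 8, 58, 3, 63])
    (V := [62, 61, 11, 9, 54, 24, 32, 13, 46, 19, 15, 37, 38, 56, 51, 26, 17, 53, 5, 4, 2])
    (D := [57, 56, 54, 48, 41, 36, 38, 32, 26, 21, 5, 17, 29, 33, 39, 42, 44, 50, 55, 60, 63, 62, 4, 10, 46, 47, 24, 20, 37, 28, 25, 8, 9, 7, 40, 2, 16, 35, 45, 53, 1, 61, 51, 52, 43, 15, 22, 11, 14, 6, 31, 18, 23, 19, 13, 30, 34, 27, 12, 49, 3, 58, 59]) (by decide +kernel)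

theorem s2_22 : IsGraceful (genPetersen 22 2) :=
  small_sound (U := [0, 63, 6, 58, 8, 56, 15, 49, 17, 50, 23, 47, 30, 51, 20, 55, 16, 61, 3, 59, 5, 65])
    (V := [66, 2, 13, 64, 57, 18, 28, 9, 53, 27, 42, 31, 22, 21, 48, 33, 11, 19, 54, 4, 7, 1])
    (D := [63, 57, 52, 50, 48, 41, 34, 32, 33, 27, 24, 17, 21, 31, 35, 39, 45, 58, 56, 54, 60, 65, 66, 61, 7, 6, 49, 38, 13, 40, 36, 23, 19, 16, 8, 30, 28, 22, 5, 42, 51, 55, 2, 64, 53, 62, 44, 46, 29, 9, 25, 18, 11, 4, 20, 10, 26, 12, 37, 14, 43, 15, 47, 3, 59, 1]) (by decide +kernel)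

theorem s2_23 : IsGraceful (genPetersen 23 2) :=
  small_sound (U := [69, 1, 66, 8, 62, 10, 55, 15, 50, 20, 38, 48, 19, 46, 23, 59, 17, 68, 4, 61, 5, 64, 2])
    (V := [0, 67, 6, 12, 13, 58, 35, 27, 7, 53, 22, 39, 43, 14, 60, 25, 16, 30, 57, 11, 18, 3, 65])
    (D := [68, 65, 58, 54, 52, 45, 40, 35, 30, 18, 10, 29, 27, 23, 36, 42, 51, 64, 57, 56, 59, 62, 67, 69, 66, 60, 4, 49, 48, 20, 12, 43, 33, 16, 9, 24, 32, 37, 34, 1, 38, 53, 50, 13, 61, 63, 6, 55, 7, 46, 22, 31, 28, 26, 15, 14, 21, 25, 17, 11, 44, 5, 41, 19, 39, 8, 47, 3, 2]) (by decide +kernel)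

theorem s2_24 : IsGraceful (genPetersen 24 2) :=
  small_sound (U := [0, 69, 3, 65, 10, 63, 12, 58, 14, 54, 36, 60, 27, 56, 26, 61, 23, 66, 21, 68, 11, 70, 5, 72])
    (V := [71, 1, 8, 17, 62, 13, 4, 32, 46, 18, 24, 29, 52, 35, 49, 22, 64, 39, 30, 19, 67, 9, 7, 2])
    (D := [69, 66, 62, 55, 53, 51, 46, 44, 40, 18, 24, 33, 29, 30, 35, 38, 43, 45, 47, 57, 59, 65, 67, 72, 71, 68, 5, 48, 52, 50, 8, 26, 32, 36, 12, 31, 25, 21, 23, 39, 41, 27, 9, 49, 56, 61, 2, 70, 63, 16, 54, 4, 58, 19, 42, 14, 22, 11, 28, 6, 3, 13, 15, 17, 34, 20, 37, 10, 60, 7, 64, 1]) (by decide +kernel)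

theorem s2_25 : IsGraceful (genPetersen 25 2) :=
  small_sound (U := [0, 72, 3, 71, 11, 66, 9, 59, 15, 56, 25, 42, 18, 32, 51, 26, 65, 16, 62, 8, 64, 5, 70, 4, 75])
    (V := [74, 10, 29, 1, 69, 13, 22, 23, 57, 28, 58, 60, 47, 17, 24, 33, 44, 67, 14, 30, 12, 68, 6, 7, 2])
    (D := [72, 69, 68, 60, 55, 57, 50, 44, 41, 31, 17, 24, 14, 19, 25, 39, 49, 46, 54, 56, 59, 65, 66, 71, 75, 74, 62, 26, 70, 58, 53, 13, 36, 42, 28, 33, 18, 29, 15, 27, 7, 21, 51, 48, 22, 52, 63, 64, 3, 73, 45, 9, 40, 12, 47, 10, 35, 5, 1, 32, 11, 43, 23, 16, 20, 34, 30, 37, 2, 38, 6, 61, 4, 67, 8]) (by decide +kernel)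

theorem s2_26 : IsGraceful (genPetersen 26 2) :=
  small_sound (U := [78, 2, 76, 8, 70, 14, 68, 10, 55, 17, 54, 32, 16, 45, 47, 21, 56, 13, 60, 9, 61, 4, 71, 1, 74, 3])
    (V := [0, 6, 15, 72, 7, 23, 24, 63, 66, 29, 34, 62, 41, 44, 20, 49, 33, 59, 19, 28, 67, 64, 12, 25, 77, 75])
    (D := [76, 74, 68, 62, 56, 54, 58, 45, 38, 37, 22, 16, 29, 2, 26, 35, 43, 47, 51, 52, 57, 67, 70, 73, 71, 75, 78, 4, 61, 64, 63, 9, 44, 53, 11, 12, 20, 30, 25, 1, 27, 28, 23, 46, 41, 19, 6, 60, 59, 24, 3, 72, 15, 66, 8, 49, 17, 40, 42, 34, 32, 33, 7, 18, 21, 5, 13, 10, 14, 31, 48, 36, 55, 39, 65, 50, 77, 69]) (by decide +kernel)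

theorem s2_27 : IsGraceful (genPetersen 27 2) :=
  small_sound (U := [81, 3, 79, 7, 73, 11, 69, 17, 64, 16, 60, 27, 61, 49, 50, 55, 24, 62, 20, 65, 12, 68, 8, 71, 4, 78, 1])
    (V := [0, 5, 6, 75, 77, 18, 23, 67, 46, 30, 25, 66, 41, 76, 26, 47, 52, 22, 63, 35, 31, 13, 72, 74, 21, 9, 80])
    (D := [78, 76, 72, 66, 62, 58, 52, 47, 48, 44, 33, 34, 12, 1, 5, 31, 38, 42, 45, 53, 56, 60, 63, 67, 74, 77, 80, 81, 2, 73, 68, 4, 7, 46, 50, 18, 14, 35, 39, 20, 27, 24, 8, 28, 40, 43, 30, 19, 55, 64, 3, 17, 69, 79, 6, 70, 71, 57, 54, 49, 23, 37, 21, 36, 16, 10, 15, 29, 26, 25, 11, 13, 32, 22, 41, 61, 51, 65, 59, 9, 75]) (by decide +kernel)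

theorem s2_28 : IsGraceful (genPetersen 28 2) :=
  small_sound (U := [84, 3, 82, 9, 81, 17, 75, 18, 71, 26, 64, 28, 61, 43, 20, 35, 66, 27, 62, 21, 69, 14, 70, 10, 77, 2, 79, 1])
    (V := [0, 7, 8, 78, 30, 29, 16, 72, 42, 32, 22, 60, 52, 67, 33, 40, 50, 6, 25, 68, 23, 24, 73, 76, 12, 13, 80, 83])
    (D := [81, 79, 73, 72, 64, 58, 57, 53, 45, 38, 36, 33, 18, 23, 15, 31, 39, 35, 41, 48, 55, 56, 60, 67, 75, 77, 78, 83, 84, 4, 74, 69, 51, 12, 59, 54, 29, 6, 42, 32, 9, 24, 13, 5, 16, 21, 37, 47, 46, 10, 3, 66, 65, 11, 1, 82, 8, 71, 22, 49, 14, 43, 26, 40, 20, 28, 30, 7, 19, 27, 17, 34, 25, 62, 2, 44, 50, 52, 61, 63, 68, 70, 80, 76]) (by decide +kernel)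

theorem s2_29 : IsGraceful (genPetersen 29 2) :=
  small_sound (U := [0, 84, 2, 79, 9, 85, 12, 73, 18, 65, 25, 64, 31, 47, 39, 54, 32, 26, 71, 21, 69, 15, 72, 10, 74, 6, 81, 3, 86])
    (V := [87, 5, 7, 8, 76, 22, 35, 20, 70, 27, 42, 46, 63, 77, 83, 28, 59, 62, 34, 33, 80, 75, 29, 19, 16, 78, 82, 13, 1])
    (D := [84, 82, 77, 70, 76, 73, 61, 55, 47, 40, 39, 33, 16, 8, 15, 22, 6, 45, 50, 48, 54, 57, 62, 64, 68, 75, 78, 83, 86, 87, 79, 5, 71, 67, 63, 23, 53, 52, 38, 17, 18, 32, 30, 44, 26, 27, 36, 37, 12, 11, 60, 43, 9, 58, 72, 1, 10, 85, 80, 3, 69, 14, 41, 2, 35, 7, 28, 19, 21, 31, 20, 49, 24, 34, 25, 29, 46, 42, 51, 56, 13, 59, 66, 65, 81, 74,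 4]) (by decide +kernel)

theorem s2_30 : IsGraceful (genPetersen 30 2) :=
  small_sound (U := [0, 88, 5, 86, 12, 80, 8, 74, 16, 67, 15, 59, 22, 48, 23, 52, 28, 61, 27, 69, 19, 66, 13, 75, 10, 77, 6, 85, 3, 89])
    (V := [90, 4, 17, 1, 87, 81, 26, 18, 71, 39, 32, 82, 63, 78, 31, 68, 50, 41, 65, 76, 25, 30, 73, 84, 24, 20, 83, 7, 14, 2])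
    (D := [88, 83, 81, 74, 68, 72, 66, 58, 51, 52, 44, 37, 26, 25, 29, 24, 33, 34, 42, 50, 47, 53, 62, 65, 67, 71, 79, 82, 86, 89, 90, 84, 12, 85, 75, 1, 18, 56, 55, 28, 17, 23, 41, 30, 8, 16, 22, 20, 38, 7, 6, 36, 60, 9, 14, 57, 77, 78, 11, 87, 73, 3, 70, 80, 61, 63, 45, 21, 39, 43, 31, 4, 32, 10, 19, 27, 15, 35, 40, 46, 48, 54, 49, 64, 59, 13, 69, 5, 76, 2]) (by decide +kernel)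

theorem s2_31 : IsGraceful (genPetersen 31 2) :=
  small_sound (U := [0, 90, 6, 92, 13, 84, 12, 88, 22, 82, 27, 77, 34, 74, 49, 86, 42, 71, 67, 19, 66, 14, 79, 18, 81, 17, 85, 8, 89, 4, 93])
    (V := [91, 7, 9, 5, 87, 15, 20, 29, 78, 47, 40, 36, 76, 43, 44, 63, 72, 37, 48, 70, 21, 31, 33, 80, 11, 26, 32, 83, 16, 3, 1])
    (D := [90, 84, 86, 79, 71, 72, 76, 66, 60, 55, 50, 43, 40, 25, 37, 44, 29, 4, 48, 47, 52, 65, 61, 63, 64, 68, 77, 81, 85, 89, 93, 91, 83, 3, 87, 74, 69, 8, 59, 56, 35, 13, 41, 42, 31, 5, 23, 30, 34, 19, 51, 45, 17, 46, 62, 70, 9, 53, 75, 73, 1, 92, 82, 2, 78, 10, 67, 14, 58, 18, 38, 11, 36, 7, 32, 20, 28, 26, 24, 33, 27, 39,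 12, 49, 22, 54, 21, 57, 16, 80, 15, 88, 6]) (by decide +kernel)

/-- `P(n,2)` is graceful for all `n > 4` -/
theorem gp2 (n : ℕ) (h : 4 < n) : IsGraceful (genPetersen n 2) := by
  have hr : n % 8 = 0 ∨ n % 8 = 1 ∨ n % 8 = 2 ∨ n % 8 = 3 ∨ n % 8 = 4 ∨ n % 8 = 5 ∨ n % 8 = 6 ∨ n % 8 = 7 := by omega
  rcases hr with hr | hr | hr | hr | hr | hr | hr | hr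
  · by_cases h0 : 32 ≤ n
    · obtain ⟨t, rfl⟩ : ∃ t, n = 32 + 8 * t := ⟨(n - 32) / 8, by omega⟩
      exact g2_0 t
    · have h1 : n = 8 ∨ n = 16 ∨ n = 24 := by omega
      rcases h1 with rfl | rfl | rfl
      · exact s2_8
      · exact s2_16
      · exact s2_24
  · by_cases h0 : 33 ≤ n
    · obtain ⟨t, rfl⟩ : ∃ t, n = 33 + 8 * t := ⟨(n - 33) / 8, by omega⟩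
      exact g2_1 t
    · have h1 : n = 9 ∨ n = 17 ∨ n = 25 := by omega
      rcases h1 with rfl | rfl | rfl
      · exact s2_9
      · exact s2_17
      · exact s2_25
  · by_cases h0 : 34 ≤ n
    · obtain ⟨t, rfl⟩ : ∃ t, n = 34 + 8 * t := ⟨(n - 34) / 8, by omega⟩
      exact g2_2 t
    · have h1 : n = 10 ∨ n = 18 ∨ n = 26 := by omega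
      rcases h1 with rfl | rfl | rfl
      · exact s2_10
      · exact s2_18
      · exact s2_26
  · by_cases h0 : 35 ≤ n
    · obtain ⟨t, rfl⟩ : ∃ t, n = 35 + 8 * t := ⟨(n - 35) / 8, by omega⟩
      exact g2_3 t
    · have h1 : n = 11 ∨ n = 19 ∨ n = 27 := by omega
      rcases h1 with rfl | rfl | rfl
      · exact s2_11
      · exact s2_19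
      · exact s2_27
  · by_cases h0 : 36 ≤ n
    · obtain ⟨t, rfl⟩ : ∃ t, n = 36 + 8 * t := ⟨(n - 36) / 8, by omega⟩
      exact g2_4 t
    · have h1 : n = 12 ∨ n = 20 ∨ n = 28 := by omega
      rcases h1 with rfl | rfl | rfl
      · exact s2_12
      · exact s2_20
      · exact s2_28
  · by_cases h0 : 37 ≤ n
    · obtain ⟨t, rfl⟩ : ∃ t, n = 37 + 8 * t := ⟨(n - 37) / 8, by omega⟩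
      exact g2_5 t
    · have h1 : n = 5 ∨ n = 13 ∨ n = 21 ∨ n = 29 := by omega
      rcases h1 with rfl | rfl | rfl | rfl
      · exact s2_5
      · exact s2_13
      · exact s2_21
      · exact s2_29
  · by_cases h0 : 38 ≤ n
    · obtain ⟨t, rfl⟩ : ∃ t, n = 38 + 8 * t := ⟨(n - 38) / 8, by omega⟩
      exact g2_6 t
    · have h1 : n = 6 ∨ n = 14 ∨ n = 22 ∨ n = 30 := by omega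
      rcases h1 with rfl | rfl | rfl | rfl
      · exact s2_6
      · exact s2_14
      · exact s2_22
      · exact s2_30
  · by_cases h0 : 39 ≤ n
    · obtain ⟨t, rfl⟩ : ∃ t, n = 39 + 8 * t := ⟨(n - 39) / 8, by omega⟩
      exact g2_7 t
    · have h1 : n = 7 ∨ n = 15 ∨ n = 23 ∨ n = 31 := by omega
      rcases h1 with rfl | rfl | rfl | rfl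
      · exact s2_7
      · exact s2_15
      · exact s2_23
      · exact s2_31

end Pool.Agent.Helper40.GP
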