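import Pool.Agent.Helper40.GPChk

/-!
# Labellings of `P(n,3)`
-/

set_option autoImplicit false
set_option maxRecDepth 100000

namespace Pool.Agent.Helper40.GP

open Pool.Agent.Helper20.Graceful

def V3_0 : List VP :=
  [⟨0, 0, 1, 0, 0, 0, 0, 1, 0⟩,
  ⟨1, 0, 1, 0, 72, 0, 12, 1, 0⟩,
  ⟨0, 1, 1, 0, 69, 0, 12, 1, 0⟩,
  ⟨1, 1, 1, 0, 2, 0, 0, 1, 0⟩,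
  ⟨0, 2, 1, 0, 9, 0, 0, 1, 0⟩,
  ⟨1, 2, 1, 0, 63, 0, 12, 1, 0⟩,
  ⟨0, 3, 1, 0, 65, 0, 12, 1, 0⟩,
  ⟨1, 3, 1, 0, 4, 0, 0, 1, 0⟩,
  ⟨0, 4, 2, 0, 15, 6, 0, 3, 1⟩,
  ⟨1, 4, 2, 0, 68, (-6), 12, 3, 1⟩,
  ⟨0, 5, 2, 0, 52, (-6), 12, 2, 1⟩,
  ⟨1, 5, 2, 0, 20, 6, 0, 2, 1⟩,
  ⟨0, 9, 1, 2, 44, 0, 6, 1, 0⟩,
  ⟨1, 9, 1, 2, 32, 0, 6, 1, 0⟩,
  ⟨0, 10, 1, 2, 35, 0, 6, 1, 0⟩,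
  ⟨1, 10, 1, 2, 25, 0, 6, 1, 0⟩,
  ⟨0, 11, 1, 2, 48, 0, 6, 1, 0⟩,
  ⟨1, 11, 1, 2, 53, 0, 6, 1, 0⟩,
  ⟨0, 12, 1, 2, 24, 0, 6, 1, 0⟩,
  ⟨1, 12, 1, 2, 30, 0, 6, 1, 0⟩,
  ⟨0, 13, 1, 2, 40, 0, 6, 1, 0⟩,
  ⟨1, 13, 1, 2, 29, 0, 6, 1, 0⟩,
  ⟨0, 19, (-2), 4, 49, (-6), 12, 3, 1⟩,
  ⟨1, 19, (-2), 4, 11, 6, 0, 3, 1⟩,
  ⟨0, 18, (-2), 4, 10, 6, 0, 3, 1⟩,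
  ⟨1, 18, (-2), 4, 57, (-6), 12, 3, 1⟩,
  ⟨0, 23, 1, 4, 71, 0, 12, 1, 0⟩,
  ⟨1, 23, 1, 4, 1, 0, 0, 1, 0⟩,
  ⟨0, 22, 1, 4, 7, 0, 0, 1, 0⟩,
  ⟨1, 22, 1, 4, 59, 0, 12, 1, 0⟩,
  ⟨0, 21, 1, 4, 58, 0, 12, 1, 0⟩,
  ⟨1, 21, 1, 4, 13, 0, 0, 1, 0⟩,
  ⟨0, 20, 1, 4, 3, 0, 0, 1, 0⟩,
  ⟨1, 20, 1, 4, 66, 0, 12, 1, 0⟩]

def W3_0 : List EP :=
  [⟨0, 0, 0, 0, 2, 0, 0, 0, (-1), 69, 0, 12, 1, 0⟩,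
  ⟨0, 2, 0, 0, 4, 0, 0, 0, 1, 60, 0, 12, 1, 0⟩,
  ⟨0, 4, 0, 0, 6, 0, 0, 0, (-1), 56, 0, 12, 1, 0⟩,
  ⟨0, 6, 0, 0, 8, 0, 0, 0, 1, 50, 0, 12, 1, 0⟩,
  ⟨0, 8, 0, 0, 10, 0, 0, 0, (-1), 37, (-12), 12, 2, 1⟩,
  ⟨0, 10, 0, 0, 8, 1, 0, 0, 1, 31, (-12), 12, 2, 1⟩,
  ⟨0, 8, 2, 1, 12, 0, 0, 0, (-1), 17, 0, 0, 1, 0⟩,
  ⟨0, 12, 0, 0, 14, 0, 0, 0, 1, 9, 0, 0, 1, 0⟩,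
  ⟨0, 14, 0, 0, 16, 0, 0, 0, (-1), 13, 0, 0, 1, 0⟩,
  ⟨0, 16, 0, 0, 18, 0, 0, 0, 1, 24, 0, 0, 1, 0⟩,
  ⟨0, 18, 0, 0, 20, 0, 0, 0, (-1), 16, 0, 0, 1, 0⟩,
  ⟨0, 20, 0, 0, 24, 2, 1, 0, 1, 18, 0, 0, 1, 0⟩,
  ⟨0, 22, 1, 0, 24, 0, 0, 0, 1, 33, (-12), 12, 2, 1⟩,
  ⟨0, 24, 0, 0, 22, 0, 0, 0, (-1), 39, (-12), 12, 3, 1⟩,
  ⟨0, 22, 0, 0, 32, 0, 0, 0, 1, 46, 0, 12, 1, 0⟩,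
  ⟨0, 26, 0, 0, 0, 0, 0, 1, 1, 71, 0, 12, 1, 0⟩,
  ⟨0, 28, 0, 0, 26, 0, 0, 0, (-1), 64, 0, 12, 1, 0⟩,
  ⟨0, 30, 0, 0, 28, 0, 0, 0, 1, 51, 0, 12, 1, 0⟩,
  ⟨0, 32, 0, 0, 30, 0, 0, 0, (-1), 55, 0, 12, 1, 0⟩,
  ⟨1, 0, 0, 0, 1, 0, 0, 0, (-1), 72, 0, 12, 1, 0⟩,
  ⟨1, 2, 0, 0, 3, 0, 0, 0, 1, 67, 0, 12, 1, 0⟩,
  ⟨1, 4, 0, 0, 5, 0, 0, 0, (-1), 54, 0, 12, 1, 0⟩,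
  ⟨1, 6, 0, 0, 7, 0, 0, 0, 1, 61, 0, 12, 1, 0⟩,
  ⟨1, 8, 0, 0, 9, 0, 0, 0, (-1), 53, (-12), 12, 3, 1⟩,
  ⟨1, 10, 0, 0, 11, 0, 0, 0, 1, 32, (-12), 12, 2, 1⟩,
  ⟨1, 12, 0, 0, 13, 0, 0, 0, 1, 12, 0, 0, 1, 0⟩,
  ⟨1, 14, 0, 0, 15, 0, 0, 0, 1, 10, 0, 0, 1, 0⟩,
  ⟨1, 16, 0, 0, 17, 0, 0, 0, (-1), 5, 0, 0, 1, 0⟩,
  ⟨1, 18, 0, 0, 19, 0, 0, 0, (-1), 6, 0, 0, 1, 0⟩,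
  ⟨1, 20, 0, 0, 21, 0, 0, 0, 1, 11, 0, 0, 1, 0⟩,
  ⟨1, 22, 0, 0, 23, 0, 0, 0, 1, 38, (-12), 12, 3, 1⟩,
  ⟨1, 24, 0, 0, 25, 0, 0, 0, (-1), 47, (-12), 12, 3, 1⟩,
  ⟨1, 26, 0, 0, 27, 0, 0, 0, 1, 70, 0, 12, 1, 0⟩,
  ⟨1, 28, 0, 0, 29, 0, 0, 0, (-1), 52, 0, 12, 1, 0⟩,
  ⟨1, 30, 0, 0, 31, 0, 0, 0, 1, 45, 0, 12, 1, 0⟩,
  ⟨1, 32, 0, 0, 33, 0, 0, 0, (-1), 63, 0, 12, 1, 0⟩,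
  ⟨2, 1, 0, 0, 7, 0, 0, 0, 1, 68, 0, 12, 1, 0⟩,
  ⟨2, 3, 0, 0, 9, 0, 0, 0, (-1), 66, 0, 12, 1, 0⟩,
  ⟨2, 5, 0, 0, 11, 0, 0, 0, 1, 43, 0, 12, 1, 0⟩,
  ⟨2, 7, 0, 0, 9, 1, 0, 0, (-1), 58, 0, 12, 1, 0⟩,
  ⟨2, 9, 0, 0, 11, 1, 0, 0, 1, 42, (-12), 12, 1, 1⟩,
  ⟨2, 11, 0, 0, 9, 2, 0, 0, (-1), 36, (-12), 12, 1, 1⟩,
  ⟨2, 9, 1, 1, 13, 0, 0, 0, 1, 30, 0, 0, 1, 0⟩,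
  ⟨2, 11, 1, 1, 15, 0, 0, 0, 1, 1, 0, 0, 1, 0⟩,
  ⟨2, 9, 2, 1, 17, 0, 0, 0, 1, 3, 0, 0, 1, 0⟩,
  ⟨2, 13, 0, 0, 19, 0, 0, 0, 1, 2, 0, 0, 1, 0⟩,
  ⟨2, 15, 0, 0, 21, 0, 0, 0, (-1), 4, 0, 0, 1, 0⟩,
  ⟨2, 17, 0, 0, 25, 2, 1, 0, 1, 8, 0, 0, 1, 0⟩,
  ⟨2, 19, 0, 0, 23, 2, 1, 0, 1, 7, 0, 0, 1, 0⟩,
  ⟨2, 21, 0, 0, 25, 1, 1, 0, (-1), 22, 0, 0, 1, 0⟩,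
  ⟨2, 23, 2, 0, 25, 0, 0, 0, (-1), 34, (-12), 12, 1, 1⟩,
  ⟨2, 25, 1, 0, 23, 0, 0, 0, 1, 40, (-12), 12, 2, 1⟩,
  ⟨2, 23, 0, 0, 29, 0, 0, 0, (-1), 48, 0, 12, 1, 0⟩,
  ⟨2, 25, 0, 0, 31, 0, 0, 0, 1, 44, 0, 12, 1, 0⟩,
  ⟨2, 23, 1, 0, 33, 0, 0, 0, (-1), 49, 0, 12, 1, 0⟩,
  ⟨2, 27, 0, 0, 5, 0, 0, 1, (-1), 62, 0, 12, 1, 0⟩,
  ⟨2, 29, 0, 0, 3, 0, 0, 1, 1, 57, 0, 12, 1, 0⟩,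
  ⟨2, 31, 0, 0, 1, 0, 0, 1, (-1), 59, 0, 12, 1, 0⟩,
  ⟨2, 33, 0, 0, 27, 0, 0, 0, 1, 65, 0, 12, 1, 0⟩]

theorem g3_0 (t : ℕ) : IsGraceful (genPetersen (24 + 4 * t) 3) :=
  sound (V := V3_0) (W := W3_0) (by decide +kernel) t

def V3_1 : List VP :=
  [⟨0, 0, 1, 0, 0, 0, 0, 1, 0⟩,
  ⟨1, 0, 1, 0, 75, 0, 12, 1, 0⟩,
  ⟨0, 1, 1, 0, 72, 0, 12, 1, 0⟩,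
  ⟨1, 1, 1, 0, 2, 0, 0, 1, 0⟩,
  ⟨0, 2, 1, 0, 9, 0, 0, 1, 0⟩,
  ⟨1, 2, 1, 0, 66, 0, 12, 1, 0⟩,
  ⟨0, 3, 1, 0, 68, 0, 12, 1, 0⟩,
  ⟨1, 3, 1, 0, 4, 0, 0, 1, 0⟩,
  ⟨0, 4, 2, 0, 15, 6, 0, 3, 1⟩,
  ⟨1, 4, 2, 0, 71, (-6), 12, 3, 1⟩,
  ⟨0, 5, 2, 0, 55, (-6), 12, 3, 1⟩,
  ⟨1, 5, 2, 0, 20, 6, 0, 3, 1⟩,
  ⟨0, 10, 1, 2, 12, 0, 6, 1, 0⟩,
  ⟨1, 10, 1, 2, 39, 0, 6, 1, 0⟩,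
  ⟨0, 11, 1, 2, 38, 0, 6, 1, 0⟩,
  ⟨1, 11, 1, 2, 63, 0, 6, 1, 0⟩,
  ⟨0, 12, 1, 2, 24, 0, 6, 1, 0⟩,
  ⟨1, 12, 1, 2, 29, 0, 6, 1, 0⟩,
  ⟨0, 13, 1, 2, 36, 0, 6, 1, 0⟩,
  ⟨1, 13, 1, 2, 30, 0, 6, 1, 0⟩,
  ⟨0, 14, 1, 2, 34, 0, 6, 1, 0⟩,
  ⟨1, 14, 1, 2, 53, 0, 6, 1, 0⟩,
  ⟨0, 15, 1, 2, 19, 0, 6, 1, 0⟩,
  ⟨1, 15, 1, 2, 37, 0, 6, 1, 0⟩,
  ⟨0, 20, (-2), 4, 52, (-6), 12, 3, 1⟩,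
  ⟨1, 20, (-2), 4, 11, 6, 0, 3, 1⟩,
  ⟨0, 19, (-2), 4, 10, 6, 0, 2, 1⟩,
  ⟨1, 19, (-2), 4, 60, (-6), 12, 2, 1⟩,
  ⟨0, 24, 1, 4, 74, 0, 12, 1, 0⟩,
  ⟨1, 24, 1, 4, 1, 0, 0, 1, 0⟩,
  ⟨0, 23, 1, 4, 7, 0, 0, 1, 0⟩,
  ⟨1, 23, 1, 4, 62, 0, 12, 1, 0⟩,
  ⟨0, 22, 1, 4, 61, 0, 12, 1, 0⟩,
  ⟨1, 22, 1, 4, 13, 0, 0, 1, 0⟩,
  ⟨0, 21, 1, 4, 3, 0, 0, 1, 0⟩,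
  ⟨1, 21, 1, 4, 69, 0, 12, 1, 0⟩]

def W3_1 : List EP :=
  [⟨0, 0, 0, 0, 2, 0, 0, 0, (-1), 72, 0, 12, 1, 0⟩,
  ⟨0, 2, 0, 0, 4, 0, 0, 0, 1, 63, 0, 12, 1, 0⟩,
  ⟨0, 4, 0, 0, 6, 0, 0, 0, (-1), 59, 0, 12, 1, 0⟩,
  ⟨0, 6, 0, 0, 8, 0, 0, 0, 1, 53, 0, 12, 1, 0⟩,
  ⟨0, 8, 0, 0, 10, 0, 0, 0, (-1), 40, (-12), 12, 3, 1⟩,
  ⟨0, 10, 0, 0, 8, 1, 0, 0, 1, 34, (-12), 12, 2, 1⟩,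
  ⟨0, 10, 2, 1, 12, 0, 0, 0, 1, 31, 0, 0, 1, 0⟩,
  ⟨0, 12, 0, 0, 14, 0, 0, 0, (-1), 26, 0, 0, 1, 0⟩,
  ⟨0, 14, 0, 0, 16, 0, 0, 0, 1, 14, 0, 0, 1, 0⟩,
  ⟨0, 16, 0, 0, 18, 0, 0, 0, (-1), 12, 0, 0, 1, 0⟩,
  ⟨0, 18, 0, 0, 20, 0, 0, 0, 1, 2, 0, 0, 1, 0⟩,
  ⟨0, 20, 0, 0, 22, 0, 0, 0, 1, 15, 0, 0, 1, 0⟩,
  ⟨0, 22, 0, 0, 24, 2, 1, 0, (-1), 21, 0, 0, 1, 0⟩,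
  ⟨0, 24, 1, 0, 26, 0, 0, 0, 1, 36, (-12), 12, 2, 1⟩,
  ⟨0, 26, 0, 0, 24, 0, 0, 0, (-1), 42, (-12), 12, 2, 1⟩,
  ⟨0, 24, 0, 0, 34, 0, 0, 0, 1, 49, 0, 12, 1, 0⟩,
  ⟨0, 28, 0, 0, 0, 0, 0, 1, 1, 74, 0, 12, 1, 0⟩,
  ⟨0, 30, 0, 0, 28, 0, 0, 0, (-1), 67, 0, 12, 1, 0⟩,
  ⟨0, 32, 0, 0, 30, 0, 0, 0, 1, 54, 0, 12, 1, 0⟩,
  ⟨0, 34, 0, 0, 32, 0, 0, 0, (-1), 58, 0, 12, 1, 0⟩,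
  ⟨1, 0, 0, 0, 1, 0, 0, 0, (-1), 75, 0, 12, 1, 0⟩,
  ⟨1, 2, 0, 0, 3, 0, 0, 0, 1, 70, 0, 12, 1, 0⟩,
  ⟨1, 4, 0, 0, 5, 0, 0, 0, (-1), 57, 0, 12, 1, 0⟩,
  ⟨1, 6, 0, 0, 7, 0, 0, 0, 1, 64, 0, 12, 1, 0⟩,
  ⟨1, 8, 0, 0, 9, 0, 0, 0, (-1), 56, (-12), 12, 3, 1⟩,
  ⟨1, 10, 0, 0, 11, 0, 0, 0, 1, 35, (-12), 12, 3, 1⟩,
  ⟨1, 12, 0, 0, 13, 0, 0, 0, (-1), 27, 0, 0, 1, 0⟩,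
  ⟨1, 14, 0, 0, 15, 0, 0, 0, (-1), 25, 0, 0, 1, 0⟩,
  ⟨1, 16, 0, 0, 17, 0, 0, 0, (-1), 5, 0, 0, 1, 0⟩,
  ⟨1, 18, 0, 0, 19, 0, 0, 0, 1, 6, 0, 0, 1, 0⟩,
  ⟨1, 20, 0, 0, 21, 0, 0, 0, (-1), 19, 0, 0, 1, 0⟩,
  ⟨1, 22, 0, 0, 23, 0, 0, 0, (-1), 18, 0, 0, 1, 0⟩,
  ⟨1, 24, 0, 0, 25, 0, 0, 0, 1, 41, (-12), 12, 3, 1⟩,
  ⟨1, 26, 0, 0, 27, 0, 0, 0, (-1), 50, (-12), 12, 2, 1⟩,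
  ⟨1, 28, 0, 0, 29, 0, 0, 0, 1, 73, 0, 12, 1, 0⟩,
  ⟨1, 30, 0, 0, 31, 0, 0, 0, (-1), 55, 0, 12, 1, 0⟩,
  ⟨1, 32, 0, 0, 33, 0, 0, 0, 1, 48, 0, 12, 1, 0⟩,
  ⟨1, 34, 0, 0, 35, 0, 0, 0, (-1), 66, 0, 12, 1, 0⟩,
  ⟨2, 1, 0, 0, 7, 0, 0, 0, 1, 71, 0, 12, 1, 0⟩,
  ⟨2, 3, 0, 0, 9, 0, 0, 0, (-1), 69, 0, 12, 1, 0⟩,
  ⟨2, 5, 0, 0, 11, 0, 0, 0, 1, 46, 0, 12, 1, 0⟩,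
  ⟨2, 7, 0, 0, 9, 1, 0, 0, (-1), 61, 0, 12, 1, 0⟩,
  ⟨2, 9, 0, 0, 11, 1, 0, 0, 1, 45, (-12), 12, 2, 1⟩,
  ⟨2, 11, 0, 0, 9, 2, 0, 0, (-1), 39, (-12), 12, 1, 1⟩,
  ⟨2, 11, 1, 1, 13, 0, 0, 0, (-1), 13, 0, 0, 1, 0⟩,
  ⟨2, 9, 2, 1, 15, 0, 0, 0, (-1), 4, 0, 0, 1, 0⟩,
  ⟨2, 11, 2, 1, 17, 0, 0, 0, 1, 3, 0, 0, 1, 0⟩,
  ⟨2, 13, 0, 0, 19, 0, 0, 0, 1, 9, 0, 0, 1, 0⟩,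
  ⟨2, 15, 0, 0, 21, 0, 0, 0, 1, 10, 0, 0, 1, 0⟩,
  ⟨2, 17, 0, 0, 23, 0, 0, 0, (-1), 8, 0, 0, 1, 0⟩,
  ⟨2, 19, 0, 0, 25, 2, 1, 0, 1, 7, 0, 0, 1, 0⟩,
  ⟨2, 21, 0, 0, 27, 1, 1, 0, (-1), 1, 0, 0, 1, 0⟩,
  ⟨2, 23, 0, 0, 25, 1, 1, 0, 1, 20, 0, 0, 1, 0⟩,
  ⟨2, 25, 2, 0, 27, 0, 0, 0, (-1), 37, (-12), 12, 1, 1⟩,
  ⟨2, 27, 1, 0, 25, 0, 0, 0, 1, 43, (-12), 12, 1, 1⟩,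
  ⟨2, 25, 0, 0, 31, 0, 0, 0, (-1), 51, 0, 12, 1, 0⟩,
  ⟨2, 27, 0, 0, 33, 0, 0, 0, 1, 47, 0, 12, 1, 0⟩,
  ⟨2, 25, 1, 0, 35, 0, 0, 0, (-1), 52, 0, 12, 1, 0⟩,
  ⟨2, 29, 0, 0, 5, 0, 0, 1, (-1), 65, 0, 12, 1, 0⟩,
  ⟨2, 31, 0, 0, 3, 0, 0, 1, 1, 60, 0, 12, 1, 0⟩,
  ⟨2, 33, 0, 0, 1, 0, 0, 1, (-1), 62, 0, 12, 1, 0⟩,
  ⟨2, 35, 0, 0, 29, 0, 0, 0, 1, 68, 0, 12, 1, 0⟩]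

theorem g3_1 (t : ℕ) : IsGraceful (genPetersen (25 + 4 * t) 3) :=
  sound (V := V3_1) (W := W3_1) (by decide +kernel) t

def V3_2 : List VP :=
  [⟨0, 0, 1, 0, 0, 0, 0, 1, 0⟩,
  ⟨1, 0, 1, 0, 78, 0, 12, 1, 0⟩,
  ⟨0, 1, 1, 0, 75, 0, 12, 1, 0⟩,
  ⟨1, 1, 1, 0, 2, 0, 0, 1, 0⟩,
  ⟨0, 2, 1, 0, 9, 0, 0, 1, 0⟩,
  ⟨1, 2, 1, 0, 69, 0, 12, 1, 0⟩,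
  ⟨0, 3, 1, 0, 71, 0, 12, 1, 0⟩,
  ⟨1, 3, 1, 0, 4, 0, 0, 1, 0⟩,
  ⟨0, 4, 2, 0, 15, 6, 0, 3, 1⟩,
  ⟨1, 4, 2, 0, 74, (-6), 12, 3, 1⟩,
  ⟨0, 5, 2, 0, 58, (-6), 12, 3, 1⟩,
  ⟨1, 5, 2, 0, 20, 6, 0, 3, 1⟩,
  ⟨0, 10, 1, 2, 12, 0, 6, 1, 0⟩,
  ⟨1, 10, 1, 2, 42, 0, 6, 1, 0⟩,
  ⟨0, 11, 1, 2, 41, 0, 6, 1, 0⟩,
  ⟨1, 11, 1, 2, 34, 0, 6, 1, 0⟩,
  ⟨0, 12, 1, 2, 51, 0, 6, 1, 0⟩,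
  ⟨1, 12, 1, 2, 47, 0, 6, 1, 0⟩,
  ⟨0, 13, 1, 2, 54, 0, 6, 1, 0⟩,
  ⟨1, 13, 1, 2, 53, 0, 6, 1, 0⟩,
  ⟨0, 14, 1, 2, 45, 0, 6, 1, 0⟩,
  ⟨1, 14, 1, 2, 28, 0, 6, 1, 0⟩,
  ⟨0, 15, 1, 2, 37, 0, 6, 1, 0⟩,
  ⟨1, 15, 1, 2, 35, 0, 6, 1, 0⟩,
  ⟨0, 16, 1, 2, 19, 0, 6, 1, 0⟩,
  ⟨1, 16, 1, 2, 40, 0, 6, 1, 0⟩,
  ⟨0, 21, (-2), 4, 55, (-6), 12, 3, 1⟩,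
  ⟨1, 21, (-2), 4, 11, 6, 0, 3, 1⟩,
  ⟨0, 20, (-2), 4, 10, 6, 0, 2, 1⟩,
  ⟨1, 20, (-2), 4, 63, (-6), 12, 2, 1⟩,
  ⟨0, 25, 1, 4, 77, 0, 12, 1, 0⟩,
  ⟨1, 25, 1, 4, 1, 0, 0, 1, 0⟩,
  ⟨0, 24, 1, 4, 7, 0, 0, 1, 0⟩,
  ⟨1, 24, 1, 4, 65, 0, 12, 1, 0⟩,
  ⟨0, 23, 1, 4, 64, 0, 12, 1, 0⟩,
  ⟨1, 23, 1, 4, 13, 0, 0, 1, 0⟩,
  ⟨0, 22, 1, 4, 3, 0, 0, 1, 0⟩,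
  ⟨1, 22, 1, 4, 72, 0, 12, 1, 0⟩]

def W3_2 : List EP :=
  [⟨0, 0, 0, 0, 2, 0, 0, 0, (-1), 75, 0, 12, 1, 0⟩,
  ⟨0, 2, 0, 0, 4, 0, 0, 0, 1, 66, 0, 12, 1, 0⟩,
  ⟨0, 4, 0, 0, 6, 0, 0, 0, (-1), 62, 0, 12, 1, 0⟩,
  ⟨0, 6, 0, 0, 8, 0, 0, 0, 1, 56, 0, 12, 1, 0⟩,
  ⟨0, 8, 0, 0, 10, 0, 0, 0, (-1), 43, (-12), 12, 3, 1⟩,
  ⟨0, 10, 0, 0, 8, 1, 0, 0, 1, 37, (-12), 12, 2, 1⟩,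
  ⟨0, 10, 2, 1, 12, 0, 0, 0, 1, 34, 0, 0, 1, 0⟩,
  ⟨0, 12, 0, 0, 14, 0, 0, 0, (-1), 29, 0, 0, 1, 0⟩,
  ⟨0, 14, 0, 0, 16, 0, 0, 0, (-1), 10, 0, 0, 1, 0⟩,
  ⟨0, 16, 0, 0, 18, 0, 0, 0, (-1), 3, 0, 0, 1, 0⟩,
  ⟨0, 18, 0, 0, 20, 0, 0, 0, 1, 9, 0, 0, 1, 0⟩,
  ⟨0, 20, 0, 0, 22, 0, 0, 0, 1, 8, 0, 0, 1, 0⟩,
  ⟨0, 22, 0, 0, 24, 0, 0, 0, 1, 18, 0, 0, 1, 0⟩,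
  ⟨0, 24, 0, 0, 26, 2, 1, 0, (-1), 24, 0, 0, 1, 0⟩,
  ⟨0, 26, 1, 0, 28, 0, 0, 0, 1, 39, (-12), 12, 2, 1⟩,
  ⟨0, 28, 0, 0, 26, 0, 0, 0, (-1), 45, (-12), 12, 2, 1⟩,
  ⟨0, 26, 0, 0, 36, 0, 0, 0, 1, 52, 0, 12, 1, 0⟩,
  ⟨0, 30, 0, 0, 0, 0, 0, 1, 1, 77, 0, 12, 1, 0⟩,
  ⟨0, 32, 0, 0, 30, 0, 0, 0, (-1), 70, 0, 12, 1, 0⟩,
  ⟨0, 34, 0, 0, 32, 0, 0, 0, 1, 57, 0, 12, 1, 0⟩,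
  ⟨0, 36, 0, 0, 34, 0, 0, 0, (-1), 61, 0, 12, 1, 0⟩,
  ⟨1, 0, 0, 0, 1, 0, 0, 0, (-1), 78, 0, 12, 1, 0⟩,
  ⟨1, 2, 0, 0, 3, 0, 0, 0, 1, 73, 0, 12, 1, 0⟩,
  ⟨1, 4, 0, 0, 5, 0, 0, 0, (-1), 60, 0, 12, 1, 0⟩,
  ⟨1, 6, 0, 0, 7, 0, 0, 0, 1, 67, 0, 12, 1, 0⟩,
  ⟨1, 8, 0, 0, 9, 0, 0, 0, (-1), 59, (-12), 12, 3, 1⟩,
  ⟨1, 10, 0, 0, 11, 0, 0, 0, 1, 38, (-12), 12, 3, 1⟩,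
  ⟨1, 12, 0, 0, 13, 0, 0, 0, (-1), 30, 0, 0, 1, 0⟩,
  ⟨1, 14, 0, 0, 15, 0, 0, 0, 1, 7, 0, 0, 1, 0⟩,
  ⟨1, 16, 0, 0, 17, 0, 0, 0, 1, 4, 0, 0, 1, 0⟩,
  ⟨1, 18, 0, 0, 19, 0, 0, 0, 1, 1, 0, 0, 1, 0⟩,
  ⟨1, 20, 0, 0, 21, 0, 0, 0, 1, 17, 0, 0, 1, 0⟩,
  ⟨1, 22, 0, 0, 23, 0, 0, 0, 1, 2, 0, 0, 1, 0⟩,
  ⟨1, 24, 0, 0, 25, 0, 0, 0, (-1), 21, 0, 0, 1, 0⟩,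
  ⟨1, 26, 0, 0, 27, 0, 0, 0, 1, 44, (-12), 12, 3, 1⟩,
  ⟨1, 28, 0, 0, 29, 0, 0, 0, (-1), 53, (-12), 12, 2, 1⟩,
  ⟨1, 30, 0, 0, 31, 0, 0, 0, 1, 76, 0, 12, 1, 0⟩,
  ⟨1, 32, 0, 0, 33, 0, 0, 0, (-1), 58, 0, 12, 1, 0⟩,
  ⟨1, 34, 0, 0, 35, 0, 0, 0, 1, 51, 0, 12, 1, 0⟩,
  ⟨1, 36, 0, 0, 37, 0, 0, 0, (-1), 69, 0, 12, 1, 0⟩,
  ⟨2, 1, 0, 0, 7, 0, 0, 0, 1, 74, 0, 12, 1, 0⟩,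
  ⟨2, 3, 0, 0, 9, 0, 0, 0, (-1), 72, 0, 12, 1, 0⟩,
  ⟨2, 5, 0, 0, 11, 0, 0, 0, 1, 49, 0, 12, 1, 0⟩,
  ⟨2, 7, 0, 0, 9, 1, 0, 0, (-1), 64, 0, 12, 1, 0⟩,
  ⟨2, 9, 0, 0, 11, 1, 0, 0, 1, 48, (-12), 12, 2, 1⟩,
  ⟨2, 11, 0, 0, 9, 2, 0, 0, (-1), 42, (-12), 12, 1, 1⟩,
  ⟨2, 11, 1, 1, 13, 0, 0, 0, (-1), 16, 0, 0, 1, 0⟩,
  ⟨2, 9, 2, 1, 15, 0, 0, 0, 1, 28, 0, 0, 1, 0⟩,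
  ⟨2, 11, 2, 1, 17, 0, 0, 0, (-1), 15, 0, 0, 1, 0⟩,
  ⟨2, 13, 0, 0, 19, 0, 0, 0, (-1), 11, 0, 0, 1, 0⟩,
  ⟨2, 15, 0, 0, 21, 0, 0, 0, 1, 6, 0, 0, 1, 0⟩,
  ⟨2, 17, 0, 0, 23, 0, 0, 0, 1, 12, 0, 0, 1, 0⟩,
  ⟨2, 19, 0, 0, 25, 0, 0, 0, 1, 13, 0, 0, 1, 0⟩,
  ⟨2, 21, 0, 0, 27, 2, 1, 0, 1, 5, 0, 0, 1, 0⟩,
  ⟨2, 23, 0, 0, 29, 1, 1, 0, (-1), 22, 0, 0, 1, 0⟩,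
  ⟨2, 25, 0, 0, 27, 1, 1, 0, 1, 23, 0, 0, 1, 0⟩,
  ⟨2, 27, 2, 0, 29, 0, 0, 0, (-1), 40, (-12), 12, 1, 1⟩,
  ⟨2, 29, 1, 0, 27, 0, 0, 0, 1, 46, (-12), 12, 1, 1⟩,
  ⟨2, 27, 0, 0, 33, 0, 0, 0, (-1), 54, 0, 12, 1, 0⟩,
  ⟨2, 29, 0, 0, 35, 0, 0, 0, 1, 50, 0, 12, 1, 0⟩,
  ⟨2, 27, 1, 0, 37, 0, 0, 0, (-1), 55, 0, 12, 1, 0⟩,
  ⟨2, 31, 0, 0, 5, 0, 0, 1, (-1), 68, 0, 12, 1, 0⟩,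
  ⟨2, 33, 0, 0, 3, 0, 0, 1, 1, 63, 0, 12, 1, 0⟩,
  ⟨2, 35, 0, 0, 1, 0, 0, 1, (-1), 65, 0, 12, 1, 0⟩,
  ⟨2, 37, 0, 0, 31, 0, 0, 0, 1, 71, 0, 12, 1, 0⟩]

theorem g3_2 (t : ℕ) : IsGraceful (genPetersen (26 + 4 * t) 3) :=
  sound (V := V3_2) (W := W3_2) (by decide +kernel) t

def V3_3 : List VP :=
  [⟨0, 0, 1, 0, 0, 0, 0, 1, 0⟩,
  ⟨1, 0, 1, 0, 69, 0, 12, 1, 0⟩,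
  ⟨0, 1, 1, 0, 66, 0, 12, 1, 0⟩,
  ⟨1, 1, 1, 0, 2, 0, 0, 1, 0⟩,
  ⟨0, 2, 1, 0, 9, 0, 0, 1, 0⟩,
  ⟨1, 2, 1, 0, 60, 0, 12, 1, 0⟩,
  ⟨0, 3, 1, 0, 62, 0, 12, 1, 0⟩,
  ⟨1, 3, 1, 0, 4, 0, 0, 1, 0⟩,
  ⟨0, 4, 2, 0, 15, 6, 0, 3, 1⟩,
  ⟨1, 4, 2, 0, 65, (-6), 12, 3, 1⟩,
  ⟨0, 5, 2, 0, 49, (-6), 12, 3, 1⟩,
  ⟨1, 5, 2, 0, 20, 6, 0, 3, 1⟩,
  ⟨0, 10, 1, 2, 50, 0, 6, 1, 0⟩,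
  ⟨1, 10, 1, 2, 30, 0, 6, 1, 0⟩,
  ⟨0, 11, 1, 2, 25, 0, 6, 1, 0⟩,
  ⟨1, 11, 1, 2, 44, 0, 6, 1, 0⟩,
  ⟨0, 12, 1, 2, 39, 0, 6, 1, 0⟩,
  ⟨1, 12, 1, 2, 47, 0, 6, 1, 0⟩,
  ⟨0, 13, 1, 2, 36, 0, 6, 1, 0⟩,
  ⟨1, 13, 1, 2, 24, 0, 6, 1, 0⟩,
  ⟨0, 18, (-2), 4, 46, (-6), 12, 3, 1⟩,
  ⟨1, 18, (-2), 4, 11, 6, 0, 3, 1⟩,
  ⟨0, 17, (-2), 4, 10, 6, 0, 2, 1⟩,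
  ⟨1, 17, (-2), 4, 54, (-6), 12, 2, 1⟩,
  ⟨0, 22, 1, 4, 68, 0, 12, 1, 0⟩,
  ⟨1, 22, 1, 4, 1, 0, 0, 1, 0⟩,
  ⟨0, 21, 1, 4, 7, 0, 0, 1, 0⟩,
  ⟨1, 21, 1, 4, 56, 0, 12, 1, 0⟩,
  ⟨0, 20, 1, 4, 55, 0, 12, 1, 0⟩,
  ⟨1, 20, 1, 4, 13, 0, 0, 1, 0⟩,
  ⟨0, 19, 1, 4, 3, 0, 0, 1, 0⟩,
  ⟨1, 19, 1, 4, 63, 0, 12, 1, 0⟩]

def W3_3 : List EP :=
  [⟨0, 0, 0, 0, 2, 0, 0, 0, (-1), 66, 0, 12, 1, 0⟩,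
  ⟨0, 2, 0, 0, 4, 0, 0, 0, 1, 57, 0, 12, 1, 0⟩,
  ⟨0, 4, 0, 0, 6, 0, 0, 0, (-1), 53, 0, 12, 1, 0⟩,
  ⟨0, 6, 0, 0, 8, 0, 0, 0, 1, 47, 0, 12, 1, 0⟩,
  ⟨0, 8, 0, 0, 10, 0, 0, 0, (-1), 34, (-12), 12, 3, 1⟩,
  ⟨0, 10, 0, 0, 8, 1, 0, 0, 1, 28, (-12), 12, 2, 1⟩,
  ⟨0, 10, 2, 1, 12, 0, 0, 0, (-1), 13, 0, 0, 1, 0⟩,
  ⟨0, 12, 0, 0, 14, 0, 0, 0, 1, 25, 0, 0, 1, 0⟩,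
  ⟨0, 14, 0, 0, 16, 0, 0, 0, (-1), 14, 0, 0, 1, 0⟩,
  ⟨0, 16, 0, 0, 18, 0, 0, 0, 1, 3, 0, 0, 1, 0⟩,
  ⟨0, 18, 0, 0, 20, 2, 1, 0, 1, 2, 0, 0, 1, 0⟩,
  ⟨0, 20, 1, 0, 22, 0, 0, 0, 1, 30, (-12), 12, 2, 1⟩,
  ⟨0, 22, 0, 0, 20, 0, 0, 0, (-1), 36, (-12), 12, 2, 1⟩,
  ⟨0, 20, 0, 0, 30, 0, 0, 0, 1, 43, 0, 12, 1, 0⟩,
  ⟨0, 24, 0, 0, 0, 0, 0, 1, 1, 68, 0, 12, 1, 0⟩,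
  ⟨0, 26, 0, 0, 24, 0, 0, 0, (-1), 61, 0, 12, 1, 0⟩,
  ⟨0, 28, 0, 0, 26, 0, 0, 0, 1, 48, 0, 12, 1, 0⟩,
  ⟨0, 30, 0, 0, 28, 0, 0, 0, (-1), 52, 0, 12, 1, 0⟩,
  ⟨1, 0, 0, 0, 1, 0, 0, 0, (-1), 69, 0, 12, 1, 0⟩,
  ⟨1, 2, 0, 0, 3, 0, 0, 0, 1, 64, 0, 12, 1, 0⟩,
  ⟨1, 4, 0, 0, 5, 0, 0, 0, (-1), 51, 0, 12, 1, 0⟩,
  ⟨1, 6, 0, 0, 7, 0, 0, 0, 1, 58, 0, 12, 1, 0⟩,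
  ⟨1, 8, 0, 0, 9, 0, 0, 0, (-1), 50, (-12), 12, 3, 1⟩,
  ⟨1, 10, 0, 0, 11, 0, 0, 0, 1, 29, (-12), 12, 3, 1⟩,
  ⟨1, 12, 0, 0, 13, 0, 0, 0, 1, 20, 0, 0, 1, 0⟩,
  ⟨1, 14, 0, 0, 15, 0, 0, 0, (-1), 19, 0, 0, 1, 0⟩,
  ⟨1, 16, 0, 0, 17, 0, 0, 0, (-1), 8, 0, 0, 1, 0⟩,
  ⟨1, 18, 0, 0, 19, 0, 0, 0, 1, 12, 0, 0, 1, 0⟩,
  ⟨1, 20, 0, 0, 21, 0, 0, 0, 1, 35, (-12), 12, 3, 1⟩,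
  ⟨1, 22, 0, 0, 23, 0, 0, 0, (-1), 44, (-12), 12, 2, 1⟩,
  ⟨1, 24, 0, 0, 25, 0, 0, 0, 1, 67, 0, 12, 1, 0⟩,
  ⟨1, 26, 0, 0, 27, 0, 0, 0, (-1), 49, 0, 12, 1, 0⟩,
  ⟨1, 28, 0, 0, 29, 0, 0, 0, 1, 42, 0, 12, 1, 0⟩,
  ⟨1, 30, 0, 0, 31, 0, 0, 0, (-1), 60, 0, 12, 1, 0⟩,
  ⟨2, 1, 0, 0, 7, 0, 0, 0, 1, 65, 0, 12, 1, 0⟩,
  ⟨2, 3, 0, 0, 9, 0, 0, 0, (-1), 63, 0, 12, 1, 0⟩,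
  ⟨2, 5, 0, 0, 11, 0, 0, 0, 1, 40, 0, 12, 1, 0⟩,
  ⟨2, 7, 0, 0, 9, 1, 0, 0, (-1), 55, 0, 12, 1, 0⟩,
  ⟨2, 9, 0, 0, 11, 1, 0, 0, 1, 39, (-12), 12, 2, 1⟩,
  ⟨2, 11, 0, 0, 9, 2, 0, 0, (-1), 33, (-12), 12, 1, 1⟩,
  ⟨2, 11, 1, 1, 13, 0, 0, 0, (-1), 4, 0, 0, 1, 0⟩,
  ⟨2, 9, 2, 1, 15, 0, 0, 0, 1, 9, 0, 0, 1, 0⟩,
  ⟨2, 11, 2, 1, 17, 0, 0, 0, (-1), 15, 0, 0, 1, 0⟩,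
  ⟨2, 13, 0, 0, 19, 0, 0, 0, 1, 6, 0, 0, 1, 0⟩,
  ⟨2, 15, 0, 0, 21, 2, 1, 0, 1, 21, 0, 0, 1, 0⟩,
  ⟨2, 17, 0, 0, 23, 1, 1, 0, (-1), 1, 0, 0, 1, 0⟩,
  ⟨2, 19, 0, 0, 21, 1, 1, 0, 1, 7, 0, 0, 1, 0⟩,
  ⟨2, 21, 2, 0, 23, 0, 0, 0, (-1), 31, (-12), 12, 1, 1⟩,
  ⟨2, 23, 1, 0, 21, 0, 0, 0, 1, 37, (-12), 12, 1, 1⟩,
  ⟨2, 21, 0, 0, 27, 0, 0, 0, (-1), 45, 0, 12, 1, 0⟩,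
  ⟨2, 23, 0, 0, 29, 0, 0, 0, 1, 41, 0, 12, 1, 0⟩,
  ⟨2, 21, 1, 0, 31, 0, 0, 0, (-1), 46, 0, 12, 1, 0⟩,
  ⟨2, 25, 0, 0, 5, 0, 0, 1, (-1), 59, 0, 12, 1, 0⟩,
  ⟨2, 27, 0, 0, 3, 0, 0, 1, 1, 54, 0, 12, 1, 0⟩,
  ⟨2, 29, 0, 0, 1, 0, 0, 1, (-1), 56, 0, 12, 1, 0⟩,
  ⟨2, 31, 0, 0, 25, 0, 0, 0, 1, 62, 0, 12, 1, 0⟩]

theorem g3_3 (t : ℕ) : IsGraceful (genPetersen (23 + 4 * t) 3) :=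
  sound (V := V3_3) (W := W3_3) (by decide +kernel) t

theorem s3_7 : IsGraceful (genPetersen 7 3) :=
  small_sound (U := [0, 20, 9, 14, 11, 4, 17])
    (V := [21, 5, 19, 2, 7, 13, 1])
    (D := [20, 11, 5, 3, 7, 13, 17, 21, 15, 10, 12, 4, 9, 16, 19, 2, 6, 1, 14, 8, 18]) (by decide +kernel)

theorem s3_8 : IsGraceful (genPetersen 8 3) :=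
  small_sound (U := [0, 23, 4, 12, 14, 19, 5, 22])
    (V := [24, 3, 16, 11, 10, 13, 21, 1])
    (D := [23, 19, 8, 2, 5, 14, 17, 22, 24, 20, 12, 1, 4, 6, 16, 21, 13, 7, 3, 10, 9, 11, 18, 15]) (by decide +kernel)

theorem s3_9 : IsGraceful (genPetersen 9 3) :=
  small_sound (U := [27, 3, 21, 6, 13, 16, 8, 24, 1])
    (V := [0, 25, 7, 5, 15, 20, 17, 4, 26])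
    (D := [24, 18, 15, 7, 3, 8, 16, 23, 26, 27, 22, 14, 1, 2, 4, 9, 20, 25, 5, 10, 13, 12, 11, 6, 17, 21, 19]) (by decide +kernel)

theorem s3_10 : IsGraceful (genPetersen 10 3) :=
  small_sound (U := [0, 27, 6, 22, 16, 18, 13, 24, 4, 30])
    (V := [29, 3, 21, 15, 28, 17, 5, 11, 26, 2])
    (D := [27, 21, 16, 6, 2, 5, 11, 20, 26, 30, 29, 24, 15, 7, 12, 1, 8, 13, 22, 28, 14, 25, 4, 10, 17, 9, 3, 18, 23, 19]) (by decide +kernel)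

theorem s3_11 : IsGraceful (genPetersen 11 3) :=
  small_sound (U := [0, 31, 6, 23, 7, 19, 21, 8, 26, 5, 32])
    (V := [33, 3, 25, 13, 11, 18, 24, 17, 4, 29, 2])
    (D := [31, 25, 17, 16, 12, 2, 13, 18, 21, 27, 32, 33, 28, 19, 10, 4, 1, 3, 9, 22, 24, 30, 20, 8, 7, 11, 6, 14, 5, 15, 29, 26, 23]) (by decide +kernel)

theorem s3_12 : IsGraceful (genPetersen 12 3) :=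
  small_sound (U := [0, 35, 6, 24, 7, 14, 9, 11, 5, 28, 3, 33])
    (V := [36, 4, 27, 2, 18, 23, 22, 19, 20, 12, 31, 1])
    (D := [35, 29, 18, 17, 7, 5, 2, 6, 23, 25, 30, 33, 36, 31, 21, 22, 11, 9, 13, 8, 15, 16, 28, 32, 34, 14, 4, 20, 1, 3, 10, 12, 19, 24, 27, 26]) (by decide +kernel)

theorem s3_13 : IsGraceful (genPetersen 13 3) :=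
  small_sound (U := [0, 38, 8, 32, 14, 7, 11, 30, 27, 10, 33, 4, 37])
    (V := [39, 3, 29, 5, 25, 21, 17, 15, 22, 26, 13, 35, 1])
    (D := [38, 30, 24, 18, 7, 4, 19, 3, 17, 23, 29, 33, 37, 39, 35, 21, 27, 11, 14, 6, 15, 5, 16, 20, 31, 36, 34, 22, 8, 12, 10, 1, 9, 2, 13, 25, 26, 32, 28]) (by decide +kernel)

theorem s3_14 : IsGraceful (genPetersen 14 3) :=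
  small_sound (U := [0, 41, 7, 36, 15, 33, 18, 8, 25, 2, 13, 38, 6, 42])
    (V := [40, 4, 34, 14, 24, 29, 20, 11, 17, 1, 27, 10, 39, 3])
    (D := [41, 34, 29, 21, 18, 15, 10, 17, 23, 11, 25, 32, 36, 42, 40, 37, 27, 22, 9, 4, 2, 3, 8, 1, 14, 28, 33, 39, 26, 20, 5, 6, 13, 12, 19, 16, 7, 38, 24, 30, 35, 31]) (by decide +kernel)

theorem s3_15 : IsGraceful (genPetersen 15 3) :=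
  small_sound (U := [45, 4, 40, 8, 36, 16, 32, 18, 22, 27, 10, 39, 9, 43, 1])
    (V := [0, 41, 5, 31, 15, 24, 30, 25, 11, 42, 28, 17, 33, 3, 44])
    (D := [41, 36, 32, 28, 20, 16, 14, 4, 5, 17, 29, 30, 34, 42, 44, 45, 37, 35, 23, 21, 8, 2, 7, 11, 15, 18, 22, 24, 40, 43, 31, 26, 19, 1, 10, 13, 12, 3, 6, 9, 25, 27, 33, 38, 39]) (by decide +kernel)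

theorem s3_16 : IsGraceful (genPetersen 16 3) :=
  small_sound (U := [0, 48, 8, 44, 16, 39, 21, 32, 25, 24, 9, 33, 6, 41, 3, 46])
    (V := [47, 4, 40, 14, 30, 18, 31, 38, 22, 19, 29, 20, 35, 10, 45, 1])
    (D := [48, 40, 36, 28, 23, 18, 11, 7, 1, 15, 24, 27, 35, 38, 43, 46, 47, 44, 32, 30, 14, 21, 10, 6, 3, 5, 20, 13, 29, 31, 42, 45, 33, 26, 22, 17, 8, 4, 12, 9, 2, 16, 19, 25, 34, 37, 41, 39]) (by decide +kernel)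

theorem s3_17 : IsGraceful (genPetersen 17 3) :=
  small_sound (U := [0, 46, 3, 41, 15, 40, 16, 24, 30, 34, 25, 5, 35, 6, 39, 4, 51])
    (V := [50, 1, 42, 13, 49, 19, 31, 36, 20, 29, 22, 27, 18, 38, 8, 45, 2])
    (D := [46, 43, 38, 26, 25, 24, 8, 6, 4, 9, 20, 30, 29, 33, 35, 47, 51, 50, 45, 39, 28, 34, 21, 15, 12, 10, 5, 3, 22, 17, 32, 31, 41, 49, 37, 48, 23, 18, 13, 1, 2, 14, 7, 11, 16, 19, 27, 36, 42, 44, 40]) (by decide +kernel)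

theorem s3_18 : IsGraceful (genPetersen 18 3) :=
  small_sound (U := [0, 50, 4, 43, 6, 42, 17, 37, 31, 44, 29, 47, 26, 52, 18, 48, 5, 54])
    (V := [51, 2, 46, 11, 35, 19, 33, 25, 38, 30, 20, 36, 34, 21, 53, 10, 49, 1])
    (D := [50, 46, 39, 37, 36, 25, 20, 6, 13, 15, 18, 21, 26, 34, 30, 43, 49, 54, 51, 48, 42, 32, 29, 23, 16, 12, 7, 14, 9, 11, 8, 31, 35, 38, 44, 53, 40, 33, 27, 22, 10, 19, 3, 5, 2, 4, 1, 17, 24, 28, 52, 41, 47, 45]) (by decide +kernel)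

theorem s3_19 : IsGraceful (genPetersen 19 3) :=
  small_sound (U := [57, 3, 50, 5, 43, 10, 42, 23, 28, 30, 22, 36, 13, 39, 9, 45, 4, 52, 1])
    (V := [0, 55, 7, 44, 18, 41, 20, 6, 32, 33, 12, 21, 34, 19, 37, 16, 46, 2, 56])
    (D := [54, 47, 45, 38, 33, 32, 19, 5, 2, 8, 14, 23, 26, 30, 36, 41, 48, 51, 56, 57, 52, 43, 39, 25, 31, 22, 17, 4, 3, 10, 15, 21, 20, 28, 29, 42, 50, 55, 44, 37, 34, 24, 12, 9, 13, 6, 11, 1, 7, 16, 18, 27, 35, 40, 46, 53, 49]) (by decide +kernel)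

theorem s3_20 : IsGraceful (genPetersen 20 3) :=
  small_sound (U := [0, 59, 8, 57, 16, 50, 14, 42, 24, 32, 27, 12, 11, 40, 9, 44, 6, 52, 4, 58])
    (V := [60, 3, 51, 15, 43, 18, 38, 22, 34, 26, 20, 21, 30, 23, 35, 19, 45, 5, 56, 1])
    (D := [59, 51, 49, 41, 34, 36, 28, 18, 8, 5, 15, 1, 29, 31, 35, 38, 46, 48, 54, 58, 60, 56, 43, 42, 27, 32, 24, 20, 10, 6, 7, 9, 19, 17, 26, 25, 39, 47, 52, 57, 45, 40, 33, 23, 21, 16, 12, 2, 13, 4, 3, 14, 11, 22, 30, 37, 44, 55, 53, 50]) (by decide +kernel)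

theorem s3_21 : IsGraceful (genPetersen 21 3) :=
  small_sound (U := [0, 57, 5, 59, 19, 51, 22, 50, 28, 43, 25, 31, 38, 58, 35, 9, 54, 18, 61, 3, 63])
    (V := [62, 1, 53, 15, 60, 20, 49, 36, 7, 39, 27, 26, 55, 16, 23, 47, 17, 48, 12, 56, 2])
    (D := [57, 52, 54, 40, 32, 29, 28, 22, 15, 18, 6, 7, 20, 23, 26, 45, 36, 43, 58, 60, 63, 62, 56, 48, 44, 41, 31, 27, 14, 21, 4, 2, 5, 17, 42, 12, 38, 37, 30, 49, 53, 61, 47, 59, 33, 34, 24, 13, 10, 9, 19, 16, 11, 3, 8, 1, 25, 35, 39, 46, 50, 55, 51]) (by decide +kernel)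

theorem s3_22 : IsGraceful (genPetersen 22 3) :=
  small_sound (U := [0, 63, 5, 60, 11, 52, 15, 41, 19, 37, 31, 23, 21, 34, 9, 47, 13, 53, 8, 59, 3, 65])
    (V := [66, 2, 58, 14, 50, 16, 44, 22, 39, 28, 36, 40, 17, 24, 33, 20, 45, 18, 51, 12, 62, 1])
    (D := [63, 58, 55, 49, 41, 37, 26, 22, 18, 6, 8, 2, 13, 25, 38, 34, 40, 45, 51, 56, 62, 65, 66, 61, 53, 46, 39, 36, 29, 19, 20, 9, 5, 17, 4, 10, 24, 27, 32, 35, 43, 47, 59, 64, 52, 48, 42, 30, 28, 23, 16, 14, 1, 11, 12, 7, 3, 21, 15, 31, 33, 44, 50, 54, 60, 57]) (by decide +kernel)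

/-- `P(n,3)` is graceful for all `n > 6` -/
theorem gp3 (n : ℕ) (h : 6 < n) : IsGraceful (genPetersen n 3) := by
  have hr : n % 4 = 0 ∨ n % 4 = 1 ∨ n % 4 = 2 ∨ n % 4 = 3 := by omega
  rcases hr with hr | hr | hr | hr
  · by_cases h0 : 24 ≤ n
    · obtain ⟨t, rfl⟩ : ∃ t, n = 24 + 4 * t := ⟨(n - 24) / 4, by omega⟩
      exact g3_0 t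
    · have h1 : n = 8 ∨ n = 12 ∨ n = 16 ∨ n = 20 := by omega
      rcases h1 with rfl | rfl | rfl | rfl
      · exact s3_8
      · exact s3_12
      · exact s3_16
      · exact s3_20
  · by_cases h0 : 25 ≤ n
    · obtain ⟨t, rfl⟩ : ∃ t, n = 25 + 4 * t := ⟨(n - 25) / 4, by omega⟩
      exact g3_1 t
    · have h1 : n = 9 ∨ n = 13 ∨ n = 17 ∨ n = 21 := by omega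
      rcases h1 with rfl | rfl | rfl | rfl
      · exact s3_9
      · exact s3_13
      · exact s3_17
      · exact s3_21
  · by_cases h0 : 26 ≤ n
    · obtain ⟨t, rfl⟩ : ∃ t, n = 26 + 4 * t := ⟨(n - 26) / 4, by omega⟩
      exact g3_2 t
    · have h1 : n = 10 ∨ n = 14 ∨ n = 18 ∨ n = 22 := by omega
      rcases h1 with rfl | rfl | rfl | rfl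
      · exact s3_10
      · exact s3_14
      · exact s3_18
      · exact s3_22
  · by_cases h0 : 23 ≤ n
    · obtain ⟨t, rfl⟩ : ∃ t, n = 23 + 4 * t := ⟨(n - 23) / 4, by omega⟩
      exact g3_3 t
    · have h1 : n = 7 ∨ n = 11 ∨ n = 15 ∨ n = 19 := by omega
      rcases h1 with rfl | rfl | rfl | rfl
      · exact s3_7
      · exact s3_11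
      · exact s3_15
      · exact s3_19

end Pool.Agent.Helper40.GP
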