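import Pool.Agent.Helper40.GPChk

/-!
# Labellings of `P(n,5)`
-/

set_option autoImplicit false
set_option maxRecDepth 100000

namespace Pool.Agent.Helper40.GP

open Pool.Agent.Helper20.Graceful

def V5_0 : List VP :=
  [⟨0, 0, 1, 0, 0, 0, 0, 1, 0⟩,
  ⟨1, 0, 1, 0, 96, 0, 12, 1, 0⟩,
  ⟨0, 1, 1, 0, 93, 0, 12, 1, 0⟩,
  ⟨1, 1, 1, 0, 4, 0, 0, 1, 0⟩,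
  ⟨0, 2, 1, 0, 2, 0, 0, 1, 0⟩,
  ⟨1, 2, 1, 0, 88, 0, 12, 1, 0⟩,
  ⟨0, 3, 1, 0, 82, 0, 12, 1, 0⟩,
  ⟨1, 3, 1, 0, 11, 0, 0, 1, 0⟩,
  ⟨0, 4, 2, 0, 9, 6, 0, 4, 1⟩,
  ⟨1, 4, 2, 0, 91, (-6), 12, 4, 1⟩,
  ⟨0, 5, 2, 0, 70, (-6), 12, 3, 1⟩,
  ⟨1, 5, 2, 0, 19, 6, 0, 3, 1⟩,
  ⟨0, 11, 1, 2, 71, 0, 6, 1, 0⟩,
  ⟨1, 11, 1, 2, 37, 0, 6, 1, 0⟩,
  ⟨0, 12, 1, 2, 33, 0, 6, 1, 0⟩,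
  ⟨1, 12, 1, 2, 55, 0, 6, 1, 0⟩,
  ⟨0, 13, 1, 2, 61, 0, 6, 1, 0⟩,
  ⟨1, 13, 1, 2, 54, 0, 6, 1, 0⟩,
  ⟨0, 14, 1, 2, 43, 0, 6, 1, 0⟩,
  ⟨1, 14, 1, 2, 28, 0, 6, 1, 0⟩,
  ⟨0, 15, 1, 2, 39, 0, 6, 1, 0⟩,
  ⟨1, 15, 1, 2, 65, 0, 6, 1, 0⟩,
  ⟨0, 16, 1, 2, 29, 0, 6, 1, 0⟩,
  ⟨1, 16, 1, 2, 38, 0, 6, 1, 0⟩,
  ⟨0, 17, 1, 2, 52, 0, 6, 1, 0⟩,
  ⟨1, 17, 1, 2, 68, 0, 6, 1, 0⟩,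
  ⟨0, 18, 1, 2, 35, 0, 6, 1, 0⟩,
  ⟨1, 18, 1, 2, 49, 0, 6, 1, 0⟩,
  ⟨0, 19, 1, 2, 59, 0, 6, 1, 0⟩,
  ⟨1, 19, 1, 2, 48, 0, 6, 1, 0⟩,
  ⟨0, 20, 1, 2, 17, 0, 6, 1, 0⟩,
  ⟨1, 20, 1, 2, 53, 0, 6, 1, 0⟩,
  ⟨0, 27, (-2), 4, 75, (-6), 12, 4, 1⟩,
  ⟨1, 27, (-2), 4, 18, 6, 0, 4, 1⟩,
  ⟨0, 26, (-2), 4, 10, 6, 0, 3, 1⟩,
  ⟨1, 26, (-2), 4, 86, (-6), 12, 3, 1⟩,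
  ⟨0, 31, 1, 4, 95, 0, 12, 1, 0⟩,
  ⟨1, 31, 1, 4, 1, 0, 0, 1, 0⟩,
  ⟨0, 30, 1, 4, 3, 0, 0, 1, 0⟩,
  ⟨1, 30, 1, 4, 90, 0, 12, 1, 0⟩,
  ⟨0, 29, 1, 4, 77, 0, 12, 1, 0⟩,
  ⟨1, 29, 1, 4, 5, 0, 0, 1, 0⟩,
  ⟨0, 28, 1, 4, 8, 0, 0, 1, 0⟩,
  ⟨1, 28, 1, 4, 92, 0, 12, 1, 0⟩]

def W5_0 : List EP :=
  [⟨0, 0, 0, 0, 2, 0, 0, 0, (-1), 93, 0, 12, 1, 0⟩,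
  ⟨0, 2, 0, 0, 4, 0, 0, 0, 1, 91, 0, 12, 1, 0⟩,
  ⟨0, 4, 0, 0, 6, 0, 0, 0, (-1), 80, 0, 12, 1, 0⟩,
  ⟨0, 6, 0, 0, 8, 0, 0, 0, 1, 73, 0, 12, 1, 0⟩,
  ⟨0, 8, 0, 0, 10, 0, 0, 0, (-1), 61, (-12), 12, 3, 1⟩,
  ⟨0, 10, 0, 0, 8, 1, 0, 0, 1, 55, (-12), 12, 3, 1⟩,
  ⟨0, 8, 3, 1, 12, 0, 0, 0, (-1), 44, 0, 0, 1, 0⟩,
  ⟨0, 12, 0, 0, 14, 0, 0, 0, 1, 38, 0, 0, 1, 0⟩,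
  ⟨0, 14, 0, 0, 16, 0, 0, 0, (-1), 28, 0, 0, 1, 0⟩,
  ⟨0, 16, 0, 0, 18, 0, 0, 0, 1, 18, 0, 0, 1, 0⟩,
  ⟨0, 18, 0, 0, 20, 0, 0, 0, 1, 4, 0, 0, 1, 0⟩,
  ⟨0, 20, 0, 0, 22, 0, 0, 0, 1, 10, 0, 0, 1, 0⟩,
  ⟨0, 22, 0, 0, 24, 0, 0, 0, (-1), 23, 0, 0, 1, 0⟩,
  ⟨0, 24, 0, 0, 26, 0, 0, 0, 1, 17, 0, 0, 1, 0⟩,
  ⟨0, 26, 0, 0, 28, 0, 0, 0, (-1), 24, 0, 0, 1, 0⟩,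
  ⟨0, 28, 0, 0, 30, 0, 0, 0, 1, 42, 0, 0, 1, 0⟩,
  ⟨0, 30, 0, 0, 32, 3, 1, 0, (-1), 40, 0, 0, 1, 0⟩,
  ⟨0, 32, 1, 0, 34, 0, 0, 0, 1, 59, (-12), 12, 3, 1⟩,
  ⟨0, 34, 0, 0, 32, 0, 0, 0, (-1), 65, (-12), 12, 3, 1⟩,
  ⟨0, 32, 0, 0, 42, 0, 0, 0, 1, 67, 0, 12, 1, 0⟩,
  ⟨0, 36, 0, 0, 0, 0, 0, 1, 1, 95, 0, 12, 1, 0⟩,
  ⟨0, 38, 0, 0, 36, 0, 0, 0, (-1), 92, 0, 12, 1, 0⟩,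
  ⟨0, 40, 0, 0, 38, 0, 0, 0, 1, 74, 0, 12, 1, 0⟩,
  ⟨0, 42, 0, 0, 40, 0, 0, 0, (-1), 69, 0, 12, 1, 0⟩,
  ⟨1, 0, 0, 0, 1, 0, 0, 0, (-1), 96, 0, 12, 1, 0⟩,
  ⟨1, 2, 0, 0, 3, 0, 0, 0, 1, 89, 0, 12, 1, 0⟩,
  ⟨1, 4, 0, 0, 5, 0, 0, 0, (-1), 86, 0, 12, 1, 0⟩,
  ⟨1, 6, 0, 0, 7, 0, 0, 0, 1, 71, 0, 12, 1, 0⟩,
  ⟨1, 8, 0, 0, 9, 0, 0, 0, (-1), 82, (-12), 12, 4, 1⟩,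
  ⟨1, 10, 0, 0, 11, 0, 0, 0, 1, 51, (-12), 12, 3, 1⟩,
  ⟨1, 12, 0, 0, 13, 0, 0, 0, 1, 34, 0, 0, 1, 0⟩,
  ⟨1, 14, 0, 0, 15, 0, 0, 0, (-1), 22, 0, 0, 1, 0⟩,
  ⟨1, 16, 0, 0, 17, 0, 0, 0, 1, 7, 0, 0, 1, 0⟩,
  ⟨1, 18, 0, 0, 19, 0, 0, 0, 1, 15, 0, 0, 1, 0⟩,
  ⟨1, 20, 0, 0, 21, 0, 0, 0, (-1), 26, 0, 0, 1, 0⟩,
  ⟨1, 22, 0, 0, 23, 0, 0, 0, (-1), 9, 0, 0, 1, 0⟩,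
  ⟨1, 24, 0, 0, 25, 0, 0, 0, (-1), 16, 0, 0, 1, 0⟩,
  ⟨1, 26, 0, 0, 27, 0, 0, 0, (-1), 14, 0, 0, 1, 0⟩,
  ⟨1, 28, 0, 0, 29, 0, 0, 0, 1, 11, 0, 0, 1, 0⟩,
  ⟨1, 30, 0, 0, 31, 0, 0, 0, (-1), 36, 0, 0, 1, 0⟩,
  ⟨1, 32, 0, 0, 33, 0, 0, 0, 1, 57, (-12), 12, 4, 1⟩,
  ⟨1, 34, 0, 0, 35, 0, 0, 0, (-1), 76, (-12), 12, 3, 1⟩,
  ⟨1, 36, 0, 0, 37, 0, 0, 0, 1, 94, 0, 12, 1, 0⟩,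
  ⟨1, 38, 0, 0, 39, 0, 0, 0, (-1), 87, 0, 12, 1, 0⟩,
  ⟨1, 40, 0, 0, 41, 0, 0, 0, 1, 72, 0, 12, 1, 0⟩,
  ⟨1, 42, 0, 0, 43, 0, 0, 0, (-1), 84, 0, 12, 1, 0⟩,
  ⟨2, 1, 0, 0, 11, 0, 0, 0, 1, 77, 0, 12, 1, 0⟩,
  ⟨2, 3, 0, 0, 9, 1, 0, 0, (-1), 81, 0, 12, 1, 0⟩,
  ⟨2, 5, 0, 0, 11, 1, 0, 0, 1, 63, 0, 12, 1, 0⟩,
  ⟨2, 7, 0, 0, 9, 2, 0, 0, (-1), 68, 0, 12, 1, 0⟩,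
  ⟨2, 9, 0, 0, 11, 2, 0, 0, 1, 60, (-12), 12, 1, 1⟩,
  ⟨2, 11, 0, 0, 9, 3, 0, 0, (-1), 54, (-12), 12, 1, 1⟩,
  ⟨2, 9, 1, 1, 13, 0, 0, 0, 1, 48, 0, 0, 1, 0⟩,
  ⟨2, 11, 1, 1, 15, 0, 0, 0, (-1), 30, 0, 0, 1, 0⟩,
  ⟨2, 9, 2, 1, 17, 0, 0, 0, 1, 25, 0, 0, 1, 0⟩,
  ⟨2, 11, 2, 1, 19, 0, 0, 0, 1, 3, 0, 0, 1, 0⟩,
  ⟨2, 9, 3, 1, 21, 0, 0, 0, 1, 8, 0, 0, 1, 0⟩,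
  ⟨2, 13, 0, 0, 23, 0, 0, 0, (-1), 1, 0, 0, 1, 0⟩,
  ⟨2, 15, 0, 0, 25, 0, 0, 0, (-1), 13, 0, 0, 1, 0⟩,
  ⟨2, 17, 0, 0, 27, 0, 0, 0, 1, 5, 0, 0, 1, 0⟩,
  ⟨2, 19, 0, 0, 29, 0, 0, 0, (-1), 20, 0, 0, 1, 0⟩,
  ⟨2, 21, 0, 0, 31, 0, 0, 0, 1, 12, 0, 0, 1, 0⟩,
  ⟨2, 23, 0, 0, 33, 3, 1, 0, 1, 2, 0, 0, 1, 0⟩,
  ⟨2, 25, 0, 0, 35, 2, 1, 0, (-1), 6, 0, 0, 1, 0⟩,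
  ⟨2, 27, 0, 0, 33, 2, 1, 0, 1, 19, 0, 0, 1, 0⟩,
  ⟨2, 29, 0, 0, 35, 1, 1, 0, (-1), 32, 0, 0, 1, 0⟩,
  ⟨2, 31, 0, 0, 33, 1, 1, 0, 1, 29, 0, 0, 1, 0⟩,
  ⟨2, 33, 3, 0, 35, 0, 0, 0, (-1), 50, (-12), 12, 1, 1⟩,
  ⟨2, 35, 2, 0, 33, 0, 0, 0, 1, 56, (-12), 12, 1, 1⟩,
  ⟨2, 33, 0, 0, 1, 0, 0, 1, (-1), 78, 0, 12, 1, 0⟩,
  ⟨2, 35, 0, 0, 37, 0, 0, 0, 1, 85, 0, 12, 1, 0⟩,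
  ⟨2, 33, 1, 0, 39, 0, 0, 0, (-1), 66, 0, 12, 1, 0⟩,
  ⟨2, 35, 1, 0, 41, 0, 0, 0, 1, 75, 0, 12, 1, 0⟩,
  ⟨2, 33, 2, 0, 43, 0, 0, 0, (-1), 62, 0, 12, 1, 0⟩,
  ⟨2, 37, 0, 0, 9, 0, 0, 1, (-1), 90, 0, 12, 1, 0⟩,
  ⟨2, 39, 0, 0, 7, 0, 0, 1, 1, 79, 0, 12, 1, 0⟩,
  ⟨2, 41, 0, 0, 5, 0, 0, 1, (-1), 83, 0, 12, 1, 0⟩,
  ⟨2, 43, 0, 0, 3, 0, 0, 1, 1, 88, 0, 12, 1, 0⟩]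

theorem g5_0 (t : ℕ) : IsGraceful (genPetersen (32 + 4 * t) 5) :=
  sound (V := V5_0) (W := W5_0) (by decide +kernel) t

def V5_1 : List VP :=
  [⟨0, 0, 1, 0, 0, 0, 0, 1, 0⟩,
  ⟨1, 0, 1, 0, 87, 0, 12, 1, 0⟩,
  ⟨0, 1, 1, 0, 84, 0, 12, 1, 0⟩,
  ⟨1, 1, 1, 0, 4, 0, 0, 1, 0⟩,
  ⟨0, 2, 1, 0, 2, 0, 0, 1, 0⟩,
  ⟨1, 2, 1, 0, 79, 0, 12, 1, 0⟩,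
  ⟨0, 3, 1, 0, 73, 0, 12, 1, 0⟩,
  ⟨1, 3, 1, 0, 11, 0, 0, 1, 0⟩,
  ⟨0, 4, 2, 0, 9, 6, 0, 4, 1⟩,
  ⟨1, 4, 2, 0, 82, (-6), 12, 4, 1⟩,
  ⟨0, 5, 2, 0, 61, (-6), 12, 4, 1⟩,
  ⟨1, 5, 2, 0, 19, 6, 0, 4, 1⟩,
  ⟨0, 12, 1, 2, 26, 0, 6, 1, 0⟩,
  ⟨1, 12, 1, 2, 40, 0, 6, 1, 0⟩,
  ⟨0, 13, 1, 2, 53, 0, 6, 1, 0⟩,
  ⟨1, 13, 1, 2, 45, 0, 6, 1, 0⟩,
  ⟨0, 14, 1, 2, 32, 0, 6, 1, 0⟩,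
  ⟨1, 14, 1, 2, 42, 0, 6, 1, 0⟩,
  ⟨0, 15, 1, 2, 39, 0, 6, 1, 0⟩,
  ⟨1, 15, 1, 2, 35, 0, 6, 1, 0⟩,
  ⟨0, 16, 1, 2, 41, 0, 6, 1, 0⟩,
  ⟨1, 16, 1, 2, 38, 0, 6, 1, 0⟩,
  ⟨0, 24, (-2), 4, 66, (-6), 12, 4, 1⟩,
  ⟨1, 24, (-2), 4, 18, 6, 0, 4, 1⟩,
  ⟨0, 23, (-2), 4, 10, 6, 0, 4, 1⟩,
  ⟨1, 23, (-2), 4, 77, (-6), 12, 4, 1⟩,
  ⟨0, 28, 1, 4, 86, 0, 12, 1, 0⟩,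
  ⟨1, 28, 1, 4, 1, 0, 0, 1, 0⟩,
  ⟨0, 27, 1, 4, 3, 0, 0, 1, 0⟩,
  ⟨1, 27, 1, 4, 81, 0, 12, 1, 0⟩,
  ⟨0, 26, 1, 4, 68, 0, 12, 1, 0⟩,
  ⟨1, 26, 1, 4, 5, 0, 0, 1, 0⟩,
  ⟨0, 25, 1, 4, 8, 0, 0, 1, 0⟩,
  ⟨1, 25, 1, 4, 83, 0, 12, 1, 0⟩]

def W5_1 : List EP :=
  [⟨0, 0, 0, 0, 2, 0, 0, 0, (-1), 84, 0, 12, 1, 0⟩,
  ⟨0, 2, 0, 0, 4, 0, 0, 0, 1, 82, 0, 12, 1, 0⟩,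
  ⟨0, 4, 0, 0, 6, 0, 0, 0, (-1), 71, 0, 12, 1, 0⟩,
  ⟨0, 6, 0, 0, 8, 0, 0, 0, 1, 64, 0, 12, 1, 0⟩,
  ⟨0, 8, 0, 0, 10, 0, 0, 0, (-1), 52, (-12), 12, 4, 1⟩,
  ⟨0, 10, 0, 0, 8, 1, 0, 0, 1, 46, (-12), 12, 3, 1⟩,
  ⟨0, 10, 3, 1, 12, 0, 0, 0, 1, 17, 0, 0, 1, 0⟩,
  ⟨0, 12, 0, 0, 14, 0, 0, 0, (-1), 27, 0, 0, 1, 0⟩,
  ⟨0, 14, 0, 0, 16, 0, 0, 0, 1, 21, 0, 0, 1, 0⟩,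
  ⟨0, 16, 0, 0, 18, 0, 0, 0, (-1), 7, 0, 0, 1, 0⟩,
  ⟨0, 18, 0, 0, 20, 0, 0, 0, (-1), 2, 0, 0, 1, 0⟩,
  ⟨0, 20, 0, 0, 24, 3, 1, 0, 1, 13, 0, 0, 1, 0⟩,
  ⟨0, 22, 1, 0, 24, 0, 0, 0, 1, 50, (-12), 12, 3, 1⟩,
  ⟨0, 24, 0, 0, 22, 0, 0, 0, (-1), 56, (-12), 12, 4, 1⟩,
  ⟨0, 22, 0, 0, 32, 0, 0, 0, 1, 58, 0, 12, 1, 0⟩,
  ⟨0, 26, 0, 0, 0, 0, 0, 1, 1, 86, 0, 12, 1, 0⟩,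
  ⟨0, 28, 0, 0, 26, 0, 0, 0, (-1), 83, 0, 12, 1, 0⟩,
  ⟨0, 30, 0, 0, 28, 0, 0, 0, 1, 65, 0, 12, 1, 0⟩,
  ⟨0, 32, 0, 0, 30, 0, 0, 0, (-1), 60, 0, 12, 1, 0⟩,
  ⟨1, 0, 0, 0, 1, 0, 0, 0, (-1), 87, 0, 12, 1, 0⟩,
  ⟨1, 2, 0, 0, 3, 0, 0, 0, 1, 80, 0, 12, 1, 0⟩,
  ⟨1, 4, 0, 0, 5, 0, 0, 0, (-1), 77, 0, 12, 1, 0⟩,
  ⟨1, 6, 0, 0, 7, 0, 0, 0, 1, 62, 0, 12, 1, 0⟩,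
  ⟨1, 8, 0, 0, 9, 0, 0, 0, (-1), 73, (-12), 12, 4, 1⟩,
  ⟨1, 10, 0, 0, 11, 0, 0, 0, 1, 42, (-12), 12, 4, 1⟩,
  ⟨1, 12, 0, 0, 13, 0, 0, 0, (-1), 14, 0, 0, 1, 0⟩,
  ⟨1, 14, 0, 0, 15, 0, 0, 0, 1, 8, 0, 0, 1, 0⟩,
  ⟨1, 16, 0, 0, 17, 0, 0, 0, (-1), 10, 0, 0, 1, 0⟩,
  ⟨1, 18, 0, 0, 19, 0, 0, 0, 1, 4, 0, 0, 1, 0⟩,
  ⟨1, 20, 0, 0, 21, 0, 0, 0, 1, 3, 0, 0, 1, 0⟩,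
  ⟨1, 22, 0, 0, 23, 0, 0, 0, 1, 48, (-12), 12, 4, 1⟩,
  ⟨1, 24, 0, 0, 25, 0, 0, 0, (-1), 67, (-12), 12, 4, 1⟩,
  ⟨1, 26, 0, 0, 27, 0, 0, 0, 1, 85, 0, 12, 1, 0⟩,
  ⟨1, 28, 0, 0, 29, 0, 0, 0, (-1), 78, 0, 12, 1, 0⟩,
  ⟨1, 30, 0, 0, 31, 0, 0, 0, 1, 63, 0, 12, 1, 0⟩,
  ⟨1, 32, 0, 0, 33, 0, 0, 0, (-1), 75, 0, 12, 1, 0⟩,
  ⟨2, 1, 0, 0, 11, 0, 0, 0, 1, 68, 0, 12, 1, 0⟩,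
  ⟨2, 3, 0, 0, 9, 1, 0, 0, (-1), 72, 0, 12, 1, 0⟩,
  ⟨2, 5, 0, 0, 11, 1, 0, 0, 1, 54, 0, 12, 1, 0⟩,
  ⟨2, 7, 0, 0, 9, 2, 0, 0, (-1), 59, 0, 12, 1, 0⟩,
  ⟨2, 9, 0, 0, 11, 2, 0, 0, 1, 51, (-12), 12, 2, 1⟩,
  ⟨2, 11, 0, 0, 9, 3, 0, 0, (-1), 45, (-12), 12, 1, 1⟩,
  ⟨2, 11, 1, 1, 13, 0, 0, 0, (-1), 15, 0, 0, 1, 0⟩,
  ⟨2, 9, 2, 1, 15, 0, 0, 0, 1, 25, 0, 0, 1, 0⟩,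
  ⟨2, 11, 2, 1, 17, 0, 0, 0, (-1), 11, 0, 0, 1, 0⟩,
  ⟨2, 9, 3, 1, 19, 0, 0, 0, 1, 29, 0, 0, 1, 0⟩,
  ⟨2, 11, 3, 1, 21, 0, 0, 0, (-1), 1, 0, 0, 1, 0⟩,
  ⟨2, 13, 0, 0, 25, 3, 1, 0, (-1), 19, 0, 0, 1, 0⟩,
  ⟨2, 15, 0, 0, 23, 3, 1, 0, 1, 9, 0, 0, 1, 0⟩,
  ⟨2, 17, 0, 0, 25, 2, 1, 0, (-1), 23, 0, 0, 1, 0⟩,
  ⟨2, 19, 0, 0, 23, 2, 1, 0, 1, 5, 0, 0, 1, 0⟩,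
  ⟨2, 21, 0, 0, 25, 1, 1, 0, (-1), 33, 0, 0, 1, 0⟩,
  ⟨2, 23, 3, 0, 25, 0, 0, 0, (-1), 41, (-12), 12, 1, 1⟩,
  ⟨2, 25, 2, 0, 23, 0, 0, 0, 1, 47, (-12), 12, 2, 1⟩,
  ⟨2, 23, 0, 0, 1, 0, 0, 1, (-1), 69, 0, 12, 1, 0⟩,
  ⟨2, 25, 0, 0, 27, 0, 0, 0, 1, 76, 0, 12, 1, 0⟩,
  ⟨2, 23, 1, 0, 29, 0, 0, 0, (-1), 57, 0, 12, 1, 0⟩,
  ⟨2, 25, 1, 0, 31, 0, 0, 0, 1, 66, 0, 12, 1, 0⟩,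
  ⟨2, 23, 2, 0, 33, 0, 0, 0, (-1), 53, 0, 12, 1, 0⟩,
  ⟨2, 27, 0, 0, 9, 0, 0, 1, (-1), 81, 0, 12, 1, 0⟩,
  ⟨2, 29, 0, 0, 7, 0, 0, 1, 1, 70, 0, 12, 1, 0⟩,
  ⟨2, 31, 0, 0, 5, 0, 0, 1, (-1), 74, 0, 12, 1, 0⟩,
  ⟨2, 33, 0, 0, 3, 0, 0, 1, 1, 79, 0, 12, 1, 0⟩]

theorem g5_1 (t : ℕ) : IsGraceful (genPetersen (29 + 4 * t) 5) :=
  sound (V := V5_1) (W := W5_1) (by decide +kernel) t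

def V5_2 : List VP :=
  [⟨0, 0, 1, 0, 0, 0, 0, 1, 0⟩,
  ⟨1, 0, 1, 0, 90, 0, 12, 1, 0⟩,
  ⟨0, 1, 1, 0, 87, 0, 12, 1, 0⟩,
  ⟨1, 1, 1, 0, 4, 0, 0, 1, 0⟩,
  ⟨0, 2, 1, 0, 2, 0, 0, 1, 0⟩,
  ⟨1, 2, 1, 0, 82, 0, 12, 1, 0⟩,
  ⟨0, 3, 1, 0, 76, 0, 12, 1, 0⟩,
  ⟨1, 3, 1, 0, 11, 0, 0, 1, 0⟩,
  ⟨0, 4, 2, 0, 9, 6, 0, 4, 1⟩,
  ⟨1, 4, 2, 0, 85, (-6), 12, 4, 1⟩,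
  ⟨0, 5, 2, 0, 64, (-6), 12, 3, 1⟩,
  ⟨1, 5, 2, 0, 19, 6, 0, 3, 1⟩,
  ⟨0, 11, 1, 2, 65, 0, 6, 1, 0⟩,
  ⟨1, 11, 1, 2, 37, 0, 6, 1, 0⟩,
  ⟨0, 12, 1, 2, 29, 0, 6, 1, 0⟩,
  ⟨1, 12, 1, 2, 49, 0, 6, 1, 0⟩,
  ⟨0, 13, 1, 2, 45, 0, 6, 1, 0⟩,
  ⟨1, 13, 1, 2, 41, 0, 6, 1, 0⟩,
  ⟨0, 14, 1, 2, 56, 0, 6, 1, 0⟩,
  ⟨1, 14, 1, 2, 53, 0, 6, 1, 0⟩,
  ⟨0, 15, 1, 2, 42, 0, 6, 1, 0⟩,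
  ⟨1, 15, 1, 2, 60, 0, 6, 1, 0⟩,
  ⟨0, 16, 1, 2, 33, 0, 6, 1, 0⟩,
  ⟨1, 16, 1, 2, 32, 0, 6, 1, 0⟩,
  ⟨0, 17, 1, 2, 43, 0, 6, 1, 0⟩,
  ⟨1, 17, 1, 2, 62, 0, 6, 1, 0⟩,
  ⟨0, 18, 1, 2, 17, 0, 6, 1, 0⟩,
  ⟨1, 18, 1, 2, 47, 0, 6, 1, 0⟩,
  ⟨0, 25, (-2), 4, 69, (-6), 12, 4, 1⟩,
  ⟨1, 25, (-2), 4, 18, 6, 0, 4, 1⟩,
  ⟨0, 24, (-2), 4, 10, 6, 0, 3, 1⟩,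
  ⟨1, 24, (-2), 4, 80, (-6), 12, 3, 1⟩,
  ⟨0, 29, 1, 4, 89, 0, 12, 1, 0⟩,
  ⟨1, 29, 1, 4, 1, 0, 0, 1, 0⟩,
  ⟨0, 28, 1, 4, 3, 0, 0, 1, 0⟩,
  ⟨1, 28, 1, 4, 84, 0, 12, 1, 0⟩,
  ⟨0, 27, 1, 4, 71, 0, 12, 1, 0⟩,
  ⟨1, 27, 1, 4, 5, 0, 0, 1, 0⟩,
  ⟨0, 26, 1, 4, 8, 0, 0, 1, 0⟩,
  ⟨1, 26, 1, 4, 86, 0, 12, 1, 0⟩]

def W5_2 : List EP :=
  [⟨0, 0, 0, 0, 2, 0, 0, 0, (-1), 87, 0, 12, 1, 0⟩,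
  ⟨0, 2, 0, 0, 4, 0, 0, 0, 1, 85, 0, 12, 1, 0⟩,
  ⟨0, 4, 0, 0, 6, 0, 0, 0, (-1), 74, 0, 12, 1, 0⟩,
  ⟨0, 6, 0, 0, 8, 0, 0, 0, 1, 67, 0, 12, 1, 0⟩,
  ⟨0, 8, 0, 0, 10, 0, 0, 0, (-1), 55, (-12), 12, 3, 1⟩,
  ⟨0, 10, 0, 0, 8, 1, 0, 0, 1, 49, (-12), 12, 3, 1⟩,
  ⟨0, 8, 3, 1, 12, 0, 0, 0, (-1), 38, 0, 0, 1, 0⟩,
  ⟨0, 12, 0, 0, 14, 0, 0, 0, 1, 36, 0, 0, 1, 0⟩,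
  ⟨0, 14, 0, 0, 16, 0, 0, 0, (-1), 16, 0, 0, 1, 0⟩,
  ⟨0, 16, 0, 0, 18, 0, 0, 0, (-1), 11, 0, 0, 1, 0⟩,
  ⟨0, 18, 0, 0, 20, 0, 0, 0, 1, 14, 0, 0, 1, 0⟩,
  ⟨0, 20, 0, 0, 22, 0, 0, 0, 1, 9, 0, 0, 1, 0⟩,
  ⟨0, 22, 0, 0, 24, 0, 0, 0, (-1), 10, 0, 0, 1, 0⟩,
  ⟨0, 24, 0, 0, 26, 0, 0, 0, 1, 26, 0, 0, 1, 0⟩,
  ⟨0, 26, 0, 0, 28, 3, 1, 0, (-1), 34, 0, 0, 1, 0⟩,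
  ⟨0, 28, 1, 0, 30, 0, 0, 0, 1, 53, (-12), 12, 3, 1⟩,
  ⟨0, 30, 0, 0, 28, 0, 0, 0, (-1), 59, (-12), 12, 3, 1⟩,
  ⟨0, 28, 0, 0, 38, 0, 0, 0, 1, 61, 0, 12, 1, 0⟩,
  ⟨0, 32, 0, 0, 0, 0, 0, 1, 1, 89, 0, 12, 1, 0⟩,
  ⟨0, 34, 0, 0, 32, 0, 0, 0, (-1), 86, 0, 12, 1, 0⟩,
  ⟨0, 36, 0, 0, 34, 0, 0, 0, 1, 68, 0, 12, 1, 0⟩,
  ⟨0, 38, 0, 0, 36, 0, 0, 0, (-1), 63, 0, 12, 1, 0⟩,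
  ⟨1, 0, 0, 0, 1, 0, 0, 0, (-1), 90, 0, 12, 1, 0⟩,
  ⟨1, 2, 0, 0, 3, 0, 0, 0, 1, 83, 0, 12, 1, 0⟩,
  ⟨1, 4, 0, 0, 5, 0, 0, 0, (-1), 80, 0, 12, 1, 0⟩,
  ⟨1, 6, 0, 0, 7, 0, 0, 0, 1, 65, 0, 12, 1, 0⟩,
  ⟨1, 8, 0, 0, 9, 0, 0, 0, (-1), 76, (-12), 12, 4, 1⟩,
  ⟨1, 10, 0, 0, 11, 0, 0, 0, 1, 45, (-12), 12, 3, 1⟩,
  ⟨1, 12, 0, 0, 13, 0, 0, 0, 1, 28, 0, 0, 1, 0⟩,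
  ⟨1, 14, 0, 0, 15, 0, 0, 0, (-1), 20, 0, 0, 1, 0⟩,
  ⟨1, 16, 0, 0, 17, 0, 0, 0, 1, 4, 0, 0, 1, 0⟩,
  ⟨1, 18, 0, 0, 19, 0, 0, 0, 1, 3, 0, 0, 1, 0⟩,
  ⟨1, 20, 0, 0, 21, 0, 0, 0, (-1), 18, 0, 0, 1, 0⟩,
  ⟨1, 22, 0, 0, 23, 0, 0, 0, 1, 1, 0, 0, 1, 0⟩,
  ⟨1, 24, 0, 0, 25, 0, 0, 0, (-1), 19, 0, 0, 1, 0⟩,
  ⟨1, 26, 0, 0, 27, 0, 0, 0, (-1), 30, 0, 0, 1, 0⟩,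
  ⟨1, 28, 0, 0, 29, 0, 0, 0, 1, 51, (-12), 12, 4, 1⟩,
  ⟨1, 30, 0, 0, 31, 0, 0, 0, (-1), 70, (-12), 12, 3, 1⟩,
  ⟨1, 32, 0, 0, 33, 0, 0, 0, 1, 88, 0, 12, 1, 0⟩,
  ⟨1, 34, 0, 0, 35, 0, 0, 0, (-1), 81, 0, 12, 1, 0⟩,
  ⟨1, 36, 0, 0, 37, 0, 0, 0, 1, 66, 0, 12, 1, 0⟩,
  ⟨1, 38, 0, 0, 39, 0, 0, 0, (-1), 78, 0, 12, 1, 0⟩,
  ⟨2, 1, 0, 0, 11, 0, 0, 0, 1, 71, 0, 12, 1, 0⟩,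
  ⟨2, 3, 0, 0, 9, 1, 0, 0, (-1), 75, 0, 12, 1, 0⟩,
  ⟨2, 5, 0, 0, 11, 1, 0, 0, 1, 57, 0, 12, 1, 0⟩,
  ⟨2, 7, 0, 0, 9, 2, 0, 0, (-1), 62, 0, 12, 1, 0⟩,
  ⟨2, 9, 0, 0, 11, 2, 0, 0, 1, 54, (-12), 12, 1, 1⟩,
  ⟨2, 11, 0, 0, 9, 3, 0, 0, (-1), 48, (-12), 12, 1, 1⟩,
  ⟨2, 9, 1, 1, 13, 0, 0, 0, 1, 42, 0, 0, 1, 0⟩,
  ⟨2, 11, 1, 1, 15, 0, 0, 0, (-1), 24, 0, 0, 1, 0⟩,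
  ⟨2, 9, 2, 1, 17, 0, 0, 0, 1, 32, 0, 0, 1, 0⟩,
  ⟨2, 11, 2, 1, 19, 0, 0, 0, (-1), 22, 0, 0, 1, 0⟩,
  ⟨2, 9, 3, 1, 21, 0, 0, 0, 1, 7, 0, 0, 1, 0⟩,
  ⟨2, 13, 0, 0, 23, 0, 0, 0, 1, 5, 0, 0, 1, 0⟩,
  ⟨2, 15, 0, 0, 25, 0, 0, 0, (-1), 13, 0, 0, 1, 0⟩,
  ⟨2, 17, 0, 0, 27, 0, 0, 0, (-1), 6, 0, 0, 1, 0⟩,
  ⟨2, 19, 0, 0, 29, 3, 1, 0, 1, 17, 0, 0, 1, 0⟩,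
  ⟨2, 21, 0, 0, 31, 2, 1, 0, (-1), 8, 0, 0, 1, 0⟩,
  ⟨2, 23, 0, 0, 29, 2, 1, 0, 1, 2, 0, 0, 1, 0⟩,
  ⟨2, 25, 0, 0, 31, 1, 1, 0, (-1), 12, 0, 0, 1, 0⟩,
  ⟨2, 27, 0, 0, 29, 1, 1, 0, 1, 23, 0, 0, 1, 0⟩,
  ⟨2, 29, 3, 0, 31, 0, 0, 0, (-1), 44, (-12), 12, 1, 1⟩,
  ⟨2, 31, 2, 0, 29, 0, 0, 0, 1, 50, (-12), 12, 1, 1⟩,
  ⟨2, 29, 0, 0, 1, 0, 0, 1, (-1), 72, 0, 12, 1, 0⟩,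
  ⟨2, 31, 0, 0, 33, 0, 0, 0, 1, 79, 0, 12, 1, 0⟩,
  ⟨2, 29, 1, 0, 35, 0, 0, 0, (-1), 60, 0, 12, 1, 0⟩,
  ⟨2, 31, 1, 0, 37, 0, 0, 0, 1, 69, 0, 12, 1, 0⟩,
  ⟨2, 29, 2, 0, 39, 0, 0, 0, (-1), 56, 0, 12, 1, 0⟩,
  ⟨2, 33, 0, 0, 9, 0, 0, 1, (-1), 84, 0, 12, 1, 0⟩,
  ⟨2, 35, 0, 0, 7, 0, 0, 1, 1, 73, 0, 12, 1, 0⟩,
  ⟨2, 37, 0, 0, 5, 0, 0, 1, (-1), 77, 0, 12, 1, 0⟩,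
  ⟨2, 39, 0, 0, 3, 0, 0, 1, 1, 82, 0, 12, 1, 0⟩]

theorem g5_2 (t : ℕ) : IsGraceful (genPetersen (30 + 4 * t) 5) :=
  sound (V := V5_2) (W := W5_2) (by decide +kernel) t

def V5_3 : List VP :=
  [⟨0, 0, 1, 0, 0, 0, 0, 1, 0⟩,
  ⟨1, 0, 1, 0, 81, 0, 12, 1, 0⟩,
  ⟨0, 1, 1, 0, 78, 0, 12, 1, 0⟩,
  ⟨1, 1, 1, 0, 4, 0, 0, 1, 0⟩,
  ⟨0, 2, 1, 0, 2, 0, 0, 1, 0⟩,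
  ⟨1, 2, 1, 0, 73, 0, 12, 1, 0⟩,
  ⟨0, 3, 1, 0, 67, 0, 12, 1, 0⟩,
  ⟨1, 3, 1, 0, 11, 0, 0, 1, 0⟩,
  ⟨0, 4, 2, 0, 9, 6, 0, 4, 1⟩,
  ⟨1, 4, 2, 0, 76, (-6), 12, 4, 1⟩,
  ⟨0, 5, 2, 0, 55, (-6), 12, 3, 1⟩,
  ⟨1, 5, 2, 0, 19, 6, 0, 3, 1⟩,
  ⟨0, 11, 1, 2, 56, 0, 6, 1, 0⟩,
  ⟨1, 11, 1, 2, 37, 0, 6, 1, 0⟩,
  ⟨0, 12, 1, 2, 41, 0, 6, 1, 0⟩,
  ⟨1, 12, 1, 2, 38, 0, 6, 1, 0⟩,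
  ⟨0, 13, 1, 2, 39, 0, 6, 1, 0⟩,
  ⟨1, 13, 1, 2, 53, 0, 6, 1, 0⟩,
  ⟨0, 14, 1, 2, 44, 0, 6, 1, 0⟩,
  ⟨1, 14, 1, 2, 40, 0, 6, 1, 0⟩,
  ⟨0, 15, 1, 2, 34, 0, 6, 1, 0⟩,
  ⟨1, 15, 1, 2, 51, 0, 6, 1, 0⟩,
  ⟨0, 22, (-2), 4, 60, (-6), 12, 4, 1⟩,
  ⟨1, 22, (-2), 4, 18, 6, 0, 4, 1⟩,
  ⟨0, 21, (-2), 4, 10, 6, 0, 3, 1⟩,
  ⟨1, 21, (-2), 4, 71, (-6), 12, 3, 1⟩,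
  ⟨0, 26, 1, 4, 80, 0, 12, 1, 0⟩,
  ⟨1, 26, 1, 4, 1, 0, 0, 1, 0⟩,
  ⟨0, 25, 1, 4, 3, 0, 0, 1, 0⟩,
  ⟨1, 25, 1, 4, 75, 0, 12, 1, 0⟩,
  ⟨0, 24, 1, 4, 62, 0, 12, 1, 0⟩,
  ⟨1, 24, 1, 4, 5, 0, 0, 1, 0⟩,
  ⟨0, 23, 1, 4, 8, 0, 0, 1, 0⟩,
  ⟨1, 23, 1, 4, 77, 0, 12, 1, 0⟩]

def W5_3 : List EP :=
  [⟨0, 0, 0, 0, 2, 0, 0, 0, (-1), 78, 0, 12, 1, 0⟩,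
  ⟨0, 2, 0, 0, 4, 0, 0, 0, 1, 76, 0, 12, 1, 0⟩,
  ⟨0, 4, 0, 0, 6, 0, 0, 0, (-1), 65, 0, 12, 1, 0⟩,
  ⟨0, 6, 0, 0, 8, 0, 0, 0, 1, 58, 0, 12, 1, 0⟩,
  ⟨0, 8, 0, 0, 10, 0, 0, 0, (-1), 46, (-12), 12, 3, 1⟩,
  ⟨0, 10, 0, 0, 8, 1, 0, 0, 1, 40, (-12), 12, 3, 1⟩,
  ⟨0, 8, 3, 1, 12, 0, 0, 0, (-1), 29, 0, 0, 1, 0⟩,
  ⟨0, 12, 0, 0, 14, 0, 0, 0, 1, 15, 0, 0, 1, 0⟩,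
  ⟨0, 14, 0, 0, 16, 0, 0, 0, 1, 2, 0, 0, 1, 0⟩,
  ⟨0, 16, 0, 0, 18, 0, 0, 0, (-1), 5, 0, 0, 1, 0⟩,
  ⟨0, 18, 0, 0, 20, 0, 0, 0, 1, 10, 0, 0, 1, 0⟩,
  ⟨0, 20, 0, 0, 22, 3, 1, 0, (-1), 8, 0, 0, 1, 0⟩,
  ⟨0, 22, 1, 0, 24, 0, 0, 0, 1, 44, (-12), 12, 3, 1⟩,
  ⟨0, 24, 0, 0, 22, 0, 0, 0, (-1), 50, (-12), 12, 3, 1⟩,
  ⟨0, 22, 0, 0, 32, 0, 0, 0, 1, 52, 0, 12, 1, 0⟩,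
  ⟨0, 26, 0, 0, 0, 0, 0, 1, 1, 80, 0, 12, 1, 0⟩,
  ⟨0, 28, 0, 0, 26, 0, 0, 0, (-1), 77, 0, 12, 1, 0⟩,
  ⟨0, 30, 0, 0, 28, 0, 0, 0, 1, 59, 0, 12, 1, 0⟩,
  ⟨0, 32, 0, 0, 30, 0, 0, 0, (-1), 54, 0, 12, 1, 0⟩,
  ⟨1, 0, 0, 0, 1, 0, 0, 0, (-1), 81, 0, 12, 1, 0⟩,
  ⟨1, 2, 0, 0, 3, 0, 0, 0, 1, 74, 0, 12, 1, 0⟩,
  ⟨1, 4, 0, 0, 5, 0, 0, 0, (-1), 71, 0, 12, 1, 0⟩,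
  ⟨1, 6, 0, 0, 7, 0, 0, 0, 1, 56, 0, 12, 1, 0⟩,
  ⟨1, 8, 0, 0, 9, 0, 0, 0, (-1), 67, (-12), 12, 4, 1⟩,
  ⟨1, 10, 0, 0, 11, 0, 0, 0, 1, 36, (-12), 12, 3, 1⟩,
  ⟨1, 12, 0, 0, 13, 0, 0, 0, 1, 19, 0, 0, 1, 0⟩,
  ⟨1, 14, 0, 0, 15, 0, 0, 0, 1, 3, 0, 0, 1, 0⟩,
  ⟨1, 16, 0, 0, 17, 0, 0, 0, (-1), 14, 0, 0, 1, 0⟩,
  ⟨1, 18, 0, 0, 19, 0, 0, 0, 1, 4, 0, 0, 1, 0⟩,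
  ⟨1, 20, 0, 0, 21, 0, 0, 0, (-1), 17, 0, 0, 1, 0⟩,
  ⟨1, 22, 0, 0, 23, 0, 0, 0, 1, 42, (-12), 12, 4, 1⟩,
  ⟨1, 24, 0, 0, 25, 0, 0, 0, (-1), 61, (-12), 12, 3, 1⟩,
  ⟨1, 26, 0, 0, 27, 0, 0, 0, 1, 79, 0, 12, 1, 0⟩,
  ⟨1, 28, 0, 0, 29, 0, 0, 0, (-1), 72, 0, 12, 1, 0⟩,
  ⟨1, 30, 0, 0, 31, 0, 0, 0, 1, 57, 0, 12, 1, 0⟩,
  ⟨1, 32, 0, 0, 33, 0, 0, 0, (-1), 69, 0, 12, 1, 0⟩,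
  ⟨2, 1, 0, 0, 11, 0, 0, 0, 1, 62, 0, 12, 1, 0⟩,
  ⟨2, 3, 0, 0, 9, 1, 0, 0, (-1), 66, 0, 12, 1, 0⟩,
  ⟨2, 5, 0, 0, 11, 1, 0, 0, 1, 48, 0, 12, 1, 0⟩,
  ⟨2, 7, 0, 0, 9, 2, 0, 0, (-1), 53, 0, 12, 1, 0⟩,
  ⟨2, 9, 0, 0, 11, 2, 0, 0, 1, 45, (-12), 12, 1, 1⟩,
  ⟨2, 11, 0, 0, 9, 3, 0, 0, (-1), 39, (-12), 12, 1, 1⟩,
  ⟨2, 9, 1, 1, 13, 0, 0, 0, 1, 33, 0, 0, 1, 0⟩,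
  ⟨2, 11, 1, 1, 15, 0, 0, 0, (-1), 13, 0, 0, 1, 0⟩,
  ⟨2, 9, 2, 1, 17, 0, 0, 0, 1, 11, 0, 0, 1, 0⟩,
  ⟨2, 11, 2, 1, 19, 0, 0, 0, (-1), 9, 0, 0, 1, 0⟩,
  ⟨2, 9, 3, 1, 21, 0, 0, 0, 1, 7, 0, 0, 1, 0⟩,
  ⟨2, 13, 0, 0, 23, 3, 1, 0, 1, 1, 0, 0, 1, 0⟩,
  ⟨2, 15, 0, 0, 25, 2, 1, 0, (-1), 21, 0, 0, 1, 0⟩,
  ⟨2, 17, 0, 0, 23, 2, 1, 0, 1, 23, 0, 0, 1, 0⟩,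
  ⟨2, 19, 0, 0, 25, 1, 1, 0, (-1), 25, 0, 0, 1, 0⟩,
  ⟨2, 21, 0, 0, 23, 1, 1, 0, 1, 27, 0, 0, 1, 0⟩,
  ⟨2, 23, 3, 0, 25, 0, 0, 0, (-1), 35, (-12), 12, 1, 1⟩,
  ⟨2, 25, 2, 0, 23, 0, 0, 0, 1, 41, (-12), 12, 1, 1⟩,
  ⟨2, 23, 0, 0, 1, 0, 0, 1, (-1), 63, 0, 12, 1, 0⟩,
  ⟨2, 25, 0, 0, 27, 0, 0, 0, 1, 70, 0, 12, 1, 0⟩,
  ⟨2, 23, 1, 0, 29, 0, 0, 0, (-1), 51, 0, 12, 1, 0⟩,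
  ⟨2, 25, 1, 0, 31, 0, 0, 0, 1, 60, 0, 12, 1, 0⟩,
  ⟨2, 23, 2, 0, 33, 0, 0, 0, (-1), 47, 0, 12, 1, 0⟩,
  ⟨2, 27, 0, 0, 9, 0, 0, 1, (-1), 75, 0, 12, 1, 0⟩,
  ⟨2, 29, 0, 0, 7, 0, 0, 1, 1, 64, 0, 12, 1, 0⟩,
  ⟨2, 31, 0, 0, 5, 0, 0, 1, (-1), 68, 0, 12, 1, 0⟩,
  ⟨2, 33, 0, 0, 3, 0, 0, 1, 1, 73, 0, 12, 1, 0⟩]

theorem g5_3 (t : ℕ) : IsGraceful (genPetersen (27 + 4 * t) 5) :=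
  sound (V := V5_3) (W := W5_3) (by decide +kernel) t

theorem s5_11 : IsGraceful (genPetersen 11 5) :=
  small_sound (U := [0, 33, 5, 25, 11, 20, 12, 10, 28, 2, 32])
    (V := [31, 6, 29, 8, 14, 26, 16, 22, 7, 27, 3])
    (D := [33, 28, 20, 14, 9, 8, 2, 18, 26, 30, 32, 31, 27, 24, 17, 3, 6, 4, 12, 21, 25, 29, 5, 10, 7, 1, 13, 23, 15, 16, 22, 19, 11]) (by decide +kernel)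

theorem s5_12 : IsGraceful (genPetersen 12 5) :=
  small_sound (U := [36, 1, 27, 7, 24, 9, 22, 26, 33, 6, 31, 3])
    (V := [0, 32, 4, 23, 30, 12, 21, 34, 14, 28, 2, 35])
    (D := [35, 26, 20, 17, 15, 13, 4, 7, 27, 25, 28, 33, 36, 31, 23, 16, 6, 3, 1, 8, 19, 22, 29, 32, 12, 11, 30, 9, 2, 10, 14, 34, 18, 24, 21, 5]) (by decide +kernel)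

theorem s5_13 : IsGraceful (genPetersen 13 5) :=
  small_sound (U := [0, 36, 4, 30, 9, 21, 29, 22, 24, 11, 33, 5, 39])
    (V := [37, 3, 35, 10, 20, 7, 38, 17, 27, 26, 8, 34, 1])
    (D := [36, 32, 26, 21, 12, 8, 7, 2, 13, 22, 28, 34, 39, 37, 33, 31, 20, 11, 14, 9, 5, 3, 15, 25, 29, 38, 30, 35, 18, 17, 6, 1, 4, 16, 10, 23, 27, 24, 19]) (by decide +kernel)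

theorem s5_14 : IsGraceful (genPetersen 14 5) :=
  small_sound (U := [0, 42, 8, 35, 12, 30, 17, 27, 25, 32, 4, 37, 2, 40])
    (V := [41, 5, 39, 9, 23, 24, 21, 19, 10, 20, 29, 7, 38, 1])
    (D := [42, 34, 27, 23, 18, 13, 10, 2, 7, 28, 33, 35, 38, 40, 41, 37, 31, 26, 11, 6, 4, 8, 15, 12, 25, 30, 36, 39, 17, 16, 20, 1, 3, 5, 14, 19, 9, 21, 24, 32, 29, 22]) (by decide +kernel)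

theorem s5_15 : IsGraceful (genPetersen 15 5) :=
  small_sound (U := [0, 45, 7, 40, 13, 35, 16, 17, 23, 15, 26, 1, 41, 5, 44])
    (V := [43, 4, 38, 12, 36, 22, 18, 21, 32, 20, 19, 30, 6, 42, 2])
    (D := [45, 38, 33, 27, 22, 19, 1, 6, 8, 11, 25, 40, 36, 39, 44, 43, 41, 31, 28, 23, 13, 2, 4, 9, 5, 7, 29, 35, 37, 42, 21, 14, 17, 20, 16, 3, 12, 15, 10, 18, 24, 26, 32, 30, 34]) (by decide +kernel)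

theorem s5_16 : IsGraceful (genPetersen 16 5) :=
  small_sound (U := [0, 48, 6, 42, 13, 37, 18, 32, 26, 38, 17, 39, 11, 44, 3, 46])
    (V := [47, 4, 45, 8, 31, 20, 5, 41, 10, 23, 27, 16, 36, 7, 43, 1])
    (D := [48, 42, 36, 29, 24, 19, 14, 6, 12, 21, 22, 28, 33, 41, 43, 46, 47, 44, 39, 34, 18, 17, 13, 9, 16, 15, 10, 23, 25, 37, 40, 45, 27, 1, 4, 2, 8, 7, 11, 5, 3, 20, 26, 31, 32, 38, 35, 30]) (by decide +kernel)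

theorem s5_17 : IsGraceful (genPetersen 17 5) :=
  small_sound (U := [0, 46, 3, 39, 7, 36, 48, 32, 21, 24, 34, 12, 38, 10, 43, 4, 51])
    (V := [50, 1, 47, 8, 42, 23, 49, 41, 16, 22, 30, 26, 20, 35, 5, 45, 2])
    (D := [46, 43, 36, 32, 29, 12, 16, 11, 3, 10, 22, 26, 28, 33, 39, 47, 51, 50, 45, 44, 31, 35, 13, 1, 9, 5, 2, 4, 14, 18, 25, 38, 41, 49, 27, 48, 6, 8, 20, 7, 23, 21, 19, 17, 15, 24, 30, 34, 42, 37, 40]) (by decide +kernel)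

theorem s5_18 : IsGraceful (genPetersen 18 5) :=
  small_sound (U := [0, 50, 4, 44, 10, 39, 12, 29, 21, 34, 37, 46, 23, 42, 9, 48, 5, 54])
    (V := [51, 2, 49, 8, 38, 19, 26, 28, 6, 45, 25, 30, 53, 16, 40, 7, 52, 1])
    (D := [50, 46, 40, 34, 29, 27, 17, 8, 13, 3, 9, 23, 19, 33, 39, 43, 49, 54, 51, 48, 45, 36, 28, 20, 14, 1, 15, 11, 12, 16, 30, 26, 31, 41, 47, 53, 32, 24, 21, 2, 7, 6, 4, 25, 10, 5, 18, 22, 52, 35, 38, 42, 44, 37]) (by decide +kernel)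

theorem s5_19 : IsGraceful (genPetersen 19 5) :=
  small_sound (U := [0, 53, 5, 47, 9, 56, 4, 54, 37, 29, 16, 13, 34, 12, 45, 10, 49, 3, 57])
    (V := [55, 2, 50, 11, 38, 25, 30, 31, 23, 39, 36, 15, 27, 28, 21, 42, 6, 52, 1])
    (D := [53, 48, 42, 38, 47, 52, 50, 17, 8, 13, 3, 21, 22, 33, 35, 39, 46, 54, 57, 55, 51, 45, 36, 29, 31, 26, 23, 14, 10, 20, 2, 7, 16, 24, 32, 43, 49, 56, 30, 28, 19, 12, 1, 11, 15, 4, 5, 18, 6, 9, 25, 27, 34, 40, 44, 41, 37]) (by decide +kernel)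

theorem s5_20 : IsGraceful (genPetersen 20 5) :=
  small_sound (U := [0, 59, 7, 51, 10, 47, 12, 38, 17, 30, 37, 43, 32, 54, 22, 52, 2, 53, 4, 58])
    (V := [60, 3, 55, 11, 39, 24, 36, 28, 9, 42, 20, 27, 13, 29, 56, 21, 45, 8, 57, 1])
    (D := [59, 52, 44, 41, 37, 35, 26, 21, 13, 7, 6, 11, 22, 32, 30, 50, 51, 49, 54, 58, 60, 56, 48, 40, 29, 23, 24, 10, 8, 12, 17, 16, 19, 25, 34, 31, 43, 45, 53, 57, 36, 33, 27, 2, 3, 4, 9, 15, 20, 14, 1, 18, 5, 28, 55, 39, 42, 47, 46, 38]) (by decide +kernel)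

theorem s5_21 : IsGraceful (genPetersen 21 5) :=
  small_sound (U := [0, 60, 4, 56, 5, 44, 9, 45, 21, 41, 26, 31, 32, 18, 47, 13, 51, 7, 57, 3, 62])
    (V := [63, 2, 61, 10, 46, 23, 35, 29, 33, 19, 34, 37, 42, 36, 28, 38, 20, 49, 8, 58, 1])
    (D := [60, 56, 52, 51, 39, 35, 36, 24, 20, 15, 5, 1, 14, 29, 34, 38, 44, 50, 54, 59, 62, 63, 58, 57, 46, 41, 21, 26, 16, 12, 22, 8, 6, 10, 18, 19, 25, 31, 42, 49, 55, 61, 40, 33, 32, 23, 27, 11, 2, 13, 3, 9, 4, 17, 7, 28, 30, 37, 43, 47, 53, 48, 45]) (by decide +kernel)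

theorem s5_22 : IsGraceful (genPetersen 22 5) :=
  small_sound (U := [0, 63, 5, 60, 12, 55, 15, 47, 13, 34, 29, 43, 25, 9, 36, 49, 11, 52, 6, 57, 3, 65])
    (V := [66, 2, 61, 10, 48, 24, 39, 28, 33, 38, 35, 42, 37, 26, 64, 27, 40, 22, 51, 4, 62, 1])
    (D := [63, 58, 55, 48, 43, 40, 32, 34, 21, 5, 14, 18, 16, 27, 13, 38, 41, 46, 51, 54, 62, 65, 66, 61, 56, 50, 36, 31, 24, 19, 20, 4, 6, 1, 12, 17, 28, 22, 29, 30, 45, 53, 59, 64, 42, 37, 33, 23, 10, 11, 3, 9, 7, 26, 8, 2, 15, 25, 60, 35, 39, 44, 49, 57, 52, 47]) (by decide +kernel)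

theorem s5_23 : IsGraceful (genPetersen 23 5) :=
  small_sound (U := [0, 68, 6, 66, 2, 49, 7, 43, 13, 37, 47, 29, 41, 35, 56, 24, 58, 17, 61, 12, 65, 4, 67])
    (V := [69, 3, 64, 11, 52, 23, 42, 27, 36, 50, 40, 33, 30, 16, 28, 39, 25, 44, 21, 57, 8, 63, 1])
    (D := [68, 62, 60, 64, 47, 42, 36, 30, 24, 10, 18, 12, 6, 21, 32, 34, 41, 44, 49, 53, 61, 63, 67, 69, 65, 58, 55, 50, 26, 35, 16, 23, 13, 7, 4, 11, 19, 28, 15, 33, 27, 40, 45, 57, 59, 66, 46, 39, 37, 25, 2, 17, 9, 3, 20, 22, 1, 8, 14, 5, 29, 31, 38, 43, 48, 54, 56, 52, 51]) (by decide +kernel)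

theorem s5_24 : IsGraceful (genPetersen 24 5) :=
  small_sound (U := [72, 0, 66, 8, 71, 23, 64, 27, 55, 28, 52, 48, 57, 37, 34, 13, 49, 14, 58, 11, 61, 6, 67, 2])
    (V := [1, 69, 4, 59, 17, 68, 26, 44, 29, 5, 46, 41, 43, 19, 18, 38, 30, 45, 24, 50, 9, 63, 3, 70])
    (D := [72, 66, 58, 63, 48, 41, 37, 28, 27, 24, 4, 9, 20, 3, 21, 36, 35, 44, 47, 50, 55, 61, 65, 70, 71, 69, 62, 51, 54, 45, 38, 17, 26, 23, 6, 7, 14, 18, 16, 25, 19, 31, 34, 39, 52, 57, 64, 68, 67, 43, 40, 30, 12, 22, 15, 1, 10, 13, 8, 11, 2, 5, 32, 29, 33, 42, 46, 49, 60, 59, 56, 53]) (by decide +kernel)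

theorem s5_25 : IsGraceful (genPetersen 25 5) :=
  small_sound (U := [75, 2, 71, 7, 74, 3, 50, 9, 46, 15, 41, 58, 37, 43, 32, 51, 22, 57, 17, 61, 11, 65, 6, 69, 1])
    (V := [0, 72, 5, 64, 18, 52, 26, 48, 30, 45, 54, 44, 36, 39, 40, 31, 47, 29, 49, 25, 53, 14, 67, 4, 73])
    (D := [73, 69, 64, 67, 71, 47, 41, 37, 31, 26, 17, 21, 6, 11, 19, 29, 35, 40, 44, 50, 54, 59, 63, 68, 74, 75, 70, 66, 57, 56, 49, 24, 39, 16, 30, 13, 14, 1, 4, 8, 20, 25, 28, 32, 36, 42, 51, 61, 65, 72, 52, 46, 43, 34, 27, 2, 18, 12, 9, 5, 23, 3, 7, 10, 15, 22, 33, 38, 45, 48, 53, 58, 62, 60, 55]) (by decide +kernel)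

theorem s5_26 : IsGraceful (genPetersen 26 5) :=
  small_sound (U := [0, 77, 6, 69, 12, 56, 5, 50, 13, 48, 19, 17, 25, 16, 36, 59, 35, 67, 29, 70, 23, 76, 10, 72, 3, 75])
    (V := [78, 4, 74, 9, 60, 2, 54, 32, 49, 26, 30, 33, 31, 42, 41, 40, 8, 34, 46, 27, 53, 20, 65, 7, 73, 1])
    (D := [77, 71, 63, 57, 44, 51, 45, 37, 35, 29, 2, 8, 9, 20, 23, 24, 32, 38, 41, 47, 53, 66, 62, 69, 72, 75, 78, 73, 68, 60, 48, 54, 49, 18, 36, 22, 11, 16, 6, 26, 5, 19, 27, 33, 17, 43, 30, 56, 55, 65, 70, 74, 76, 50, 42, 40, 34, 28, 21, 1, 7, 15, 10, 25, 3, 4, 14, 13, 12, 31, 39, 46, 52, 58, 61, 67, 64, 59]) (by decide +kernel)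

theorem s5_28 : IsGraceful (genPetersen 28 5) :=
  small_sound (U := [0, 81, 4, 77, 11, 73, 18, 66, 15, 54, 19, 49, 16, 30, 33, 41, 23, 51, 26, 60, 17, 69, 12, 71, 6, 78, 3, 83])
    (V := [84, 2, 82, 10, 72, 24, 58, 29, 56, 34, 48, 36, 31, 47, 40, 37, 46, 32, 52, 28, 53, 25, 59, 21, 70, 8, 79, 1])
    (D := [81, 77, 73, 66, 62, 55, 48, 51, 39, 35, 30, 33, 14, 3, 8, 18, 28, 25, 34, 43, 52, 57, 59, 65, 72, 75, 80, 83, 84, 79, 78, 67, 61, 49, 40, 37, 41, 20, 29, 13, 15, 17, 7, 4, 23, 19, 26, 32, 36, 44, 47, 50, 64, 70, 76, 82, 60, 56, 53, 46, 38, 24, 22, 2, 9, 6, 11, 10, 1, 5, 12, 16, 21, 27, 31, 42, 45, 54, 58, 63, 68, 74, 69, 71]) (by decide +kernel)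

/-- `P(n,5)` is graceful for all `n > 10` -/
theorem gp5 (n : ℕ) (h : 10 < n) : IsGraceful (genPetersen n 5) := by
  have hr : n % 4 = 0 ∨ n % 4 = 1 ∨ n % 4 = 2 ∨ n % 4 = 3 := by omega
  rcases hr with hr | hr | hr | hr
  · by_cases h0 : 32 ≤ n
    · obtain ⟨t, rfl⟩ : ∃ t, n = 32 + 4 * t := ⟨(n - 32) / 4, by omega⟩
      exact g5_0 t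
    · have h1 : n = 12 ∨ n = 16 ∨ n = 20 ∨ n = 24 ∨ n = 28 := by omega
      rcases h1 with rfl | rfl | rfl | rfl | rfl
      · exact s5_12
      · exact s5_16
      · exact s5_20
      · exact s5_24
      · exact s5_28
  · by_cases h0 : 29 ≤ n
    · obtain ⟨t, rfl⟩ : ∃ t, n = 29 + 4 * t := ⟨(n - 29) / 4, by omega⟩
      exact g5_1 t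
    · have h1 : n = 13 ∨ n = 17 ∨ n = 21 ∨ n = 25 := by omega
      rcases h1 with rfl | rfl | rfl | rfl
      · exact s5_13
      · exact s5_17
      · exact s5_21
      · exact s5_25
  · by_cases h0 : 30 ≤ n
    · obtain ⟨t, rfl⟩ : ∃ t, n = 30 + 4 * t := ⟨(n - 30) / 4, by omega⟩
      exact g5_2 t
    · have h1 : n = 14 ∨ n = 18 ∨ n = 22 ∨ n = 26 := by omega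
      rcases h1 with rfl | rfl | rfl | rfl
      · exact s5_14
      · exact s5_18
      · exact s5_22
      · exact s5_26
  · by_cases h0 : 27 ≤ n
    · obtain ⟨t, rfl⟩ : ∃ t, n = 27 + 4 * t := ⟨(n - 27) / 4, by omega⟩
      exact g5_3 t
    · have h1 : n = 11 ∨ n = 15 ∨ n = 19 ∨ n = 23 := by omega
      rcases h1 with rfl | rfl | rfl | rfl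
      · exact s5_11
      · exact s5_15
      · exact s5_19
      · exact s5_23

end Pool.Agent.Helper40.GP
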