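import Pool.Agent.Helper40.GPChk

/-!
# Labellings of `P(n,7)`
-/

set_option autoImplicit false
set_option maxRecDepth 100000

namespace Pool.Agent.Helper40.GP

open Pool.Agent.Helper20.Graceful

def V7_0 : List VP :=
  [⟨0, 0, 1, 0, 0, 0, 0, 1, 0⟩,
  ⟨1, 0, 1, 0, 108, 0, 12, 1, 0⟩,
  ⟨0, 1, 1, 0, 105, 0, 12, 1, 0⟩,
  ⟨1, 1, 1, 0, 3, 0, 0, 1, 0⟩,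
  ⟨0, 2, 1, 0, 6, 0, 0, 1, 0⟩,
  ⟨1, 2, 1, 0, 104, 0, 12, 1, 0⟩,
  ⟨0, 3, 1, 0, 106, 0, 12, 1, 0⟩,
  ⟨1, 3, 1, 0, 2, 0, 0, 1, 0⟩,
  ⟨0, 4, 2, 0, 17, 6, 0, 5, 1⟩,
  ⟨1, 4, 2, 0, 90, (-6), 12, 5, 1⟩,
  ⟨0, 5, 2, 0, 100, (-6), 12, 4, 1⟩,
  ⟨1, 5, 2, 0, 10, 6, 0, 4, 1⟩,
  ⟨0, 13, 1, 2, 83, 0, 6, 1, 0⟩,
  ⟨1, 13, 1, 2, 49, 0, 6, 1, 0⟩,
  ⟨0, 14, 1, 2, 31, 0, 6, 1, 0⟩,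
  ⟨1, 14, 1, 2, 54, 0, 6, 1, 0⟩,
  ⟨0, 15, 1, 2, 60, 0, 6, 1, 0⟩,
  ⟨1, 15, 1, 2, 48, 0, 6, 1, 0⟩,
  ⟨0, 16, 1, 2, 38, 0, 6, 1, 0⟩,
  ⟨1, 16, 1, 2, 14, 0, 6, 1, 0⟩,
  ⟨0, 17, 1, 2, 55, 0, 6, 1, 0⟩,
  ⟨1, 17, 1, 2, 58, 0, 6, 1, 0⟩,
  ⟨0, 18, 1, 2, 39, 0, 6, 1, 0⟩,
  ⟨1, 18, 1, 2, 34, 0, 6, 1, 0⟩,
  ⟨0, 19, 1, 2, 57, 0, 6, 1, 0⟩,
  ⟨1, 19, 1, 2, 70, 0, 6, 1, 0⟩,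
  ⟨0, 20, 1, 2, 37, 0, 6, 1, 0⟩,
  ⟨1, 20, 1, 2, 47, 0, 6, 1, 0⟩,
  ⟨0, 21, 1, 2, 65, 0, 6, 1, 0⟩,
  ⟨1, 21, 1, 2, 86, 0, 6, 1, 0⟩,
  ⟨0, 22, 1, 2, 19, 0, 6, 1, 0⟩,
  ⟨1, 22, 1, 2, 59, 0, 6, 1, 0⟩,
  ⟨0, 31, (-2), 4, 93, (-6), 12, 5, 1⟩,
  ⟨1, 31, (-2), 4, 9, 6, 0, 5, 1⟩,
  ⟨0, 30, (-2), 4, 24, 6, 0, 4, 1⟩,
  ⟨1, 30, (-2), 4, 91, (-6), 12, 4, 1⟩,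
  ⟨0, 35, 1, 4, 107, 0, 12, 1, 0⟩,
  ⟨1, 35, 1, 4, 4, 0, 0, 1, 0⟩,
  ⟨0, 34, 1, 4, 1, 0, 0, 1, 0⟩,
  ⟨1, 34, 1, 4, 95, 0, 12, 1, 0⟩,
  ⟨0, 33, 1, 4, 98, 0, 12, 1, 0⟩,
  ⟨1, 33, 1, 4, 11, 0, 0, 1, 0⟩,
  ⟨0, 32, 1, 4, 7, 0, 0, 1, 0⟩,
  ⟨1, 32, 1, 4, 103, 0, 12, 1, 0⟩]

def W7_0 : List EP :=
  [⟨0, 0, 0, 0, 2, 0, 0, 0, (-1), 105, 0, 12, 1, 0⟩,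
  ⟨0, 2, 0, 0, 4, 0, 0, 0, 1, 99, 0, 12, 1, 0⟩,
  ⟨0, 4, 0, 0, 6, 0, 0, 0, (-1), 100, 0, 12, 1, 0⟩,
  ⟨0, 6, 0, 0, 8, 0, 0, 0, 1, 89, 0, 12, 1, 0⟩,
  ⟨0, 8, 0, 0, 10, 0, 0, 0, (-1), 83, (-12), 12, 4, 1⟩,
  ⟨0, 10, 0, 0, 8, 1, 0, 0, 1, 77, (-12), 12, 4, 1⟩,
  ⟨0, 8, 4, 1, 12, 0, 0, 0, (-1), 42, 0, 0, 1, 0⟩,
  ⟨0, 12, 0, 0, 14, 0, 0, 0, 1, 52, 0, 0, 1, 0⟩,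
  ⟨0, 14, 0, 0, 16, 0, 0, 0, (-1), 29, 0, 0, 1, 0⟩,
  ⟨0, 16, 0, 0, 18, 0, 0, 0, 1, 22, 0, 0, 1, 0⟩,
  ⟨0, 18, 0, 0, 20, 0, 0, 0, (-1), 17, 0, 0, 1, 0⟩,
  ⟨0, 20, 0, 0, 22, 0, 0, 0, 1, 16, 0, 0, 1, 0⟩,
  ⟨0, 22, 0, 0, 24, 0, 0, 0, (-1), 18, 0, 0, 1, 0⟩,
  ⟨0, 24, 0, 0, 26, 0, 0, 0, 1, 20, 0, 0, 1, 0⟩,
  ⟨0, 26, 0, 0, 28, 0, 0, 0, (-1), 28, 0, 0, 1, 0⟩,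
  ⟨0, 28, 0, 0, 30, 0, 0, 0, 1, 46, 0, 0, 1, 0⟩,
  ⟨0, 30, 0, 0, 32, 4, 1, 0, (-1), 50, 0, 0, 1, 0⟩,
  ⟨0, 32, 1, 0, 34, 0, 0, 0, 1, 63, (-12), 12, 4, 1⟩,
  ⟨0, 34, 0, 0, 32, 0, 0, 0, (-1), 69, (-12), 12, 4, 1⟩,
  ⟨0, 32, 0, 0, 42, 0, 0, 0, 1, 86, 0, 12, 1, 0⟩,
  ⟨0, 36, 0, 0, 0, 0, 0, 1, 1, 107, 0, 12, 1, 0⟩,
  ⟨0, 38, 0, 0, 36, 0, 0, 0, (-1), 106, 0, 12, 1, 0⟩,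
  ⟨0, 40, 0, 0, 38, 0, 0, 0, 1, 97, 0, 12, 1, 0⟩,
  ⟨0, 42, 0, 0, 40, 0, 0, 0, (-1), 91, 0, 12, 1, 0⟩,
  ⟨1, 0, 0, 0, 1, 0, 0, 0, (-1), 108, 0, 12, 1, 0⟩,
  ⟨1, 2, 0, 0, 3, 0, 0, 0, 1, 102, 0, 12, 1, 0⟩,
  ⟨1, 4, 0, 0, 5, 0, 0, 0, (-1), 98, 0, 12, 1, 0⟩,
  ⟨1, 6, 0, 0, 7, 0, 0, 0, 1, 104, 0, 12, 1, 0⟩,
  ⟨1, 8, 0, 0, 9, 0, 0, 0, (-1), 73, (-12), 12, 5, 1⟩,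
  ⟨1, 10, 0, 0, 11, 0, 0, 0, 1, 90, (-12), 12, 4, 1⟩,
  ⟨1, 12, 0, 0, 13, 0, 0, 0, 1, 34, 0, 0, 1, 0⟩,
  ⟨1, 14, 0, 0, 15, 0, 0, 0, (-1), 23, 0, 0, 1, 0⟩,
  ⟨1, 16, 0, 0, 17, 0, 0, 0, 1, 12, 0, 0, 1, 0⟩,
  ⟨1, 18, 0, 0, 19, 0, 0, 0, 1, 24, 0, 0, 1, 0⟩,
  ⟨1, 20, 0, 0, 21, 0, 0, 0, (-1), 3, 0, 0, 1, 0⟩,
  ⟨1, 22, 0, 0, 23, 0, 0, 0, 1, 5, 0, 0, 1, 0⟩,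
  ⟨1, 24, 0, 0, 25, 0, 0, 0, (-1), 13, 0, 0, 1, 0⟩,
  ⟨1, 26, 0, 0, 27, 0, 0, 0, (-1), 10, 0, 0, 1, 0⟩,
  ⟨1, 28, 0, 0, 29, 0, 0, 0, (-1), 21, 0, 0, 1, 0⟩,
  ⟨1, 30, 0, 0, 31, 0, 0, 0, (-1), 40, 0, 0, 1, 0⟩,
  ⟨1, 32, 0, 0, 33, 0, 0, 0, 1, 84, (-12), 12, 5, 1⟩,
  ⟨1, 34, 0, 0, 35, 0, 0, 0, (-1), 67, (-12), 12, 4, 1⟩,
  ⟨1, 36, 0, 0, 37, 0, 0, 0, 1, 103, 0, 12, 1, 0⟩,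
  ⟨1, 38, 0, 0, 39, 0, 0, 0, (-1), 94, 0, 12, 1, 0⟩,
  ⟨1, 40, 0, 0, 41, 0, 0, 0, 1, 87, 0, 12, 1, 0⟩,
  ⟨1, 42, 0, 0, 43, 0, 0, 0, (-1), 96, 0, 12, 1, 0⟩,
  ⟨2, 1, 0, 0, 11, 1, 0, 0, 1, 92, 0, 12, 1, 0⟩,
  ⟨2, 3, 0, 0, 9, 2, 0, 0, (-1), 75, 0, 12, 1, 0⟩,
  ⟨2, 5, 0, 0, 11, 2, 0, 0, 1, 82, 0, 12, 1, 0⟩,
  ⟨2, 7, 0, 0, 9, 3, 0, 0, (-1), 70, 0, 12, 1, 0⟩,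
  ⟨2, 9, 0, 0, 11, 3, 0, 0, 1, 62, (-12), 12, 1, 1⟩,
  ⟨2, 11, 0, 0, 9, 4, 0, 0, (-1), 56, (-12), 12, 1, 1⟩,
  ⟨2, 9, 1, 1, 13, 0, 0, 0, 1, 35, 0, 0, 1, 0⟩,
  ⟨2, 11, 1, 1, 15, 0, 0, 0, (-1), 38, 0, 0, 1, 0⟩,
  ⟨2, 9, 2, 1, 17, 0, 0, 0, 1, 30, 0, 0, 1, 0⟩,
  ⟨2, 11, 2, 1, 19, 0, 0, 0, 1, 8, 0, 0, 1, 0⟩,
  ⟨2, 9, 3, 1, 21, 0, 0, 0, 1, 14, 0, 0, 1, 0⟩,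
  ⟨2, 11, 3, 1, 23, 0, 0, 0, (-1), 6, 0, 0, 1, 0⟩,
  ⟨2, 9, 4, 1, 25, 0, 0, 0, (-1), 4, 0, 0, 1, 0⟩,
  ⟨2, 13, 0, 0, 27, 0, 0, 0, 1, 2, 0, 0, 1, 0⟩,
  ⟨2, 15, 0, 0, 29, 0, 0, 0, (-1), 32, 0, 0, 1, 0⟩,
  ⟨2, 17, 0, 0, 31, 0, 0, 0, (-1), 11, 0, 0, 1, 0⟩,
  ⟨2, 19, 0, 0, 33, 4, 1, 0, (-1), 19, 0, 0, 1, 0⟩,
  ⟨2, 21, 0, 0, 35, 3, 1, 0, (-1), 15, 0, 0, 1, 0⟩,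
  ⟨2, 23, 0, 0, 33, 3, 1, 0, 1, 7, 0, 0, 1, 0⟩,
  ⟨2, 25, 0, 0, 35, 2, 1, 0, (-1), 9, 0, 0, 1, 0⟩,
  ⟨2, 27, 0, 0, 33, 2, 1, 0, 1, 26, 0, 0, 1, 0⟩,
  ⟨2, 29, 0, 0, 35, 1, 1, 0, 1, 1, 0, 0, 1, 0⟩,
  ⟨2, 31, 0, 0, 33, 1, 1, 0, 1, 44, 0, 0, 1, 0⟩,
  ⟨2, 33, 4, 0, 35, 0, 0, 0, (-1), 58, (-12), 12, 1, 1⟩,
  ⟨2, 35, 3, 0, 33, 0, 0, 0, 1, 64, (-12), 12, 1, 1⟩,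
  ⟨2, 33, 0, 0, 5, 0, 0, 1, (-1), 95, 0, 12, 1, 0⟩,
  ⟨2, 35, 0, 0, 3, 0, 0, 1, 1, 88, 0, 12, 1, 0⟩,
  ⟨2, 33, 1, 0, 1, 0, 0, 1, (-1), 93, 0, 12, 1, 0⟩,
  ⟨2, 35, 1, 0, 37, 0, 0, 0, 1, 81, 0, 12, 1, 0⟩,
  ⟨2, 33, 2, 0, 39, 0, 0, 0, (-1), 74, 0, 12, 1, 0⟩,
  ⟨2, 35, 2, 0, 41, 0, 0, 0, 1, 68, 0, 12, 1, 0⟩,
  ⟨2, 33, 3, 0, 43, 0, 0, 0, (-1), 76, 0, 12, 1, 0⟩,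
  ⟨2, 37, 0, 0, 9, 1, 0, 1, (-1), 80, 0, 12, 1, 0⟩,
  ⟨2, 39, 0, 0, 11, 0, 0, 1, 1, 85, 0, 12, 1, 0⟩,
  ⟨2, 41, 0, 0, 9, 0, 0, 1, (-1), 79, 0, 12, 1, 0⟩,
  ⟨2, 43, 0, 0, 7, 0, 0, 1, 1, 101, 0, 12, 1, 0⟩]

theorem g7_0 (t : ℕ) : IsGraceful (genPetersen (36 + 4 * t) 7) :=
  sound (V := V7_0) (W := W7_0) (by decide +kernel) t

def V7_1 : List VP :=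
  [⟨0, 0, 1, 0, 0, 0, 0, 1, 0⟩,
  ⟨1, 0, 1, 0, 135, 0, 12, 1, 0⟩,
  ⟨0, 1, 1, 0, 132, 0, 12, 1, 0⟩,
  ⟨1, 1, 1, 0, 3, 0, 0, 1, 0⟩,
  ⟨0, 2, 1, 0, 6, 0, 0, 1, 0⟩,
  ⟨1, 2, 1, 0, 131, 0, 12, 1, 0⟩,
  ⟨0, 3, 1, 0, 133, 0, 12, 1, 0⟩,
  ⟨1, 3, 1, 0, 2, 0, 0, 1, 0⟩,
  ⟨0, 4, 2, 0, 17, 6, 0, 6, 1⟩,
  ⟨1, 4, 2, 0, 117, (-6), 12, 6, 1⟩,
  ⟨0, 5, 2, 0, 127, (-6), 12, 5, 1⟩,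
  ⟨1, 5, 2, 0, 10, 6, 0, 5, 1⟩,
  ⟨0, 15, 1, 2, 104, 0, 6, 1, 0⟩,
  ⟨1, 15, 1, 2, 55, 0, 6, 1, 0⟩,
  ⟨0, 16, 1, 2, 43, 0, 6, 1, 0⟩,
  ⟨1, 16, 1, 2, 81, 0, 6, 1, 0⟩,
  ⟨0, 17, 1, 2, 86, 0, 6, 1, 0⟩,
  ⟨1, 17, 1, 2, 60, 0, 6, 1, 0⟩,
  ⟨0, 18, 1, 2, 45, 0, 6, 1, 0⟩,
  ⟨1, 18, 1, 2, 8, 0, 6, 1, 0⟩,
  ⟨0, 19, 1, 2, 75, 0, 6, 1, 0⟩,
  ⟨1, 19, 1, 2, 58, 0, 6, 1, 0⟩,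
  ⟨0, 20, 1, 2, 62, 0, 6, 1, 0⟩,
  ⟨1, 20, 1, 2, 56, 0, 6, 1, 0⟩,
  ⟨0, 21, 1, 2, 85, 0, 6, 1, 0⟩,
  ⟨1, 21, 1, 2, 95, 0, 6, 1, 0⟩,
  ⟨0, 22, 1, 2, 73, 0, 6, 1, 0⟩,
  ⟨1, 22, 1, 2, 84, 0, 6, 1, 0⟩,
  ⟨0, 23, 1, 2, 76, 0, 6, 1, 0⟩,
  ⟨1, 23, 1, 2, 67, 0, 6, 1, 0⟩,
  ⟨0, 24, 1, 2, 78, 0, 6, 1, 0⟩,
  ⟨1, 24, 1, 2, 79, 0, 6, 1, 0⟩,
  ⟨0, 25, 1, 2, 51, 0, 6, 1, 0⟩,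
  ⟨1, 25, 1, 2, 26, 0, 6, 1, 0⟩,
  ⟨0, 26, 1, 2, 20, 0, 6, 1, 0⟩,
  ⟨1, 26, 1, 2, 53, 0, 6, 1, 0⟩,
  ⟨0, 27, 1, 2, 64, 0, 6, 1, 0⟩,
  ⟨1, 27, 1, 2, 80, 0, 6, 1, 0⟩,
  ⟨0, 28, 1, 2, 119, 0, 6, 1, 0⟩,
  ⟨1, 28, 1, 2, 74, 0, 6, 1, 0⟩,
  ⟨0, 40, (-2), 4, 120, (-6), 12, 6, 1⟩,
  ⟨1, 40, (-2), 4, 9, 6, 0, 6, 1⟩,
  ⟨0, 39, (-2), 4, 24, 6, 0, 6, 1⟩,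
  ⟨1, 39, (-2), 4, 118, (-6), 12, 6, 1⟩,
  ⟨0, 44, 1, 4, 134, 0, 12, 1, 0⟩,
  ⟨1, 44, 1, 4, 4, 0, 0, 1, 0⟩,
  ⟨0, 43, 1, 4, 1, 0, 0, 1, 0⟩,
  ⟨1, 43, 1, 4, 122, 0, 12, 1, 0⟩,
  ⟨0, 42, 1, 4, 125, 0, 12, 1, 0⟩,
  ⟨1, 42, 1, 4, 11, 0, 0, 1, 0⟩,
  ⟨0, 41, 1, 4, 7, 0, 0, 1, 0⟩,
  ⟨1, 41, 1, 4, 130, 0, 12, 1, 0⟩]

def W7_1 : List EP :=
  [⟨0, 0, 0, 0, 2, 0, 0, 0, (-1), 132, 0, 12, 1, 0⟩,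
  ⟨0, 2, 0, 0, 4, 0, 0, 0, 1, 126, 0, 12, 1, 0⟩,
  ⟨0, 4, 0, 0, 6, 0, 0, 0, (-1), 127, 0, 12, 1, 0⟩,
  ⟨0, 6, 0, 0, 8, 0, 0, 0, 1, 116, 0, 12, 1, 0⟩,
  ⟨0, 8, 0, 0, 10, 0, 0, 0, (-1), 110, (-12), 12, 5, 1⟩,
  ⟨0, 10, 0, 0, 8, 1, 0, 0, 1, 104, (-12), 12, 5, 1⟩,
  ⟨0, 8, 5, 1, 12, 0, 0, 0, (-1), 57, 0, 0, 1, 0⟩,
  ⟨0, 12, 0, 0, 14, 0, 0, 0, 1, 61, 0, 0, 1, 0⟩,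
  ⟨0, 14, 0, 0, 16, 0, 0, 0, (-1), 43, 0, 0, 1, 0⟩,
  ⟨0, 16, 0, 0, 18, 0, 0, 0, 1, 41, 0, 0, 1, 0⟩,
  ⟨0, 18, 0, 0, 20, 0, 0, 0, (-1), 30, 0, 0, 1, 0⟩,
  ⟨0, 20, 0, 0, 22, 0, 0, 0, 1, 13, 0, 0, 1, 0⟩,
  ⟨0, 22, 0, 0, 24, 0, 0, 0, (-1), 23, 0, 0, 1, 0⟩,
  ⟨0, 24, 0, 0, 26, 0, 0, 0, 1, 12, 0, 0, 1, 0⟩,
  ⟨0, 26, 0, 0, 28, 0, 0, 0, (-1), 3, 0, 0, 1, 0⟩,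
  ⟨0, 28, 0, 0, 30, 0, 0, 0, (-1), 2, 0, 0, 1, 0⟩,
  ⟨0, 30, 0, 0, 32, 0, 0, 0, 1, 27, 0, 0, 1, 0⟩,
  ⟨0, 32, 0, 0, 34, 0, 0, 0, 1, 31, 0, 0, 1, 0⟩,
  ⟨0, 34, 0, 0, 36, 0, 0, 0, (-1), 44, 0, 0, 1, 0⟩,
  ⟨0, 36, 0, 0, 38, 0, 0, 0, (-1), 55, 0, 0, 1, 0⟩,
  ⟨0, 38, 0, 0, 42, 5, 1, 0, 1, 65, 0, 0, 1, 0⟩,
  ⟨0, 40, 1, 0, 42, 0, 0, 0, 1, 90, (-12), 12, 5, 1⟩,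
  ⟨0, 42, 0, 0, 40, 0, 0, 0, (-1), 96, (-12), 12, 6, 1⟩,
  ⟨0, 40, 0, 0, 50, 0, 0, 0, 1, 113, 0, 12, 1, 0⟩,
  ⟨0, 44, 0, 0, 0, 0, 0, 1, 1, 134, 0, 12, 1, 0⟩,
  ⟨0, 46, 0, 0, 44, 0, 0, 0, (-1), 133, 0, 12, 1, 0⟩,
  ⟨0, 48, 0, 0, 46, 0, 0, 0, 1, 124, 0, 12, 1, 0⟩,
  ⟨0, 50, 0, 0, 48, 0, 0, 0, (-1), 118, 0, 12, 1, 0⟩,
  ⟨1, 0, 0, 0, 1, 0, 0, 0, (-1), 135, 0, 12, 1, 0⟩,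
  ⟨1, 2, 0, 0, 3, 0, 0, 0, 1, 129, 0, 12, 1, 0⟩,
  ⟨1, 4, 0, 0, 5, 0, 0, 0, (-1), 125, 0, 12, 1, 0⟩,
  ⟨1, 6, 0, 0, 7, 0, 0, 0, 1, 131, 0, 12, 1, 0⟩,
  ⟨1, 8, 0, 0, 9, 0, 0, 0, (-1), 100, (-12), 12, 6, 1⟩,
  ⟨1, 10, 0, 0, 11, 0, 0, 0, 1, 117, (-12), 12, 5, 1⟩,
  ⟨1, 12, 0, 0, 13, 0, 0, 0, 1, 49, 0, 0, 1, 0⟩,
  ⟨1, 14, 0, 0, 15, 0, 0, 0, (-1), 38, 0, 0, 1, 0⟩,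
  ⟨1, 16, 0, 0, 17, 0, 0, 0, 1, 26, 0, 0, 1, 0⟩,
  ⟨1, 18, 0, 0, 19, 0, 0, 0, 1, 37, 0, 0, 1, 0⟩,
  ⟨1, 20, 0, 0, 21, 0, 0, 0, 1, 17, 0, 0, 1, 0⟩,
  ⟨1, 22, 0, 0, 23, 0, 0, 0, 1, 6, 0, 0, 1, 0⟩,
  ⟨1, 24, 0, 0, 25, 0, 0, 0, (-1), 10, 0, 0, 1, 0⟩,
  ⟨1, 26, 0, 0, 27, 0, 0, 0, (-1), 11, 0, 0, 1, 0⟩,
  ⟨1, 28, 0, 0, 29, 0, 0, 0, 1, 9, 0, 0, 1, 0⟩,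
  ⟨1, 30, 0, 0, 31, 0, 0, 0, (-1), 1, 0, 0, 1, 0⟩,
  ⟨1, 32, 0, 0, 33, 0, 0, 0, 1, 25, 0, 0, 1, 0⟩,
  ⟨1, 34, 0, 0, 35, 0, 0, 0, (-1), 33, 0, 0, 1, 0⟩,
  ⟨1, 36, 0, 0, 37, 0, 0, 0, (-1), 16, 0, 0, 1, 0⟩,
  ⟨1, 38, 0, 0, 39, 0, 0, 0, 1, 45, 0, 0, 1, 0⟩,
  ⟨1, 40, 0, 0, 41, 0, 0, 0, 1, 111, (-12), 12, 6, 1⟩,
  ⟨1, 42, 0, 0, 43, 0, 0, 0, (-1), 94, (-12), 12, 6, 1⟩,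
  ⟨1, 44, 0, 0, 45, 0, 0, 0, 1, 130, 0, 12, 1, 0⟩,
  ⟨1, 46, 0, 0, 47, 0, 0, 0, (-1), 121, 0, 12, 1, 0⟩,
  ⟨1, 48, 0, 0, 49, 0, 0, 0, 1, 114, 0, 12, 1, 0⟩,
  ⟨1, 50, 0, 0, 51, 0, 0, 0, (-1), 123, 0, 12, 1, 0⟩,
  ⟨2, 1, 0, 0, 11, 1, 0, 0, 1, 119, 0, 12, 1, 0⟩,
  ⟨2, 3, 0, 0, 9, 2, 0, 0, (-1), 102, 0, 12, 1, 0⟩,
  ⟨2, 5, 0, 0, 11, 2, 0, 0, 1, 109, 0, 12, 1, 0⟩,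
  ⟨2, 7, 0, 0, 9, 3, 0, 0, (-1), 97, 0, 12, 1, 0⟩,
  ⟨2, 9, 0, 0, 11, 3, 0, 0, 1, 89, (-12), 12, 2, 1⟩,
  ⟨2, 11, 0, 0, 9, 4, 0, 0, (-1), 83, (-12), 12, 2, 1⟩,
  ⟨2, 9, 2, 1, 13, 0, 0, 0, 1, 50, 0, 0, 1, 0⟩,
  ⟨2, 11, 2, 1, 15, 0, 0, 0, (-1), 59, 0, 0, 1, 0⟩,
  ⟨2, 9, 3, 1, 17, 0, 0, 0, 1, 39, 0, 0, 1, 0⟩,
  ⟨2, 11, 3, 1, 19, 0, 0, 0, 1, 20, 0, 0, 1, 0⟩,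
  ⟨2, 9, 4, 1, 21, 0, 0, 0, 1, 35, 0, 0, 1, 0⟩,
  ⟨2, 11, 4, 1, 23, 0, 0, 0, (-1), 22, 0, 0, 1, 0⟩,
  ⟨2, 9, 5, 1, 25, 0, 0, 0, (-1), 8, 0, 0, 1, 0⟩,
  ⟨2, 13, 0, 0, 27, 0, 0, 0, (-1), 29, 0, 0, 1, 0⟩,
  ⟨2, 15, 0, 0, 29, 0, 0, 0, 1, 14, 0, 0, 1, 0⟩,
  ⟨2, 17, 0, 0, 31, 0, 0, 0, (-1), 19, 0, 0, 1, 0⟩,
  ⟨2, 19, 0, 0, 33, 0, 0, 0, (-1), 18, 0, 0, 1, 0⟩,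
  ⟨2, 21, 0, 0, 35, 0, 0, 0, 1, 5, 0, 0, 1, 0⟩,
  ⟨2, 23, 0, 0, 37, 0, 0, 0, (-1), 24, 0, 0, 1, 0⟩,
  ⟨2, 25, 0, 0, 39, 0, 0, 0, 1, 21, 0, 0, 1, 0⟩,
  ⟨2, 27, 0, 0, 43, 5, 1, 0, (-1), 4, 0, 0, 1, 0⟩,
  ⟨2, 29, 0, 0, 41, 5, 1, 0, 1, 28, 0, 0, 1, 0⟩,
  ⟨2, 31, 0, 0, 43, 4, 1, 0, (-1), 15, 0, 0, 1, 0⟩,
  ⟨2, 33, 0, 0, 41, 4, 1, 0, (-1), 7, 0, 0, 1, 0⟩,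
  ⟨2, 35, 0, 0, 43, 3, 1, 0, (-1), 47, 0, 0, 1, 0⟩,
  ⟨2, 37, 0, 0, 41, 3, 1, 0, 1, 53, 0, 0, 1, 0⟩,
  ⟨2, 39, 0, 0, 43, 2, 1, 0, (-1), 32, 0, 0, 1, 0⟩,
  ⟨2, 41, 4, 0, 43, 0, 0, 0, (-1), 85, (-12), 12, 2, 1⟩,
  ⟨2, 43, 3, 0, 41, 0, 0, 0, 1, 91, (-12), 12, 3, 1⟩,
  ⟨2, 41, 0, 0, 5, 0, 0, 1, (-1), 122, 0, 12, 1, 0⟩,
  ⟨2, 43, 0, 0, 3, 0, 0, 1, 1, 115, 0, 12, 1, 0⟩,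
  ⟨2, 41, 1, 0, 1, 0, 0, 1, (-1), 120, 0, 12, 1, 0⟩,
  ⟨2, 43, 1, 0, 45, 0, 0, 0, 1, 108, 0, 12, 1, 0⟩,
  ⟨2, 41, 2, 0, 47, 0, 0, 0, (-1), 101, 0, 12, 1, 0⟩,
  ⟨2, 43, 2, 0, 49, 0, 0, 0, 1, 95, 0, 12, 1, 0⟩,
  ⟨2, 41, 3, 0, 51, 0, 0, 0, (-1), 103, 0, 12, 1, 0⟩,
  ⟨2, 45, 0, 0, 9, 1, 0, 1, (-1), 107, 0, 12, 1, 0⟩,
  ⟨2, 47, 0, 0, 11, 0, 0, 1, 1, 112, 0, 12, 1, 0⟩,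
  ⟨2, 49, 0, 0, 9, 0, 0, 1, (-1), 106, 0, 12, 1, 0⟩,
  ⟨2, 51, 0, 0, 7, 0, 0, 1, 1, 128, 0, 12, 1, 0⟩]

theorem g7_1 (t : ℕ) : IsGraceful (genPetersen (45 + 4 * t) 7) :=
  sound (V := V7_1) (W := W7_1) (by decide +kernel) t

def V7_2 : List VP :=
  [⟨0, 0, 1, 0, 0, 0, 0, 1, 0⟩,
  ⟨1, 0, 1, 0, 102, 0, 12, 1, 0⟩,
  ⟨0, 1, 1, 0, 99, 0, 12, 1, 0⟩,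
  ⟨1, 1, 1, 0, 3, 0, 0, 1, 0⟩,
  ⟨0, 2, 1, 0, 6, 0, 0, 1, 0⟩,
  ⟨1, 2, 1, 0, 98, 0, 12, 1, 0⟩,
  ⟨0, 3, 1, 0, 100, 0, 12, 1, 0⟩,
  ⟨1, 3, 1, 0, 2, 0, 0, 1, 0⟩,
  ⟨0, 4, 2, 0, 17, 6, 0, 5, 1⟩,
  ⟨1, 4, 2, 0, 84, (-6), 12, 5, 1⟩,
  ⟨0, 5, 2, 0, 94, (-6), 12, 4, 1⟩,
  ⟨1, 5, 2, 0, 10, 6, 0, 4, 1⟩,
  ⟨0, 13, 1, 2, 77, 0, 6, 1, 0⟩,
  ⟨1, 13, 1, 2, 49, 0, 6, 1, 0⟩,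
  ⟨0, 14, 1, 2, 31, 0, 6, 1, 0⟩,
  ⟨1, 14, 1, 2, 48, 0, 6, 1, 0⟩,
  ⟨0, 15, 1, 2, 45, 0, 6, 1, 0⟩,
  ⟨1, 15, 1, 2, 54, 0, 6, 1, 0⟩,
  ⟨0, 16, 1, 2, 38, 0, 6, 1, 0⟩,
  ⟨1, 16, 1, 2, 32, 0, 6, 1, 0⟩,
  ⟨0, 17, 1, 2, 50, 0, 6, 1, 0⟩,
  ⟨1, 17, 1, 2, 74, 0, 6, 1, 0⟩,
  ⟨0, 18, 1, 2, 70, 0, 6, 1, 0⟩,
  ⟨1, 18, 1, 2, 44, 0, 6, 1, 0⟩,
  ⟨0, 19, 1, 2, 59, 0, 6, 1, 0⟩,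
  ⟨1, 19, 1, 2, 57, 0, 6, 1, 0⟩,
  ⟨0, 20, 1, 2, 19, 0, 6, 1, 0⟩,
  ⟨1, 20, 1, 2, 53, 0, 6, 1, 0⟩,
  ⟨0, 29, (-2), 4, 87, (-6), 12, 5, 1⟩,
  ⟨1, 29, (-2), 4, 9, 6, 0, 5, 1⟩,
  ⟨0, 28, (-2), 4, 24, 6, 0, 4, 1⟩,
  ⟨1, 28, (-2), 4, 85, (-6), 12, 4, 1⟩,
  ⟨0, 33, 1, 4, 101, 0, 12, 1, 0⟩,
  ⟨1, 33, 1, 4, 4, 0, 0, 1, 0⟩,
  ⟨0, 32, 1, 4, 1, 0, 0, 1, 0⟩,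
  ⟨1, 32, 1, 4, 89, 0, 12, 1, 0⟩,
  ⟨0, 31, 1, 4, 92, 0, 12, 1, 0⟩,
  ⟨1, 31, 1, 4, 11, 0, 0, 1, 0⟩,
  ⟨0, 30, 1, 4, 7, 0, 0, 1, 0⟩,
  ⟨1, 30, 1, 4, 97, 0, 12, 1, 0⟩]

def W7_2 : List EP :=
  [⟨0, 0, 0, 0, 2, 0, 0, 0, (-1), 99, 0, 12, 1, 0⟩,
  ⟨0, 2, 0, 0, 4, 0, 0, 0, 1, 93, 0, 12, 1, 0⟩,
  ⟨0, 4, 0, 0, 6, 0, 0, 0, (-1), 94, 0, 12, 1, 0⟩,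
  ⟨0, 6, 0, 0, 8, 0, 0, 0, 1, 83, 0, 12, 1, 0⟩,
  ⟨0, 8, 0, 0, 10, 0, 0, 0, (-1), 77, (-12), 12, 4, 1⟩,
  ⟨0, 10, 0, 0, 8, 1, 0, 0, 1, 71, (-12), 12, 4, 1⟩,
  ⟨0, 8, 4, 1, 12, 0, 0, 0, (-1), 36, 0, 0, 1, 0⟩,
  ⟨0, 12, 0, 0, 14, 0, 0, 0, 1, 46, 0, 0, 1, 0⟩,
  ⟨0, 14, 0, 0, 16, 0, 0, 0, (-1), 14, 0, 0, 1, 0⟩,
  ⟨0, 16, 0, 0, 18, 0, 0, 0, 1, 7, 0, 0, 1, 0⟩,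
  ⟨0, 18, 0, 0, 20, 0, 0, 0, (-1), 12, 0, 0, 1, 0⟩,
  ⟨0, 20, 0, 0, 22, 0, 0, 0, (-1), 20, 0, 0, 1, 0⟩,
  ⟨0, 22, 0, 0, 24, 0, 0, 0, 1, 11, 0, 0, 1, 0⟩,
  ⟨0, 24, 0, 0, 26, 0, 0, 0, 1, 40, 0, 0, 1, 0⟩,
  ⟨0, 26, 0, 0, 28, 4, 1, 0, (-1), 44, 0, 0, 1, 0⟩,
  ⟨0, 28, 1, 0, 30, 0, 0, 0, 1, 57, (-12), 12, 4, 1⟩,
  ⟨0, 30, 0, 0, 28, 0, 0, 0, (-1), 63, (-12), 12, 4, 1⟩,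
  ⟨0, 28, 0, 0, 38, 0, 0, 0, 1, 80, 0, 12, 1, 0⟩,
  ⟨0, 32, 0, 0, 0, 0, 0, 1, 1, 101, 0, 12, 1, 0⟩,
  ⟨0, 34, 0, 0, 32, 0, 0, 0, (-1), 100, 0, 12, 1, 0⟩,
  ⟨0, 36, 0, 0, 34, 0, 0, 0, 1, 91, 0, 12, 1, 0⟩,
  ⟨0, 38, 0, 0, 36, 0, 0, 0, (-1), 85, 0, 12, 1, 0⟩,
  ⟨1, 0, 0, 0, 1, 0, 0, 0, (-1), 102, 0, 12, 1, 0⟩,
  ⟨1, 2, 0, 0, 3, 0, 0, 0, 1, 96, 0, 12, 1, 0⟩,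
  ⟨1, 4, 0, 0, 5, 0, 0, 0, (-1), 92, 0, 12, 1, 0⟩,
  ⟨1, 6, 0, 0, 7, 0, 0, 0, 1, 98, 0, 12, 1, 0⟩,
  ⟨1, 8, 0, 0, 9, 0, 0, 0, (-1), 67, (-12), 12, 5, 1⟩,
  ⟨1, 10, 0, 0, 11, 0, 0, 0, 1, 84, (-12), 12, 4, 1⟩,
  ⟨1, 12, 0, 0, 13, 0, 0, 0, 1, 28, 0, 0, 1, 0⟩,
  ⟨1, 14, 0, 0, 15, 0, 0, 0, (-1), 17, 0, 0, 1, 0⟩,
  ⟨1, 16, 0, 0, 17, 0, 0, 0, (-1), 9, 0, 0, 1, 0⟩,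
  ⟨1, 18, 0, 0, 19, 0, 0, 0, 1, 6, 0, 0, 1, 0⟩,
  ⟨1, 20, 0, 0, 21, 0, 0, 0, (-1), 24, 0, 0, 1, 0⟩,
  ⟨1, 22, 0, 0, 23, 0, 0, 0, 1, 26, 0, 0, 1, 0⟩,
  ⟨1, 24, 0, 0, 25, 0, 0, 0, 1, 2, 0, 0, 1, 0⟩,
  ⟨1, 26, 0, 0, 27, 0, 0, 0, (-1), 34, 0, 0, 1, 0⟩,
  ⟨1, 28, 0, 0, 29, 0, 0, 0, 1, 78, (-12), 12, 5, 1⟩,
  ⟨1, 30, 0, 0, 31, 0, 0, 0, (-1), 61, (-12), 12, 4, 1⟩,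
  ⟨1, 32, 0, 0, 33, 0, 0, 0, 1, 97, 0, 12, 1, 0⟩,
  ⟨1, 34, 0, 0, 35, 0, 0, 0, (-1), 88, 0, 12, 1, 0⟩,
  ⟨1, 36, 0, 0, 37, 0, 0, 0, 1, 81, 0, 12, 1, 0⟩,
  ⟨1, 38, 0, 0, 39, 0, 0, 0, (-1), 90, 0, 12, 1, 0⟩,
  ⟨2, 1, 0, 0, 11, 1, 0, 0, 1, 86, 0, 12, 1, 0⟩,
  ⟨2, 3, 0, 0, 9, 2, 0, 0, (-1), 69, 0, 12, 1, 0⟩,
  ⟨2, 5, 0, 0, 11, 2, 0, 0, 1, 76, 0, 12, 1, 0⟩,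
  ⟨2, 7, 0, 0, 9, 3, 0, 0, (-1), 64, 0, 12, 1, 0⟩,
  ⟨2, 9, 0, 0, 11, 3, 0, 0, 1, 56, (-12), 12, 1, 1⟩,
  ⟨2, 11, 0, 0, 9, 4, 0, 0, (-1), 50, (-12), 12, 1, 1⟩,
  ⟨2, 9, 1, 1, 13, 0, 0, 0, 1, 29, 0, 0, 1, 0⟩,
  ⟨2, 11, 1, 1, 15, 0, 0, 0, (-1), 32, 0, 0, 1, 0⟩,
  ⟨2, 9, 2, 1, 17, 0, 0, 0, 1, 18, 0, 0, 1, 0⟩,
  ⟨2, 11, 2, 1, 19, 0, 0, 0, (-1), 10, 0, 0, 1, 0⟩,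
  ⟨2, 9, 3, 1, 21, 0, 0, 0, (-1), 8, 0, 0, 1, 0⟩,
  ⟨2, 11, 3, 1, 23, 0, 0, 0, (-1), 16, 0, 0, 1, 0⟩,
  ⟨2, 9, 4, 1, 25, 0, 0, 0, 1, 3, 0, 0, 1, 0⟩,
  ⟨2, 13, 0, 0, 27, 0, 0, 0, (-1), 4, 0, 0, 1, 0⟩,
  ⟨2, 15, 0, 0, 29, 4, 1, 0, 1, 15, 0, 0, 1, 0⟩,
  ⟨2, 17, 0, 0, 31, 3, 1, 0, (-1), 13, 0, 0, 1, 0⟩,
  ⟨2, 19, 0, 0, 29, 3, 1, 0, 1, 5, 0, 0, 1, 0⟩,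
  ⟨2, 21, 0, 0, 31, 2, 1, 0, 1, 1, 0, 0, 1, 0⟩,
  ⟨2, 23, 0, 0, 29, 2, 1, 0, 1, 23, 0, 0, 1, 0⟩,
  ⟨2, 25, 0, 0, 31, 1, 1, 0, (-1), 22, 0, 0, 1, 0⟩,
  ⟨2, 27, 0, 0, 29, 1, 1, 0, 1, 38, 0, 0, 1, 0⟩,
  ⟨2, 29, 4, 0, 31, 0, 0, 0, (-1), 52, (-12), 12, 1, 1⟩,
  ⟨2, 31, 3, 0, 29, 0, 0, 0, 1, 58, (-12), 12, 1, 1⟩,
  ⟨2, 29, 0, 0, 5, 0, 0, 1, (-1), 89, 0, 12, 1, 0⟩,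
  ⟨2, 31, 0, 0, 3, 0, 0, 1, 1, 82, 0, 12, 1, 0⟩,
  ⟨2, 29, 1, 0, 1, 0, 0, 1, (-1), 87, 0, 12, 1, 0⟩,
  ⟨2, 31, 1, 0, 33, 0, 0, 0, 1, 75, 0, 12, 1, 0⟩,
  ⟨2, 29, 2, 0, 35, 0, 0, 0, (-1), 68, 0, 12, 1, 0⟩,
  ⟨2, 31, 2, 0, 37, 0, 0, 0, 1, 62, 0, 12, 1, 0⟩,
  ⟨2, 29, 3, 0, 39, 0, 0, 0, (-1), 70, 0, 12, 1, 0⟩,
  ⟨2, 33, 0, 0, 9, 1, 0, 1, (-1), 74, 0, 12, 1, 0⟩,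
  ⟨2, 35, 0, 0, 11, 0, 0, 1, 1, 79, 0, 12, 1, 0⟩,
  ⟨2, 37, 0, 0, 9, 0, 0, 1, (-1), 73, 0, 12, 1, 0⟩,
  ⟨2, 39, 0, 0, 7, 0, 0, 1, 1, 95, 0, 12, 1, 0⟩]

theorem g7_2 (t : ℕ) : IsGraceful (genPetersen (34 + 4 * t) 7) :=
  sound (V := V7_2) (W := W7_2) (by decide +kernel) t

def V7_3 : List VP :=
  [⟨0, 0, 1, 0, 0, 0, 0, 1, 0⟩,
  ⟨1, 0, 1, 0, 129, 0, 12, 1, 0⟩,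
  ⟨0, 1, 1, 0, 126, 0, 12, 1, 0⟩,
  ⟨1, 1, 1, 0, 3, 0, 0, 1, 0⟩,
  ⟨0, 2, 1, 0, 6, 0, 0, 1, 0⟩,
  ⟨1, 2, 1, 0, 125, 0, 12, 1, 0⟩,
  ⟨0, 3, 1, 0, 127, 0, 12, 1, 0⟩,
  ⟨1, 3, 1, 0, 2, 0, 0, 1, 0⟩,
  ⟨0, 4, 2, 0, 17, 6, 0, 6, 1⟩,
  ⟨1, 4, 2, 0, 111, (-6), 12, 6, 1⟩,
  ⟨0, 5, 2, 0, 121, (-6), 12, 5, 1⟩,
  ⟨1, 5, 2, 0, 10, 6, 0, 5, 1⟩,
  ⟨0, 15, 1, 2, 98, 0, 6, 1, 0⟩,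
  ⟨1, 15, 1, 2, 54, 0, 6, 1, 0⟩,
  ⟨0, 16, 1, 2, 25, 0, 6, 1, 0⟩,
  ⟨1, 16, 1, 2, 65, 0, 6, 1, 0⟩,
  ⟨0, 17, 1, 2, 74, 0, 6, 1, 0⟩,
  ⟨1, 17, 1, 2, 46, 0, 6, 1, 0⟩,
  ⟨0, 18, 1, 2, 37, 0, 6, 1, 0⟩,
  ⟨1, 18, 1, 2, 66, 0, 6, 1, 0⟩,
  ⟨0, 19, 1, 2, 72, 0, 6, 1, 0⟩,
  ⟨1, 19, 1, 2, 95, 0, 6, 1, 0⟩,
  ⟨0, 20, 1, 2, 48, 0, 6, 1, 0⟩,
  ⟨1, 20, 1, 2, 44, 0, 6, 1, 0⟩,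
  ⟨0, 21, 1, 2, 59, 0, 6, 1, 0⟩,
  ⟨1, 21, 1, 2, 56, 0, 6, 1, 0⟩,
  ⟨0, 22, 1, 2, 53, 0, 6, 1, 0⟩,
  ⟨1, 22, 1, 2, 55, 0, 6, 1, 0⟩,
  ⟨0, 23, 1, 2, 69, 0, 6, 1, 0⟩,
  ⟨1, 23, 1, 2, 60, 0, 6, 1, 0⟩,
  ⟨0, 24, 1, 2, 82, 0, 6, 1, 0⟩,
  ⟨1, 24, 1, 2, 68, 0, 6, 1, 0⟩,
  ⟨0, 25, 1, 2, 52, 0, 6, 1, 0⟩,
  ⟨1, 25, 1, 2, 45, 0, 6, 1, 0⟩,
  ⟨0, 26, 1, 2, 84, 0, 6, 1, 0⟩,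
  ⟨1, 26, 1, 2, 64, 0, 6, 1, 0⟩,
  ⟨0, 27, 1, 2, 51, 0, 6, 1, 0⟩,
  ⟨1, 27, 1, 2, 63, 0, 6, 1, 0⟩,
  ⟨0, 28, 1, 2, 92, 0, 6, 1, 0⟩,
  ⟨1, 28, 1, 2, 39, 0, 6, 1, 0⟩,
  ⟨0, 29, 1, 2, 31, 0, 6, 1, 0⟩,
  ⟨1, 29, 1, 2, 70, 0, 6, 1, 0⟩,
  ⟨0, 38, (-2), 4, 114, (-6), 12, 5, 1⟩,
  ⟨1, 38, (-2), 4, 9, 6, 0, 5, 1⟩,
  ⟨0, 37, (-2), 4, 24, 6, 0, 4, 1⟩,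
  ⟨1, 37, (-2), 4, 112, (-6), 12, 4, 1⟩,
  ⟨0, 42, 1, 4, 128, 0, 12, 1, 0⟩,
  ⟨1, 42, 1, 4, 4, 0, 0, 1, 0⟩,
  ⟨0, 41, 1, 4, 1, 0, 0, 1, 0⟩,
  ⟨1, 41, 1, 4, 116, 0, 12, 1, 0⟩,
  ⟨0, 40, 1, 4, 119, 0, 12, 1, 0⟩,
  ⟨1, 40, 1, 4, 11, 0, 0, 1, 0⟩,
  ⟨0, 39, 1, 4, 7, 0, 0, 1, 0⟩,
  ⟨1, 39, 1, 4, 124, 0, 12, 1, 0⟩]

def W7_3 : List EP :=
  [⟨0, 0, 0, 0, 2, 0, 0, 0, (-1), 126, 0, 12, 1, 0⟩,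
  ⟨0, 2, 0, 0, 4, 0, 0, 0, 1, 120, 0, 12, 1, 0⟩,
  ⟨0, 4, 0, 0, 6, 0, 0, 0, (-1), 121, 0, 12, 1, 0⟩,
  ⟨0, 6, 0, 0, 8, 0, 0, 0, 1, 110, 0, 12, 1, 0⟩,
  ⟨0, 8, 0, 0, 10, 0, 0, 0, (-1), 104, (-12), 12, 5, 1⟩,
  ⟨0, 10, 0, 0, 8, 1, 0, 0, 1, 98, (-12), 12, 5, 1⟩,
  ⟨0, 8, 5, 1, 12, 0, 0, 0, (-1), 51, 0, 0, 1, 0⟩,
  ⟨0, 12, 0, 0, 14, 0, 0, 0, 1, 73, 0, 0, 1, 0⟩,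
  ⟨0, 14, 0, 0, 16, 0, 0, 0, (-1), 49, 0, 0, 1, 0⟩,
  ⟨0, 16, 0, 0, 18, 0, 0, 0, 1, 37, 0, 0, 1, 0⟩,
  ⟨0, 18, 0, 0, 20, 0, 0, 0, (-1), 35, 0, 0, 1, 0⟩,
  ⟨0, 20, 0, 0, 22, 0, 0, 0, 1, 24, 0, 0, 1, 0⟩,
  ⟨0, 22, 0, 0, 24, 0, 0, 0, (-1), 11, 0, 0, 1, 0⟩,
  ⟨0, 24, 0, 0, 26, 0, 0, 0, 1, 6, 0, 0, 1, 0⟩,
  ⟨0, 26, 0, 0, 28, 0, 0, 0, (-1), 16, 0, 0, 1, 0⟩,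
  ⟨0, 28, 0, 0, 30, 0, 0, 0, (-1), 13, 0, 0, 1, 0⟩,
  ⟨0, 30, 0, 0, 32, 0, 0, 0, 1, 30, 0, 0, 1, 0⟩,
  ⟨0, 32, 0, 0, 34, 0, 0, 0, (-1), 32, 0, 0, 1, 0⟩,
  ⟨0, 34, 0, 0, 36, 0, 0, 0, 1, 33, 0, 0, 1, 0⟩,
  ⟨0, 36, 0, 0, 38, 0, 0, 0, (-1), 41, 0, 0, 1, 0⟩,
  ⟨0, 38, 0, 0, 40, 0, 0, 0, 1, 61, 0, 0, 1, 0⟩,
  ⟨0, 40, 0, 0, 42, 4, 1, 0, (-1), 59, 0, 0, 1, 0⟩,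
  ⟨0, 42, 1, 0, 44, 0, 0, 0, 1, 84, (-12), 12, 4, 1⟩,
  ⟨0, 44, 0, 0, 42, 0, 0, 0, (-1), 90, (-12), 12, 4, 1⟩,
  ⟨0, 42, 0, 0, 52, 0, 0, 0, 1, 107, 0, 12, 1, 0⟩,
  ⟨0, 46, 0, 0, 0, 0, 0, 1, 1, 128, 0, 12, 1, 0⟩,
  ⟨0, 48, 0, 0, 46, 0, 0, 0, (-1), 127, 0, 12, 1, 0⟩,
  ⟨0, 50, 0, 0, 48, 0, 0, 0, 1, 118, 0, 12, 1, 0⟩,
  ⟨0, 52, 0, 0, 50, 0, 0, 0, (-1), 112, 0, 12, 1, 0⟩,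
  ⟨1, 0, 0, 0, 1, 0, 0, 0, (-1), 129, 0, 12, 1, 0⟩,
  ⟨1, 2, 0, 0, 3, 0, 0, 0, 1, 123, 0, 12, 1, 0⟩,
  ⟨1, 4, 0, 0, 5, 0, 0, 0, (-1), 119, 0, 12, 1, 0⟩,
  ⟨1, 6, 0, 0, 7, 0, 0, 0, 1, 125, 0, 12, 1, 0⟩,
  ⟨1, 8, 0, 0, 9, 0, 0, 0, (-1), 94, (-12), 12, 6, 1⟩,
  ⟨1, 10, 0, 0, 11, 0, 0, 0, 1, 111, (-12), 12, 5, 1⟩,
  ⟨1, 12, 0, 0, 13, 0, 0, 0, 1, 44, 0, 0, 1, 0⟩,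
  ⟨1, 14, 0, 0, 15, 0, 0, 0, (-1), 40, 0, 0, 1, 0⟩,
  ⟨1, 16, 0, 0, 17, 0, 0, 0, 1, 28, 0, 0, 1, 0⟩,
  ⟨1, 18, 0, 0, 19, 0, 0, 0, (-1), 29, 0, 0, 1, 0⟩,
  ⟨1, 20, 0, 0, 21, 0, 0, 0, (-1), 23, 0, 0, 1, 0⟩,
  ⟨1, 22, 0, 0, 23, 0, 0, 0, 1, 4, 0, 0, 1, 0⟩,
  ⟨1, 24, 0, 0, 25, 0, 0, 0, 1, 3, 0, 0, 1, 0⟩,
  ⟨1, 26, 0, 0, 27, 0, 0, 0, (-1), 2, 0, 0, 1, 0⟩,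
  ⟨1, 28, 0, 0, 29, 0, 0, 0, 1, 9, 0, 0, 1, 0⟩,
  ⟨1, 30, 0, 0, 31, 0, 0, 0, 1, 14, 0, 0, 1, 0⟩,
  ⟨1, 32, 0, 0, 33, 0, 0, 0, 1, 7, 0, 0, 1, 0⟩,
  ⟨1, 34, 0, 0, 35, 0, 0, 0, 1, 20, 0, 0, 1, 0⟩,
  ⟨1, 36, 0, 0, 37, 0, 0, 0, (-1), 12, 0, 0, 1, 0⟩,
  ⟨1, 38, 0, 0, 39, 0, 0, 0, 1, 53, 0, 0, 1, 0⟩,
  ⟨1, 40, 0, 0, 41, 0, 0, 0, (-1), 39, 0, 0, 1, 0⟩,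
  ⟨1, 42, 0, 0, 43, 0, 0, 0, 1, 105, (-12), 12, 5, 1⟩,
  ⟨1, 44, 0, 0, 45, 0, 0, 0, (-1), 88, (-12), 12, 4, 1⟩,
  ⟨1, 46, 0, 0, 47, 0, 0, 0, 1, 124, 0, 12, 1, 0⟩,
  ⟨1, 48, 0, 0, 49, 0, 0, 0, (-1), 115, 0, 12, 1, 0⟩,
  ⟨1, 50, 0, 0, 51, 0, 0, 0, 1, 108, 0, 12, 1, 0⟩,
  ⟨1, 52, 0, 0, 53, 0, 0, 0, (-1), 117, 0, 12, 1, 0⟩,
  ⟨2, 1, 0, 0, 11, 1, 0, 0, 1, 113, 0, 12, 1, 0⟩,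
  ⟨2, 3, 0, 0, 9, 2, 0, 0, (-1), 96, 0, 12, 1, 0⟩,
  ⟨2, 5, 0, 0, 11, 2, 0, 0, 1, 103, 0, 12, 1, 0⟩,
  ⟨2, 7, 0, 0, 9, 3, 0, 0, (-1), 91, 0, 12, 1, 0⟩,
  ⟨2, 9, 0, 0, 11, 3, 0, 0, 1, 83, (-12), 12, 2, 1⟩,
  ⟨2, 11, 0, 0, 9, 4, 0, 0, (-1), 77, (-12), 12, 2, 1⟩,
  ⟨2, 9, 2, 1, 13, 0, 0, 0, 1, 45, 0, 0, 1, 0⟩,
  ⟨2, 11, 2, 1, 15, 0, 0, 0, (-1), 43, 0, 0, 1, 0⟩,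
  ⟨2, 9, 3, 1, 17, 0, 0, 0, 1, 47, 0, 0, 1, 0⟩,
  ⟨2, 11, 3, 1, 19, 0, 0, 0, (-1), 38, 0, 0, 1, 0⟩,
  ⟨2, 9, 4, 1, 21, 0, 0, 0, (-1), 8, 0, 0, 1, 0⟩,
  ⟨2, 11, 4, 1, 23, 0, 0, 0, (-1), 10, 0, 0, 1, 0⟩,
  ⟨2, 9, 5, 1, 25, 0, 0, 0, 1, 25, 0, 0, 1, 0⟩,
  ⟨2, 13, 0, 0, 27, 0, 0, 0, (-1), 1, 0, 0, 1, 0⟩,
  ⟨2, 15, 0, 0, 29, 0, 0, 0, 1, 5, 0, 0, 1, 0⟩,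
  ⟨2, 17, 0, 0, 31, 0, 0, 0, (-1), 22, 0, 0, 1, 0⟩,
  ⟨2, 19, 0, 0, 33, 0, 0, 0, 1, 21, 0, 0, 1, 0⟩,
  ⟨2, 21, 0, 0, 35, 0, 0, 0, 1, 31, 0, 0, 1, 0⟩,
  ⟨2, 23, 0, 0, 37, 0, 0, 0, (-1), 19, 0, 0, 1, 0⟩,
  ⟨2, 25, 0, 0, 39, 0, 0, 0, 1, 17, 0, 0, 1, 0⟩,
  ⟨2, 27, 0, 0, 41, 0, 0, 0, (-1), 15, 0, 0, 1, 0⟩,
  ⟨2, 29, 0, 0, 43, 4, 1, 0, 1, 27, 0, 0, 1, 0⟩,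
  ⟨2, 31, 0, 0, 45, 3, 1, 0, (-1), 26, 0, 0, 1, 0⟩,
  ⟨2, 33, 0, 0, 43, 3, 1, 0, 1, 18, 0, 0, 1, 0⟩,
  ⟨2, 35, 0, 0, 45, 2, 1, 0, (-1), 36, 0, 0, 1, 0⟩,
  ⟨2, 37, 0, 0, 43, 2, 1, 0, 1, 42, 0, 0, 1, 0⟩,
  ⟨2, 39, 0, 0, 45, 1, 1, 0, (-1), 67, 0, 0, 1, 0⟩,
  ⟨2, 41, 0, 0, 43, 1, 1, 0, 1, 55, 0, 0, 1, 0⟩,
  ⟨2, 43, 4, 0, 45, 0, 0, 0, (-1), 79, (-12), 12, 1, 1⟩,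
  ⟨2, 45, 3, 0, 43, 0, 0, 0, 1, 85, (-12), 12, 1, 1⟩,
  ⟨2, 43, 0, 0, 5, 0, 0, 1, (-1), 116, 0, 12, 1, 0⟩,
  ⟨2, 45, 0, 0, 3, 0, 0, 1, 1, 109, 0, 12, 1, 0⟩,
  ⟨2, 43, 1, 0, 1, 0, 0, 1, (-1), 114, 0, 12, 1, 0⟩,
  ⟨2, 45, 1, 0, 47, 0, 0, 0, 1, 102, 0, 12, 1, 0⟩,
  ⟨2, 43, 2, 0, 49, 0, 0, 0, (-1), 95, 0, 12, 1, 0⟩,
  ⟨2, 45, 2, 0, 51, 0, 0, 0, 1, 89, 0, 12, 1, 0⟩,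
  ⟨2, 43, 3, 0, 53, 0, 0, 0, (-1), 97, 0, 12, 1, 0⟩,
  ⟨2, 47, 0, 0, 9, 1, 0, 1, (-1), 101, 0, 12, 1, 0⟩,
  ⟨2, 49, 0, 0, 11, 0, 0, 1, 1, 106, 0, 12, 1, 0⟩,
  ⟨2, 51, 0, 0, 9, 0, 0, 1, (-1), 100, 0, 12, 1, 0⟩,
  ⟨2, 53, 0, 0, 7, 0, 0, 1, 1, 122, 0, 12, 1, 0⟩]

theorem g7_3 (t : ℕ) : IsGraceful (genPetersen (43 + 4 * t) 7) :=
  sound (V := V7_3) (W := W7_3) (by decide +kernel) t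

theorem s7_15 : IsGraceful (genPetersen 15 7) :=
  small_sound (U := [0, 44, 7, 40, 12, 34, 23, 13, 9, 17, 32, 8, 35, 3, 42])
    (V := [45, 4, 43, 6, 31, 21, 24, 10, 2, 22, 18, 37, 5, 41, 1])
    (D := [44, 37, 33, 28, 22, 11, 10, 4, 8, 15, 24, 27, 32, 39, 42, 45, 40, 36, 34, 19, 13, 1, 3, 7, 5, 14, 29, 30, 38, 41, 35, 2, 21, 12, 6, 16, 17, 9, 43, 18, 25, 31, 26, 20, 23]) (by decide +kernel)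

theorem s7_16 : IsGraceful (genPetersen 16 7) :=
  small_sound (U := [48, 4, 45, 6, 38, 12, 27, 24, 22, 21, 32, 3, 40, 9, 47, 1])
    (V := [0, 44, 2, 42, 13, 28, 36, 19, 26, 8, 20, 30, 7, 43, 5, 46])
    (D := [44, 41, 39, 32, 26, 15, 3, 2, 1, 11, 29, 37, 31, 38, 46, 47, 48, 40, 43, 36, 25, 16, 9, 5, 4, 13, 12, 27, 33, 34, 42, 45, 19, 18, 6, 22, 17, 21, 7, 14, 20, 8, 24, 28, 35, 30, 23, 10]) (by decide +kernel)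

theorem s7_17 : IsGraceful (genPetersen 17 7) :=
  small_sound (U := [1, 48, 7, 43, 11, 36, 21, 12, 28, 32, 22, 14, 40, 10, 44, 4, 50])
    (V := [51, 3, 49, 6, 38, 19, 23, 0, 9, 46, 29, 27, 20, 41, 5, 47, 2])
    (D := [47, 41, 36, 32, 25, 15, 9, 16, 4, 10, 8, 26, 30, 34, 40, 46, 49, 50, 45, 42, 37, 27, 17, 2, 12, 19, 14, 7, 13, 20, 31, 39, 43, 48, 51, 6, 3, 23, 11, 1, 18, 5, 38, 44, 22, 24, 29, 35, 33, 28, 21]) (by decide +kernel)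

theorem s7_18 : IsGraceful (genPetersen 18 7) :=
  small_sound (U := [0, 53, 4, 46, 11, 42, 16, 34, 15, 27, 33, 30, 6, 39, 9, 50, 5, 52])
    (V := [54, 3, 48, 7, 45, 14, 26, 38, 10, 28, 18, 32, 35, 12, 47, 2, 51, 1])
    (D := [53, 49, 42, 35, 31, 26, 18, 19, 12, 6, 3, 24, 33, 30, 41, 45, 47, 52, 54, 50, 44, 39, 34, 28, 10, 4, 5, 1, 15, 2, 29, 27, 38, 48, 46, 51, 16, 7, 20, 11, 13, 21, 14, 9, 8, 23, 17, 22, 32, 36, 40, 43, 37, 25]) (by decide +kernel)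

theorem s7_19 : IsGraceful (genPetersen 19 7) :=
  small_sound (U := [0, 54, 4, 48, 11, 44, 15, 41, 33, 40, 22, 27, 39, 17, 51, 8, 50, 3, 56])
    (V := [57, 2, 55, 7, 43, 16, 26, 37, 23, 53, 6, 24, 30, 32, 20, 47, 5, 52, 1])
    (D := [54, 50, 44, 37, 33, 29, 26, 8, 7, 18, 5, 12, 22, 34, 43, 42, 47, 53, 56, 57, 52, 51, 41, 32, 28, 11, 4, 10, 13, 16, 3, 9, 15, 31, 39, 45, 49, 55, 20, 21, 2, 1, 19, 14, 6, 17, 24, 48, 46, 23, 27, 30, 35, 40, 38, 36, 25]) (by decide +kernel)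

theorem s7_20 : IsGraceful (genPetersen 20 7) :=
  small_sound (U := [0, 57, 5, 51, 12, 55, 4, 58, 10, 22, 11, 34, 17, 43, 13, 45, 8, 53, 3, 59])
    (V := [60, 2, 54, 7, 46, 20, 32, 39, 18, 40, 31, 41, 14, 33, 35, 16, 49, 6, 56, 1])
    (D := [57, 52, 46, 39, 43, 51, 54, 48, 12, 11, 23, 17, 26, 30, 32, 37, 45, 50, 56, 59, 60, 55, 49, 44, 34, 35, 28, 19, 8, 18, 20, 7, 3, 10, 22, 29, 41, 47, 53, 58, 21, 16, 14, 24, 5, 6, 1, 4, 2, 9, 25, 15, 13, 27, 33, 38, 42, 40, 36, 31]) (by decide +kernel)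

theorem s7_21 : IsGraceful (genPetersen 21 7) :=
  small_sound (U := [0, 62, 7, 55, 9, 49, 13, 42, 30, 41, 36, 27, 26, 16, 47, 14, 52, 8, 58, 4, 61])
    (V := [63, 3, 59, 6, 48, 19, 35, 56, 22, 44, 57, 25, 2, 29, 31, 40, 17, 53, 5, 60, 1])
    (D := [62, 55, 48, 46, 40, 36, 29, 12, 11, 5, 9, 1, 10, 31, 33, 38, 44, 50, 54, 57, 61, 63, 59, 52, 49, 39, 30, 22, 14, 8, 3, 21, 2, 24, 13, 16, 26, 35, 45, 53, 56, 60, 7, 19, 15, 51, 23, 17, 6, 25, 18, 27, 4, 20, 58, 28, 32, 37, 42, 47, 43, 41, 34]) (by decide +kernel)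

theorem s7_22 : IsGraceful (genPetersen 22 7) :=
  small_sound (U := [0, 66, 7, 60, 10, 56, 16, 50, 22, 47, 26, 17, 35, 51, 20, 49, 11, 54, 5, 61, 3, 63])
    (V := [65, 2, 62, 6, 52, 19, 42, 33, 32, 39, 21, 30, 23, 40, 34, 29, 46, 15, 57, 4, 64, 1])
    (D := [66, 59, 53, 50, 46, 40, 34, 28, 25, 21, 9, 18, 16, 31, 29, 38, 43, 49, 56, 58, 60, 63, 65, 64, 55, 54, 42, 37, 26, 17, 10, 8, 5, 13, 12, 11, 14, 20, 35, 39, 52, 57, 61, 62, 32, 30, 23, 15, 22, 4, 2, 1, 3, 7, 6, 27, 19, 24, 33, 36, 44, 47, 51, 48, 45, 41]) (by decide +kernel)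

theorem s7_23 : IsGraceful (genPetersen 23 7) :=
  small_sound (U := [1, 67, 4, 62, 10, 57, 14, 50, 18, 44, 38, 49, 47, 33, 46, 17, 51, 12, 56, 7, 64, 5, 69])
    (V := [68, 2, 66, 6, 58, 19, 45, 31, 30, 43, 28, 42, 39, 36, 61, 35, 26, 52, 15, 60, 3, 65, 0])
    (D := [66, 63, 58, 52, 47, 43, 36, 32, 26, 6, 11, 2, 14, 13, 29, 34, 39, 44, 49, 57, 59, 64, 68, 67, 65, 62, 56, 48, 38, 31, 19, 12, 1, 10, 7, 8, 3, 15, 18, 25, 40, 41, 53, 61, 60, 69, 37, 28, 23, 22, 16, 20, 9, 30, 5, 17, 24, 27, 21, 33, 4, 35, 42, 50, 51, 54, 55, 46, 45]) (by decide +kernel)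

theorem s7_24 : IsGraceful (genPetersen 24 7) :=
  small_sound (U := [0, 71, 4, 63, 11, 67, 23, 62, 27, 56, 40, 29, 35, 28, 6, 34, 19, 57, 15, 60, 9, 69, 5, 70])
    (V := [72, 3, 65, 8, 61, 21, 44, 31, 36, 39, 13, 49, 25, 58, 30, 2, 37, 32, 52, 12, 66, 7, 68, 1])
    (D := [71, 67, 59, 52, 56, 44, 39, 35, 29, 16, 11, 6, 7, 22, 28, 15, 38, 42, 45, 51, 60, 64, 65, 70, 72, 68, 61, 55, 50, 46, 21, 31, 9, 17, 27, 20, 10, 30, 24, 32, 18, 25, 37, 48, 57, 62, 63, 69, 41, 33, 26, 5, 12, 4, 14, 1, 34, 2, 19, 3, 13, 8, 23, 66, 36, 40, 49, 53, 58, 54, 47, 43]) (by decide +kernel)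

theorem s7_25 : IsGraceful (genPetersen 25 7) :=
  small_sound (U := [75, 3, 70, 8, 64, 11, 63, 18, 57, 24, 52, 31, 49, 47, 37, 45, 13, 50, 10, 71, 2, 66, 6, 72, 1])
    (V := [0, 73, 5, 67, 14, 53, 27, 43, 35, 36, 38, 20, 26, 40, 28, 65, 39, 33, 44, 25, 56, 9, 69, 4, 74])
    (D := [72, 67, 62, 56, 53, 52, 45, 39, 33, 28, 21, 18, 2, 10, 8, 32, 37, 40, 61, 69, 64, 60, 66, 71, 74, 75, 70, 65, 59, 50, 42, 36, 25, 22, 12, 14, 11, 23, 7, 9, 20, 26, 17, 34, 46, 54, 57, 63, 68, 73, 43, 38, 31, 29, 6, 27, 13, 15, 30, 3, 5, 24, 1, 16, 19, 4, 35, 41, 44, 48, 51, 58, 55, 49, 47]) (by decide +kernel)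

theorem s7_26 : IsGraceful (genPetersen 26 7) :=
  small_sound (U := [0, 78, 7, 74, 13, 69, 16, 62, 18, 55, 20, 52, 53, 33, 21, 38, 5, 44, 17, 58, 11, 66, 8, 72, 3, 75])
    (V := [77, 2, 73, 9, 64, 19, 50, 34, 42, 37, 31, 48, 32, 41, 28, 61, 35, 6, 43, 29, 56, 14, 71, 4, 76, 1])
    (D := [78, 71, 67, 61, 56, 53, 46, 44, 37, 35, 32, 1, 20, 12, 17, 33, 39, 27, 41, 47, 55, 58, 64, 69, 72, 75, 77, 76, 66, 65, 51, 50, 34, 28, 24, 18, 11, 4, 21, 8, 7, 23, 30, 38, 26, 29, 45, 52, 63, 68, 73, 74, 43, 40, 36, 22, 16, 13, 9, 6, 19, 2, 25, 5, 3, 15, 14, 10, 31, 70, 42, 48, 54, 59, 62, 60, 57, 49]) (by decide +kernel)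

theorem s7_27 : IsGraceful (genPetersen 27 7) :=
  small_sound (U := [0, 77, 4, 69, 9, 73, 18, 64, 20, 60, 28, 50, 35, 34, 38, 29, 59, 26, 62, 23, 70, 19, 75, 7, 74, 3, 81])
    (V := [80, 1, 76, 6, 79, 21, 56, 30, 46, 39, 48, 66, 32, 44, 61, 22, 41, 40, 37, 51, 27, 67, 17, 68, 5, 78, 2])
    (D := [77, 73, 65, 60, 64, 55, 46, 44, 40, 32, 22, 15, 1, 4, 9, 30, 33, 36, 39, 47, 51, 56, 68, 67, 71, 78, 81, 80, 76, 72, 63, 70, 52, 38, 34, 26, 21, 20, 16, 3, 10, 23, 7, 18, 14, 25, 28, 43, 48, 58, 61, 69, 75, 79, 50, 45, 37, 42, 13, 11, 12, 31, 24, 2, 8, 29, 19, 17, 6, 5, 27, 35, 41, 49, 53, 66, 59, 62, 74, 57, 54]) (by decide +kernel)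

theorem s7_28 : IsGraceful (genPetersen 28 7) :=
  small_sound (U := [84, 2, 80, 6, 73, 9, 66, 15, 65, 22, 57, 27, 51, 48, 75, 53, 45, 19, 55, 16, 63, 14, 68, 8, 78, 7, 79, 0])
    (V := [1, 82, 5, 83, 11, 64, 25, 59, 34, 47, 46, 40, 70, 20, 74, 41, 61, 42, 38, 49, 29, 54, 23, 71, 10, 76, 3, 81])
    (D := [82, 78, 74, 67, 64, 57, 51, 50, 43, 35, 30, 24, 3, 27, 22, 8, 26, 36, 39, 47, 49, 54, 60, 70, 71, 72, 79, 84, 83, 80, 75, 77, 62, 55, 41, 44, 31, 25, 11, 13, 19, 28, 1, 12, 16, 23, 17, 33, 34, 40, 45, 63, 68, 69, 76, 81, 58, 48, 42, 37, 29, 6, 5, 15, 7, 14, 4, 2, 21, 9, 20, 18, 10, 32, 38, 46, 52, 53, 59, 66, 73, 65, 61, 56]) (by decide +kernel)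

theorem s7_29 : IsGraceful (genPetersen 29 7) :=
  small_sound (U := [0, 87, 7, 83, 12, 79, 17, 71, 20, 67, 26, 61, 35, 51, 56, 32, 34, 24, 57, 19, 65, 16, 69, 11, 76, 8, 81, 3, 85])
    (V := [86, 4, 82, 6, 72, 18, 60, 31, 54, 37, 48, 40, 15, 42, 45, 55, 49, 41, 44, 46, 36, 53, 30, 68, 13, 80, 2, 84, 1])
    (D := [87, 80, 76, 71, 67, 62, 54, 51, 47, 41, 35, 26, 16, 5, 24, 2, 10, 33, 38, 46, 49, 53, 58, 65, 68, 73, 78, 82, 85, 86, 83, 75, 77, 60, 61, 43, 40, 34, 30, 22, 21, 20, 9, 11, 23, 15, 17, 13, 27, 29, 37, 39, 57, 63, 72, 79, 81, 84, 55, 50, 45, 42, 32, 3, 18, 14, 1, 12, 7, 4, 31, 6, 8, 25, 19, 28, 36, 44, 48, 52, 56, 64, 69, 74, 70, 66, 59]) (by decide +kernel)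

theorem s7_30 : IsGraceful (genPetersen 30 7) :=
  small_sound (U := [90, 3, 85, 7, 80, 13, 75, 16, 71, 25, 45, 8, 40, 17, 15, 46, 36, 28, 54, 21, 62, 18, 68, 14, 74, 10, 81, 6, 87, 1])
    (V := [0, 88, 5, 86, 12, 70, 26, 58, 35, 53, 2, 42, 69, 30, 34, 51, 47, 11, 39, 48, 37, 56, 33, 61, 23, 79, 9, 82, 4, 89])
    (D := [87, 82, 78, 73, 67, 62, 59, 55, 46, 20, 37, 32, 23, 2, 31, 10, 8, 26, 33, 41, 44, 50, 54, 60, 64, 71, 75, 81, 86, 89, 90, 85, 80, 79, 68, 57, 49, 42, 36, 28, 43, 34, 29, 13, 19, 5, 11, 17, 15, 27, 25, 38, 35, 47, 51, 69, 72, 76, 83, 88, 58, 53, 48, 84, 30, 1, 4, 24, 16, 6, 9, 3, 21, 7, 22, 18, 14, 12, 40, 39, 45, 52, 56, 61, 65, 74, 77, 70, 66, 63]) (by decide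 +kernel)

theorem s7_31 : IsGraceful (genPetersen 31 7) :=
  small_sound (U := [0, 89, 5, 86, 8, 77, 11, 73, 18, 67, 21, 61, 30, 59, 35, 56, 41, 45, 58, 26, 63, 22, 72, 19, 78, 14, 85, 10, 90, 3, 93])
    (V := [92, 1, 91, 4, 84, 16, 69, 29, 57, 39, 51, 42, 50, 43, 37, 46, 48, 28, 36, 53, 38, 55, 34, 62, 27, 71, 17, 83, 7, 88, 2])
    (D := [89, 84, 81, 78, 69, 66, 62, 55, 49, 46, 40, 31, 29, 24, 21, 15, 4, 13, 32, 37, 41, 50, 53, 59, 64, 71, 75, 80, 87, 90, 93, 92, 88, 86, 82, 76, 61, 58, 44, 39, 28, 30, 19, 20, 16, 2, 10, 7, 17, 22, 27, 25, 33, 38, 43, 51, 57, 68, 73, 83, 85, 91, 63, 56, 52, 47, 42, 34, 26, 8, 11, 9, 23, 6, 3, 5, 18, 12, 14, 1, 35, 36, 45, 48, 54, 60, 65,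 70, 74, 79, 77, 72, 67]) (by decide +kernel)

theorem s7_32 : IsGraceful (genPetersen 32 7) :=
  small_sound (U := [0, 92, 4, 87, 11, 83, 14, 80, 21, 81, 34, 76, 41, 10, 22, 47, 60, 63, 45, 72, 39, 78, 32, 85, 30, 82, 20, 94, 8, 90, 3, 96])
    (V := [95, 1, 88, 6, 84, 18, 70, 31, 64, 40, 51, 44, 52, 33, 37, 54, 59, 65, 24, 43, 55, 42, 62, 35, 91, 28, 71, 17, 86, 5, 93, 2])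
    (D := [92, 88, 83, 76, 72, 69, 66, 59, 60, 47, 42, 35, 31, 12, 25, 13, 3, 18, 27, 33, 39, 46, 53, 55, 52, 62, 74, 86, 82, 87, 93, 96, 95, 91, 84, 81, 73, 65, 56, 49, 43, 41, 17, 32, 11, 23, 15, 7, 1, 2, 21, 29, 16, 36, 30, 50, 61, 54, 51, 77, 78, 85, 90, 94, 64, 63, 48, 45, 40, 34, 37, 6, 10, 19, 14, 20, 9, 22, 5, 8, 24, 26, 4, 28, 38, 44, 57, 58, 89, 67, 70, 71, 80, 79, 75, 68]) (by decide +kernel)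

theorem s7_33 : IsGraceful (genPetersen 33 7) :=
  small_sound (U := [99, 3, 97, 9, 90, 11, 84, 18, 77, 21, 75, 23, 64, 34, 72, 58, 63, 45, 44, 61, 29, 69, 26, 76, 19, 81, 17, 88, 10, 92, 5, 94, 1])
    (V := [0, 95, 2, 93, 13, 80, 24, 67, 32, 60, 42, 57, 43, 49, 48, 38, 51, 68, 46, 39, 56, 40, 54, 41, 65, 33, 70, 20, 82, 7, 96, 4, 98])
    (D := [96, 94, 88, 81, 79, 73, 66, 59, 56, 54, 52, 41, 30, 38, 14, 5, 18, 1, 17, 32, 40, 43, 50, 57, 62, 64, 71, 78, 82, 87, 89, 93, 98, 99, 92, 95, 84, 77, 69, 60, 49, 45, 39, 33, 34, 21, 15, 24, 20, 12, 23, 2, 22, 27, 29, 28, 35, 46, 48, 53, 68, 72, 85, 91, 90, 97, 67, 63, 58, 51, 44, 37, 25, 19, 6, 9, 26, 11, 4, 7, 8, 16, 10, 3, 13,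 31, 36, 42, 47, 55, 61, 65, 70, 75, 80, 86, 83, 76, 74]) (by decide +kernel)

theorem s7_35 : IsGraceful (genPetersen 35 7) :=
  small_sound (U := [0, 103, 5, 98, 8, 93, 14, 83, 15, 79, 17, 71, 22, 58, 27, 52, 50, 64, 77, 72, 56, 33, 70, 25, 75, 20, 81, 16, 87, 10, 90, 4, 101, 6, 105])
    (V := [104, 2, 99, 7, 89, 18, 86, 31, 68, 36, 65, 38, 62, 97, 57, 30, 51, 44, 67, 53, 80, 60, 42, 59, 40, 61, 35, 73, 28, 84, 12, 96, 1, 102, 3])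
    (D := [103, 98, 93, 90, 85, 79, 69, 68, 64, 62, 54, 49, 36, 31, 25, 2, 14, 13, 5, 16, 23, 37, 45, 50, 55, 61, 65, 71, 77, 80, 86, 97, 95, 99, 105, 104, 101, 94, 91, 81, 75, 72, 52, 53, 43, 48, 33, 40, 39, 30, 22, 1, 20, 10, 19, 24, 27, 28, 34, 35, 41, 46, 57, 59, 74, 78, 92, 100, 96, 102, 73, 66, 63, 58, 51, 44, 11, 26, 38, 15, 21, 29, 9, 17, 3, 12, 8, 4, 6, 18, 7, 32, 42, 47, 56, 60, 67, 70, 76, 82, 87, 89, 88, 84, 83]) (by decide +kernel)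

theorem s7_37 : IsGraceful (genPetersen 37 7) :=
  small_sound (U := [0, 110, 4, 103, 7, 94, 11, 93, 17, 89, 24, 82, 28, 74, 30, 65, 38, 53, 43, 55, 56, 34, 62, 22, 63, 16, 71, 9, 73, 21, 99, 18, 104, 10, 108, 5, 109])
    (V := [111, 3, 105, 6, 100, 19, 85, 32, 76, 36, 69, 44, 67, 42, 61, 102, 59, 50, 57, 49, 58, 27, 98, 64, 39, 66, 41, 75, 2, 78, 31, 88, 15, 101, 8, 107, 1])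
    (D := [110, 106, 99, 96, 87, 83, 82, 76, 72, 65, 58, 54, 46, 44, 35, 27, 15, 10, 12, 1, 22, 28, 40, 41, 47, 55, 62, 64, 52, 78, 81, 86, 94, 98, 103, 104, 109, 111, 107, 101, 97, 93, 75, 74, 61, 59, 53, 45, 38, 39, 32, 31, 37, 21, 3, 14, 6, 2, 7, 36, 42, 24, 50, 30, 66, 71, 57, 68, 70, 89, 91, 100, 102, 108, 79, 73, 69, 63, 56, 48, 43, 29, 26, 23, 19, 13, 18, 16, 34, 4, 5, 11, 9, 8, 17, 25, 20, 33, 49, 51, 60, 67, 105, 77, 80, 85, 90, 95, 92, 88, 84]) (by decide +kernel)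

theorem s7_39 : IsGraceful (genPetersen 39 7) :=
  small_sound (U := [0, 114, 5, 110, 11, 104, 15, 99, 22, 96, 45, 107, 39, 89, 43, 81, 47, 70, 72, 65, 57, 63, 52, 25, 66, 27, 76, 21, 90, 24, 97, 19, 101, 14, 108, 8, 111, 3, 116])
    (V := [117, 2, 112, 4, 109, 18, 91, 32, 83, 37, 115, 49, 74, 44, 75, 50, 67, 87, 46, 61, 58, 51, 68, 62, 106, 71, 40, 73, 42, 78, 33, 84, 29, 93, 16, 105, 7, 113, 1])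
    (D := [114, 109, 105, 99, 93, 89, 84, 77, 74, 51, 62, 68, 50, 46, 38, 34, 23, 2, 7, 8, 6, 11, 27, 41, 39, 49, 55, 69, 66, 73, 78, 82, 87, 94, 100, 103, 108, 113, 116, 117, 112, 107, 106, 98, 86, 76, 67, 61, 59, 70, 58, 35, 45, 32, 31, 20, 17, 26, 4, 1, 12, 16, 37, 40, 44, 36, 52, 48, 54, 64, 65, 72, 79, 92, 97, 104, 110, 115, 85, 81, 75, 111, 60, 56, 47, 43, 33, 30, 28, 3, 13, 14, 24, 18, 5, 19, 25, 21, 15, 9, 10, 29, 22, 42, 53, 57, 63, 71, 80, 83, 88, 91, 96, 101, 102, 95, 90]) (by decide +kernel)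

theorem s7_41 : IsGraceful (genPetersen 41 7) :=
  small_sound (U := [123, 1, 114, 7, 112, 11, 109, 18, 104, 23, 98, 27, 94, 39, 93, 51, 15, 47, 70, 73, 66, 56, 52, 33, 62, 97, 45, 96, 34, 100, 40, 116, 37, 102, 13, 107, 10, 113, 5, 117, 0])
    (V := [2, 119, 4, 118, 6, 103, 25, 92, 36, 84, 41, 75, 44, 78, 48, 76, 46, 14, 91, 64, 77, 61, 50, 63, 28, 85, 88, 49, 83, 42, 81, 43, 122, 32, 95, 20, 106, 9, 121, 3, 120])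
    (D := [122, 113, 107, 105, 101, 98, 91, 86, 81, 75, 71, 67, 55, 54, 42, 36, 32, 23, 3, 7, 10, 4, 19, 29, 35, 52, 51, 62, 66, 60, 76, 79, 65, 89, 94, 97, 103, 108, 112, 117, 123, 121, 118, 110, 111, 106, 92, 84, 74, 68, 61, 57, 48, 50, 39, 45, 25, 31, 33, 21, 9, 11, 5, 2, 30, 34, 12, 43, 47, 49, 58, 41, 73, 85, 70, 82, 87, 96, 104, 116, 114, 120, 90, 83, 80, 77, 69, 59, 53, 44, 40, 38, 27, 16, 20, 1, 13, 26, 17, 14, 6, 24, 28, 22, 8, 18, 15, 37, 56, 46, 63, 64, 72, 78, 119, 88, 93, 99, 102, 109, 115, 100, 95]) (by decide +kernel)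

/-- `P(n,7)` is graceful for all `n > 14` -/
theorem gp7 (n : ℕ) (h : 14 < n) : IsGraceful (genPetersen n 7) := by
  have hr : n % 4 = 0 ∨ n % 4 = 1 ∨ n % 4 = 2 ∨ n % 4 = 3 := by omega
  rcases hr with hr | hr | hr | hr
  · by_cases h0 : 36 ≤ n
    · obtain ⟨t, rfl⟩ : ∃ t, n = 36 + 4 * t := ⟨(n - 36) / 4, by omega⟩
      exact g7_0 t
    · have h1 : n = 16 ∨ n = 20 ∨ n = 24 ∨ n = 28 ∨ n = 32 := by omega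
      rcases h1 with rfl | rfl | rfl | rfl | rfl
      · exact s7_16
      · exact s7_20
      · exact s7_24
      · exact s7_28
      · exact s7_32
  · by_cases h0 : 45 ≤ n
    · obtain ⟨t, rfl⟩ : ∃ t, n = 45 + 4 * t := ⟨(n - 45) / 4, by omega⟩
      exact g7_1 t
    · have h1 : n = 17 ∨ n = 21 ∨ n = 25 ∨ n = 29 ∨ n = 33 ∨ n = 37 ∨ n = 41 := by omega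
      rcases h1 with rfl | rfl | rfl | rfl | rfl | rfl | rfl
      · exact s7_17
      · exact s7_21
      · exact s7_25
      · exact s7_29
      · exact s7_33
      · exact s7_37
      · exact s7_41
  · by_cases h0 : 34 ≤ n
    · obtain ⟨t, rfl⟩ : ∃ t, n = 34 + 4 * t := ⟨(n - 34) / 4, by omega⟩
      exact g7_2 t
    · have h1 : n = 18 ∨ n = 22 ∨ n = 26 ∨ n = 30 := by omega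
      rcases h1 with rfl | rfl | rfl | rfl
      · exact s7_18
      · exact s7_22
      · exact s7_26
      · exact s7_30
  · by_cases h0 : 43 ≤ n
    · obtain ⟨t, rfl⟩ : ∃ t, n = 43 + 4 * t := ⟨(n - 43) / 4, by omega⟩
      exact g7_3 t
    · have h1 : n = 15 ∨ n = 19 ∨ n = 23 ∨ n = 27 ∨ n = 31 ∨ n = 35 ∨ n = 39 := by omega
      rcases h1 with rfl | rfl | rfl | rfl | rfl | rfl | rfl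
      · exact s7_15
      · exact s7_19
      · exact s7_23
      · exact s7_27
      · exact s7_31
      · exact s7_35
      · exact s7_39

end Pool.Agent.Helper40.GP
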