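import Pool.Agent.Helper40.GP8R0
import Pool.Agent.Helper40.GP8R1
import Pool.Agent.Helper40.GP8R2
import Pool.Agent.Helper40.GP8R3
import Pool.Agent.Helper40.GP8R4
import Pool.Agent.Helper40.GP8S

/-!
# Labellings of `P(n,8)`
-/

set_option autoImplicit false
set_option maxRecDepth 100000

namespace Pool.Agent.Helper40.GP

open Pool.Agent.Helper20.Graceful

/-- `P(n,8)` is graceful for all `n > 16` -/
theorem gp8 (n : ℕ) (h : 16 < n) : IsGraceful (genPetersen n 8) := by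
  have hr : n % 32 = 0 ∨ n % 32 = 1 ∨ n % 32 = 2 ∨ n % 32 = 3 ∨ n % 32 = 4 ∨ n % 32 = 5 ∨ n % 32 = 6 ∨ n % 32 = 7 ∨ n % 32 = 8 ∨ n % 32 = 9 ∨ n % 32 = 10 ∨ n % 32 = 11 ∨ n % 32 = 12 ∨ n % 32 = 13 ∨ n % 32 = 14 ∨ n % 32 = 15 ∨ n % 32 = 16 ∨ n % 32 = 17 ∨ n % 32 = 18 ∨ n % 32 = 19 ∨ n % 32 = 20 ∨ n % 32 = 21 ∨ n % 32 = 22 ∨ n % 32 = 23 ∨ n % 32 = 24 ∨ n % 32 = 25 ∨ n % 32 = 26 ∨ n % 32 = 27 ∨ n % 32 = 28 ∨ n % 32 = 29 ∨ n % 32 = 30 ∨ n % 32 = 31 := by omega
  rcases hr with hr | hr | hr | hr | hr | hr | hr | hr | hr | hr | hr | hr | hr | hr | hr | hr | hr | hr | hr | hr | hr | hr | hr | hr | hr | hr | hr | hr | hr | hr | hr | hr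
  · by_cases h0 : 96 ≤ n
    · obtain ⟨t, rfl⟩ : ∃ t, n = 96 + 32 * t := ⟨(n - 96) / 32, by omega⟩
      exact g8_0 t
    · have h1 : n = 32 ∨ n = 64 := by omega
      rcases h1 with rfl | rfl
      · exact s8_32
      · exact s8_64
  · by_cases h0 : 97 ≤ n
    · obtain ⟨t, rfl⟩ : ∃ t, n = 97 + 32 * t := ⟨(n - 97) / 32, by omega⟩
      exact g8_1 t
    · have h1 : n = 33 ∨ n = 65 := by omega
      rcases h1 with rfl | rfl
      · exact s8_33
      · exact s8_65
  · by_cases h0 : 98 ≤ n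
    · obtain ⟨t, rfl⟩ : ∃ t, n = 98 + 32 * t := ⟨(n - 98) / 32, by omega⟩
      exact g8_2 t
    · have h1 : n = 34 ∨ n = 66 := by omega
      rcases h1 with rfl | rfl
      · exact s8_34
      · exact s8_66
  · by_cases h0 : 99 ≤ n
    · obtain ⟨t, rfl⟩ : ∃ t, n = 99 + 32 * t := ⟨(n - 99) / 32, by omega⟩
      exact g8_3 t
    · have h1 : n = 35 ∨ n = 67 := by omega
      rcases h1 with rfl | rfl
      · exact s8_35
      · exact s8_67
  · by_cases h0 : 100 ≤ n
    · obtain ⟨t, rfl⟩ : ∃ t, n = 100 + 32 * t := ⟨(n - 100) / 32, by omega⟩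
      exact g8_4 t
    · have h1 : n = 36 ∨ n = 68 := by omega
      rcases h1 with rfl | rfl
      · exact s8_36
      · exact s8_68
  · by_cases h0 : 101 ≤ n
    · obtain ⟨t, rfl⟩ : ∃ t, n = 101 + 32 * t := ⟨(n - 101) / 32, by omega⟩
      exact g8_5 t
    · have h1 : n = 37 ∨ n = 69 := by omega
      rcases h1 with rfl | rfl
      · exact s8_37
      · exact s8_69
  · by_cases h0 : 102 ≤ n
    · obtain ⟨t, rfl⟩ : ∃ t, n = 102 + 32 * t := ⟨(n - 102) / 32, by omega⟩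
      exact g8_6 t
    · have h1 : n = 38 ∨ n = 70 := by omega
      rcases h1 with rfl | rfl
      · exact s8_38
      · exact s8_70
  · by_cases h0 : 103 ≤ n
    · obtain ⟨t, rfl⟩ : ∃ t, n = 103 + 32 * t := ⟨(n - 103) / 32, by omega⟩
      exact g8_7 t
    · have h1 : n = 39 ∨ n = 71 := by omega
      rcases h1 with rfl | rfl
      · exact s8_39
      · exact s8_71
  · by_cases h0 : 104 ≤ n
    · obtain ⟨t, rfl⟩ : ∃ t, n = 104 + 32 * t := ⟨(n - 104) / 32, by omega⟩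
      exact g8_8 t
    · have h1 : n = 40 ∨ n = 72 := by omega
      rcases h1 with rfl | rfl
      · exact s8_40
      · exact s8_72
  · by_cases h0 : 105 ≤ n
    · obtain ⟨t, rfl⟩ : ∃ t, n = 105 + 32 * t := ⟨(n - 105) / 32, by omega⟩
      exact g8_9 t
    · have h1 : n = 41 ∨ n = 73 := by omega
      rcases h1 with rfl | rfl
      · exact s8_41
      · exact s8_73
  · by_cases h0 : 106 ≤ n
    · obtain ⟨t, rfl⟩ : ∃ t, n = 106 + 32 * t := ⟨(n - 106) / 32, by omega⟩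
      exact g8_10 t
    · have h1 : n = 42 ∨ n = 74 := by omega
      rcases h1 with rfl | rfl
      · exact s8_42
      · exact s8_74
  · by_cases h0 : 107 ≤ n
    · obtain ⟨t, rfl⟩ : ∃ t, n = 107 + 32 * t := ⟨(n - 107) / 32, by omega⟩
      exact g8_11 t
    · have h1 : n = 43 ∨ n = 75 := by omega
      rcases h1 with rfl | rfl
      · exact s8_43
      · exact s8_75
  · by_cases h0 : 108 ≤ n
    · obtain ⟨t, rfl⟩ : ∃ t, n = 108 + 32 * t := ⟨(n - 108) / 32, by omega⟩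
      exact g8_12 t
    · have h1 : n = 44 ∨ n = 76 := by omega
      rcases h1 with rfl | rfl
      · exact s8_44
      · exact s8_76
  · by_cases h0 : 109 ≤ n
    · obtain ⟨t, rfl⟩ : ∃ t, n = 109 + 32 * t := ⟨(n - 109) / 32, by omega⟩
      exact g8_13 t
    · have h1 : n = 45 ∨ n = 77 := by omega
      rcases h1 with rfl | rfl
      · exact s8_45
      · exact s8_77
  · by_cases h0 : 110 ≤ n
    · obtain ⟨t, rfl⟩ : ∃ t, n = 110 + 32 * t := ⟨(n - 110) / 32, by omega⟩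
      exact g8_14 t
    · have h1 : n = 46 ∨ n = 78 := by omega
      rcases h1 with rfl | rfl
      · exact s8_46
      · exact s8_78
  · by_cases h0 : 111 ≤ n
    · obtain ⟨t, rfl⟩ : ∃ t, n = 111 + 32 * t := ⟨(n - 111) / 32, by omega⟩
      exact g8_15 t
    · have h1 : n = 47 ∨ n = 79 := by omega
      rcases h1 with rfl | rfl
      · exact s8_47
      · exact s8_79
  · by_cases h0 : 112 ≤ n
    · obtain ⟨t, rfl⟩ : ∃ t, n = 112 + 32 * t := ⟨(n - 112) / 32, by omega⟩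
      exact g8_16 t
    · have h1 : n = 48 ∨ n = 80 := by omega
      rcases h1 with rfl | rfl
      · exact s8_48
      · exact s8_80
  · by_cases h0 : 113 ≤ n
    · obtain ⟨t, rfl⟩ : ∃ t, n = 113 + 32 * t := ⟨(n - 113) / 32, by omega⟩
      exact g8_17 t
    · have h1 : n = 17 ∨ n = 49 ∨ n = 81 := by omega
      rcases h1 with rfl | rfl | rfl
      · exact s8_17
      · exact s8_49
      · exact s8_81
  · by_cases h0 : 114 ≤ n
    · obtain ⟨t, rfl⟩ : ∃ t, n = 114 + 32 * t := ⟨(n - 114) / 32, by omega⟩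
      exact g8_18 t
    · have h1 : n = 18 ∨ n = 50 ∨ n = 82 := by omega
      rcases h1 with rfl | rfl | rfl
      · exact s8_18
      · exact s8_50
      · exact s8_82
  · by_cases h0 : 115 ≤ n
    · obtain ⟨t, rfl⟩ : ∃ t, n = 115 + 32 * t := ⟨(n - 115) / 32, by omega⟩
      exact g8_19 t
    · have h1 : n = 19 ∨ n = 51 ∨ n = 83 := by omega
      rcases h1 with rfl | rfl | rfl
      · exact s8_19
      · exact s8_51
      · exact s8_83
  · by_cases h0 : 84 ≤ n
    · obtain ⟨t, rfl⟩ : ∃ t, n = 84 + 32 * t := ⟨(n - 84) / 32, by omega⟩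
      exact g8_20 t
    · have h1 : n = 20 ∨ n = 52 := by omega
      rcases h1 with rfl | rfl
      · exact s8_20
      · exact s8_52
  · by_cases h0 : 117 ≤ n
    · obtain ⟨t, rfl⟩ : ∃ t, n = 117 + 32 * t := ⟨(n - 117) / 32, by omega⟩
      exact g8_21 t
    · have h1 : n = 21 ∨ n = 53 ∨ n = 85 := by omega
      rcases h1 with rfl | rfl | rfl
      · exact s8_21
      · exact s8_53
      · exact s8_85
  · by_cases h0 : 86 ≤ n
    · obtain ⟨t, rfl⟩ : ∃ t, n = 86 + 32 * t := ⟨(n - 86) / 32, by omega⟩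
      exact g8_22 t
    · have h1 : n = 22 ∨ n = 54 := by omega
      rcases h1 with rfl | rfl
      · exact s8_22
      · exact s8_54
  · by_cases h0 : 119 ≤ n
    · obtain ⟨t, rfl⟩ : ∃ t, n = 119 + 32 * t := ⟨(n - 119) / 32, by omega⟩
      exact g8_23 t
    · have h1 : n = 23 ∨ n = 55 ∨ n = 87 := by omega
      rcases h1 with rfl | rfl | rfl
      · exact s8_23
      · exact s8_55
      · exact s8_87
  · by_cases h0 : 88 ≤ n
    · obtain ⟨t, rfl⟩ : ∃ t, n = 88 + 32 * t := ⟨(n - 88) / 32, by omega⟩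
      exact g8_24 t
    · have h1 : n = 24 ∨ n = 56 := by omega
      rcases h1 with rfl | rfl
      · exact s8_24
      · exact s8_56
  · by_cases h0 : 89 ≤ n
    · obtain ⟨t, rfl⟩ : ∃ t, n = 89 + 32 * t := ⟨(n - 89) / 32, by omega⟩
      exact g8_25 t
    · have h1 : n = 25 ∨ n = 57 := by omega
      rcases h1 with rfl | rfl
      · exact s8_25
      · exact s8_57
  · by_cases h0 : 90 ≤ n
    · obtain ⟨t, rfl⟩ : ∃ t, n = 90 + 32 * t := ⟨(n - 90) / 32, by omega⟩
      exact g8_26 t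
    · have h1 : n = 26 ∨ n = 58 := by omega
      rcases h1 with rfl | rfl
      · exact s8_26
      · exact s8_58
  · by_cases h0 : 91 ≤ n
    · obtain ⟨t, rfl⟩ : ∃ t, n = 91 + 32 * t := ⟨(n - 91) / 32, by omega⟩
      exact g8_27 t
    · have h1 : n = 27 ∨ n = 59 := by omega
      rcases h1 with rfl | rfl
      · exact s8_27
      · exact s8_59
  · by_cases h0 : 92 ≤ n
    · obtain ⟨t, rfl⟩ : ∃ t, n = 92 + 32 * t := ⟨(n - 92) / 32, by omega⟩
      exact g8_28 t
    · have h1 : n = 28 ∨ n = 60 := by omega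
      rcases h1 with rfl | rfl
      · exact s8_28
      · exact s8_60
  · by_cases h0 : 93 ≤ n
    · obtain ⟨t, rfl⟩ : ∃ t, n = 93 + 32 * t := ⟨(n - 93) / 32, by omega⟩
      exact g8_29 t
    · have h1 : n = 29 ∨ n = 61 := by omega
      rcases h1 with rfl | rfl
      · exact s8_29
      · exact s8_61
  · by_cases h0 : 94 ≤ n
    · obtain ⟨t, rfl⟩ : ∃ t, n = 94 + 32 * t := ⟨(n - 94) / 32, by omega⟩
      exact g8_30 t
    · have h1 : n = 30 ∨ n = 62 := by omega
      rcases h1 with rfl | rfl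
      · exact s8_30
      · exact s8_62
  · by_cases h0 : 95 ≤ n
    · obtain ⟨t, rfl⟩ : ∃ t, n = 95 + 32 * t := ⟨(n - 95) / 32, by omega⟩
      exact g8_31 t
    · have h1 : n = 31 ∨ n = 63 := by omega
      rcases h1 with rfl | rfl
      · exact s8_31
      · exact s8_63

end Pool.Agent.Helper40.GP
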