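import Pool.Agent.Helper20.GracefulCore

/-!
# A checker for periodic labellings of generalized Petersen graphs

A labelling of `P(n,k)`, `n = n0 + n1 t`, is given by pieces: on the piece `P` the columns are `p0 + p1 i + p2 t` and the
labels `a0 + a1 i + a2 t` for `0 ≤ i < m0 + m1 t`. The edges are given by pieces as well. `chk` checks with finitely many
comparisons of integers that the labelling is graceful for all `t ≥ 0`.
-/

set_option autoImplicit false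

namespace Pool.Agent.Helper40.GP

open Pool.Agent.Helper20.Graceful

/-- the affine forms `a0 + a1 i + a2 t`, `0 ≤ i < m0 + m1 t` -/
structure Fm where
  a0 : ℤ
  a1 : ℤ
  a2 : ℤ
  m0 : ℤ
  m1 : ℤ

namespace Fm

def ev (A : Fm) (t i : ℤ) : ℤ := A.a0 + A.a1 * i + A.a2 * t

def cnt (A : Fm) (t : ℤ) : ℤ := A.m0 + A.m1 * t

/-- upper bound of the values: `x + y t` -/
def mx (A : Fm) : ℤ × ℤ :=
  if 0 ≤ A.a1 then (A.a0 + A.a1 * (A.m0 - 1), A.a2 + A.a1 * A.m1) else (A.a0, A.a2)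

def mn (A : Fm) : ℤ × ℤ :=
  if 0 ≤ A.a1 then (A.a0, A.a2) else (A.a0 + A.a1 * (A.m0 - 1), A.a2 + A.a1 * A.m1)

theorem le_mx (A : Fm) {t i : ℤ} (h0 : 0 ≤ i) (h1 : i < A.cnt t) : A.ev t i ≤ A.mx.1 + A.mx.2 * t := by
  unfold mx ev
  unfold cnt at h1
  split_ifs with h
  · have h2 : A.a1 * i ≤ A.a1 * (A.m0 + A.m1 * t - 1) := mul_le_mul_of_nonneg_left (by omega) h
    have h3 : A.a1 * (A.m0 + A.m1 * t - 1) = A.a1 * (A.m0 - 1) + A.a1 * A.m1 * t := by ring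
    have h4 : (A.a2 + A.a1 * A.m1) * t = A.a2 * t + A.a1 * A.m1 * t := by ring
    simp only
    linarith
  · have h2 : A.a1 * i ≤ 0 := mul_nonpos_of_nonpos_of_nonneg (by omega) h0
    simp only
    linarith

theorem mn_le (A : Fm) {t i : ℤ} (h0 : 0 ≤ i) (h1 : i < A.cnt t) : A.mn.1 + A.mn.2 * t ≤ A.ev t i := by
  unfold mn ev
  unfold cnt at h1
  split_ifs with h
  · have h2 : 0 ≤ A.a1 * i := mul_nonneg h h0
    simp only
    linarith
  · have h2 : A.a1 * (A.m0 + A.m1 * t - 1) ≤ A.a1 * i := mul_le_mul_of_nonpos_left (by omega) (by omega)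
    have h3 : A.a1 * (A.m0 + A.m1 * t - 1) = A.a1 * (A.m0 - 1) + A.a1 * A.m1 * t := by ring
    have h4 : (A.a2 + A.a1 * A.m1) * t = A.a2 * t + A.a1 * A.m1 * t := by ring
    simp only
    linarith

end Fm

/-- `x < y` for all `t ≥ 0` -/
def ltb (x y : ℤ × ℤ) : Bool := decide (x.1 < y.1) && decide (x.2 ≤ y.2)

theorem lt_of_ltb {x y : ℤ × ℤ} (h : ltb x y = true) {t : ℤ} (ht : 0 ≤ t) : x.1 + x.2 * t < y.1 + y.2 * t := by
  unfold ltb at h
  rw [Bool.and_eq_true, decide_eq_true_eq, decide_eq_true_eq] at h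
  have := mul_le_mul_of_nonneg_right h.2 ht
  linarith [h.1]

/-- the values of `A` and `B` are different -/
def dj (A B : Fm) : Bool :=
  ltb A.mx B.mn || ltb B.mx A.mn || decide ((A.a0 - B.a0) % ((Int.gcd (Int.gcd A.a1 B.a1) (A.a2 - B.a2) : ℕ) : ℤ) ≠ 0)

theorem ne_of_dj {A B : Fm} (h : dj A B = true) {t i j : ℤ} (ht : 0 ≤ t) (h0 : 0 ≤ i) (h1 : i < A.cnt t) (h0' : 0 ≤ j)
    (h1' : j < B.cnt t) : A.ev t i ≠ B.ev t j := by
  unfold dj at h
  rw [Bool.or_eq_true, Bool.or_eq_true, decide_eq_true_eq] at h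
  rcases h with (h | h) | h
  · have h2 := lt_of_ltb h ht
    have h3 := A.le_mx h0 h1
    have h4 := B.mn_le h0' h1'
    omega
  · have h2 := lt_of_ltb h ht
    have h3 := B.le_mx h0' h1'
    have h4 := A.mn_le h0 h1
    omega
  · intro he
    apply h
    apply Int.emod_eq_zero_of_dvd
    obtain ⟨g, hg⟩ : ∃ g : ℤ, g = ((Int.gcd (Int.gcd A.a1 B.a1) (A.a2 - B.a2) : ℕ) : ℤ) := ⟨_, rfl⟩
    rw [← hg]
    have h2 : g ∣ A.a2 - B.a2 := by
      rw [hg]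
      exact Int.gcd_dvd_right _ _
    have h3 : g ∣ ((Int.gcd A.a1 B.a1 : ℕ) : ℤ) := by
      rw [hg]
      exact Int.gcd_dvd_left _ _
    have h4 : g ∣ A.a1 := h3.trans (Int.gcd_dvd_left _ _)
    have h5 : g ∣ B.a1 := h3.trans (Int.gcd_dvd_right _ _)
    have h6 : A.a0 - B.a0 = B.a1 * j - A.a1 * i - (A.a2 - B.a2) * t := by
      unfold Fm.ev at he
      linarith
    rw [h6]
    exact dvd_sub (dvd_sub (h5.mul_right j) (h4.mul_right i)) (h2.mul_right t)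

/-- a piece of the labelling: side `s` (`0` outer, `1` inner), columns, labels -/
structure VP where
  s : ℕ
  p0 : ℤ
  p1 : ℤ
  p2 : ℤ
  a0 : ℤ
  a1 : ℤ
  a2 : ℤ
  m0 : ℤ
  m1 : ℤ

def VP.col (P : VP) : Fm := ⟨P.p0, P.p1, P.p2, P.m0, P.m1⟩

def VP.lab (P : VP) : Fm := ⟨P.a0, P.a1, P.a2, P.m0, P.m1⟩

/-- a piece of the edges: kind `s`, first end in the piece `p` with shift `x + z t`, second end in the piece `q` with shift `y + v t`,
`w` tells that the second end is beyond `n`, `g` the sign of the difference, `d0 + d1 i + d2 t` the difference -/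
structure EP where
  s : ℕ
  p : ℕ
  x : ℤ
  z : ℤ
  q : ℕ
  y : ℤ
  v : ℤ
  w : ℤ
  g : ℤ
  d0 : ℤ
  d1 : ℤ
  d2 : ℤ
  m0 : ℤ
  m1 : ℤ

def EP.dif (E : EP) : Fm := ⟨E.d0, E.d1, E.d2, E.m0, E.m1⟩

def allPairs {α : Type} (r : α → α → Bool) : List α → Bool
  | [] => true
  | a :: l => l.all (r a) && allPairs r l

theorem pairwise_of_allPairs {α : Type} {r : α → α → Bool} {l : List α} (h : allPairs r l = true) :
    l.Pairwise fun a b => r a b = true := by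
  induction l with
  | nil => exact List.Pairwise.nil
  | cons a l ih =>
    unfold allPairs at h
    rw [Bool.and_eq_true, List.all_eq_true] at h
    exact List.Pairwise.cons h.1 (ih h.2)

def okV (n0 n1 : ℤ) (P : VP) : Bool :=
  decide (P.s < 2) && decide (P.p1 ≠ 0) && decide (1 ≤ P.m0) && decide (0 ≤ P.m1) &&
    (decide (P.a1 ≠ 0) || (decide (P.m0 = 1) && decide (P.m1 = 0))) &&
    decide (0 ≤ P.col.mn.1) && decide (0 ≤ P.col.mn.2) && ltb P.col.mx (n0, n1) &&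
    decide (0 ≤ P.lab.mn.1) && decide (0 ≤ P.lab.mn.2) &&
    decide (P.lab.mx.1 ≤ 3 * n0) && decide (P.lab.mx.2 ≤ 3 * n1)

def djV (P Q : VP) : Bool := dj P.lab Q.lab && (decide (P.s ≠ Q.s) || dj P.col Q.col)

def okE (k n0 n1 : ℤ) (V : List VP) (E : EP) : Bool :=
  match V[E.p]?, V[E.q]? with
  | some P, some Q =>
    decide (E.s < 3) && decide (1 ≤ E.m0) && decide (0 ≤ E.m1) &&
    decide (P.s = if E.s = 2 then 1 else 0) && decide (Q.s = if E.s = 0 then 0 else 1) &&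
    decide (0 ≤ E.x) && decide (0 ≤ E.z) && decide (E.m0 + E.x ≤ P.m0) && decide (E.m1 + E.z ≤ P.m1) &&
    decide (0 ≤ E.y) && decide (0 ≤ E.v) && decide (E.m0 + E.y ≤ Q.m0) && decide (E.m1 + E.v ≤ Q.m1) &&
    (decide (E.w = 0) || decide (E.w = 1)) && (decide (E.g = 1) || decide (E.g = -1)) &&
    decide (Q.p0 + Q.p1 * E.y + E.w * n0 = P.p0 + P.p1 * E.x + (if E.s = 0 then 1 else if E.s = 1 then 0 else k)) &&
    decide (Q.p2 + Q.p1 * E.v + E.w * n1 = P.p2 + P.p1 * E.z) &&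
    decide (E.d0 = E.g * (P.a0 + P.a1 * E.x - Q.a0 - Q.a1 * E.y)) &&
    decide (E.d2 = E.g * (P.a2 + P.a1 * E.z - Q.a2 - Q.a1 * E.v)) &&
    ((decide (P.p1 = Q.p1) && decide (E.d1 = E.g * (P.a1 - Q.a1)) && decide (E.d1 ≠ 0)) ||
      (decide (E.m0 = 1) && decide (E.m1 = 0) && decide (E.d1 = 0))) &&
    decide (1 ≤ E.dif.mn.1) && decide (0 ≤ E.dif.mn.2)
  | _, _ => false

def sumV (f : VP → ℤ) (V : List VP) : ℤ := (V.map f).sum

def chk (k n0 n1 : ℤ) (V : List VP) (W : List EP) : Bool :=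
  decide (2 ≤ n0) && decide (0 ≤ n1) && decide (0 ≤ k) && decide (k < n0) &&
    V.all (okV n0 n1) && W.all (okE k n0 n1 V) &&
    decide ((V.map VP.m0).sum = 2 * n0) && decide ((V.map VP.m1).sum = 2 * n1) &&
    decide ((W.map EP.m0).sum = 3 * n0) && decide ((W.map EP.m1).sum = 3 * n1) &&
    allPairs djV V && allPairs (fun E F => dj E.dif F.dif) W


/-! ### soundness -/

theorem count_surj {α : Type} (l : List α) (hl : l.Nodup) (cnt : α → ℤ) (φ : α → ℤ → ℕ × ℤ)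
    (hc : ∀ x ∈ l, 0 ≤ cnt x)
    (hinj : ∀ x ∈ l, ∀ y ∈ l, ∀ i j : ℤ, 0 ≤ i → i < cnt x → 0 ≤ j → j < cnt y → φ x i = φ y j → x = y ∧ i = j)
    (S : ℕ) (n : ℤ) (hn : 0 ≤ n)
    (hr : ∀ x ∈ l, ∀ i : ℤ, 0 ≤ i → i < cnt x → (φ x i).1 < S ∧ 0 ≤ (φ x i).2 ∧ (φ x i).2 < n)
    (hsum : (l.map cnt).sum = S * n) {s : ℕ} (hs : s < S) {c : ℤ} (h0 : 0 ≤ c) (h1 : c < n) :
    ∃ x ∈ l, ∃ i : ℤ, 0 ≤ i ∧ i < cnt x ∧ φ x i = (s, c) := by
  classical
  obtain ⟨T, hT⟩ : ∃ T : Finset (Σ _ : α, ℤ), T = l.toFinset.sigma fun x => Finset.Ico 0 (cnt x) := ⟨_, rfl⟩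
  have hmem : ∀ z : (Σ _ : α, ℤ), z ∈ T ↔ z.1 ∈ l ∧ 0 ≤ z.2 ∧ z.2 < cnt z.1 := by
    intro z
    rw [hT, Finset.mem_sigma, List.mem_toFinset, Finset.mem_Ico]
  have hcard : (T.card : ℤ) = S * n := by
    rw [hT, Finset.card_sigma, ← hsum, ← List.sum_toFinset cnt hl]
    push_cast
    refine Finset.sum_congr rfl fun x hx => ?_
    rw [Int.card_Ico, sub_zero, Int.toNat_of_nonneg (hc x (List.mem_toFinset.1 hx))]
  have hsurj : Set.SurjOn (fun z : (Σ _ : α, ℤ) => φ z.1 z.2) T (Finset.range S ×ˢ Finset.Ico 0 n : Finset (ℕ × ℤ)) := by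
    refine Finset.surjOn_of_injOn_of_card_le _ ?_ ?_ ?_
    · intro z hz
      have h2 := (hmem z).1 (Finset.mem_coe.1 hz)
      have h3 := hr z.1 h2.1 z.2 h2.2.1 h2.2.2
      rw [Finset.mem_coe, Finset.mem_product, Finset.mem_range, Finset.mem_Ico]
      exact h3
    · rintro ⟨x, i⟩ hz ⟨y, j⟩ hz' he
      have h2 := (hmem _).1 (Finset.mem_coe.1 hz)
      have h2' := (hmem _).1 (Finset.mem_coe.1 hz')
      obtain ⟨h3, h4⟩ := hinj x h2.1 y h2'.1 i j h2.2.1 h2.2.2 h2'.2.1 h2'.2.2 he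
      subst h3
      subst h4
      rfl
    · rw [Finset.card_product, Finset.card_range, Int.card_Ico, sub_zero]
      have h2 : ((S * n.toNat : ℕ) : ℤ) = T.card := by
        rw [hcard]
        push_cast
        rw [Int.toNat_of_nonneg hn]
      exact le_of_eq (by exact_mod_cast h2)
  have h2 : ((s, c) : ℕ × ℤ) ∈ ((Finset.range S ×ˢ Finset.Ico 0 n : Finset (ℕ × ℤ)) : Set (ℕ × ℤ)) := by
    rw [Finset.mem_coe, Finset.mem_product, Finset.mem_range, Finset.mem_Ico]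
    exact ⟨hs, h0, h1⟩
  obtain ⟨z, hz, he⟩ := hsurj h2
  have h3 := (hmem z).1 (Finset.mem_coe.1 hz)
  exact ⟨z.1, h3.1, z.2, h3.2.1, h3.2.2, he⟩

theorem graceful_of_inj (n k : ℕ) (hn : 2 ≤ n) (hk : k < n) (u v : ℕ → ℕ)
    (hu : ∀ i < n, ∀ j < n, u i = u j → i = j)
    (hv : ∀ i < n, ∀ j < n, v i = v j → i = j)
    (huv : ∀ i < n, ∀ j < n, u i ≠ v j)
    (bu : ∀ i < n, u i ≤ 3 * n) (bv : ∀ i < n, v i ≤ 3 * n)
    (hpos : ∀ (s : Fin 3), ∀ i < n, 1 ≤ dif u v n k s i)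
    (hinj : ∀ (s s' : Fin 3), ∀ i < n, ∀ j < n, dif u v n k s i = dif u v n k s' j → s = s' ∧ i = j) :
    IsGraceful (genPetersen n k) := by
  refine graceful_of_labels n k hn hk u v hu hv huv bu bv fun d h1 h2 => ?_
  have hle : ∀ (s : Fin 3), ∀ i < n, dif u v n k s i ≤ 3 * n := by
    intro s i hi
    have h3 := shiftIdx_lt (n := n) (k := 1) (i := i) hi (by omega)
    have h4 := shiftIdx_lt (n := n) (k := k) (i := i) hi hk.le
    have h5 := bu i hi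
    have h6 := bv i hi
    have h7 := bu _ h3
    have h8 := bv _ h4
    fin_cases s
    · simp only [dif]
      omega
    · simp only [dif]
      omega
    · simp only [dif]
      omega
  have hsurj : Set.SurjOn (fun z : Fin 3 × ℕ => dif u v n k z.1 z.2)
      ((Finset.univ ×ˢ Finset.range n : Finset (Fin 3 × ℕ)) : Set (Fin 3 × ℕ)) (Finset.Icc 1 (3 * n) : Finset ℕ) := by
    refine Finset.surjOn_of_injOn_of_card_le _ ?_ ?_ ?_
    · rintro ⟨s, i⟩ hz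
      rw [Finset.mem_coe, Finset.mem_product, Finset.mem_range] at hz
      rw [Finset.mem_coe, Finset.mem_Icc]
      exact ⟨hpos s i hz.2, hle s i hz.2⟩
    · rintro ⟨s, i⟩ hz ⟨s', j⟩ hz' he
      rw [Finset.mem_coe, Finset.mem_product, Finset.mem_range] at hz hz'
      obtain ⟨h3, h4⟩ := hinj s s' i hz.2 j hz'.2 he
      rw [h3, h4]
    · rw [Nat.card_Icc, Finset.card_product, Finset.card_range, Finset.card_univ, Fintype.card_fin]
      omega
  obtain ⟨⟨s, i⟩, hz, he⟩ := hsurj (Finset.mem_coe.2 (Finset.mem_Icc.2 ⟨h1, h2⟩))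
  rw [Finset.mem_coe, Finset.mem_product, Finset.mem_range] at hz
  exact ⟨s, i, hz.2, he⟩


section Sound

variable {n0 n1 : ℕ} {k t : ℕ} {V : List VP} {W : List EP}

structure OkV (n0 n1 : ℤ) (P : VP) : Prop where
  s : P.s < 2
  p1 : P.p1 ≠ 0
  m0 : 1 ≤ P.m0
  m1 : 0 ≤ P.m1
  a1 : P.a1 ≠ 0 ∨ (P.m0 = 1 ∧ P.m1 = 0)
  c1 : 0 ≤ P.col.mn.1
  c2 : 0 ≤ P.col.mn.2
  c3 : ltb P.col.mx (n0, n1) = true
  l1 : 0 ≤ P.lab.mn.1
  l2 : 0 ≤ P.lab.mn.2
  l3 : P.lab.mx.1 ≤ 3 * n0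
  l4 : P.lab.mx.2 ≤ 3 * n1

theorem okV_spec {n0 n1 : ℤ} {P : VP} (h : okV n0 n1 P = true) : OkV n0 n1 P := by
  unfold okV at h
  simp only [Bool.and_eq_true, Bool.or_eq_true, decide_eq_true_eq] at h
  obtain ⟨⟨⟨⟨⟨⟨⟨⟨⟨⟨⟨h1, h2⟩, h3⟩, h4⟩, h5⟩, h6⟩, h7⟩, h8⟩, h9⟩, h10⟩, h11⟩, h12⟩ := h
  exact ⟨h1, h2, h3, h4, h5, h6, h7, h8, h9, h10, h11, h12⟩

theorem OkV.cnt_pos {n0 n1 : ℤ} {P : VP} (h : OkV n0 n1 P) {T : ℤ} (hT : 0 ≤ T) : 1 ≤ P.m0 + P.m1 * T := by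
  have := mul_nonneg h.m1 hT
  linarith [h.m0]

theorem OkV.col_range {n0 n1 : ℤ} {P : VP} (h : OkV n0 n1 P) {T i : ℤ} (hT : 0 ≤ T) (h0 : 0 ≤ i) (h1 : i < P.m0 + P.m1 * T) :
    0 ≤ P.col.ev T i ∧ P.col.ev T i < n0 + n1 * T := by
  have h2 := P.col.mn_le (t := T) h0 h1
  have h3 := P.col.le_mx (t := T) h0 h1
  have h4 := lt_of_ltb h.c3 hT
  have h5 := mul_nonneg h.c2 hT
  have h6 := h.c1
  constructor
  · linarith
  · exact lt_of_le_of_lt h3 h4

theorem OkV.lab_range {n0 n1 : ℤ} {P : VP} (h : OkV n0 n1 P) {T i : ℤ} (hT : 0 ≤ T) (h0 : 0 ≤ i) (h1 : i < P.m0 + P.m1 * T) :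
    0 ≤ P.lab.ev T i ∧ P.lab.ev T i ≤ 3 * (n0 + n1 * T) := by
  have h2 := P.lab.mn_le (t := T) h0 h1
  have h3 := P.lab.le_mx (t := T) h0 h1
  have h5 := mul_nonneg h.l2 hT
  have h6 := h.l1
  have h7 := mul_le_mul_of_nonneg_right h.l4 hT
  have h8 := h.l3
  constructor <;> linarith

/-- the injectivity of the labels and of the columns -/
theorem V_inj {n0 n1 : ℤ} (hok : ∀ P ∈ V, OkV n0 n1 P) (hp : allPairs djV V = true) {T : ℤ} (hT : 0 ≤ T) {P Q : VP}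
    (hP : P ∈ V) (hQ : Q ∈ V) {i j : ℤ} (h0 : 0 ≤ i) (h1 : i < P.m0 + P.m1 * T) (h0' : 0 ≤ j) (h1' : j < Q.m0 + Q.m1 * T) :
    (P.lab.ev T i = Q.lab.ev T j → P = Q ∧ i = j) ∧ (P.s = Q.s → P.col.ev T i = Q.col.ev T j → P = Q ∧ i = j) := by
  by_cases hPQ : P = Q
  · subst hPQ
    constructor
    · intro he
      refine ⟨rfl, ?_⟩
      rcases (hok P hP).a1 with h | ⟨h, h'⟩
      · unfold Fm.ev VP.lab at he
        simp only at he
        have h2 : P.a1 * i = P.a1 * j := by linarith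
        exact mul_left_cancel₀ h h2
      · rw [h, h'] at h1 h1'
        omega
    · intro _ he
      refine ⟨rfl, ?_⟩
      unfold Fm.ev VP.col at he
      simp only at he
      have h2 : P.p1 * i = P.p1 * j := by linarith
      exact mul_left_cancel₀ (hok P hP).p1 h2
  · obtain ⟨R, hR⟩ : ∃ R : VP → VP → Prop, R = fun P Q => ∀ i j : ℤ, 0 ≤ i → i < P.m0 + P.m1 * T → 0 ≤ j → j < Q.m0 + Q.m1 * T →
        P.lab.ev T i ≠ Q.lab.ev T j ∧ (P.s = Q.s → P.col.ev T i ≠ Q.col.ev T j) := ⟨_, rfl⟩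
    have : Std.Symm R := ⟨by
      intro a b hab
      rw [hR] at hab ⊢
      intro i j hi hi' hj hj'
      have h2 := hab j i hj hj' hi hi'
      exact ⟨h2.1.symm, fun hs he => h2.2 hs.symm he.symm⟩⟩
    have h2 : V.Pairwise R := by
      refine (pairwise_of_allPairs hp).imp ?_
      intro a b hab
      rw [hR]
      intro i j hi hi' hj hj'
      unfold djV at hab
      rw [Bool.and_eq_true, Bool.or_eq_true, decide_eq_true_eq] at hab
      refine ⟨ne_of_dj hab.1 hT hi hi' hj hj', fun hs => ?_⟩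
      rcases hab.2 with h3 | h3
      · exact absurd hs h3
      · exact ne_of_dj h3 hT hi hi' hj hj'
    have h3 := h2.forall hP hQ hPQ
    rw [hR] at h3
    have h4 := h3 i j h0 h1 h0' h1'
    exact ⟨fun he => absurd he h4.1, fun hs he => absurd he (h4.2 hs)⟩

theorem V_nodup {n0 n1 : ℤ} (hok : ∀ P ∈ V, OkV n0 n1 P) (hp : allPairs djV V = true) : V.Nodup := by
  refine List.Pairwise.imp_of_mem ?_ (pairwise_of_allPairs hp)
  intro a b ha hb hab he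
  subst he
  unfold djV at hab
  rw [Bool.and_eq_true] at hab
  have h1 := (hok a ha).cnt_pos (le_refl (0 : ℤ))
  exact ne_of_dj hab.1 (le_refl (0 : ℤ)) (le_refl (0 : ℤ)) (by unfold Fm.cnt VP.lab; simp only; omega) (le_refl (0 : ℤ))
    (by unfold Fm.cnt VP.lab; simp only; omega) rfl

theorem sum_cnt {α : Type} (f g : α → ℤ) (T : ℤ) (l : List α) :
    (l.map fun x => f x + g x * T).sum = (l.map f).sum + (l.map g).sum * T := by
  induction l with
  | nil => simp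
  | cons a l ih =>
    simp only [List.map_cons, List.sum_cons, ih]
    ring

structure OkE (k n0 n1 : ℤ) (V : List VP) (E : EP) (P Q : VP) : Prop where
  hP : P ∈ V
  hQ : Q ∈ V
  hp : V[E.p]? = some P
  s : E.s < 3
  m0 : 1 ≤ E.m0
  m1 : 0 ≤ E.m1
  sP : P.s = if E.s = 2 then 1 else 0
  sQ : Q.s = if E.s = 0 then 0 else 1
  x0 : 0 ≤ E.x
  z0 : 0 ≤ E.z
  x1 : E.m0 + E.x ≤ P.m0
  x2 : E.m1 + E.z ≤ P.m1
  y0 : 0 ≤ E.y
  v0 : 0 ≤ E.v
  y1 : E.m0 + E.y ≤ Q.m0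
  y2 : E.m1 + E.v ≤ Q.m1
  w : E.w = 0 ∨ E.w = 1
  g : E.g = 1 ∨ E.g = -1
  c0 : Q.p0 + Q.p1 * E.y + E.w * n0 = P.p0 + P.p1 * E.x + (if E.s = 0 then 1 else if E.s = 1 then 0 else k)
  c2 : Q.p2 + Q.p1 * E.v + E.w * n1 = P.p2 + P.p1 * E.z
  d0 : E.d0 = E.g * (P.a0 + P.a1 * E.x - Q.a0 - Q.a1 * E.y)
  d2 : E.d2 = E.g * (P.a2 + P.a1 * E.z - Q.a2 - Q.a1 * E.v)
  d1 : (P.p1 = Q.p1 ∧ E.d1 = E.g * (P.a1 - Q.a1) ∧ E.d1 ≠ 0) ∨ (E.m0 = 1 ∧ E.m1 = 0 ∧ E.d1 = 0)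
  e1 : 1 ≤ E.dif.mn.1
  e2 : 0 ≤ E.dif.mn.2

theorem okE_spec {k n0 n1 : ℤ} {E : EP} (h : okE k n0 n1 V E = true) : ∃ P Q, OkE k n0 n1 V E P Q := by
  unfold okE at h
  split at h
  · rename_i P Q hP hQ
    simp only [Bool.and_eq_true, Bool.or_eq_true, decide_eq_true_eq] at h
    obtain ⟨⟨⟨⟨⟨⟨⟨⟨⟨⟨⟨⟨⟨⟨⟨⟨⟨⟨⟨⟨⟨h1, h2⟩, h3⟩, h4⟩, h5⟩, h6⟩, h21⟩, h7⟩, h8⟩, h9⟩, h22⟩, h10⟩, h11⟩, h12⟩, h13⟩, h14⟩, h15⟩, h16⟩, h17⟩,
      h18⟩, h19⟩, h20⟩ := h
    refine ⟨P, Q, ⟨List.mem_of_getElem? hP, List.mem_of_getElem? hQ, hP, h1, h2, h3, h4, h5, h6, h21, h7, h8, h9, h22, h10, h11, h12, h13,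
      h14, h15, h16, h17, ?_, h19, h20⟩⟩
    rcases h18 with ⟨⟨a, b⟩, c⟩ | ⟨⟨a, b⟩, c⟩
    · exact Or.inl ⟨a, b, c⟩
    · exact Or.inr ⟨a, b, c⟩
  · exact absurd h (by simp)


theorem OkE.ranges {k n0 n1 : ℤ} {E : EP} {P Q : VP} (h : OkE k n0 n1 V E P Q) {T i : ℤ} (hT : 0 ≤ T) (h0 : 0 ≤ i)
    (h1 : i < E.m0 + E.m1 * T) :
    (0 ≤ i + (E.x + E.z * T) ∧ i + (E.x + E.z * T) < P.m0 + P.m1 * T) ∧
      (0 ≤ i + (E.y + E.v * T) ∧ i + (E.y + E.v * T) < Q.m0 + Q.m1 * T) := by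
  have h2 := mul_le_mul_of_nonneg_right h.x2 hT
  have h3 := mul_le_mul_of_nonneg_right h.y2 hT
  have h4 := h.x0
  have h5 := h.x1
  have h6 := h.y0
  have h7 := h.y1
  have h8 := mul_nonneg h.z0 hT
  have h9 := mul_nonneg h.v0 hT
  rw [add_mul] at h2 h3
  exact ⟨⟨by linarith, by linarith⟩, ⟨by linarith, by linarith⟩⟩

theorem OkE.col_eq {k n0 n1 : ℤ} {E : EP} {P Q : VP} (h : OkE k n0 n1 V E P Q) {T i : ℤ} (h0 : 0 ≤ i)
    (h1 : i < E.m0 + E.m1 * T) :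
    Q.col.ev T (i + (E.y + E.v * T)) = P.col.ev T (i + (E.x + E.z * T)) + (if E.s = 0 then 1 else if E.s = 1 then 0 else k) -
      E.w * (n0 + n1 * T) := by
  have h2 := h.c0
  have h3 := h.c2
  unfold Fm.ev VP.col
  simp only
  rcases h.d1 with ⟨h4, -, -⟩ | ⟨h4, h5, -⟩
  · rw [h4] at h2 h3 ⊢
    linear_combination h2 + T * h3
  · rw [h4, h5] at h1
    have h6 : i = 0 := by omega
    rw [h6]
    linear_combination h2 + T * h3

theorem OkE.val_eq {k n0 n1 : ℤ} {E : EP} {P Q : VP} (h : OkE k n0 n1 V E P Q) {T i : ℤ} (h0 : 0 ≤ i)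
    (h1 : i < E.m0 + E.m1 * T) :
    E.dif.ev T i = E.g * (P.lab.ev T (i + (E.x + E.z * T)) - Q.lab.ev T (i + (E.y + E.v * T))) := by
  have h2 := h.d0
  have h3 := h.d2
  unfold Fm.ev VP.lab EP.dif
  simp only
  rcases h.d1 with ⟨-, h5, -⟩ | ⟨h4, h5, h6⟩
  · rw [h2, h3, h5]
    ring
  · rw [h4, h5] at h1
    have h7 : i = 0 := by omega
    rw [h7, h2, h3, h6]
    ring

theorem OkE.pos {k n0 n1 : ℤ} {E : EP} {P Q : VP} (h : OkE k n0 n1 V E P Q) {T i : ℤ} (hT : 0 ≤ T) (h0 : 0 ≤ i)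
    (h1 : i < E.m0 + E.m1 * T) : 1 ≤ E.dif.ev T i := by
  have h2 := E.dif.mn_le (t := T) h0 h1
  have h3 := mul_nonneg h.e2 hT
  have h4 := h.e1
  linarith

theorem W_inj (hok : ∀ E ∈ W, 1 ≤ E.m0 ∧ (E.d1 ≠ 0 ∨ (E.m0 = 1 ∧ E.m1 = 0)))
    (hp : allPairs (fun E F : EP => dj E.dif F.dif) W = true) {T : ℤ} (hT : 0 ≤ T) {E F : EP}
    (hE : E ∈ W) (hF : F ∈ W) {i j : ℤ} (h0 : 0 ≤ i) (h1 : i < E.m0 + E.m1 * T) (h0' : 0 ≤ j) (h1' : j < F.m0 + F.m1 * T)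
    (he : E.dif.ev T i = F.dif.ev T j) : E = F ∧ i = j := by
  by_cases hEF : E = F
  · subst hEF
    refine ⟨rfl, ?_⟩
    rcases (hok E hE).2 with h | ⟨h, h'⟩
    · unfold Fm.ev EP.dif at he
      simp only at he
      have h2 : E.d1 * i = E.d1 * j := by linarith
      exact mul_left_cancel₀ h h2
    · rw [h, h'] at h1 h1'
      omega
  · obtain ⟨R, hR⟩ : ∃ R : EP → EP → Prop, R = fun P Q => ∀ i j : ℤ, 0 ≤ i → i < P.m0 + P.m1 * T → 0 ≤ j → j < Q.m0 + Q.m1 * T →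
        P.dif.ev T i ≠ Q.dif.ev T j := ⟨_, rfl⟩
    have : Std.Symm R := ⟨by
      intro a b hab
      rw [hR] at hab ⊢
      intro i j hi hi' hj hj'
      exact (hab j i hj hj' hi hi').symm⟩
    have h2 : W.Pairwise R := by
      refine (pairwise_of_allPairs hp).imp ?_
      intro a b hab
      rw [hR]
      intro i j hi hi' hj hj'
      exact ne_of_dj hab hT hi hi' hj hj'
    have h3 := h2.forall hE hF hEF
    rw [hR] at h3
    exact absurd he (h3 i j h0 h1 h0' h1')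

theorem W_nodup (hok : ∀ E ∈ W, 1 ≤ E.m0 ∧ (E.d1 ≠ 0 ∨ (E.m0 = 1 ∧ E.m1 = 0)))
    (hp : allPairs (fun E F : EP => dj E.dif F.dif) W = true) : W.Nodup := by
  refine List.Pairwise.imp_of_mem ?_ (pairwise_of_allPairs hp)
  intro a b ha hb hab he
  subst he
  have h1 := (hok a ha).1
  exact ne_of_dj hab (le_refl (0 : ℤ)) (le_refl (0 : ℤ)) (by unfold Fm.cnt EP.dif; simp only; omega) (le_refl (0 : ℤ))
    (by unfold Fm.cnt EP.dif; simp only; omega) rfl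

theorem sound (h : chk (k : ℤ) (n0 : ℤ) (n1 : ℤ) V W = true) (t : ℕ) : IsGraceful (genPetersen (n0 + n1 * t) k) := by
  unfold chk at h
  simp only [Bool.and_eq_true, decide_eq_true_eq, List.all_eq_true] at h
  obtain ⟨⟨⟨⟨⟨⟨⟨⟨⟨⟨⟨hn2, -⟩, -⟩, hk⟩, hV⟩, hW⟩, hs1⟩, hs2⟩, hs3⟩, hs4⟩, hpV⟩, hpW⟩ := h
  have hok : ∀ P ∈ V, OkV n0 n1 P := fun P hP => okV_spec (hV P hP)
  obtain ⟨T, hT⟩ : ∃ T : ℤ, T = (t : ℤ) := ⟨_, rfl⟩
  have hT0 : 0 ≤ T := by omega
  obtain ⟨N, hN⟩ : ∃ N : ℕ, N = n0 + n1 * t := ⟨_, rfl⟩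
  have hNT : (N : ℤ) = n0 + n1 * T := by
    rw [hN, hT]
    push_cast
    ring
  have hNn : n0 ≤ N := by
    rw [hN]
    exact Nat.le_add_right _ _
  rw [← hN]
  have hcov : ∀ s < 2, ∀ c : ℤ, 0 ≤ c → c < N →
      ∃ P ∈ V, ∃ i : ℤ, 0 ≤ i ∧ i < P.m0 + P.m1 * T ∧ P.s = s ∧ P.col.ev T i = c := by
    intro s hs c h0 h1
    obtain ⟨P, hP, i, h2, h3, h4⟩ := count_surj V (V_nodup hok hpV) (fun P => P.m0 + P.m1 * T)
      (fun P i => (P.s, P.col.ev T i)) (fun P hP => le_trans (by norm_num) ((hok P hP).cnt_pos hT0))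
      (fun P hP Q hQ i j h0 h1 h0' h1' he =>
        (V_inj hok hpV hT0 hP hQ h0 h1 h0' h1').2 (congrArg Prod.fst he) (congrArg Prod.snd he)) 2 N (by omega)
      (fun P hP i h0 h1 => ⟨(hok P hP).s, by rw [hNT]; exact (hok P hP).col_range hT0 h0 h1⟩)
      (by rw [sum_cnt, hs1, hs2, hNT]; push_cast; ring) hs h0 h1
    exact ⟨P, hP, i, h2, h3, congrArg Prod.fst h4, congrArg Prod.snd h4⟩
  have hex : ∀ s c : ℕ, ∃ l : ℕ, s < 2 → c < N → ∃ P ∈ V, ∃ i : ℤ, 0 ≤ i ∧ i < P.m0 + P.m1 * T ∧ P.s = s ∧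
      P.col.ev T i = c ∧ P.lab.ev T i = l := by
    intro s c
    by_cases hsc : s < 2 ∧ c < N
    · obtain ⟨P, hP, i, h2, h3, h4, h5⟩ := hcov s hsc.1 c (by omega) (by exact_mod_cast hsc.2)
      have h6 := (hok P hP).lab_range hT0 h2 h3
      exact ⟨(P.lab.ev T i).toNat, fun _ _ => ⟨P, hP, i, h2, h3, h4, h5, (Int.toNat_of_nonneg h6.1).symm⟩⟩
    · exact ⟨0, fun h1 h2 => absurd ⟨h1, h2⟩ hsc⟩
  choose L hL using hex
  have hLP : ∀ P ∈ V, ∀ i : ℤ, 0 ≤ i → i < P.m0 + P.m1 * T → ∀ c : ℕ, P.col.ev T i = c →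
      (L P.s c : ℤ) = P.lab.ev T i := by
    intro P hP i h0 h1 c hc
    have h2 := (hok P hP).col_range hT0 h0 h1
    rw [← hNT, hc] at h2
    obtain ⟨Q, hQ, j, h3, h4, h5, h6, h7⟩ := hL P.s c (hok P hP).s (by exact_mod_cast h2.2)
    obtain ⟨h8, h9⟩ := (V_inj hok hpV hT0 hP hQ h0 h1 h3 h4).2 h5.symm (by rw [hc, h6])
    rw [← h7, h8, h9]
  -- the edges
  have hWok : ∀ E ∈ W, ∃ P Q, OkE k n0 n1 V E P Q := fun E hE => okE_spec (hW E hE)
  have hW1 : ∀ E ∈ W, 1 ≤ E.m0 ∧ (E.d1 ≠ 0 ∨ (E.m0 = 1 ∧ E.m1 = 0)) := by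
    intro E hE
    obtain ⟨P, Q, h⟩ := hWok E hE
    refine ⟨h.m0, ?_⟩
    rcases h.d1 with ⟨-, -, h2⟩ | ⟨h2, h3, -⟩
    · exact Or.inl h2
    · exact Or.inr ⟨h2, h3⟩
  have hE : ∀ E ∈ W, ∀ P Q, OkE k n0 n1 V E P Q → ∀ i : ℤ, 0 ≤ i → i < E.m0 + E.m1 * T → ∀ c : ℕ,
      P.col.ev T (i + (E.x + E.z * T)) = c → ∀ s : Fin 3, s.val = E.s → (dif (L 0) (L 1) N k s c : ℤ) = E.dif.ev T i := by
    intro E _ P Q h i h0 h1 c hc s hs
    obtain ⟨⟨hx0, hx1⟩, hy0, hy1⟩ := h.ranges hT0 h0 h1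
    have hcr := (hok P h.hP).col_range hT0 hx0 hx1
    have hqr := (hok Q h.hQ).col_range hT0 hy0 hy1
    rw [← hNT] at hcr hqr
    obtain ⟨q, hq⟩ : ∃ q : ℕ, Q.col.ev T (i + (E.y + E.v * T)) = q := ⟨_, (Int.toNat_of_nonneg hqr.1).symm⟩
    have hqc := h.col_eq h0 h1
    rw [← hNT, hq, hc] at hqc
    rw [hc] at hcr
    rw [hq] at hqr
    have hLc := hLP P h.hP _ hx0 hx1 c hc
    have hLq := hLP Q h.hQ _ hy0 hy1 q hq
    have hv := h.val_eq h0 h1
    have hpos := h.pos hT0 h0 h1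
    rw [← hLc, ← hLq] at hv
    have hsP := h.sP
    have hsQ := h.sQ
    have hcN : c < N := by exact_mod_cast hcr.2
    have hqN : q < N := by exact_mod_cast hqr.2
    have hkN : k < N := by omega
    rw [← hs] at hsP hsQ hqc
    rw [hv]
    rw [hv] at hpos
    have habs : ∀ a b : ℕ, 1 ≤ E.g * ((a : ℤ) - b) → ((((a : ℤ) - b).natAbs : ℕ) : ℤ) = E.g * ((a : ℤ) - b) := by
      intro a b hab
      rcases h.g with hg | hg
      · rw [hg] at hab ⊢
        omega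
      · rw [hg] at hab ⊢
        omega
    fin_cases s
    · simp only [if_true] at hsP hsQ hqc
      have hsP' : P.s = 0 := by simpa using hsP
      rw [hsP', hsQ] at hpos ⊢
      have hsh : shiftIdx N 1 c = q := by
        unfold shiftIdx
        rcases h.w with hw | hw
        · rw [hw] at hqc
          split_ifs <;> omega
        · rw [hw] at hqc
          split_ifs <;> omega
      simp only [dif]
      rw [hsh]
      exact habs _ _ hpos
    · have hsP' : P.s = 0 := by simpa using hsP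
      have hsQ' : Q.s = 1 := by simpa using hsQ
      have hqc' : (q : ℤ) = c + 0 - E.w * N := by simpa using hqc
      have hqq : q = c := by
        rcases h.w with hw | hw
        · rw [hw] at hqc'
          omega
        · rw [hw] at hqc'
          omega
      rw [hsP', hsQ', hqq] at hpos ⊢
      simp only [dif]
      exact habs _ _ hpos
    · simp only [if_true] at hsP hsQ hqc
      have hsP' : P.s = 1 := by simpa using hsP
      have hsQ' : Q.s = 1 := by simpa using hsQ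
      have hqc' : (q : ℤ) = c + k - E.w * N := by simpa using hqc
      rw [hsP', hsQ'] at hpos ⊢
      have hsh : shiftIdx N k c = q := by
        unfold shiftIdx
        rcases h.w with hw | hw
        · rw [hw] at hqc'
          split_ifs <;> omega
        · rw [hw] at hqc'
          split_ifs <;> omega
      simp only [dif]
      rw [hsh]
      exact habs _ _ hpos
  obtain ⟨φ, hφ⟩ : ∃ φ : EP → ℤ → ℕ × ℤ,
    φ = fun E i => (E.s, (V[E.p]?).elim 0 fun P => P.col.ev T (i + (E.x + E.z * T))) := ⟨_, rfl⟩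
  have hφ' : ∀ E P Q, OkE k n0 n1 V E P Q → ∀ i, φ E i = (E.s, P.col.ev T (i + (E.x + E.z * T))) := by
    intro E P Q h i
    rw [hφ]
    simp only [h.hp, Option.elim_some]
  have hφinj : ∀ E ∈ W, ∀ F ∈ W, ∀ i j : ℤ, 0 ≤ i → i < E.m0 + E.m1 * T → 0 ≤ j → j < F.m0 + F.m1 * T →
      φ E i = φ F j → E = F ∧ i = j := by
    intro E hEm F hFm i j h0 h1 h0' h1' he
    obtain ⟨P, Q, hP⟩ := hWok E hEm
    obtain ⟨P', Q', hP'⟩ := hWok F hFm
    rw [hφ' E P Q hP, hφ' F P' Q' hP'] at he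
    have he1 : E.s = F.s := congrArg Prod.fst he
    have he2 : P.col.ev T (i + (E.x + E.z * T)) = P'.col.ev T (j + (F.x + F.z * T)) := congrArg Prod.snd he
    have hr := (hok P hP.hP).col_range hT0 (hP.ranges hT0 h0 h1).1.1 (hP.ranges hT0 h0 h1).1.2
    obtain ⟨c, hc⟩ : ∃ c : ℕ, P.col.ev T (i + (E.x + E.z * T)) = c := ⟨_, (Int.toNat_of_nonneg hr.1).symm⟩
    have h2 := hE E hEm P Q hP i h0 h1 c hc ⟨E.s, hP.s⟩ rfl
    have h3 := hE F hFm P' Q' hP' j h0' h1' c (by rw [← he2, hc]) ⟨E.s, hP.s⟩ he1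
    exact W_inj hW1 hpW hT0 hEm hFm h0 h1 h0' h1' (by rw [← h2, ← h3])
  have hEcov : ∀ s : Fin 3, ∀ c < N, ∃ E ∈ W, ∃ P Q, OkE k n0 n1 V E P Q ∧ ∃ i : ℤ, 0 ≤ i ∧ i < E.m0 + E.m1 * T ∧
      s.val = E.s ∧ P.col.ev T (i + (E.x + E.z * T)) = c := by
    intro s c hc
    obtain ⟨E, hEm, i, h2, h3, h4⟩ := count_surj W (W_nodup hW1 hpW) (fun E => E.m0 + E.m1 * T) φ
      (fun E hEm => by
        obtain ⟨P, Q, h⟩ := hWok E hEm
        have := mul_nonneg h.m1 hT0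
        have := h.m0
        omega) hφinj 3 N (by omega)
      (fun E hEm i h0 h1 => by
        obtain ⟨P, Q, h⟩ := hWok E hEm
        rw [hφ' E P Q h]
        refine ⟨h.s, ?_⟩
        rw [hNT]
        exact (hok P h.hP).col_range hT0 (h.ranges hT0 h0 h1).1.1 (h.ranges hT0 h0 h1).1.2)
      (by rw [sum_cnt, hs3, hs4, hNT]; push_cast; ring) s.isLt (c := (c : ℤ)) (by omega) (by exact_mod_cast hc)
    obtain ⟨P, Q, h⟩ := hWok E hEm
    rw [hφ' E P Q h] at h4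
    exact ⟨E, hEm, P, Q, h, i, h2, h3, (congrArg Prod.fst h4).symm, congrArg Prod.snd h4⟩
  have hLinj : ∀ s s' c c' : ℕ, s < 2 → s' < 2 → c < N → c' < N → L s c = L s' c' → s = s' ∧ c = c' := by
    intro s s' c c' hs hs' hc hc' he
    obtain ⟨P, hP, i, h2, h3, h4, h5, h6⟩ := hL s c hs hc
    obtain ⟨Q, hQ, j, h2', h3', h4', h5', h6'⟩ := hL s' c' hs' hc'
    obtain ⟨h8, h9⟩ := (V_inj hok hpV hT0 hP hQ h2 h3 h2' h3').1 (by rw [h6, h6', he])
    subst h8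
    subst h9
    exact ⟨by rw [← h4, ← h4'], by exact_mod_cast h5.symm.trans h5'⟩
  have hLb : ∀ s c : ℕ, s < 2 → c < N → L s c ≤ 3 * N := by
    intro s c hs hc
    obtain ⟨P, hP, i, h2, h3, h4, h5, h6⟩ := hL s c hs hc
    have h7 := ((hok P hP).lab_range hT0 h2 h3).2
    rw [← hNT, h6] at h7
    exact_mod_cast h7
  refine graceful_of_inj N k (by omega) (by omega) (L 0) (L 1) (fun i hi j hj h => (hLinj 0 0 i j (by norm_num) (by norm_num) hi hj h).2)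
    (fun i hi j hj h => (hLinj 1 1 i j (by norm_num) (by norm_num) hi hj h).2)
    (fun i hi j hj h => absurd (hLinj 0 1 i j (by norm_num) (by norm_num) hi hj h).1 (by norm_num))
    (fun i hi => hLb 0 i (by norm_num) hi) (fun i hi => hLb 1 i (by norm_num) hi) ?_ ?_
  · intro s c hc
    obtain ⟨E, hEm, P, Q, h, i, h2, h3, h4, h5⟩ := hEcov s c hc
    have h6 := hE E hEm P Q h i h2 h3 c h5 s h4
    have h7 := h.pos hT0 h2 h3
    rw [← h6] at h7
    exact_mod_cast h7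
  · intro s s' c hc c' hc' he
    obtain ⟨E, hEm, P, Q, h, i, h2, h3, h4, h5⟩ := hEcov s c hc
    obtain ⟨F, hFm, P', Q', h', j, h2', h3', h4', h5'⟩ := hEcov s' c' hc'
    have h6 := hE E hEm P Q h i h2 h3 c h5 s h4
    have h6' := hE F hFm P' Q' h' j h2' h3' c' h5' s' h4'
    obtain ⟨h8, h9⟩ := W_inj hW1 hpW hT0 hEm hFm h2 h3 h2' h3' (by rw [← h6, ← h6', he])
    subst h8
    subst h9
    refine ⟨Fin.ext (by rw [h4, h4']), ?_⟩
    have h10 : P = P' := by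
      have := h.hp.symm.trans h'.hp
      exact Option.some.inj this
    subst h10
    exact_mod_cast h5.symm.trans h5'

end Sound

/-! ### single graphs -/

def smallChk (n k : ℕ) (U V D : List ℕ) : Bool :=
  decide (2 ≤ n) && decide (k < n) && decide (U.length = n) && decide (V.length = n) &&
    allPairs (fun a b => !(Nat.beq a b)) (U ++ V) && (U ++ V).all (fun a => Nat.ble a (3 * n)) &&
    decide (D = (List.range n).map (fun i => dif (fun j => U.getD j 0) (fun j => V.getD j 0) n k 0 i) ++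
      ((List.range n).map (fun i => dif (fun j => U.getD j 0) (fun j => V.getD j 0) n k 1 i) ++
      (List.range n).map (fun i => dif (fun j => U.getD j 0) (fun j => V.getD j 0) n k 2 i))) &&
    allPairs (fun a b => !(Nat.beq a b)) D && D.all (fun a => Nat.ble 1 a)

theorem nodup_of_allPairs {l : List ℕ} (h : allPairs (fun a b => !(Nat.beq a b)) l = true) : l.Nodup := by
  refine (pairwise_of_allPairs h).imp ?_
  intro a b hab he
  rw [he, Bool.not_eq_true'] at hab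
  have h2 : Nat.beq b b = true := Nat.beq_refl b
  rw [h2] at hab
  exact absurd hab (by simp)

theorem small_sound {n k : ℕ} {U V D : List ℕ} (h : smallChk n k U V D = true) : IsGraceful (genPetersen n k) := by
  unfold smallChk at h
  simp only [Bool.and_eq_true, decide_eq_true_eq, List.all_eq_true] at h
  obtain ⟨⟨⟨⟨⟨⟨⟨⟨h1, h2⟩, h3⟩, h4⟩, h5⟩, h6⟩, h7⟩, h8⟩, h9⟩ := h
  obtain ⟨u, hu⟩ : ∃ u : ℕ → ℕ, u = fun j => U.getD j 0 := ⟨_, rfl⟩
  obtain ⟨v, hv⟩ : ∃ v : ℕ → ℕ, v = fun j => V.getD j 0 := ⟨_, rfl⟩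
  rw [← hu, ← hv] at h7
  have h5 := nodup_of_allPairs h5
  have h8 := nodup_of_allPairs h8
  rw [h7] at h8
  have hU : ∀ i < n, ∃ hi : i < U.length, u i = U[i] := by
    intro i hi
    refine ⟨by omega, ?_⟩
    rw [hu]
    exact List.getD_eq_getElem _ _ _
  have hV : ∀ i < n, ∃ hi : i < V.length, v i = V[i] := by
    intro i hi
    refine ⟨by omega, ?_⟩
    rw [hv]
    exact List.getD_eq_getElem _ _ _
  obtain ⟨hUn, hVn, hUV⟩ := List.nodup_append.1 h5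
  have hD : ∀ s : Fin 3, ∀ i < n, dif u v n k s i ∈ D := by
    intro s i hi
    rw [h7]
    fin_cases s
    · exact List.mem_append_left _ (List.mem_map_of_mem (List.mem_range.2 hi))
    · exact List.mem_append_right _ (List.mem_append_left _ (List.mem_map_of_mem (List.mem_range.2 hi)))
    · exact List.mem_append_right _ (List.mem_append_right _ (List.mem_map_of_mem (List.mem_range.2 hi)))
  obtain ⟨hD0, hD12, hd0⟩ := List.nodup_append.1 h8
  obtain ⟨hD1, hD2, hd1⟩ := List.nodup_append.1 hD12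
  have hm : ∀ s : Fin 3, ∀ i < n, dif u v n k s i ∈ (List.range n).map (fun i => dif u v n k s i) := fun s i hi =>
    List.mem_map_of_mem (List.mem_range.2 hi)
  have hk1 : ∀ s : Fin 3, ((List.range n).map (fun i => dif u v n k s i)).Nodup := by
    intro s
    fin_cases s
    · exact hD0
    · exact hD1
    · exact hD2
  have hij : ∀ s : Fin 3, ∀ i < n, ∀ j < n, dif u v n k s i = dif u v n k s j → i = j := fun s i hi j hj he =>
    List.inj_on_of_nodup_map (hk1 s) (List.mem_range.2 hi) (List.mem_range.2 hj) he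
  refine graceful_of_inj n k h1 h2 u v ?_ ?_ ?_ ?_ ?_ ?_ ?_
  · intro i hi j hj he
    obtain ⟨hi', h10⟩ := hU i hi
    obtain ⟨hj', h11⟩ := hU j hj
    rw [h10, h11] at he
    exact (List.Nodup.getElem_inj_iff hUn).1 he
  · intro i hi j hj he
    obtain ⟨hi', h10⟩ := hV i hi
    obtain ⟨hj', h11⟩ := hV j hj
    rw [h10, h11] at he
    exact (List.Nodup.getElem_inj_iff hVn).1 he
  · intro i hi j hj he
    obtain ⟨hi', h10⟩ := hU i hi
    obtain ⟨hj', h11⟩ := hV j hj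
    rw [h10, h11] at he
    exact hUV _ (List.getElem_mem hi') _ (List.getElem_mem hj') he
  · intro i hi
    obtain ⟨hi', h10⟩ := hU i hi
    rw [h10]
    exact Nat.le_of_ble_eq_true (h6 _ (List.mem_append_left _ (List.getElem_mem hi')))
  · intro i hi
    obtain ⟨hi', h10⟩ := hV i hi
    rw [h10]
    exact Nat.le_of_ble_eq_true (h6 _ (List.mem_append_right _ (List.getElem_mem hi')))
  · intro s i hi
    exact Nat.le_of_ble_eq_true (h9 _ (hD s i hi))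
  · intro s s' i hi j hj he
    by_cases hss : s = s'
    · subst hss
      exact ⟨rfl, hij s i hi j hj he⟩
    · exfalso
      have e0 := hm 0
      have e1 := hm 1
      have e2 := hm 2
      fin_cases s <;> fin_cases s'
      · exact hss rfl
      · exact hd0 _ (e0 i hi) _ (List.mem_append_left _ (e1 j hj)) he
      · exact hd0 _ (e0 i hi) _ (List.mem_append_right _ (e2 j hj)) he
      · exact hd0 _ (e0 j hj) _ (List.mem_append_left _ (e1 i hi)) he.symm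
      · exact hss rfl
      · exact hd1 _ (e1 i hi) _ (e2 j hj) he
      · exact hd0 _ (e0 j hj) _ (List.mem_append_right _ (e2 i hi)) he.symm
      · exact hd1 _ (e1 j hj) _ (e2 i hi) he.symm
      · exact hss rfl

end Pool.Agent.Helper40.GP
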