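import Mathlib

set_option autoImplicit false

namespace Pool.Agent.Helper40.TF

/-- A two-fold morphism (TF-morphism) of a graph. -/
def IsTF {V : Type*} (Γ : SimpleGraph V) (α β : Equiv.Perm V) : Prop :=
  ∀ u v, Γ.Adj u v ↔ Γ.Adj (α u) (β v)

/-- The direct (tensor) product of a graph with `K₂`; the vertices of `K₂` are `true`, `false`. -/
def doubleCover {V : Type*} (Γ : SimpleGraph V) : SimpleGraph (V × Bool) where
  Adj x y := Γ.Adj x.1 y.1 ∧ x.2 ≠ y.2
  symm := ⟨fun _ _ h => ⟨h.1.symm, h.2.symm⟩⟩
  loopless := ⟨fun _ h => h.2 rfl⟩

/-- `Γ` is stable: the automorphism group of `Γ × K₂` is isomorphic to `Aut Γ × ℤ₂`. -/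
def Stable {V : Type*} (Γ : SimpleGraph V) : Prop :=
  Nonempty ((doubleCover Γ ≃g doubleCover Γ) ≃* (Γ ≃g Γ) × Multiplicative (ZMod 2))

/-- `Γ` is nontrivially unstable: unstable, connected, non-bipartite, and distinct vertices have
distinct neighbourhoods. -/
def NontriviallyUnstable {V : Type*} (Γ : SimpleGraph V) : Prop :=
  ¬ Stable Γ ∧ Γ.Connected ∧ ¬ Γ.Colorable 2 ∧
    ∀ u v, Γ.neighborSet u = Γ.neighborSet v → u = v

variable {V : Type*} {Γ : SimpleGraph V}

theorem IsTF.swap {α β : Equiv.Perm V} (h : IsTF Γ α β) : IsTF Γ β α := by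
  intro u v
  rw [Γ.adj_comm u v, h v u, Γ.adj_comm]

theorem IsTF.mul {α β α' β' : Equiv.Perm V} (h : IsTF Γ α β) (h' : IsTF Γ α' β') :
    IsTF Γ (α * α') (β * β') := by
  intro u v
  rw [h' u v, h]; rfl

theorem IsTF.inv {α β : Equiv.Perm V} (h : IsTF Γ α β) : IsTF Γ α⁻¹ β⁻¹ := by
  intro u v
  rw [h (α⁻¹ u) (β⁻¹ v)]; simp

/-- the automorphism of the double cover induced by an automorphism and a layer shift -/
def lift (p : (Γ ≃g Γ) × Multiplicative (ZMod 2)) : doubleCover Γ ≃g doubleCover Γ where
  toFun x := (p.1 x.1, xor x.2 (decide (p.2 ≠ 1)))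
  invFun x := (p.1.symm x.1, xor x.2 (decide (p.2 ≠ 1)))
  left_inv := by intro x; ext <;> simp
  right_inv := by intro x; ext <;> simp
  map_rel_iff' := by
    intro x y
    simp only [doubleCover, Equiv.coe_fn_mk]
    rw [p.1.map_adj_iff]
    constructor
    · rintro ⟨h1, h2⟩; exact ⟨h1, fun h => h2 (by rw [h])⟩
    · rintro ⟨h1, h2⟩
      refine ⟨h1, fun h => h2 ?_⟩
      simpa using h

theorem lift_apply (p : (Γ ≃g Γ) × Multiplicative (ZMod 2)) (x : V × Bool) :
    lift p x = (p.1 x.1, xor x.2 (decide (p.2 ≠ 1))) := rfl

theorem lift_mul (p q : (Γ ≃g Γ) × Multiplicative (ZMod 2)) :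
    lift (p * q) = lift p * lift q := by
  ext x
  · rfl
  · have key : ∀ a b : Multiplicative (ZMod 2), ∀ c : Bool,
        xor c (decide (a * b ≠ 1)) = xor (xor c (decide (b ≠ 1))) (decide (a ≠ 1)) := by decide
    exact key p.2 q.2 x.2

/-- The graph `Γ` is stable if all its TF-morphisms are trivial
(for connected non-bipartite `Γ`). -/
theorem stable_of_trivial (hc : Γ.Connected) (hb : ¬ Γ.Colorable 2)
    (htriv : ∀ α β : Equiv.Perm V, IsTF Γ α β → α = β) : Stable Γ := by
  have hne : Nonempty V := hc.nonempty
  have hinj : Function.Injective (lift (Γ := Γ)) := by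
    intro p q h
    have h' : ∀ x, lift p x = lift q x := fun x => by rw [h]
    obtain ⟨v⟩ := hne
    have h1 : p.1 = q.1 := by
      ext x
      have := h' (x, false)
      rw [lift_apply, lift_apply] at this
      exact (Prod.ext_iff.1 this).1
    have h2 : p.2 = q.2 := by
      have := h' (v, false)
      rw [lift_apply, lift_apply] at this
      have h3 := (Prod.ext_iff.1 this).2
      have key : ∀ a b : Multiplicative (ZMod 2),
        xor false (decide (a ≠ 1)) = xor false (decide (b ≠ 1)) → a = b := by decide
      exact key _ _ h3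
    exact Prod.ext h1 h2
  have hsurj : Function.Surjective (lift (Γ := Γ)) := by
    intro F
    set s : V → Bool → Bool := fun u a => xor (F (u, a)).2 a with hs
    have hadj : ∀ u v, Γ.Adj u v → ∀ a, s u a = s v (!a) := by
      intro u v huv a
      have h1 : (doubleCover Γ).Adj (u, a) (v, !a) := ⟨huv, by simp⟩
      have h2 := (F.map_adj_iff.2 h1).2
      simp only [hs]
      have key : ∀ x y a : Bool, x ≠ y → xor x a = xor y (!a) := by decide
      exact key _ _ _ h2
    have hg : ∀ u v, xor (s u false) (s u true) = xor (s v false) (s v true) := by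
      intro u v
      obtain ⟨w⟩ := hc.preconnected u v
      induction w with
      | nil => rfl
      | cons h _ ih =>
        rw [← ih, hadj _ _ h false, hadj _ _ h true]
        simp [Bool.xor_comm]
    by_cases hgu : ∃ u, xor (s u false) (s u true) = true
    · obtain ⟨u, hu⟩ := hgu
      exfalso
      apply hb
      refine ⟨⟨fun v => if s v false then (0 : Fin 2) else 1, ?_⟩⟩
      intro v w hvw
      have h1 := hadj v w hvw false
      have h2 := hg u w
      rw [hu] at h2
      simp only [Bool.not_false] at h1
      rw [SimpleGraph.top_adj]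
      intro h3
      revert h3
      rw [h1]
      revert h2
      generalize s w false = x
      generalize s w true = y
      revert x y; decide
    · push Not at hgu
      have hg0 : ∀ u, s u false = s u true := by
        intro u
        have := hgu u
        revert this
        generalize s u false = x
        generalize s u true = y
        revert x y; decide
      obtain ⟨v0⟩ := hne
      have hconst : ∀ u a, s u a = s v0 false := by
        intro u
        obtain ⟨w⟩ := hc.preconnected u v0
        have : s u false = s v0 false := by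
          induction w with
          | nil => rfl
          | cons h _ ih =>
            rw [← ih, hadj _ _ h false, Bool.not_false, ← hg0]
        intro a
        cases a
        · exact this
        · rw [← hg0]; exact this
      set c := s v0 false with hcdef
      have hF2 : ∀ u a, (F (u, a)).2 = xor a c := by
        intro u a
        have := hconst u a
        rw [← this]
        simp only [hs]
        have key : ∀ x a : Bool, x = xor a (xor x a) := by decide
        exact key _ _
      have hFs2 : ∀ u a, (F.symm (u, a)).2 = xor a c := by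
        intro u a
        have h1 := hF2 (F.symm (u, a)).1 (F.symm (u, a)).2
        rw [Prod.mk.eta] at h1
        have h2 : F (F.symm (u, a)) = (u, a) := F.apply_symm_apply _
        rw [h2] at h1
        simp only at h1
        have key : ∀ x a c : Bool, a = xor x c → x = xor a c := by decide
        exact key _ _ _ h1
      let φ : Bool → Equiv.Perm V := fun a =>
        { toFun := fun u => (F (u, a)).1
          invFun := fun u => (F.symm (u, xor a c)).1
          left_inv := by
            intro u
            have h1 : F (u, a) = ((F (u, a)).1, xor a c) := Prod.ext rfl (hF2 u a)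
            show (F.symm ((F (u, a)).1, xor a c)).1 = u
            rw [← h1, F.symm_apply_apply]
          right_inv := by
            intro u
            have h1 : F.symm (u, xor a c) = ((F.symm (u, xor a c)).1, a) :=
              Prod.ext rfl (by rw [hFs2]; simp)
            show (F ((F.symm (u, xor a c)).1, a)).1 = u
            rw [← h1, F.apply_symm_apply] }
      have hφ : ∀ a u, F (u, a) = (φ a u, xor a c) := fun a u => Prod.ext rfl (hF2 u a)
      have hTF : IsTF Γ (φ false) (φ true) := by
        intro u v
        have h1 : Γ.Adj u v ↔ (doubleCover Γ).Adj (u, false) (v, true) :=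
          ⟨fun h => ⟨h, by simp⟩, fun h => h.1⟩
        rw [h1, ← F.map_adj_iff, hφ, hφ]
        exact ⟨fun h => h.1, fun h => ⟨h, by simp⟩⟩
      have heq := htriv _ _ hTF
      rw [heq] at hTF
      refine ⟨(⟨φ true, (hTF _ _).symm⟩, if c then Multiplicative.ofAdd 1 else 1), ?_⟩
      ext x : 1
      rw [lift_apply]
      obtain ⟨x, a⟩ := x
      rw [hφ]
      refine Prod.ext ?_ ?_
      · cases a
        · simp only [heq]; rfl
        · rfl
      · simp only
        have key : ∀ a c : Bool, xor a (decide ((if c = true then
          Multiplicative.ofAdd (1 : ZMod 2) else 1) ≠ 1)) = xor a c := by decide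
        exact key _ _
  exact ⟨(MulEquiv.ofBijective (MonoidHom.mk' lift lift_mul) ⟨hinj, hsurj⟩).symm⟩

end Pool.Agent.Helper40.TF
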